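import Pool.Agent.Lib.MP_9a2ae6_ag.Growth
import Pool.Agent.Lib.MP_e06174_ag.Forms

/-! Dual derivations, derivations preserving valuation rings, places from order functions. -/

set_option linter.unusedSectionVars false

namespace Pool.Agent.Lib.GD

open Pool.Agent.Lib.MP_9a2ae6_ag Pool.Agent.Lib.MP_e06174_ag Place

section dual

open scoped TensorProduct
open KaehlerDifferential Module

variable {L : Type} [Field L] [Algebra ℂ L] {n : ℕ}

theorem exists_basis_D {x : Fin n → L} (hx : IsTranscendenceBasis ℂ x) :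
    ∃ b : Basis (Fin n) L Ω[L⁄ℂ], ∀ i, b i = D ℂ L (x i) := by
  let A := MvPolynomial (Fin n) ℂ
  let : Algebra A L := (MvPolynomial.aeval x : A →ₐ[ℂ] L).toRingHom.toAlgebra
  have hA : ∀ a : A, algebraMap A L a = MvPolynomial.aeval x a := fun _ => rfl
  have : IsScalarTower ℂ A L := IsScalarTower.of_algebraMap_eq fun c => by
    rw [hA, AlgHom.commutes]
  have hinj : Function.Injective (algebraMap A L) := hx.1
  have : FaithfulSMul A L := (faithfulSMul_iff_algebraMap_injective A L).2 hinj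
  let : Algebra (FractionRing A) L := FractionRing.liftAlgebra A L
  have : Algebra.IsAlgebraic A L := by
    have h1 := hx.isAlgebraic
    exact Algebra.IsAlgebraic.of_ringHom_of_comp_eq
      (hx.1.aevalEquiv : A →+* Algebra.adjoin ℂ (Set.range x)) (RingHom.id L)
      hx.1.aevalEquiv.surjective Function.injective_id
      (RingHom.ext fun a => hx.1.algebraMap_aevalEquiv a)
  have : Algebra.IsAlgebraic (FractionRing A) L :=
    IsFractionRing.comap_isAlgebraic_iff.1 this
  have : CharZero (FractionRing A) := algebraRat.charZero _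
  have : Algebra.FormallyEtale A (FractionRing A) :=
    Algebra.FormallyEtale.of_isLocalization (nonZeroDivisors A)
  have : Algebra.FormallyEtale (FractionRing A) L := Algebra.FormallyEtale.of_isSeparable _ _
  have : Algebra.FormallyEtale A L := Algebra.FormallyEtale.comp A (FractionRing A) L
  refine ⟨((mvPolynomialBasis ℂ (Fin n)).baseChange L).map
    (tensorKaehlerEquivOfFormallyEtale ℂ A L), fun b => ?_⟩
  rw [Module.Basis.map_apply, Module.Basis.baseChange_apply, mvPolynomialBasis_apply,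
    tensorKaehlerEquivOfFormallyEtale_apply, mapBaseChange_tmul, one_smul, map_D, hA,
    MvPolynomial.aeval_X]

/-- The derivations dual to a transcendence basis. -/
structure Dual (x : Fin n → L) (d : Fin n → Derivation ℂ L L) : Prop where
  dual : ∀ i j, d i (x j) = if i = j then 1 else 0
  chain : ∀ {K : Type} [Field K] [Algebra ℂ K] (φ : L →ₐ[ℂ] K) (θ : Derivation ℂ K K) (f : L),
    θ (φ f) = ∑ i, φ (d i f) * θ (φ (x i))
  wedge : ∀ f : Fin n → L, ExteriorAlgebra.ιMulti L n (fun b => D ℂ L (f b)) =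
    (Matrix.of fun a b => d a (f b)).det • ExteriorAlgebra.ιMulti L n fun b => D ℂ L (x b)

theorem exists_dual {x : Fin n → L} (hx : IsTranscendenceBasis ℂ x) : ∃ d, Dual x d := by
  obtain ⟨b, hb⟩ := exists_basis_D hx
  refine ⟨fun i => (b.coord i).compDer (D ℂ L), fun i j => ?_, fun {K} _ _ φ θ f => ?_,
    fun f => ?_⟩
  · change b.coord i (D ℂ L (x j)) = _
    rw [← hb]
    simp [Finsupp.single_apply, eq_comm]
  · let : Algebra L K := φ.toRingHom.toAlgebra
    have : IsScalarTower ℂ L K := .of_algebraMap_eq fun c => (φ.commutes c).symm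
    have h1 := congrArg (θ.compAlgebraMap L).liftKaehlerDifferential (b.sum_repr (D ℂ L f))
    simp only [map_sum, map_smul, hb, Derivation.liftKaehlerDifferential_comp_D] at h1
    exact h1.symm
  · have h1 : ExteriorAlgebra.ιMulti L n (M := Ω[L⁄ℂ]) =
        b.det.smulRight (ExteriorAlgebra.ιMulti L n b) := by
      refine Basis.ext_alternating b fun i h => ?_
      let σ : Equiv.Perm (Fin n) := Equiv.ofBijective i (Finite.injective_iff_bijective.1 h)
      change ExteriorAlgebra.ιMulti L n (b ∘ σ) =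
        b.det.smulRight (ExteriorAlgebra.ιMulti L n b) (b ∘ σ)
      rw [AlternatingMap.map_perm, AlternatingMap.map_perm]
      simp [Basis.det_self]
    conv_lhs => rw [h1]
    rw [AlternatingMap.smulRight_apply, Basis.det_apply, show (b : Fin n → _) = _ from funext hb]
    rfl

theorem Dual.pluri {x : Fin n → L} {d : Fin n → Derivation ℂ L L} (h : Dual x d) {m : ℕ}
    (f : Fin m → Fin n → L) :
    pluri ℂ L n m f = form x m (∏ a, (Matrix.of fun i b => d i (f a b)).det) := by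
  rw [MP_9a2ae6_ag.pluri, form, ← MultilinearMap.map_smul_univ]
  exact congrArg _ (funext fun a => h.wedge (f a))

theorem form_injective {x : Fin n → L} (hx : IsTranscendenceBasis ℂ x) (m : ℕ) :
    Function.Injective (form x m) := fun a b hab => by
  by_contra h
  refine form_ne_zero hx m (sub_ne_zero.2 h) ?_
  rw [form, sub_smul]
  exact sub_eq_zero.2 hab

/-- The coefficient of a section along a place. -/
theorem Dual.coeff {x : Fin n → L} {d : Fin n → Derivation ℂ L L} (h : Dual x d) {m : ℕ}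
    {W : Finset L} {ω} (hω : ω ∈ sections ℂ L n m W) (O : ValuationSubring L)
    (h1 : IsDiscreteValuationRing O) (h2 : ∀ c : ℂ, algebraMap ℂ L c ∈ O)
    (T : Submodule O.toSubring L)
    (hT : ∀ a ∈ W, ∀ f : Fin m → Fin n → L, (∀ a b, f a b ∈ O) →
      a * ∏ a, (Matrix.of fun i b => d i (f a b)).det ∈ T) :
    ∃ Ψ ∈ T, ω = form x m Ψ := by
  have h3 := hω O h1 h2
  clear hω
  induction h3 using Submodule.span_induction with
  | mem ω hω =>
    obtain ⟨a, ha, f, hf, rfl⟩ := hω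
    exact ⟨_, hT a ha f hf, by rw [h.pluri, form, form, smul_smul]⟩
  | zero => exact ⟨0, zero_mem _, by simp [form]⟩
  | add a b _ _ ha hb =>
    obtain ⟨a, ha, rfl⟩ := ha
    obtain ⟨b, hb, rfl⟩ := hb
    exact ⟨a + b, add_mem ha hb, by simp [form, add_smul]⟩
  | smul c a _ ha =>
    obtain ⟨a, ha, rfl⟩ := ha
    exact ⟨c • a, T.smul_mem c ha, by rw [form, form, smul_assoc]⟩

end dual

section pres

open Polynomial IntermediateField Module

variable {k K : Type*} [Field k] [Field K] [Algebra k K]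

/-- Regular elements whose derivative has order at least `s`. -/
def Pres (w : Place k K) (θ : Derivation k K K) (s : ℤ) : Subring K where
  carrier := {a | w.Ge 0 a ∧ w.Ge s (θ a)}
  one_mem' := ⟨ge_one, by simp⟩
  zero_mem' := ⟨by simp, by simp⟩
  add_mem' := fun ha hb => ⟨ha.1.add hb.1, by rw [map_add]; exact ha.2.add hb.2⟩
  neg_mem' := fun ha => ⟨ha.1.neg, by rw [map_neg]; exact ha.2.neg⟩
  mul_mem' := fun ha hb => ⟨ha.1.mul' hb.1 (by simp), by
    rw [Derivation.leibniz, smul_eq_mul, smul_eq_mul]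
    exact (ha.1.mul' hb.2 (by simp)).add (hb.1.mul' ha.2 (by simp))⟩

variable {w : Place k K} {θ : Derivation k K K} {s : ℤ}

theorem mem_pres {a : K} : a ∈ Pres w θ s ↔ w.Ge 0 a ∧ w.Ge s (θ a) := Iff.rfl

theorem inv_mem_pres {b : K} (hb : b ∈ Pres w θ s) (h0 : w.ord b = 0) : b⁻¹ ∈ Pres w θ s := by
  have h1 : w.Ge 0 b⁻¹ := ge_of_le (by simp [h0])
  refine ⟨h1, ?_⟩
  rw [Derivation.leibniz_inv, smul_eq_mul]
  exact (h1.pow 2).neg.mul' hb.2 (by simp)

theorem mem_pres_of_mul {f d : K} (hd : d ∈ Pres w θ s) (hd0 : d ≠ 0) (h0 : w.ord d = 0)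
    (h : f * d ∈ Pres w θ s) : f ∈ Pres w θ s := by
  have := mul_mem h (inv_mem_pres hd h0)
  rwa [mul_inv_cancel_right₀ hd0] at this

theorem aeval_mem {M : Type*} [CommRing M] [Algebra M K] {R : Subring K}
    (hM : ∀ μ : M, algebraMap M K μ ∈ R) {y : K} (hy : y ∈ R) (P : M[X]) : aeval y P ∈ R := by
  rw [aeval_eq_sum_range]
  exact sum_mem fun i _ => by
    rw [Algebra.smul_def]
    exact mul_mem (hM _) (pow_mem hy _)

theorem mem_pres_of_adjoin {M : Type*} [Field M] [Algebra M K]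
    (hM : ∀ μ : M, algebraMap M K μ ∈ Pres w θ s) {y : K} (hy : y ∈ Pres w θ s) {z : K}
    (hz : z ∈ M⟮y⟯) (h0 : w.Ge 0 z) : z ∈ Pres w θ s := by
  classical
  obtain ⟨P, Q, hQ, rfl⟩ := exists_div_of_mem hz
  by_cases hQ' : aeval y Q = 0
  · rw [hQ', div_zero]; exact zero_mem _
  obtain ⟨a, b, hab⟩ := isCoprime_div_gcd_div_gcd (p := P) hQ
  set P' := P / gcd P Q
  set Q' := Q / gcd P Q
  have hg : gcd P Q ≠ 0 := gcd_ne_zero_of_right hQ
  have h1 : P = gcd P Q * P' := (EuclideanDomain.mul_div_cancel' hg (gcd_dvd_left _ _)).symm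
  have h2 : Q = gcd P Q * Q' := (EuclideanDomain.mul_div_cancel' hg (gcd_dvd_right _ _)).symm
  have h3 : aeval y (gcd P Q) ≠ 0 ∧ aeval y Q' ≠ 0 := by
    rwa [h2, map_mul, mul_eq_zero, not_or] at hQ'
  have h4 : aeval y P / aeval y Q * aeval y Q' = aeval y P' := by
    rw [congrArg (aeval y) h1, congrArg (aeval y) h2, map_mul, map_mul,
      mul_div_mul_left _ _ h3.1, div_mul_cancel₀ _ h3.2]
  refine mem_pres_of_mul (aeval_mem hM hy Q') h3.2 ?_ (h4 ▸ aeval_mem hM hy P')
  by_contra h5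
  have h6 : w.Ge 1 (aeval y Q') := by
    have := (aeval_mem hM hy Q').1.le h3.2
    exact ge_of_le (by omega)
  have h7 : w.Ge 1 (aeval y P') := h4 ▸ h0.mul' h6 (by simp)
  have h8 := ((aeval_mem hM hy a).1.mul' h7 (l := 1) (by simp)).add
    ((aeval_mem hM hy b).1.mul' h6 (by simp))
  rw [← map_mul, ← map_mul, ← map_add, hab, map_one] at h8
  simpa using h8.le one_ne_zero

variable {B : Type*} [Field B] [Algebra k B] [Algebra B K] [IsScalarTower k B K]
  [FiniteDimensional B K] [Algebra.IsSeparable B K] {v : Place k B} {e : ℕ}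

theorem exists_den (h : w.Over (IsScalarTower.toAlgHom k B K) v e) {f : K} (hf : w.Ge 0 f) :
    ∃ d : K, d ≠ 0 ∧ w.ord d = 0 ∧ IsIntegral v.O d ∧ IsIntegral v.O (f * d) := by
  obtain ⟨P, rfl, -⟩ := Over.exists_prime h
  obtain ⟨a, d, hnd⟩ := IsDedekindDomain.HeightOneSpectrum.exists_primeCompl_mul_eq_of_integer P f
    (ge_zero_iff.1 hf)
  have hd : ¬ (ofPrime (const_mem_S K v) P).Ge 1 (d.1 : K) := fun h =>
    d.2 ((ofPrime_ge_one_iff (const_mem_S K v) P d.1).1 h)
  rw [not_ge_iff] at hd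
  have := (ofPrime_ge_zero (const_mem_S K v) P d.1).le hd.1
  change 0 ≤ (ofPrime (const_mem_S K v) P).ord (d.1 : K) at this
  change f * (d.1 : K) = (a : K) at hnd
  exact ⟨d.1, hd.1, by omega, d.1.2, hnd ▸ a.2⟩

/-- Continuity of derivations passes to finite extensions. -/
theorem exists_bound (h : w.Over (IsScalarTower.toAlgHom k B K) v e)
    (hO : ∀ a : B, v.Ge 0 a → w.Ge s (θ (algebraMap B K a))) :
    ∃ s' : ℤ, ∀ f, w.Ge 0 f → w.Ge s' (θ f) := by
  classical
  obtain ⟨T, hT⟩ := Module.finite_def.1 (inferInstance : Module.Finite v.O (S K v))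
  obtain ⟨m, -, hm⟩ := exists_big (insert s (T.image fun a : S K v => w.ord (θ a))) (fun _ => 1)
    id (fun _ _ => one_pos) 0
  have hint : ∀ a : K, IsIntegral v.O a → w.Ge 0 a := fun a ha =>
    ge_zero_of_isIntegral (R := v.O) w (fun a => (h.ge_zero_iff a).2 (mem_O.1 a.2)) ha
  have h1 : ∀ a : S K v, (a : K) ∈ Pres w θ (-m) := fun a => by
    have ha : a ∈ Submodule.span v.O (T : Set (S K v)) := hT ▸ Submodule.mem_top
    induction ha using Submodule.span_induction with
    | mem a ha =>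
      refine ⟨hint _ a.2, ge_of_le ?_⟩
      have := hm _ (Finset.mem_insert_of_mem (Finset.mem_image_of_mem _ ha))
      simp only [id] at this
      omega
    | zero => exact zero_mem _
    | add a b _ _ ha hb => exact add_mem ha hb
    | smul c a _ ha =>
      have h2 : ((c • a : S K v) : K) = algebraMap B K c * a := Algebra.smul_def c (a : K)
      rw [h2]
      refine mul_mem ⟨(h.ge_zero_iff c).2 (mem_O.1 c.2), (hO c (mem_O.1 c.2)).mono ?_⟩ ha
      have := hm s (Finset.mem_insert_self _ _)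
      simp only [id] at this
      omega
  refine ⟨-m, fun f hf => ?_⟩
  obtain ⟨d, hd0, hd, h2, h3⟩ := exists_den h hf
  exact (mem_pres_of_mul (h1 ⟨d, h2⟩) hd0 hd (h1 ⟨_, h3⟩)).2

/-- The unramified case. -/
theorem mem_pres_of_unram (h : w.Over (IsScalarTower.toAlgHom k B K) v e)
    (hO : ∀ a : B, v.Ge 0 a → w.Ge s (θ (algebraMap B K a))) {ϑ : K} (hϑ : ϑ ∈ Pres w θ s)
    (hgen : Algebra.adjoin B {ϑ} = ⊤) (g : v.O[X]) (hg : g.Monic) (hg0 : aeval ϑ g = 0)
    (hg1 : aeval ϑ (derivative g) ≠ 0) (hg2 : w.ord (aeval ϑ (derivative g)) = 0) {f : K}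
    (hf : w.Ge 0 f) : f ∈ Pres w θ s := by
  have hO' : ∀ a : v.O, algebraMap v.O K a ∈ Pres w θ s := fun a =>
    ⟨(h.ge_zero_iff a).2 (mem_O.1 a.2), hO a (mem_O.1 a.2)⟩
  have hint : IsIntegral v.O ϑ := ⟨g, hg, hg0⟩
  obtain ⟨r, hr⟩ := minpoly.isIntegrallyClosed_dvd hint hg0
  have h1 : aeval ϑ (derivative (minpoly B ϑ)) = aeval ϑ (derivative (minpoly v.O ϑ)) := by
    rw [minpoly.isIntegrallyClosed_eq_field_fractions' B hint, derivative_map, aeval_map_algebraMap]
  have h2 : aeval ϑ (derivative g) = aeval ϑ (derivative (minpoly B ϑ)) * aeval ϑ r := by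
    rw [hr, derivative_mul, map_add, map_mul, map_mul, minpoly.aeval, zero_mul, add_zero, h1]
  have h3 : ∀ a : K, IsIntegral v.O a → a ∈ Pres w θ s := fun a ha => by
    have h3 : a ∈ (Algebra.traceForm B K).dualSubmodule
        (Subalgebra.toSubmodule (Algebra.adjoin v.O {ϑ})) := fun y hy => by
      have h4 : IsIntegral v.O y := adjoin_le_integralClosure hint hy
      have h5 := Algebra.isIntegral_trace (L := B) (ha.mul h4)
      obtain ⟨c, hc⟩ := IsIntegrallyClosed.isIntegral_iff.1 h5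
      exact Submodule.mem_one.2 ⟨c, hc⟩
    rw [traceForm_dualSubmodule_adjoin v.O B hgen hint] at h3
    obtain ⟨y, hy, rfl⟩ := h3
    obtain ⟨P, rfl⟩ : ∃ P : v.O[X], aeval ϑ P = y := by
      have hy' : y ∈ Algebra.adjoin v.O {ϑ} := hy
      rwa [Algebra.adjoin_singleton_eq_range_aeval] at hy'
    refine mem_pres_of_mul (aeval_mem hO' hϑ _) hg1 hg2 ?_
    have h4 := left_ne_zero_of_mul (h2 ▸ hg1)
    have h5 := mul_mem (aeval_mem hO' hϑ P) (aeval_mem hO' hϑ r)
    convert h5 using 1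
    rw [h2]
    change (_ : K)⁻¹ * _ * _ = _
    field_simp
  obtain ⟨d, hd0, hd, h4, h5⟩ := exists_den h hf
  exact mem_pres_of_mul (h3 _ h4) hd0 hd (h3 _ h5)

theorem mem_pres_of_unram' (h : w.Over (IsScalarTower.toAlgHom k B K) v e)
    (hO : ∀ a : B, v.Ge 0 a → w.Ge s (θ (algebraMap B K a))) {ϑ : K} (hϑ : ϑ ∈ Pres w θ s)
    (hgen : Algebra.adjoin B {ϑ} = ⊤) (g : B[X]) (hg : g.Monic)
    (hc : ∀ i, w.Ge 0 (algebraMap B K (g.coeff i))) (hg0 : aeval ϑ g = 0)
    (hg1 : aeval ϑ (derivative g) ≠ 0) (hg2 : w.ord (aeval ϑ (derivative g)) = 0) {f : K}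
    (hf : w.Ge 0 f) : f ∈ Pres w θ s := by
  obtain ⟨q, rfl, -, hq⟩ := lifts_and_degree_eq_and_monic (f := algebraMap v.O B)
    ((lifts_iff_coeff_lifts g).2 fun i => ⟨⟨_, mem_O.2 ((h.ge_zero_iff _).1 (hc i))⟩, rfl⟩) hg
  rw [derivative_map, aeval_map_algebraMap] at hg1 hg2
  rw [aeval_map_algebraMap] at hg0
  exact mem_pres_of_unram h hO hϑ hgen q hq hg0 hg1 hg2 hf

end pres

section place

open IntermediateField Module MvPolynomial

theorem exists_place {k R B : Type*} [Field k] [CommRing R] [IsDomain R] [Field B] [Algebra k R]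
    [Algebra k B] [Algebra R B] [IsScalarTower k R B] [IsFractionRing R B] (μ : R → ℤ)
    (hmul : ∀ a b, a ≠ 0 → b ≠ 0 → μ (a * b) = μ a + μ b)
    (hadd : ∀ a b, a ≠ 0 → b ≠ 0 → a + b ≠ 0 → min (μ a) (μ b) ≤ μ (a + b))
    (hc : ∀ c : k, c ≠ 0 → μ (algebraMap k R c) = 0)
    (hs : ∃ a b, a ≠ 0 ∧ b ≠ 0 ∧ μ a = μ b + 1) :
    ∃ v : Place k B, ∀ a, a ≠ 0 → v.ord (algebraMap R B a) = μ a := by
  have hinj := IsFractionRing.injective R B
  have hne : ∀ {a : R}, a ≠ 0 → algebraMap R B a ≠ 0 := fun ha =>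
    (map_ne_zero_iff _ hinj).2 ha
  choose nu de hde hnd using fun z : B => IsFractionRing.div_surjective (A := R) z
  replace hde : ∀ z, de z ≠ 0 := fun z => nonZeroDivisors.ne_zero (hde z)
  have hnu : ∀ z, z ≠ 0 → nu z ≠ 0 := fun z hz h => hz (by rw [← hnd z, h]; simp)
  have key : ∀ a b : R, a ≠ 0 → b ≠ 0 → ∀ z, z = algebraMap R B a / algebraMap R B b →
      μ (nu z) - μ (de z) = μ a - μ b := fun a b ha hb z hz => by
    have h0 : z ≠ 0 := hz ▸ div_ne_zero (hne ha) (hne hb)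
    have h1 := (hnd z).trans hz
    rw [div_eq_div_iff (hne (hde z)) (hne hb), ← map_mul, ← map_mul] at h1
    have h2 := congrArg μ (hinj h1)
    rw [hmul _ _ (hnu z h0) hb, hmul _ _ ha (hde z)] at h2
    omega
  have h1 : μ 1 = 0 := by simpa using hc 1 one_ne_zero
  refine ⟨ofOrd (fun z => μ (nu z) - μ (de z)) (fun x y hx hy => ?_) (fun x y hx hy hxy => ?_)
    (fun c hc0 => ?_) ?_, fun a ha => ?_⟩
  · rw [key _ _ (mul_ne_zero (hnu x hx) (hnu y hy)) (mul_ne_zero (hde x) (hde y)) (x * y)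
      (by rw [map_mul, map_mul, ← div_mul_div_comm, hnd, hnd]),
      hmul _ _ (hnu x hx) (hnu y hy), hmul _ _ (hde x) (hde y)]
    ring
  · have h2 : x + y = algebraMap R B (nu x * de y + de x * nu y) / algebraMap R B (de x * de y) := by
      rw [map_add, map_mul, map_mul, map_mul, ← div_add_div _ _ (hne (hde x)) (hne (hde y)), hnd,
        hnd]
    have h3 : nu x * de y + de x * nu y ≠ 0 := fun h => hxy (by rw [h2, h]; simp)
    have h4 := hadd _ _ (mul_ne_zero (hnu x hx) (hde y)) (mul_ne_zero (hde x) (hnu y hy)) h3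
    rw [hmul _ _ (hnu x hx) (hde y), hmul _ _ (hde x) (hnu y hy)] at h4
    rw [key _ _ h3 (mul_ne_zero (hde x) (hde y)) _ h2, hmul _ _ (hde x) (hde y)]
    omega
  · have h2 : algebraMap k R c ≠ 0 := fun h => hc0 ((algebraMap k B).injective (by
      rw [IsScalarTower.algebraMap_apply k R B, h, map_zero, map_zero]))
    rw [key _ 1 h2 one_ne_zero _ (by rw [map_one, div_one, ← IsScalarTower.algebraMap_apply]),
      hc c hc0, h1, sub_zero]
  · obtain ⟨a, b, ha, hb, hab⟩ := hs
    exact ⟨_, div_ne_zero (hne ha) (hne hb), by rw [key a b ha hb _ rfl]; omega⟩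
  · rw [ofOrd_ord _ _ _ _ _ (hne ha), key a 1 ha one_ne_zero _ (by simp), h1, sub_zero]

theorem ord_eq_zero_of_alg {k K : Type*} [Field k] [Field K] [Algebra k K] {w : Place k K}
    (E : IntermediateField k K) (hE : ∀ z ∈ E, w.ord z = 0) {z : K} (hz : IsAlgebraic E z) :
    w.ord z = 0 := by
  by_cases h0 : z = 0
  · simp [h0]
  have h1 := (ge_zero_of_isIntegral w (R := E) (fun r => ge_of_le (hE r r.2).ge)
    hz.isIntegral).le h0
  have h2 := (ge_zero_of_isIntegral w (R := E) (fun r => ge_of_le (hE r r.2).ge)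
    hz.inv.isIntegral).le (inv_ne_zero h0)
  rw [ord_inv] at h2
  omega

variable {n : ℕ} {K : Type} [Field K] [Algebra ℂ K] {Y : Fin n → K}

theorem exists_setting (hY : AlgebraicIndependent ℂ Y) :
    ∃ (_ : Algebra (MvPolynomial (Fin n) ℂ) (adjoin ℂ (Set.range Y)))
      (_ : IsScalarTower ℂ (MvPolynomial (Fin n) ℂ) (adjoin ℂ (Set.range Y)))
      (_ : IsFractionRing (MvPolynomial (Fin n) ℂ) (adjoin ℂ (Set.range Y))),
      ∀ a, algebraMap (adjoin ℂ (Set.range Y)) K (algebraMap (MvPolynomial (Fin n) ℂ) _ a) =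
        aeval Y a := by
  let φ := hY.aevalEquivField.toAlgHom.comp (IsScalarTower.toAlgHom ℂ (MvPolynomial (Fin n) ℂ) _)
  let i1 : Algebra (MvPolynomial (Fin n) ℂ) (adjoin ℂ (Set.range Y)) := φ.toRingHom.toAlgebra
  exact ⟨i1, .of_algebraMap_eq fun c => (φ.commutes c).symm,
    (IsLocalization.isLocalization_iff_of_algEquiv _
      (AlgEquiv.ofRingEquiv (f := hY.aevalEquivField.toRingEquiv) fun _ => rfl)).1 inferInstance,
    fun a => hY.aevalEquivField_algebraMap_apply_coe a⟩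

end place

end Pool.Agent.Lib.GD
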