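import Pool.Agent.Lib.GD.Blue

/-! Basic facts on heights and bounded divisors. -/

open Set Filter Pool.Agent.Lib.MP_9a2ae6_ag Pool.Agent.Lib.MP_e06174_ag

set_option linter.unusedSectionVars false
set_option linter.unusedVariables false

noncomputable section

namespace Pool.Agent.Lib.GD

namespace BAS

variable {L : Type} [Field L] [Algebra ℂ L] {n : ℕ} (C : Ctx L n)

theorem y_mem (j : C.ι) : C.y j ∈ C.H := Submodule.subset_span (mem_range_self j)

theorem y_pow (j : C.ι) (e : ℕ) : C.y j ^ e ∈ C.H ^ e := Submodule.pow_mem_pow _ (y_mem C j) e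

variable {C} in
theorem mul_mem {e e' : ℕ} {a b : L} (ha : a ∈ C.H ^ e) (hb : b ∈ C.H ^ e') :
    a * b ∈ C.H ^ (e + e') := by
  rw [pow_add]; exact Submodule.mul_mem_mul ha hb

variable {C} in
theorem pow_mem {e : ℕ} {a : L} (ha : a ∈ C.H ^ e) (t : ℕ) : a ^ t ∈ C.H ^ (t * e) := by
  rw [mul_comm, pow_mul]; exact Submodule.pow_mem_pow _ ha t

theorem hm_le (v : Place ℂ L) (j : C.ι) : C.hm v ≤ v.ord (C.y j) :=
  ciInf_le (Finite.bddBelow_range fun j => v.ord (C.y j)) j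

theorem exists_hm (v : Place ℂ L) : ∃ j, v.ord (C.y j) = C.hm v :=
  exists_eq_ciInf_of_finite (f := fun j => v.ord (C.y j))

theorem fdH (e : ℕ) : FiniteDimensional ℂ ↥(C.H ^ e) :=
  Module.Finite.iff_fg.2 ((Submodule.fg_span (finite_range C.y)).pow e)

theorem ge_H (v : Place ℂ L) {b : L} (hb : b ∈ C.H) : v.Ge (C.hm v) b := by
  induction hb using Submodule.span_induction with
  | mem x hx => obtain ⟨j, rfl⟩ := hx; exact Place.ge_of_le (hm_le C v j)
  | zero => exact Place.ge_zero _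
  | add x y _ _ hx hy => exact hx.add hy
  | smul c x _ hx => exact hx.smul c

theorem ge_hm (v : Place ℂ L) (e : ℕ) (b : L) (hb : b ∈ C.H ^ e) : v.Ge (e * C.hm v) b := by
  induction hb using Submodule.pow_induction_on_left' with
  | algebraMap r => simpa using Place.ge_const (p := v) r
  | add x y i _ _ hx hy => exact hx.add hy
  | mem_mul m hm i x _ hx => exact (ge_H C v hm).mul' hx (by push_cast; linarith)

variable {C} in
theorem z_nonneg (v : Place ℂ L) {e : ℕ} {b : L} (hb : b ∈ C.H ^ e) (h0 : b ≠ 0) :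
    0 ≤ v.ord b - e * C.hm v := sub_nonneg.2 ((ge_hm C v e b hb).le h0)

theorem ht_mono (e e' : ℕ) (u : L) (h : e ≤ e') (hu : Ht C.H e u) : Ht C.H e' u := by
  obtain ⟨k, rfl⟩ := Nat.exists_eq_add_of_le h
  obtain ⟨b, hb, h0, hub⟩ := hu
  refine ⟨b * C.y C.i₀ ^ k, mul_mem hb (y_pow C _ k), mul_ne_zero h0 (pow_ne_zero _ (C.ne _)), ?_⟩
  rw [← mul_assoc]
  exact mul_mem hub (y_pow C _ k)

theorem chart_mem {a : L} (ha : a ∈ chart C.y C.i₀) : ∃ e, a * C.y C.i₀ ^ e ∈ C.H ^ e := by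
  induction ha using Algebra.adjoin_induction with
  | mem x hx =>
    obtain ⟨j, rfl⟩ := hx
    exact ⟨1, by rw [pow_one, pow_one, div_mul_cancel₀ _ (C.ne _)]; exact y_mem C j⟩
  | algebraMap r => exact ⟨0, by simp⟩
  | add x y _ _ hx hy =>
    obtain ⟨e, he⟩ := hx
    obtain ⟨e', he'⟩ := hy
    refine ⟨e + e', ?_⟩
    have : (x + y) * C.y C.i₀ ^ (e + e') =
        x * C.y C.i₀ ^ e * C.y C.i₀ ^ e' + C.y C.i₀ ^ e * (y * C.y C.i₀ ^ e') := by ring
    rw [this]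
    exact add_mem (mul_mem he (y_pow C _ _)) (mul_mem (y_pow C _ _) he')
  | mul x y _ _ hx hy =>
    obtain ⟨e, he⟩ := hx
    obtain ⟨e', he'⟩ := hy
    refine ⟨e + e', ?_⟩
    have : x * y * C.y C.i₀ ^ (e + e') = x * C.y C.i₀ ^ e * (y * C.y C.i₀ ^ e') := by ring
    rw [this]
    exact mul_mem he he'

theorem exists_ht (a : L) : ∃ e, Ht C.H e a := by
  obtain ⟨b, hb, h0, hba⟩ := C.frac C.i₀ a
  obtain ⟨e, he⟩ := chart_mem C hb
  obtain ⟨e', he'⟩ := chart_mem C hba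
  refine ⟨e + e', b * C.y C.i₀ ^ e * C.y C.i₀ ^ e', mul_mem he (y_pow C _ _),
    mul_ne_zero (mul_ne_zero h0 (pow_ne_zero _ (C.ne _))) (pow_ne_zero _ (C.ne _)), ?_⟩
  have : a * (b * C.y C.i₀ ^ e * C.y C.i₀ ^ e') =
      C.y C.i₀ ^ e * (b * a * C.y C.i₀ ^ e') := by ring
  rw [this]
  exact mul_mem (y_pow C _ _) he'

theorem exists_den {s : Set L} (hs : s.Finite) :
    ∃ (c : ℕ) (τ : L), τ ≠ 0 ∧ τ ∈ C.H ^ c ∧ ∀ a ∈ s, τ * a ∈ C.H ^ c := by
  induction s, hs using Set.Finite.induction_on with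
  | empty => exact ⟨0, 1, one_ne_zero, by simp, by simp⟩
  | @insert a s _ _ ih =>
    obtain ⟨c, τ, h0, hτ, h⟩ := ih
    obtain ⟨e, b, hb, hb0, hab⟩ := exists_ht C a
    refine ⟨c + e, τ * b, mul_ne_zero h0 hb0, mul_mem hτ hb, ?_⟩
    rintro x (rfl | hx)
    · rw [mul_assoc, mul_comm b]; exact mul_mem hτ hab
    · rw [mul_right_comm]; exact mul_mem (h x hx) hb

theorem den_span {s : Set L} {c : ℕ} {τ : L} (h : ∀ a ∈ s, τ * a ∈ C.H ^ c) {a : L}
    (ha : a ∈ Submodule.span ℂ s) : τ * a ∈ C.H ^ c := by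
  induction ha using Submodule.span_induction with
  | mem x hx => exact h x hx
  | zero => simp
  | add x y _ _ hx hy => rw [mul_add]; exact add_mem hx hy
  | smul r x _ hx => rw [mul_smul_comm]; exact Submodule.smul_mem _ _ hx

theorem ht_fd (Y : Submodule ℂ L) (hY : FiniteDimensional ℂ Y) :
    ∃ e, ∀ a ∈ Y, ∀ b ∈ Y, Ht C.H e (a / b) := by
  obtain ⟨s, rfl⟩ := Module.Finite.iff_fg.1 hY
  obtain ⟨c, τ, h0, hτ, h⟩ := exists_den C s.finite_toSet
  refine ⟨c, fun a ha b hb => ?_⟩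
  rcases eq_or_ne b 0 with rfl | hb0
  · exact ⟨τ, hτ, h0, by simp⟩
  · refine ⟨τ * b, den_span C h hb, mul_ne_zero h0 hb0, ?_⟩
    have : a / b * (τ * b) = τ * a := by field_simp
    rw [this]
    exact den_span C h ha

theorem ht_ord (hI : St_IZ) (v : Place ℂ L) (hv : Dv n v) :
    ∃ c : ℕ, ∀ (e : ℕ) (u : L), Ht C.H e u → |v.ord u| ≤ c * e := by
  obtain ⟨c, hc⟩ := hI L n C v hv
  refine ⟨c, fun e u ⟨b, hb, h0, hub⟩ => ?_⟩
  rcases eq_or_ne u 0 with rfl | hu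
  · simp only [Place.ord_zero, abs_zero]; positivity
  have h1 := hc e b hb h0
  have h2 := hc e _ hub (mul_ne_zero hu h0)
  have h3 := z_nonneg v hb h0
  have h4 := z_nonneg v hub (mul_ne_zero hu h0)
  rw [v.ord_mul hu h0] at h2 h4
  rw [abs_le]
  constructor <;> linarith

theorem pull (ψ : L →ₐ[ℂ] L) {c : ℕ} {τ : L} (h : ∀ j, τ * ψ (C.y j) ∈ C.H ^ c) {e : ℕ} {z : L}
    (hz : z ∈ C.H ^ e) : τ ^ e * ψ z ∈ C.H ^ (c * e) := by
  have h1 : ∀ a ∈ C.H, τ * ψ a ∈ C.H ^ c := fun a ha => by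
    induction ha using Submodule.span_induction with
    | mem x hx => obtain ⟨j, rfl⟩ := hx; exact h j
    | zero => simp
    | add x y _ _ hx hy => rw [map_add, mul_add]; exact add_mem hx hy
    | smul r x _ hx => rw [map_smul, mul_smul_comm]; exact Submodule.smul_mem _ _ hx
  induction hz using Submodule.pow_induction_on_left' with
  | algebraMap r => simp
  | add x y i _ _ hx hy => rw [map_add, mul_add]; exact add_mem hx hy
  | mem_mul m hm i x _ hx =>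
    have : τ ^ i.succ * ψ (m * x) = τ ^ i * ψ x * (τ * ψ m) := by
      rw [map_mul, pow_succ]; ring
    rw [this, Nat.mul_succ]
    exact mul_mem hx (h1 m hm)

variable {C} (M : Model C)

theorem fin_hm : {E | C.hm (M.pl E) ≠ 0}.Finite := by
  refine (finite_iUnion fun j => M.fin_ord (C.y j)).subset fun E hE => ?_
  obtain ⟨j, hj⟩ := exists_hm C (M.pl E)
  exact mem_iUnion.2 ⟨j, by rw [mem_ofPred_eq, hj]; exact hE⟩

theorem fin_z (z : L) (e : ℕ) : {E | (M.pl E).ord z - e * C.hm (M.pl E) ≠ 0}.Finite := by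
  refine ((M.fin_ord z).union (fin_hm M)).subset fun E hE => ?_
  by_contra h
  simp only [mem_union, mem_ofPred_eq, not_or, not_not] at h
  exact hE (by rw [h.1, h.2]; simp)

theorem fin_fo (m : ℕ) (u : L) : {E | C.fo (M.pl E) m u ≠ 0}.Finite := by
  refine ((M.fin_ord u).union M.fin_kap).subset fun E hE => ?_
  by_contra h
  simp only [mem_union, mem_ofPred_eq, not_or, not_not] at h
  exact hE (by rw [Ctx.fo, h.1, h.2]; simp)

variable {M}

theorem dm_le {D D' : M.P → ℝ} {e : ℕ} (h : ∀ E, D' E ≤ D E) (hD : M.Dm D e) : M.Dm D' e := by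
  obtain ⟨z, hz, h0, hD⟩ := hD
  exact ⟨z, hz, h0, fun E => (h E).trans (hD E)⟩

theorem dm_add {D D' : M.P → ℝ} {e e' : ℕ} (h : M.Dm D e) (h' : M.Dm D' e') :
    M.Dm (D + D') (e + e') := by
  obtain ⟨z, hz, h0, hD⟩ := h
  obtain ⟨z', hz', h0', hD'⟩ := h'
  refine ⟨z * z', mul_mem hz hz', mul_ne_zero h0 h0', fun E => ?_⟩
  have h1 := hD E
  have h2 := hD' E
  rw [(M.pl E).ord_mul h0 h0', Pi.add_apply]
  push_cast at h1 h2 ⊢
  linarith

theorem dm_zero (e : ℕ) : M.Dm 0 e :=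
  ⟨_, y_pow C C.i₀ e, pow_ne_zero _ (C.ne _), fun E => by
    rw [Pi.zero_apply]
    exact_mod_cast z_nonneg (M.pl E) (y_pow C C.i₀ e) (pow_ne_zero _ (C.ne _))⟩

theorem dm_mono {D D' : M.P → ℝ} {e e' : ℕ} (h : D' ≤ D) (he : e ≤ e') (hD : M.Dm D e) :
    M.Dm D' e' := by
  obtain ⟨k, rfl⟩ := Nat.exists_eq_add_of_le he
  exact dm_le (fun E => by simpa using h E) (dm_add hD (dm_zero k))

theorem dm_nsmul {D : M.P → ℝ} {e : ℕ} (t : ℕ) (h : M.Dm D e) : M.Dm (t • D) (t * e) := by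
  obtain ⟨z, hz, h0, hD⟩ := h
  refine ⟨z ^ t, pow_mem hz t, pow_ne_zero _ h0, fun E => ?_⟩
  have h1 := mul_le_mul_of_nonneg_left (hD E) (Nat.cast_nonneg t : (0 : ℝ) ≤ t)
  rw [Place.ord_pow, Pi.smul_apply, nsmul_eq_mul]
  push_cast at h1 ⊢
  linarith

theorem dm_pos {D : M.P → ℝ} {e : ℕ} (h : M.Dm D e) : M.Dm (fun E => max (D E) 0) e := by
  obtain ⟨z, hz, h0, hD⟩ := h
  exact ⟨z, hz, h0, fun E => max_le (hD E) (by exact_mod_cast z_nonneg (M.pl E) hz h0)⟩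

open Classical in
theorem dm_ind (G : M.P → ℕ) (F : Finset M.P) :
    M.Dm (fun E => if E ∈ F then (G E : ℝ) else 0) (∑ E ∈ F, G E * M.dg E) := by
  induction F using Finset.induction_on with
  | empty => exact dm_le (fun E => by simp) (dm_zero _)
  | insert a F ha ih =>
    obtain ⟨z, hz, h0, hz1⟩ := M.dg_ex a
    have h1 : M.Dm (fun E => if E = a then (1 : ℝ) else 0) (M.dg a) := ⟨z, hz, h0, fun E => by
      show (if E = a then (1 : ℝ) else 0) ≤ _
      split_ifs with h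
      · subst h
        exact_mod_cast (by omega : (1 : ℤ) ≤ (M.pl E).ord z - M.dg E * C.hm (M.pl E))
      · exact_mod_cast z_nonneg (M.pl E) hz h0⟩
    rw [Finset.sum_insert ha]
    refine dm_le (fun E => ?_) (dm_add (dm_nsmul (G a) h1) ih)
    by_cases h : E = a
    · subst h; simp [ha]
    · simp [h]

theorem dm_fin (D : M.P → ℝ) (h : {E | 0 < D E}.Finite) : ∃ e, M.Dm D e := by
  classical
  refine ⟨_, dm_le (fun E => ?_) (dm_ind (fun E => ⌈D E⌉₊) h.toFinset)⟩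
  split_ifs with hE
  · exact Nat.le_ceil _
  · simpa using hE

theorem fin_dm {D : M.P → ℝ} {e : ℕ} (h : M.Dm D e) : {E | 0 < D E}.Finite := by
  obtain ⟨z, -, -, hD⟩ := h
  refine (fin_z M z e).subset fun E hE h0 => ?_
  have := hD E
  rw [h0, Int.cast_zero] at this
  exact absurd hE (not_lt.2 this)

variable (M)

theorem ht_of_dm : ∃ i₁ : ℕ, ∀ (u : L) (e : ℕ), u ≠ 0 →
    M.Dm (fun E => -((M.pl E).ord u : ℝ)) e → Ht C.H (e + i₁) u := by
  obtain ⟨i₁, c, hc0, hc, h⟩ := M.con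
  refine ⟨i₁, fun u e hu ⟨z, hz, h0, hD⟩ => ⟨z * c, mul_mem hz hc, mul_ne_zero h0 hc0, ?_⟩⟩
  have : u * (z * c) = c * (u * z) := by ring
  rw [this]
  refine h e _ fun E => Place.ge_of_le ?_
  have h1 : -(M.pl E).ord u ≤ (M.pl E).ord z - e * C.hm (M.pl E) := by
      have := hD E
      beta_reduce at this
      exact_mod_cast this
  rw [(M.pl E).ord_mul hu h0]
  linarith

theorem dm_of_ht (u : L) (e : ℕ) (hu : u ≠ 0) (h : Ht C.H e u) :
    M.Dm (fun E => ((M.pl E).ord u : ℝ)) e ∧ M.Dm (fun E => -((M.pl E).ord u : ℝ)) e := by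
  obtain ⟨b, hb, h0, hub⟩ := h
  refine ⟨⟨_, hub, mul_ne_zero hu h0, fun E => ?_⟩, ⟨b, hb, h0, fun E => ?_⟩⟩
  · have h1 := z_nonneg (M.pl E) hb h0
    rw [(M.pl E).ord_mul hu h0]
    beta_reduce
    exact_mod_cast (by linarith :
      (M.pl E).ord u ≤ (M.pl E).ord u + (M.pl E).ord b - e * C.hm (M.pl E))
  · have h1 := z_nonneg (M.pl E) hub (mul_ne_zero hu h0)
    rw [(M.pl E).ord_mul hu h0] at h1
    beta_reduce
    exact_mod_cast (by linarith : -(M.pl E).ord u ≤ (M.pl E).ord b - e * C.hm (M.pl E))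

theorem dm_div : ∃ c : ℕ, ∀ (G : M.P → ℤ) (N e : ℕ), 0 < N →
    M.Dm (fun E => (N : ℝ) * G E) e → M.Dm (fun E => (G E : ℝ)) (c * e / N) := by
  classical
  obtain ⟨c, hc⟩ := M.dg_sum
  refine ⟨c, fun G N e hN h => ?_⟩
  have hF := fin_dm h
  obtain ⟨z, hz, h0, hD⟩ := h
  have hN' : (0 : ℝ) < N := by exact_mod_cast hN
  refine dm_mono (fun E => ?_) ?_ (dm_ind (fun E => (G E).toNat) hF.toFinset)
  · show (G E : ℝ) ≤ if E ∈ hF.toFinset then _ else _
    split_ifs with hE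
    · exact_mod_cast Int.self_le_toNat (G E)
    · rw [Finite.mem_toFinset, mem_ofPred_eq, not_lt] at hE
      by_contra h1
      exact absurd (mul_pos hN' (not_le.1 h1)) (not_lt.2 hE)
  · rw [Nat.le_div_iff_mul_le hN]
    have h1 := hc e z hz h0 hF.toFinset
    have h2 : ((∑ E ∈ hF.toFinset, (G E).toNat * M.dg E : ℕ) : ℤ) * N ≤ c * e := by
      refine le_trans ?_ h1
      push_cast
      rw [Finset.sum_mul]
      refine Finset.sum_le_sum fun E hE => ?_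
      have h3 : (0 : ℝ) < N * G E := hF.mem_toFinset.1 hE
      have h4 : 0 < G E := by exact_mod_cast (mul_pos_iff_of_pos_left hN').1 h3
      have h5 : (N : ℤ) * G E ≤ (M.pl E).ord z - e * C.hm (M.pl E) := by
        have := hD E
        beta_reduce at this
        exact_mod_cast this
      rw [Int.toNat_of_nonneg h4.le]
      nlinarith [Int.natCast_nonneg (M.dg E)]
    exact_mod_cast h2

theorem dm_card : ∃ c : ℕ, ∀ (D : M.P → ℝ) (e : ℕ), M.Dm D e → ∀ F : Finset M.P,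
    ∑ E ∈ F, D E ≤ c * e := by
  obtain ⟨c, hc⟩ := M.dg_sum
  refine ⟨c, fun D e ⟨z, hz, h0, hD⟩ F => (Finset.sum_le_sum fun E _ => hD E).trans ?_⟩
  have h1 : ∑ E ∈ F, ((M.pl E).ord z - e * C.hm (M.pl E)) ≤ c * e := by
    refine le_trans (Finset.sum_le_sum fun E _ => ?_) (hc e z hz h0 F)
    exact le_mul_of_one_le_right (z_nonneg (M.pl E) hz h0) (by exact_mod_cast M.dg_pos E)
  exact_mod_cast h1

theorem cast_pb (v : Place ℂ L) (G : M.P → ℤ) :
    ((∑ᶠ E, G E * M.mu v E : ℤ) : ℝ) = ∑ᶠ E, (G E : ℝ) * M.mu v E := by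
  have := (Int.castAddHom ℝ).map_finsum_of_preimage_zero (fun x hx => by simpa using hx)
    fun E => G E * M.mu v E
  simpa using this

theorem fin_mul {R : Type} [MulZeroClass R] {D : M.P → R} (h : (Function.support D).Finite)
    (μ : M.P → R) : (Function.support fun E => D E * μ E).Finite :=
  h.subset (Function.support_mul_subset_left _ _)

theorem pb_lin (v : Place ℂ L) {G G' : M.P → ℤ} (h : (Function.support G).Finite)
    (h' : (Function.support G').Finite) (t : ℤ) :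
    ∑ᶠ E, (G E + t * G' E) * M.mu v E = ∑ᶠ E, G E * M.mu v E + t * ∑ᶠ E, G' E * M.mu v E := by
  rw [mul_finsum, ← finsum_add_distrib (fin_mul M h _)
    ((fin_mul M h' _).subset (Function.support_mul_subset_right (fun _ => t) _))]
  exact finsum_congr fun E => by ring

theorem pb_le (v : Place ℂ L) {D : M.P → ℝ} (h : (Function.support D).Finite) {z : L} {e : ℕ}
    (hD : ∀ E, D E ≤ (((M.pl E).ord z - e * C.hm (M.pl E) : ℤ) : ℝ)) :
    ∑ᶠ E, D E * M.mu v E ≤ ((v.ord z - e * C.hm v : ℤ) : ℝ) := by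
  have h1 : v.ord z - e * C.hm v = ∑ᶠ E, ((M.pl E).ord z - e * C.hm (M.pl E)) * M.mu v E := by
    have := pb_lin M v (M.fin_ord z) (fin_hm M) (-(e : ℤ))
    rw [← M.pb_ord, ← M.pb_hm] at this
    simp only [neg_mul, ← sub_eq_add_neg] at this
    exact this.symm
  rw [h1, cast_pb]
  refine finsum_le_finsum' (fin_mul M h _) (fin_mul M ((fin_z M z e).subset fun E hE => ?_) _)
    fun E => mul_le_mul_of_nonneg_right (hD E) (Nat.cast_nonneg _)
  exact fun h0 => hE (by beta_reduce; rw [h0, Int.cast_zero])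

theorem dm_pb (hI : St_IZ) (v : Place ℂ L) (hv : Dv n v) : ∃ c : ℕ, ∀ (D : M.P → ℝ) (e : ℕ),
    (Function.support D).Finite → M.Dm D e → ∑ᶠ E, D E * M.mu v E ≤ c * e := by
  obtain ⟨c, hc⟩ := hI L n C v hv
  refine ⟨c, fun D e h ⟨z, hz, h0, hD⟩ => (pb_le M v h hD).trans ?_⟩
  exact_mod_cast hc e z hz h0

theorem dm_T (ψ : L →ₐ[ℂ] L) : ∃ c : ℕ, ∀ (D D' : M.P → ℝ) (e : ℕ), (Function.support D).Finite →
    M.Dm D e → (∀ E, ∃ (v : Place ℂ L) (r : ℕ), (M.pl E).Over ψ v r ∧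
      D' E ≤ r * ∑ᶠ F, D F * M.mu v F) → M.Dm D' (c * e) := by
  obtain ⟨c, τ, hτ0, -, hτ⟩ := exists_den C (finite_range fun j => ψ (C.y j))
  have hτ' : ∀ j, τ * ψ (C.y j) ∈ C.H ^ c := fun j => hτ _ (mem_range_self j)
  refine ⟨c, fun D D' e h ⟨z, hz, h0, hD⟩ hD' => ?_⟩
  have hψ : ψ z ≠ 0 := by simpa using h0
  refine ⟨τ ^ e * ψ z, pull C ψ hτ' hz, mul_ne_zero (pow_ne_zero _ hτ0) hψ, fun E => ?_⟩
  obtain ⟨v, r, ho, hE⟩ := hD' E
  refine hE.trans ((mul_le_mul_of_nonneg_left (pb_le M v h hD) (Nat.cast_nonneg _)).trans ?_)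
  obtain ⟨j, hj⟩ := exists_hm C v
  have hy : ψ (C.y j) ≠ 0 := by simpa using C.ne j
  have h1 := z_nonneg (M.pl E) (hτ' j) (mul_ne_zero hτ0 hy)
  rw [(M.pl E).ord_mul hτ0 hy, ho.2, hj] at h1
  rw [(M.pl E).ord_mul (pow_ne_zero _ hτ0) hψ, Place.ord_pow, ho.2]
  have h2 : (r : ℤ) * (v.ord z - e * C.hm v) ≤
      e * (M.pl E).ord τ + r * v.ord z - ((c * e : ℕ) : ℤ) * C.hm (M.pl E) := by
    push_cast
    nlinarith [mul_nonneg (Int.natCast_nonneg e) h1]
  exact_mod_cast h2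

theorem sec_fd (D : M.P → ℤ) (h : (Function.support D).Finite) :
    FiniteDimensional ℂ (M.Sec 0 D) := by
  obtain ⟨e, z, hz, h0, hD⟩ := dm_fin (M := M) (fun E => (D E : ℝ))
    (h.subset fun E hE h1 => by simp [h1] at hE)
  obtain ⟨i₁, c, hc0, -, hc⟩ := M.con
  have hm : ∀ u ∈ M.Sec 0 D, LinearMap.mulLeft ℂ (c * z) u ∈ C.H ^ (e + i₁) := fun u hu => by
    rw [LinearMap.mulLeft_apply, mul_assoc]
    refine hc e _ fun E => (Place.ge_ord z).mul' (hu E) ?_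
    have h1 : D E ≤ (M.pl E).ord z - e * C.hm (M.pl E) := by
      have := hD E
      beta_reduce at this
      exact_mod_cast this
    push_cast
    linarith
  haveI := fdH C (e + i₁)
  refine Module.Finite.of_injective ((LinearMap.mulLeft ℂ (c * z)).restrict hm) fun a b hab => ?_
  exact Subtype.ext (mul_left_cancel₀ (mul_ne_zero hc0 h0) (congrArg Subtype.val hab))

theorem sec_T (hV : DVF C) (ψ : L →ₐ[ℂ] L) : ∃ c : ℕ, ∀ (m e : ℕ) (u : L), u ≠ 0 →
    M.Dm (fun E => -(C.fo (M.pl E) m u : ℝ)) e →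
      M.Dm (fun E => -(C.fo (M.pl E) m (C.T ψ m u) : ℝ)) (c * e) := by
  obtain ⟨c, hc⟩ := dm_T M ψ
  refine ⟨c, fun m e u hu h => hc _ _ e
    ((fin_fo M m u).subset fun E hE h0 => hE (by simp [h0])) h fun E => ?_⟩
  obtain ⟨v, r, ho⟩ := hV.under ψ (M.pl E)
  refine ⟨v, r, ho, ?_⟩
  have h1 := hV.fo_T ψ _ v r ho (M.dv E) m u hu
  have h2 := M.pb_kap v ((hV.dv_iff ψ _ v r ho).1 (M.dv E))
  have h3 := pb_lin M v (M.fin_ord u) M.fin_kap m
  rw [← M.pb_ord] at h3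
  have h4 : ∑ᶠ F, -(C.fo (M.pl F) m u : ℝ) * M.mu v F =
      -((∑ᶠ F, C.fo (M.pl F) m u * M.mu v F : ℤ) : ℝ) := by
    rw [cast_pb, ← finsum_neg_distrib]
    exact finsum_congr fun F => by ring
  have h5 : ∑ᶠ F, C.fo (M.pl F) m u * M.mu v F ≤ C.fo v m u := by
    simp only [Ctx.fo]
    rw [h3]
    nlinarith [mul_le_mul_of_nonneg_left h2 (Int.natCast_nonneg m)]
  have hr : (1 : ℤ) ≤ r := by exact_mod_cast ho.1
  have h6 : -C.fo (M.pl E) m (C.T ψ m u) ≤ r * -∑ᶠ F, C.fo (M.pl F) m u * M.mu v F := by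
    nlinarith [mul_le_mul_of_nonneg_left h5 (Int.natCast_nonneg r),
      mul_le_mul_of_nonneg_right hr (Int.natCast_nonneg m)]
  rw [h4]
  exact_mod_cast h6

theorem dm_fo : ∃ c : ℕ, ∀ (m e : ℕ) (u : L), u ≠ 0 →
    M.Dm (fun E => -(C.fo (M.pl E) m u : ℝ)) e →
      M.Dm (fun E => (C.fo (M.pl E) m u : ℝ)) (c * m + e + c) := by
  obtain ⟨k, hk⟩ := dm_fin (M := M) (fun E => (kap C.d (M.pl E) : ℝ))
    (M.fin_kap.subset fun E hE h1 => by simp [h1] at hE)
  obtain ⟨i₁, hi⟩ := ht_of_dm M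
  refine ⟨2 * k + i₁, fun m e u hu h => ?_⟩
  have h1 := hi u _ hu (dm_le (fun E => by simp [Ctx.fo]) (dm_add h (dm_nsmul m hk)))
  refine dm_mono (fun E => by simp [Ctx.fo]) ?_
    (dm_add (dm_of_ht M u _ hu h1).1 (dm_nsmul m hk))
  nlinarith [Nat.zero_le (i₁ * m), Nat.zero_le k]

theorem ht_div : ∃ c : ℕ, ∀ (m e : ℕ) (u u' : L), u ≠ 0 → u' ≠ 0 →
    M.Dm (fun E => -(C.fo (M.pl E) m u : ℝ)) e → M.Dm (fun E => -(C.fo (M.pl E) m u' : ℝ)) e →
      Ht C.H (c * m + 2 * e + c) (u / u') := by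
  obtain ⟨c, hc⟩ := dm_fo M
  obtain ⟨i₁, hi⟩ := ht_of_dm M
  refine ⟨c + i₁, fun m e u u' hu hu' h h' => ht_mono C _ _ _ ?_
    (hi _ _ (div_ne_zero hu hu') (dm_le (fun E => ?_) (dm_add h (hc m e u' hu' h'))))⟩
  · nlinarith [Nat.zero_le (i₁ * m)]
  · rw [(M.pl E).ord_div hu hu']
    simp only [Ctx.fo, Pi.add_apply]
    push_cast
    linarith

end BAS

open BAS in
theorem blockBAS (h1 : St_DV) (h2 : St_IZ) : St_BAS := fun L _ _ n C M =>
  { fdH := fdH C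
    ge_hm := ge_hm C
    fin_hm := fin_hm M
    ht_mono := ht_mono C
    ht_fd := ht_fd C
    ht_ord := ht_ord C h2
    dm_mono := fun _ _ _ _ => dm_mono
    dm_add := fun _ _ _ _ => dm_add
    dm_nsmul := fun _ _ t => dm_nsmul t
    dm_pos := fun _ _ => dm_pos
    dm_fin := dm_fin
    fin_dm := fun _ _ => fin_dm
    ht_of_dm := ht_of_dm M
    dm_of_ht := dm_of_ht M
    dm_div := dm_div M
    dm_card := dm_card M
    dm_pb := dm_pb M h2
    dm_T := dm_T M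
    sec_fd := sec_fd M
    sec_T := sec_T M (h1 L n C)
    ht_div := ht_div M
    dm_fo := dm_fo M
    fin_fo := fin_fo M }

end Pool.Agent.Lib.GD
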