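import Pool.Agent.Lib.GD.Blue

/-! Base change of function fields: independence, lifting, specialisation. -/

open Set TensorProduct

set_option linter.unusedSectionVars false
set_option linter.unusedVariables false
set_option linter.style.haveILetI false

noncomputable section

namespace Pool.Agent.Lib.GD.BCa

section ring

variable {k L K Ω : Type} [Field k] [Field L] [Field K] [CommRing Ω] [Algebra k L] [Algebra k K]
  [Algebra k Ω] [Algebra K Ω] [IsScalarTower k K Ω]

variable (K) in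
/-- Independent families stay independent. -/
def Ind (ι : L →ₐ[k] Ω) : Prop := ∀ s : Set L, LinearIndepOn k id s → LinearIndepOn K ι s

variable {ι : L →ₐ[k] Ω}

theorem Ind.li (h : Ind K ι) {σ : Type} {l : σ → L} (hl : LinearIndependent k l) :
    LinearIndependent K fun i => ι (l i) :=
  LinearIndependent.comp (h (range l) hl.linearIndepOn_id)
    (fun i => (⟨l i, mem_range_self i⟩ : range l))
    fun i j hij => hl.injective (congrArg Subtype.val hij)

theorem span_of_adjoin (A : Subalgebra k L) {w : Ω} (hw : w ∈ Algebra.adjoin K (ι '' A)) :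
    w ∈ Submodule.span K (ι '' A) := by
  have h : (Submonoid.closure (ι '' A) : Set Ω) ⊆ Submodule.span K (ι '' A) := by
    have h1 : Submonoid.closure (ι '' A) ≤ A.toSubmonoid.map (ι : L →* Ω) :=
      Submonoid.closure_le.2 fun _ hx => hx
    exact fun x hx => Submodule.subset_span (h1 hx)
  rw [← Algebra.adjoin_eq_span_of_subset K h]
  exact hw

theorem ind_on {A : Subalgebra k L} {P : Ω → Prop} (h0 : P 0) (ha : ∀ u v, P u → P v → P (u + v))
    (hg : ∀ (c : K), ∀ a ∈ A, P (algebraMap K Ω c * ι a)) {w : Ω}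
    (hw : w ∈ Algebra.adjoin K (ι '' A)) : P w := by
  have h : ∀ w ∈ Submodule.span K (ι '' A), ∀ c : K, P (c • w) := by
    intro w hw
    induction hw using Submodule.span_induction with
    | mem x hx =>
      obtain ⟨a, ha, rfl⟩ := hx
      exact fun c => by rw [Algebra.smul_def]; exact hg c a ha
    | zero => exact fun c => by rw [smul_zero]; exact h0
    | add x y _ _ hx hy => exact fun c => by rw [smul_add]; exact ha _ _ (hx c) (hy c)
    | smul c' x _ hx => exact fun c => by rw [smul_smul]; exact hx _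
  simpa using h w (span_of_adjoin A hw) 1

theorem ind_range {P : Ω → Prop} (h0 : P 0) (ha : ∀ u v, P u → P v → P (u + v))
    (hg : ∀ (c : K) (a : L), P (algebraMap K Ω c * ι a)) {w : Ω}
    (hw : w ∈ Algebra.adjoin K (range ι)) : P w :=
  ind_on (A := ⊤) (ι := ι) h0 ha (fun c a _ => hg c a) (by rwa [Algebra.coe_top, image_univ])

theorem rep {B : Type} (b : Module.Basis B k L) {w : Ω} (hw : w ∈ Algebra.adjoin K (range ι)) :
    ∃ c : B →₀ K, Finsupp.linearCombination K (fun i => ι (b i)) c = w := by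
  rw [← LinearMap.mem_range, Finsupp.range_linearCombination]
  refine ind_range (P := fun w => w ∈ Submodule.span K (range fun i => ι (b i)))
    (zero_mem _) (fun _ _ => add_mem) (fun c a => ?_) hw
  rw [← Algebra.smul_def]
  refine Submodule.smul_mem _ _ ?_
  rw [← b.linearCombination_repr a, Finsupp.linearCombination_apply, Finsupp.sum, map_sum]
  refine sum_mem fun i _ => ?_
  rw [map_smul]
  exact Submodule.smul_of_tower_mem _ _ (Submodule.subset_span ⟨i, rfl⟩)

variable (ι) in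
/-- `Θ` extends the functional `θ`. -/
def Th (θ : L →ₗ[k] k) (Θ : Ω →ₗ[K] K) : Prop := ∀ l, Θ (ι l) = algebraMap k K (θ l)

theorem Ind.exists_th (h : Ind K ι) (θ : L →ₗ[k] k) : ∃ Θ : Ω →ₗ[K] K, Th ι θ Θ := by
  let b := Module.Basis.ofVectorSpace k L
  obtain ⟨g, hg⟩ := (Finsupp.linearCombination K fun i => ι (b i)).exists_leftInverse_of_injective
    (LinearMap.ker_eq_bot.2 (h.li b.linearIndependent))
  refine ⟨(Finsupp.linearCombination K fun i => algebraMap k K (θ (b i))).comp g, fun l => ?_⟩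
  have h1 : (((Finsupp.linearCombination K fun i => algebraMap k K (θ (b i))).comp g).restrictScalars
      k).comp ι.toLinearMap = (Algebra.linearMap k K).comp θ := by
    refine b.ext fun i => ?_
    have h2 := LinearMap.congr_fun hg (Finsupp.single i 1)
    simp only [LinearMap.comp_apply, Finsupp.linearCombination_single, one_smul,
      LinearMap.id_apply] at h2
    simp only [LinearMap.comp_apply, LinearMap.restrictScalars_apply, AlgHom.toLinearMap_apply, h2,
      Finsupp.linearCombination_single, one_smul, Algebra.linearMap_apply]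
  exact LinearMap.congr_fun h1 l

theorem Th.gen {θ : L →ₗ[k] k} {Θ : Ω →ₗ[K] K} (h : Th ι θ Θ) (c : K) (a : L) :
    Θ (algebraMap K Ω c * ι a) = c * algebraMap k K (θ a) := by
  rw [← Algebra.smul_def, map_smul, h, smul_eq_mul]

/-- `θ` is multiplicative on `A`. -/
def Mul (A : Subalgebra k L) (θ : L →ₗ[k] k) : Prop :=
  θ 1 = 1 ∧ ∀ a ∈ A, ∀ a' ∈ A, θ (a * a') = θ a * θ a'

theorem Th.mul {θ : L →ₗ[k] k} {Θ : Ω →ₗ[K] K} (h : Th ι θ Θ) {A : Subalgebra k L} (hA : Mul A θ)
    {w w' : Ω} (hw : w ∈ Algebra.adjoin K (ι '' A)) (hw' : w' ∈ Algebra.adjoin K (ι '' A)) :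
    Θ (w * w') = Θ w * Θ w' := by
  refine ind_on (P := fun w => Θ (w * w') = Θ w * Θ w') (by simp)
    (fun u v hu hv => by simp only [add_mul, map_add, hu, hv]) (fun c a ha => ?_) hw
  refine ind_on (P := fun w' => Θ (algebraMap K Ω c * ι a * w') = Θ (algebraMap K Ω c * ι a) * Θ w')
    (by simp) (fun u v hu hv => by simp only [mul_add, map_add, hu, hv]) (fun c' a' ha' => ?_) hw'
  rw [mul_mul_mul_comm, ← map_mul, ← map_mul, h.gen, h.gen, h.gen, hA.2 a ha a' ha', map_mul]
  ring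

theorem Th.alg {θ : L →ₗ[k] k} {Θ : Ω →ₗ[K] K} (h : Th ι θ Θ) (h1 : θ 1 = 1) (c : K) :
    Θ (algebraMap K Ω c) = c := by
  have := h.gen c 1
  rwa [map_one, mul_one, h1, map_one, mul_one] at this

theorem point [IsAlgClosed k] (s : Set L) (hs : s.Finite) :
    ∃ θ : L →ₗ[k] k, Mul (Algebra.adjoin k s) θ := by
  haveI : Algebra.FiniteType k (Algebra.adjoin k s) :=
    (Subalgebra.fg_iff_finiteType _).1 (Subalgebra.fg_def.2 ⟨s, hs, rfl⟩)
  obtain ⟨m, hm⟩ := Ideal.exists_maximal (Algebra.adjoin k s)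
  letI := Ideal.Quotient.field m
  haveI : Module.Finite k (Algebra.adjoin k s ⧸ m) := finite_of_finite_type_of_isJacobsonRing _ _
  let θ₀ : Algebra.adjoin k s →ₐ[k] k :=
    (IsAlgClosed.lift : (Algebra.adjoin k s ⧸ m) →ₐ[k] k).comp (Ideal.Quotient.mkₐ k m)
  obtain ⟨θ, hθ⟩ := LinearMap.exists_extend
    (p := Subalgebra.toSubmodule (Algebra.adjoin k s)) θ₀.toLinearMap
  have h1 : ∀ a (ha : a ∈ Algebra.adjoin k s), θ a = θ₀ ⟨a, ha⟩ := fun a ha =>
    LinearMap.congr_fun hθ ⟨a, ha⟩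
  refine ⟨θ, ?_, fun a ha a' ha' => ?_⟩
  · rw [h1 1 (one_mem _)]
    exact map_one θ₀
  · rw [h1 _ (mul_mem ha ha'), h1 a ha, h1 a' ha', ← map_mul]
    rfl

theorem spec_one (h : Ind K ι) {w : Ω} (hw : w ∈ Algebra.adjoin K (range ι)) :
    ∃ s : Set L, s.Finite ∧ ∀ A : Subalgebra k L, s ⊆ A → w ∈ Algebra.adjoin K (ι '' A) ∧
      ∀ θ : L →ₗ[k] k, Mul A θ → ∀ Θ : Ω →ₗ[K] K, Th ι θ Θ → w ≠ 0 → Θ w ≠ 0 := by
  let b := Module.Basis.ofVectorSpace k L
  obtain ⟨c, rfl⟩ := rep b hw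
  obtain ⟨lam, hlam⟩ : ∃ lam : K →ₗ[k] k, c ≠ 0 → c.mapRange lam (map_zero _) ≠ 0 := by
    by_cases hc : c = 0
    · exact ⟨0, fun h => absurd hc h⟩
    · obtain ⟨i, hi⟩ := Finsupp.ne_iff.1 hc
      obtain ⟨lam, hlam⟩ := not_forall.1 (mt (Module.forall_dual_apply_eq_zero_iff k (c i)).1 hi)
      exact ⟨lam, fun _ h0 => hlam (by simpa using DFunLike.congr_fun h0 i)⟩
  set a := Finsupp.linearCombination k b (c.mapRange lam (map_zero _)) with ha
  refine ⟨insert a (insert a⁻¹ (b '' c.support)),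
    ((c.support.finite_toSet.image _).insert _).insert _, fun A hA => ⟨?_, fun θ hθ Θ hΘ hw0 h0 => ?_⟩⟩
  · rw [Finsupp.linearCombination_apply, Finsupp.sum]
    refine sum_mem fun i hi => Subalgebra.smul_mem _ (Algebra.subset_adjoin (mem_image_of_mem ι ?_)) _
    exact hA (mem_insert_of_mem _ (mem_insert_of_mem _ ⟨i, hi, rfl⟩))
  · have hc : c ≠ 0 := by
      rintro rfl
      exact hw0 (map_zero _)
    have ha0 : a ≠ 0 := fun h0 => hlam hc (linearIndependent_iff.1 b.linearIndependent _ h0)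
    have h1 := hθ.2 a (hA (mem_insert _ _)) a⁻¹ (hA (mem_insert_of_mem _ (mem_insert _ _)))
    rw [mul_inv_cancel₀ ha0, hθ.1] at h1
    have h2 : θ a = lam (Θ (Finsupp.linearCombination K (fun i => ι (b i)) c)) := by
      rw [ha, Finsupp.linearCombination_apply, Finsupp.linearCombination_apply,
        Finsupp.sum_mapRange_index (fun i => zero_smul k (b i)), Finsupp.sum, Finsupp.sum, map_sum,
        map_sum, map_sum]
      refine Finset.sum_congr rfl fun i _ => ?_
      rw [map_smul, map_smul, hΘ, smul_eq_mul, smul_eq_mul, mul_comm (c i), ← Algebra.smul_def,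
        map_smul, smul_eq_mul, mul_comm]
    rw [h2, h0, map_zero, zero_mul] at h1
    exact one_ne_zero h1

/-- Specialisation of finitely many elements. -/
theorem spec [IsAlgClosed k] (h : Ind K ι) (W : Set Ω) (hW : W.Finite)
    (hw : ∀ w ∈ W, w ∈ Algebra.adjoin K (range ι)) :
    ∃ (A : Subalgebra k L) (θ : L →ₗ[k] k), Mul A θ ∧ ∀ w ∈ W, w ∈ Algebra.adjoin K (ι '' A) ∧
      ∀ Θ : Ω →ₗ[K] K, Th ι θ Θ → w ≠ 0 → Θ w ≠ 0 := by
  choose s hs hs' using fun w : W => spec_one h (hw w w.2)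
  haveI := hW.to_subtype
  obtain ⟨θ, hθ⟩ := point (k := k) (⋃ w, s w) (finite_iUnion hs)
  refine ⟨_, θ, hθ, fun w hw => ?_⟩
  have h1 := hs' ⟨w, hw⟩ _ ((subset_iUnion s ⟨w, hw⟩).trans (Algebra.subset_adjoin (R := k)))
  exact ⟨h1.1, h1.2 θ hθ⟩

theorem ind_tensor : Ind K (Algebra.TensorProduct.includeRight : L →ₐ[k] K ⊗[k] L) :=
  fun _ hs => Module.Flat.linearIndependent_one_tmul hs

theorem mem_tensor (w : K ⊗[k] L) :
    w ∈ Algebra.adjoin K (range (Algebra.TensorProduct.includeRight : L →ₐ[k] K ⊗[k] L)) := by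
  induction w using TensorProduct.induction_on with
  | zero => exact zero_mem _
  | add u v hu hv => exact add_mem hu hv
  | tmul c l =>
    have : c ⊗ₜ[k] l = c • (1 : K) ⊗ₜ[k] l := by rw [smul_tmul', smul_eq_mul, mul_one]
    rw [this]
    exact Subalgebra.smul_mem _ (Algebra.subset_adjoin (mem_range_self l)) _

theorem dom [IsAlgClosed k] : IsDomain (K ⊗[k] L) := by
  have hI : Ind K (Algebra.TensorProduct.includeRight : L →ₐ[k] K ⊗[k] L) := ind_tensor
  haveI : NoZeroDivisors (K ⊗[k] L) := ⟨fun {u v} huv => by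
    by_contra hne
    rw [not_or] at hne
    obtain ⟨A, θ, hθ, h⟩ := spec hI {u, v} (toFinite _) fun w _ => mem_tensor w
    obtain ⟨Θ, hΘ⟩ := hI.exists_th θ
    have hu := h u (mem_insert _ _)
    have hv := h v (mem_insert_of_mem _ rfl)
    have h1 := hΘ.mul hθ hu.1 hv.1
    rw [huv, map_zero] at h1
    exact mul_ne_zero (hu.2 Θ hΘ hne.1) (hv.2 Θ hΘ hne.2) h1.symm⟩
  haveI : Nontrivial (K ⊗[k] L) := by
    have h1 := (hI.li (l := fun _ : Unit => (1 : L))
      (linearIndependent_unique_iff.2 one_ne_zero)).ne_zero ()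
    exact ⟨_, _, h1⟩
  exact NoZeroDivisors.to_isDomain _

variable (K ι) in
/-- The multiplication map. -/
def tau : K ⊗[k] L →ₐ[K] Ω :=
  Algebra.TensorProduct.lift (Algebra.ofId K Ω) ι fun _ _ => Commute.all _ _

theorem tau_tmul (c : K) (l : L) : tau K ι (c ⊗ₜ l) = algebraMap K Ω c * ι l := rfl

theorem Ind.inj (h : Ind K ι) : Function.Injective (tau K ι) := by
  let b := Module.Basis.ofVectorSpace k L
  refine (injective_iff_map_eq_zero _).2 fun w hw => ?_
  obtain ⟨c, rfl⟩ := rep b (mem_tensor w)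
  have h1 : Finsupp.linearCombination K (fun i => ι (b i)) c = 0 := by
    rw [← hw, Finsupp.linearCombination_apply, Finsupp.linearCombination_apply, Finsupp.sum,
      Finsupp.sum, map_sum]
    refine Finset.sum_congr rfl fun i _ => ?_
    rw [map_smul, Algebra.TensorProduct.includeRight_apply, tau_tmul, map_one, one_mul]
  rw [linearIndependent_iff.1 (h.li b.linearIndependent) c h1, map_zero]

theorem ind_of_inj (h : Function.Injective (tau K ι)) : Ind K ι := fun s hs => by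
  have h1 := (ind_tensor (K := K) s hs).map' (tau K ι).toLinearMap (LinearMap.ker_eq_bot.2 h)
  have h2 : (fun x : s => ι x) = (tau K ι).toLinearMap ∘ fun x : s =>
      (Algebra.TensorProduct.includeRight : L →ₐ[k] K ⊗[k] L) x := by
    funext x
    simp [tau_tmul]
  rw [LinearIndepOn, h2]
  exact h1

theorem tau_mem (w : K ⊗[k] L) : tau K ι w ∈ Algebra.adjoin K (range ι) := by
  induction w using TensorProduct.induction_on with
  | zero => rw [map_zero]; exact zero_mem _
  | add u v hu hv => rw [map_add]; exact add_mem hu hv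
  | tmul c l => exact mul_mem (Subalgebra.algebraMap_mem _ c) (Algebra.subset_adjoin ⟨l, rfl⟩)

theorem exists_tau {w : Ω} (hw : w ∈ Algebra.adjoin K (range ι)) : ∃ u, tau K ι u = w :=
  ind_range (P := fun w => ∃ u, tau K ι u = w) ⟨0, map_zero _⟩
    (fun _ _ ⟨u, hu⟩ ⟨v, hv⟩ => ⟨u + v, by rw [map_add, hu, hv]⟩)
    (fun c a => ⟨c ⊗ₜ a, rfl⟩) hw

/-- Independence of two embeddings. -/
def PInd (f : K →ₐ[k] Ω) (g : L →ₐ[k] Ω) : Prop :=
  Function.Injective (Algebra.TensorProduct.productMap f g)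

theorem Ind.pind (h : Ind K ι) : PInd (IsScalarTower.toAlgHom k K Ω) ι := h.inj

theorem PInd.ind (h : PInd (IsScalarTower.toAlgHom k K Ω) ι) : Ind K ι := ind_of_inj h

omit [Algebra K Ω] [IsScalarTower k K Ω] in
theorem PInd.comp {f : K →ₐ[k] Ω} {g : L →ₐ[k] Ω} (h : PInd f g) {K' L' : Type} [Field K']
    [Field L'] [Algebra k K'] [Algebra k L'] (ψ : K' →ₐ[k] K) (φ : L' →ₐ[k] L) :
    PInd (f.comp ψ) (g.comp φ) := by
  have h1 : Algebra.TensorProduct.productMap (f.comp ψ) (g.comp φ) =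
      (Algebra.TensorProduct.productMap f g).comp (Algebra.TensorProduct.map ψ φ) := by
    ext <;> simp
  rw [PInd, h1, AlgHom.coe_comp]
  exact Function.Injective.comp h (TensorProduct.map_injective_of_flat_flat ψ.toLinearMap
    φ.toLinearMap ψ.injective φ.injective)

variable {K' Ω' : Type} [Field K'] [CommRing Ω'] [Algebra k K'] [Algebra k Ω'] [Algebra K' Ω']
  [IsScalarTower k K' Ω'] {ι' : L →ₐ[k] Ω'}

theorem map_mem (χ : Ω →+* Ω') (h1 : ∀ c, χ (algebraMap K Ω c) ∈ range (algebraMap K' Ω'))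
    (h2 : ∀ l, χ (ι l) = ι' l) {A : Subalgebra k L} {w : Ω} (hw : w ∈ Algebra.adjoin K (ι '' A)) :
    χ w ∈ Algebra.adjoin K' (ι' '' A) := by
  refine ind_on (P := fun w => χ w ∈ Algebra.adjoin K' (ι' '' A)) (by rw [map_zero]; exact zero_mem _)
    (fun u v hu hv => by rw [map_add]; exact add_mem hu hv) (fun c a ha => ?_) hw
  obtain ⟨c', hc'⟩ := h1 c
  rw [map_mul, ← hc', h2]
  exact mul_mem (Subalgebra.algebraMap_mem _ c') (Algebra.subset_adjoin (mem_image_of_mem ι' ha))

theorem compat (χ : Ω →+* Ω') (f : K →+* K') (h0 : ∀ c, f (algebraMap k K c) = algebraMap k K' c)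
    (h1 : ∀ c, χ (algebraMap K Ω c) = algebraMap K' Ω' (f c)) (h2 : ∀ l, χ (ι l) = ι' l)
    {θ : L →ₗ[k] k} {Θ : Ω →ₗ[K] K} {Θ' : Ω' →ₗ[K'] K'} (h : Th ι θ Θ) (h' : Th ι' θ Θ') {w : Ω}
    (hw : w ∈ Algebra.adjoin K (range ι)) : Θ' (χ w) = f (Θ w) := by
  refine ind_range (P := fun w => Θ' (χ w) = f (Θ w)) (by simp)
    (fun u v hu hv => by simp only [map_add, hu, hv]) (fun c a => ?_) hw
  rw [map_mul, h1, h2, h.gen, h'.gen, map_mul, h0]

end ring

section field

variable {k L K Ω : Type} [Field k] [Field L] [Field K] [Field Ω] [Algebra k L] [Algebra k K]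
  [Algebra k Ω] [Algebra K Ω] [IsScalarTower k K Ω] {ι : L →ₐ[k] Ω}

theorem gen (h : IsBC K ι) (E : Subfield Ω) (hK : ∀ c, algebraMap K Ω c ∈ E) (hL : ∀ l, ι l ∈ E)
    (w : Ω) : w ∈ E := by
  have h1 : ∀ w ∈ Algebra.adjoin K (range ι), w ∈ E := fun w hw =>
    ind_range (P := fun w => w ∈ E) (zero_mem _) (fun _ _ => add_mem)
      (fun c a => mul_mem (hK c) (hL a)) hw
  obtain ⟨b, hb, hb0, hw⟩ := h.2 w
  rw [← mul_div_cancel_left₀ w hb0]
  exact div_mem (h1 _ hw) (h1 _ hb)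

theorem hom_ext (h : IsBC K ι) {Ω' : Type} [Field Ω'] (χ χ' : Ω →+* Ω')
    (h1 : ∀ c, χ (algebraMap K Ω c) = χ' (algebraMap K Ω c)) (h2 : ∀ l, χ (ι l) = χ' (ι l))
    (w : Ω) : χ w = χ' w := gen h (χ.eqLocusField χ') h1 h2 w

theorem lift (h : IsBC K ι) {Ω' : Type} [Field Ω'] [Algebra k Ω'] {f : K →ₐ[k] Ω'} {g : L →ₐ[k] Ω'}
    (hfg : PInd f g) : ∃ χ : Ω →+* Ω', (∀ c, χ (algebraMap K Ω c) = f c) ∧ ∀ l, χ (ι l) = g l := by
  letI : Algebra (K ⊗[k] L) Ω := (tau K ι).toRingHom.toAlgebra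
  have ha : ∀ w, algebraMap (K ⊗[k] L) Ω w = tau K ι w := fun _ => rfl
  haveI : FaithfulSMul (K ⊗[k] L) Ω := (faithfulSMul_iff_algebraMap_injective _ _).2 (Ind.inj h.1)
  haveI : IsFractionRing (K ⊗[k] L) Ω := IsFractionRing.of_field _ _ fun w => by
    obtain ⟨b, hb, hb0, hw⟩ := h.2 w
    obtain ⟨u, hu⟩ := exists_tau hw
    obtain ⟨v, hv⟩ := exists_tau hb
    exact ⟨u, v, by rw [ha, ha, hu, hv, mul_div_cancel_left₀ w hb0]⟩
  refine ⟨IsFractionRing.lift (g := (Algebra.TensorProduct.productMap f g).toRingHom) hfg,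
    fun c => ?_, fun l => ?_⟩
  · have h1 : algebraMap K Ω c = algebraMap (K ⊗[k] L) Ω (c ⊗ₜ 1) := by
      rw [ha, tau_tmul, map_one, mul_one]
    rw [h1, IsFractionRing.lift_algebraMap]
    exact Algebra.TensorProduct.productMap_left_apply f g c
  · have h1 : ι l = algebraMap (K ⊗[k] L) Ω (1 ⊗ₜ l) := by
      rw [ha, tau_tmul, map_one, one_mul]
    rw [h1, IsFractionRing.lift_algebraMap]
    exact Algebra.TensorProduct.productMap_right_apply f g l

variable (k L K) in
theorem exists_bc [IsAlgClosed k] : ∃ (Ω : Type) (_ : Field Ω) (_ : Algebra k Ω) (_ : Algebra K Ω)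
    (_ : IsScalarTower k K Ω) (ι : L →ₐ[k] Ω), IsBC K ι := by
  haveI : IsDomain (K ⊗[k] L) := dom
  let ι : L →ₐ[k] FractionRing (K ⊗[k] L) :=
    (IsScalarTower.toAlgHom k (K ⊗[k] L) _).comp Algebra.TensorProduct.includeRight
  have h : ∀ w, tau K ι w = algebraMap (K ⊗[k] L) (FractionRing (K ⊗[k] L)) w := fun w => by
    induction w using TensorProduct.induction_on with
    | zero => rw [map_zero, map_zero]
    | add u v hu hv => rw [map_add, map_add, hu, hv]
    | tmul c l =>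
      rw [tau_tmul, IsScalarTower.algebraMap_apply K (K ⊗[k] L) (FractionRing (K ⊗[k] L))]
      refine (map_mul (algebraMap (K ⊗[k] L) (FractionRing (K ⊗[k] L))) _ _).symm.trans ?_
      simp
  refine ⟨FractionRing (K ⊗[k] L), inferInstance, inferInstance, inferInstance, inferInstance, ι,
    ind_of_inj ?_, fun w => ?_⟩
  · rw [funext h]
    exact IsFractionRing.injective _ _
  · obtain ⟨a, b, hb, rfl⟩ := IsFractionRing.div_surjective (A := K ⊗[k] L) w
    have hb0 := IsFractionRing.to_map_ne_zero_of_mem_nonZeroDivisors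
      (K := FractionRing (K ⊗[k] L)) hb
    refine ⟨_, h b ▸ tau_mem b, hb0, ?_⟩
    rw [mul_div_cancel₀ _ hb0, ← h]
    exact tau_mem a

theorem common_den (h : IsBC K ι) {σ : Type} (T : Finset σ) (g : σ → Ω) :
    ∃ d ∈ Algebra.adjoin K (range ι), d ≠ 0 ∧ ∀ i ∈ T, d * g i ∈ Algebra.adjoin K (range ι) := by
  classical
  choose b hb hb0 hw using fun i => h.2 (g i)
  refine ⟨∏ i ∈ T, b i, prod_mem fun i _ => hb i, Finset.prod_ne_zero_iff.2 fun i _ => hb0 i,
    fun i hi => ?_⟩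
  rw [← Finset.mul_prod_erase T b hi, mul_right_comm]
  exact mul_mem (hw i) (prod_mem fun i _ => hb i)

omit [Algebra k L] in
/-- Independence is transitive. -/
theorem trans {k₀ F Λ : Type} [Field k₀] [Field F] [Field Λ] [Algebra k₀ L] [Algebra k₀ k]
    [Algebra k₀ F] [Algebra k₀ Λ] [Algebra k₀ Ω] [Algebra k F] [Algebra k Λ] [Algebra F Ω]
    [Algebra Λ Ω] [IsScalarTower k₀ k Λ] [IsScalarTower k₀ F Ω] [IsScalarTower k F Ω]
    [IsScalarTower k Λ Ω] {ι₀ : L →ₐ[k₀] Λ} {ι₁ : L →ₐ[k₀] Ω} (h₀ : IsBC k ι₀) (h₁ : Ind F ι₁)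
    (hι : ∀ l, algebraMap Λ Ω (ι₀ l) = ι₁ l) : Ind Λ (IsScalarTower.toAlgHom k F Ω) := by
  classical
  intro s hs
  refine linearIndependent_iff'.2 fun T g hg i hi => ?_
  obtain ⟨d, -, hd0, hd⟩ := common_den h₀ T g
  let b := Module.Basis.ofVectorSpace k₀ L
  choose! c hc using fun i hi => rep b (hd i hi)
  have h1 : Finsupp.linearCombination F (fun p => ι₁ (b p))
      (∑ i ∈ T, (i : F) • (c i).mapRange (algebraMap k F) (map_zero _)) = 0 := by
    have h2 := congrArg (fun x => algebraMap Λ Ω d * x) hg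
    simp only [mul_zero, Finset.mul_sum] at h2
    rw [map_sum, ← h2]
    refine Finset.sum_congr rfl fun i hi => ?_
    rw [map_smul, Algebra.smul_def (g i), ← mul_assoc, ← map_mul, ← hc i hi, Algebra.smul_def,
      mul_comm, Finsupp.linearCombination_apply, Finsupp.linearCombination_apply,
      Finsupp.sum_mapRange_index (fun p => zero_smul F (ι₁ (b p))), Finsupp.sum, Finsupp.sum, map_sum]
    refine congrArg₂ (· * ·) (Finset.sum_congr rfl fun p _ => ?_) rfl
    rw [Algebra.smul_def, Algebra.smul_def, map_mul, hι, ← IsScalarTower.algebraMap_apply,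
      ← IsScalarTower.algebraMap_apply]
  have h3 := linearIndependent_iff.1 (h₁.li b.linearIndependent) _ h1
  have h4 : c i = 0 := by
    ext p
    refine linearIndependent_iff'.1 hs T (fun i => c i p) ?_ i hi
    have h5 := DFunLike.congr_fun h3 p
    rw [Finsupp.finsetSum_apply] at h5
    refine Eq.trans (Finset.sum_congr rfl fun i _ => ?_) h5
    rw [Finsupp.smul_apply, Finsupp.mapRange_apply, Algebra.smul_def, smul_eq_mul, mul_comm]
    rfl
  have h6 := hc i hi
  rw [h4, map_zero] at h6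
  exact (mul_eq_zero.1 h6.symm).resolve_left hd0

/-- Elements algebraic over the image of a field homomorphism. -/
def algO {M M' : Type} [Field M] [Field M'] (χ : M →+* M') : Subfield M' :=
  (algebraicClosure χ.fieldRange M').toSubfield

theorem mem_algO {M M' : Type} [Field M] [Field M'] {χ : M →+* M'} {a : M'} :
    a ∈ algO χ ↔ ∃ P : Polynomial M, P ≠ 0 ∧ P.eval₂ χ a = 0 := by
  have h : (algebraMap χ.fieldRange M').comp χ.rangeRestrictField = χ := rfl
  refine mem_algebraicClosure_iff.trans ⟨fun ⟨Q, hQ, h1⟩ => ?_, fun ⟨P, hP, h1⟩ => ?_⟩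
  · obtain ⟨P, rfl⟩ := Polynomial.map_surjective _ χ.rangeRestrictField_bijective.2 Q
    refine ⟨P, fun h0 => hQ (by rw [h0, Polynomial.map_zero]), ?_⟩
    rwa [Polynomial.aeval_def, Polynomial.eval₂_map, h] at h1
  · refine ⟨P.map χ.rangeRestrictField, Polynomial.map_ne_zero hP, ?_⟩
    rwa [Polynomial.aeval_def, Polynomial.eval₂_map, h]

theorem self_mem_algO {M M' : Type} [Field M] [Field M'] (χ : M →+* M') (a : M) : χ a ∈ algO χ :=
  mem_algO.2 ⟨Polynomial.X - Polynomial.C a, Polynomial.X_sub_C_ne_zero a, by simp⟩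

theorem mem_range_of_alg [IsAlgClosed k] {a : K} (h : IsAlgebraic k a) :
    a ∈ range (algebraMap k K) :=
  minpoly.mem_range_of_degree_eq_one k a
    (IsAlgClosed.degree_eq_one_of_irreducible k (minpoly.irreducible h.isIntegral))

theorem iter_map {M M' : Type} {χ : M → M'} {ψ : M → M} {Φ : M' → M'} (h : ∀ w, Φ (χ w) = χ (ψ w))
    (i : ℕ) (w : M) : Φ^[i] (χ w) = χ (ψ^[i] w) :=
  (Function.Semiconj.iterate_right (fun w => (h w).symm) i w).symm

theorem coc_map {M M' : Type} [Field M] [Field M'] (χ : M →+* M') {ψ : M → M} {Φ : M' → M'}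
    (h : ∀ w, Φ (χ w) = χ (ψ w)) (x : M) (i : ℕ) : coc Φ (χ x) i = χ (coc ψ x i) := by
  rw [coc, coc, map_prod]
  exact Finset.prod_congr rfl fun j _ => iter_map h j x

theorem star_map {M M' : Type} [Field M] [Field M'] (χ : M →+* M') {ψ : M → M} {Φ : M' → M'}
    (h : ∀ w, Φ (χ w) = χ (ψ w)) {R : Set M} {R' : Set M'} (hR : ∀ w ∈ R, χ w ∈ R') {x z : M}
    (hs : Star R ψ x z) : Star R' Φ (χ x) (χ z) := by
  refine ⟨(map_ne_zero χ).2 hs.1, (map_ne_zero χ).2 hs.2.1, hR _ hs.2.2.1, fun i => ?_⟩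
  rw [iter_map h, coc_map χ h, ← map_mul, ← map_mul, ← map_div₀]
  exact ⟨hR _ (hs.2.2.2 i).1, hR _ (hs.2.2.2 i).2⟩

end field

end Pool.Agent.Lib.GD.BCa
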