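import Pool.Agent.Lib.GD.Blue

/-! Divisors of twisted pluricanonical forms stay at bounded distance from the limit. -/

open Set Filter Function Pool.Agent.Lib.MP_9a2ae6_ag Pool.Agent.Lib.MP_e06174_ag

set_option linter.unusedSectionVars false
set_option linter.unusedVariables false

noncomputable section

namespace Pool.Agent.Lib.GD

namespace BOOT

theorem le_of_div {a b c : ℝ} (h : ∀ N : ℕ, 0 < N → a ≤ b + c / N) : a ≤ b := by
  have h1 : Tendsto (fun N : ℕ => b + c / (N : ℝ)) atTop (nhds (b + 0)) :=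
    tendsto_const_nhds.add (tendsto_const_div_atTop_nhds_zero_nat c)
  rw [add_zero] at h1
  exact ge_of_tendsto h1 (eventually_atTop.2 ⟨1, fun N hN => h N hN⟩)

variable {L : Type} [Field L] [Algebra ℂ L] {n : ℕ} {C : Ctx L n} (M : Model C)

/-- The pull-back of a real divisor. -/
def pb (v : Place ℂ L) (D : M.P → ℝ) : ℝ := ∑ᶠ E, D E * M.mu v E

variable {M}

theorem pb_eq (v : Place ℂ L) {D : M.P → ℝ} {F : Finset M.P} (h : support D ⊆ F) :
    pb M v D = ∑ E ∈ F, D E * M.mu v E :=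
  finsum_eq_sum_of_support_subset _ fun E hE => h fun h0 => hE (by simp [h0])

theorem pb_lin (v : Place ℂ L) {D D' : M.P → ℝ} (h : (support D).Finite)
    (h' : (support D').Finite) (a b : ℝ) :
    pb M v (fun E => a * D E + b * D' E) = a * pb M v D + b * pb M v D' := by
  classical
  have h1 : support D ⊆ (h.toFinset ∪ h'.toFinset : Finset M.P) := fun E hE => by
    simp only [Finset.coe_union, Finite.coe_toFinset]; exact Or.inl hE
  have h2 : support D' ⊆ (h.toFinset ∪ h'.toFinset : Finset M.P) := fun E hE => by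
    simp only [Finset.coe_union, Finite.coe_toFinset]; exact Or.inr hE
  have h3 : support (fun E => a * D E + b * D' E) ⊆ (h.toFinset ∪ h'.toFinset : Finset M.P) :=
    fun E hE => by
      by_contra h4
      have h5 : D E = 0 := by_contra fun h5 => h4 (h1 h5)
      have h6 : D' E = 0 := by_contra fun h6 => h4 (h2 h6)
      exact hE (by simp [h5, h6])
  rw [pb_eq v h1, pb_eq v h2, pb_eq v h3, Finset.mul_sum, Finset.mul_sum, ← Finset.sum_add_distrib]
  exact Finset.sum_congr rfl fun E _ => by ring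

theorem pb_mono (v : Place ℂ L) {D D' : M.P → ℝ} (h : (support D).Finite)
    (h' : (support D').Finite) (hle : ∀ E, D E ≤ D' E) : pb M v D ≤ pb M v D' := by
  classical
  have h1 : support D ⊆ (h.toFinset ∪ h'.toFinset : Finset M.P) := fun E hE => by
    simp only [Finset.coe_union, Finite.coe_toFinset]; exact Or.inl hE
  have h2 : support D' ⊆ (h.toFinset ∪ h'.toFinset : Finset M.P) := fun E hE => by
    simp only [Finset.coe_union, Finite.coe_toFinset]; exact Or.inr hE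
  rw [pb_eq v h1, pb_eq v h2]
  exact Finset.sum_le_sum fun E _ => mul_le_mul_of_nonneg_right (hle E) (Nat.cast_nonneg _)

theorem pb_cast (v : Place ℂ L) {f : M.P → ℤ} (h : {E | f E ≠ 0}.Finite) :
    ((∑ᶠ E, f E * M.mu v E : ℤ) : ℝ) = pb M v fun E => f E := by
  have h1 : support (fun E => (f E : ℝ)) ⊆ h.toFinset := fun E hE => by
    simpa using hE
  rw [pb_eq v h1, finsum_eq_sum_of_support_subset (s := h.toFinset) _ fun E hE => by
    rw [Finite.coe_toFinset]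
    exact fun h0 => hE (by simp [h0])]
  push_cast
  rfl

theorem fs_cast {f : M.P → ℤ} (h : {E | f E ≠ 0}.Finite) : (support fun E => (f E : ℝ)).Finite :=
  h.subset fun E hE => by simpa using hE

theorem fs_lin {D D' : M.P → ℝ} (h : (support D).Finite) (h' : (support D').Finite) (a b : ℝ) :
    (support fun E => a * D E + b * D' E).Finite :=
  (h.union h').subset fun E hE => by
    by_contra h4
    have h5 : D E = 0 := by_contra fun h5 => h4 (Or.inl h5)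
    have h6 : D' E = 0 := by_contra fun h6 => h4 (Or.inr h6)
    exact hE (by simp [h5, h6])

theorem fs_comp {D : M.P → ℝ} (h : (support D).Finite) (g : ℝ → ℝ) (hg : g 0 = 0) :
    (support fun E => g (D E)).Finite :=
  h.subset fun E hE h0 => hE (by simp only [h0, hg])

theorem pb_neg (v : Place ℂ L) {D : M.P → ℝ} (h : (support D).Finite) :
    pb M v (fun E => -D E) = -pb M v D := by
  have := pb_lin v h h (-1) 0
  simpa using this

theorem abs_pb (v : Place ℂ L) {D : M.P → ℝ} (h : (support D).Finite) :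
    |pb M v D| ≤ pb M v fun E => |D E| := by
  have h1 := fs_comp h abs abs_zero
  refine abs_le.2 ⟨?_, pb_mono v h h1 fun E => le_abs_self _⟩
  have := pb_mono v (fs_comp h Neg.neg neg_zero) h1 fun E => neg_le_abs _
  rw [pb_neg v h] at this
  linarith

/-- The deviation of the order of a form from the limit. -/
def gam (C : Ctx L n) (nn : Place ℂ L → ℝ) (m : ℕ) (u : L) (v : Place ℂ L) : ℝ :=
  (C.fo v m u : ℝ) - m * nn v

/-- The standing hypotheses. -/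
structure Hy (M : Model C) (φ : L →ₐ[ℂ] L) (nn : Place ℂ L → ℝ) : Prop where
  dv : DVF C
  bas : Bas M
  kl : KLP C.H φ
  lim : M.Lim φ nn
  fin : {E | nn (M.pl E) ≠ 0}.Finite

variable {φ : L →ₐ[ℂ] L} {nn : Place ℂ L → ℝ}

namespace Hy

variable (h : Hy M φ nn)
include h

theorem fsN : (support fun E => nn (M.pl E)).Finite := h.fin

theorem N0 (E : M.P) : 0 ≤ nn (M.pl E) := h.lim.nonneg _ (M.dv E)

theorem fsg (m : ℕ) (u : L) : (support fun E => gam C nn m u (M.pl E)).Finite := by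
  have := fs_lin (fs_cast (h.bas.fin_fo m u)) h.fsN 1 (-m)
  refine this.subset fun E hE h0 => hE ?_
  simp only [gam]
  linarith

theorem fsg' (m : ℕ) (u : L) : (support fun E => -gam C nn m u (M.pl E)).Finite :=
  fs_comp (h.fsg m u) Neg.neg neg_zero

theorem mono {D D' : M.P → ℝ} {e e' : ℕ} (hD : M.Dm D e) (h1 : ∀ E, D' E ≤ D E) (h2 : e ≤ e') :
    M.Dm D' e' := h.bas.dm_mono D D' e e' h1 h2 hD

theorem add {D D' D'' : M.P → ℝ} {e e' e'' : ℕ} (hD : M.Dm D e) (hD' : M.Dm D' e')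
    (h1 : ∀ E, D'' E ≤ D E + D' E) (h2 : e + e' ≤ e'') : M.Dm D'' e'' :=
  h.mono (h.bas.dm_add D D' e e' hD hD') h1 h2

theorem smul {D : M.P → ℝ} {e : ℕ} (hD : M.Dm D e) (t : ℕ) : M.Dm (fun E => t * D E) (t * e) :=
  h.mono (h.bas.dm_nsmul D e t hD) (fun E => by simp) le_rfl

/-- A bound for a function on the support of the limit divisor. -/
theorem exists_bd (f : M.P → ℝ) : ∃ c : ℕ, ∀ E, nn (M.pl E) ≠ 0 → f E ≤ c := by
  obtain ⟨c, hc⟩ := (h.fin.image f).bddAbove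
  exact ⟨⌈c⌉₊, fun E hE => (hc ⟨E, hE, rfl⟩).trans (Nat.le_ceil c)⟩

theorem exists_K : ∃ K : ℕ, ∀ E, nn (M.pl E) ≠ 0 → 1 ≤ K * nn (M.pl E) := by
  obtain ⟨K, hK⟩ := h.exists_bd fun E => (nn (M.pl E))⁻¹
  refine ⟨K, fun E hE => ?_⟩
  have h1 : 0 < nn (M.pl E) := lt_of_le_of_ne (h.N0 E) hE.symm
  have := mul_le_mul_of_nonneg_right (hK E hE) h1.le
  rwa [inv_mul_cancel₀ hE] at this

theorem exists_eN : ∃ e : ℕ, M.Dm (fun E => nn (M.pl E)) e :=
  h.bas.dm_fin _ (h.fin.subset fun E hE => ne_of_gt hE)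

theorem exists_eS : ∃ e : ℕ, ∀ (t : ℕ) (D : M.P → ℝ), (∀ E, nn (M.pl E) = 0 → D E ≤ 0) →
    (∀ E, nn (M.pl E) ≠ 0 → D E ≤ t) → M.Dm D (t * e) := by
  obtain ⟨K, hK⟩ := h.exists_K
  obtain ⟨e, he⟩ := h.exists_eN
  refine ⟨K * e, fun t D h1 h2 => h.mono (h.smul (h.smul he K) t) (fun E => ?_) le_rfl⟩
  by_cases h0 : nn (M.pl E) = 0
  · simpa [h0] using h1 E h0
  · exact (h2 E h0).trans (le_mul_of_one_le_right (Nat.cast_nonneg _) (hK E h0))

/-- Good forms deviate little on the model. -/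
theorem good (iz : Place ℂ L → ℝ) : ∃ c : ℕ, ∀ (N m : ℕ) (σ : L), 0 < N → N ≤ m →
    M.Good nn iz N m σ → M.Dm (fun E => |gam C nn m σ (M.pl E)|) (c * (m / N)) := by
  obtain ⟨e, he⟩ := h.exists_eS
  obtain ⟨c, hc⟩ := h.exists_bd fun E => iz (M.pl E)
  refine ⟨1 + 2 * c * e, fun N m σ hN hm hσ => ?_⟩
  have h1 : 1 ≤ m / N := (Nat.le_div_iff_mul_le hN).2 (by simpa using hm)
  have hN' : (0 : ℝ) < N := by exact_mod_cast hN
  have h2 : (m : ℝ) / N ≤ 2 * (m / N : ℕ) := by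
    have h3 : m < (m / N + 1) * N := by
      rw [mul_comm]; exact Nat.lt_mul_div_succ m hN
    have h4 : (m : ℝ) < ((m / N : ℕ) + 1) * N := by exact_mod_cast h3
    have h5 : (1 : ℝ) ≤ (m / N : ℕ) := by exact_mod_cast h1
    rw [div_le_iff₀ hN']
    nlinarith
  refine h.add hσ.2.2 (he (2 * c * (m / N))
    (fun E => if nn (M.pl E) = 0 then 0 else |gam C nn m σ (M.pl E)|) (fun E h0 => by simp [h0])
    fun E h0 => ?_) (fun E => ?_) (le_of_eq (by ring))
  · rw [if_neg h0]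
    refine (hσ.2.1 _ (M.dv E)).trans ?_
    rw [mul_div_assoc]
    push_cast
    have h6 : (0 : ℝ) ≤ m / N := by positivity
    have h7 := hc E h0
    have h8 : (0 : ℝ) ≤ c := Nat.cast_nonneg _
    nlinarith
  · by_cases h0 : nn (M.pl E) = 0
    · simp [h0, gam]
    · simp [h0]

theorem fo_pb (v : Place ℂ L) (m : ℕ) (u : L) : (C.fo v m u : ℝ) =
    pb M v (fun E => gam C nn m u (M.pl E)) + m * (pb M v (fun E => nn (M.pl E)) +
      (kap C.d v - pb M v fun E => kap C.d (M.pl E))) := by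
  have h1 := pb_lin v (h.fsg m u) h.fsN 1 m
  have h2 := pb_lin v (fs_cast (M.fin_ord u)) (fs_cast M.fin_kap) 1 m
  have h3 : (fun E => 1 * gam C nn m u (M.pl E) + m * nn (M.pl E)) =
      fun E => 1 * (((M.pl E).ord u : ℤ) : ℝ) + m * (kap C.d (M.pl E) : ℝ) := by
    funext E
    simp only [gam, Ctx.fo]
    push_cast
    ring
  have h4 := pb_cast v (M.fin_ord u)
  rw [← M.pb_ord] at h4
  rw [h3, h2, ← h4] at h1
  simp only [Ctx.fo]
  push_cast
  linarith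

theorem nc {v : Place ℂ L} (hv : Dv n v) : nn v = pb M v (fun E => nn (M.pl E)) +
    (kap C.d v - pb M v fun E => kap C.d (M.pl E)) := by
  obtain ⟨iz, hiz⟩ := h.lim.app
  obtain ⟨c, hc⟩ := h.good iz
  obtain ⟨cv, hcv⟩ := h.bas.dm_pb v hv
  refine eq_of_abs_sub_nonpos (le_of_div (c := iz v + cv * c) fun N hN => ?_)
  obtain ⟨m, σ, hm, hσ⟩ := hiz N 0 hN
  have h1 := hσ 0 le_rfl
  set τ := C.T (φ ^ 0) m σ
  have h2 := hcv _ _ (fs_comp (h.fsg m τ) abs abs_zero) (hc N m τ hN hm h1)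
  have h3 := (abs_pb v (h.fsg m τ)).trans h2
  have h4 := h1.2.1 v hv
  rw [h.fo_pb v m τ] at h4
  have hN' : (0 : ℝ) < N := by exact_mod_cast hN
  have hm' : (0 : ℝ) < m := by exact_mod_cast hN.trans_le hm
  have h5 : ((m / N : ℕ) : ℝ) ≤ m / N := Nat.cast_div_le
  push_cast at h3
  set a := pb M v fun E => gam C nn m τ (M.pl E)
  set b := pb M v (fun E => nn (M.pl E)) + (kap C.d v - pb M v fun E => kap C.d (M.pl E))
  have h6 : |a| ≤ cv * c * (m / N) := h3.trans (by rw [mul_assoc]; gcongr)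
  have h7 : m * |nn v - b| ≤ m * ((iz v + cv * c) / N) := by
    have h8 : m * |nn v - b| = |a - (a + m * b - m * nn v)| := by
      rw [← abs_of_pos hm', ← abs_mul, abs_of_pos hm']
      congr 1
      ring
    rw [h8]
    refine (abs_sub _ _).trans ((add_le_add h6 h4).trans (le_of_eq ?_))
    field_simp
    ring
  rw [zero_add]
  exact le_of_mul_le_mul_left h7 hm'

theorem g1 {v : Place ℂ L} (hv : Dv n v) (m : ℕ) (u : L) :
    gam C nn m u v = pb M v fun E => gam C nn m u (M.pl E) := by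
  have h1 := h.fo_pb v m u
  rw [← h.nc hv] at h1
  rw [gam, h1]
  ring

theorem pbN_le {v : Place ℂ L} (hv : Dv n v) : pb M v (fun E => nn (M.pl E)) ≤ nn v := by
  have h1 := h.nc hv
  have h2 : ((∑ᶠ E, kap C.d (M.pl E) * M.mu v E : ℤ) : ℝ) ≤ kap C.d v := by
    exact_mod_cast M.pb_kap v hv
  rw [pb_cast v M.fin_kap] at h2
  linarith

theorem g2 {i : ℕ} {w v : Place ℂ L} {e : ℕ} (hw : Dv n w) (ho : w.Over (φ ^ i) v e) (m : ℕ)
    {u : L} (hu : u ≠ 0) : gam C nn m (C.T (φ ^ i) m u) w = e * gam C nn m u v := by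
  have h1 : ((C.fo w m (C.T (φ ^ i) m u) + m : ℤ) : ℝ) = ((e * (C.fo v m u + m) : ℤ) : ℝ) := by
    rw [h.dv.fo_T _ w v e ho hw m u hu]
  have h2 := h.lim.inv i w v e hw ho
  push_cast at h1
  simp only [gam]
  linear_combination h1 - m * h2

theorem g5 (i : ℕ) : ∃ c : ℕ, ∀ (m : ℕ) (u : L) (b : ℝ) (D : M.P → ℝ) (e : ℕ), u ≠ 0 → 0 ≤ b →
    (support D).Finite → M.Dm D e → (∀ E, -gam C nn m u (M.pl E) ≤ b * nn (M.pl E) + D E) →
    M.Dm (fun E => -gam C nn m (C.T (φ ^ i) m u) (M.pl E) - b * nn (M.pl E)) (c * e) := by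
  obtain ⟨c, hc⟩ := h.bas.dm_T (φ ^ i)
  refine ⟨c, fun m u b D e hu hb hD hDe hle => hc D _ e hD hDe fun E => ?_⟩
  obtain ⟨v, r, ho⟩ := h.dv.under (φ ^ i) (M.pl E)
  refine ⟨v, r, ho, ?_⟩
  have hv := (h.dv.dv_iff _ _ _ _ ho).1 (M.dv E)
  have h1 := pb_mono v (h.fsg' m u) (fs_lin h.fsN hD b 1) fun E => by simpa using hle E
  rw [pb_neg v (h.fsg m u), pb_lin v h.fsN hD, ← h.g1 hv] at h1
  have h2 := h.pbN_le hv
  have h3 := h.lim.inv i _ v r (M.dv E) ho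
  have h4 : (1 : ℝ) ≤ r := by exact_mod_cast ho.1
  rw [h.g2 (M.dv E) ho m hu]
  change _ ≤ r * pb M v D
  have h5 : b * pb M v (fun E => nn (M.pl E)) ≤ b * nn v := mul_le_mul_of_nonneg_left h2 hb
  have h6 : r * -gam C nn m u v ≤ r * (b * nn v + pb M v D) :=
    mul_le_mul_of_nonneg_left (by linarith) (by linarith)
  have h7 : b * (r * nn v) ≤ b * nn (M.pl E) := mul_le_mul_of_nonneg_left (by linarith) hb
  linarith

omit h in
theorem T_div (ψ : L →ₐ[ℂ] L) {m m' : ℕ} {u σ : L} (hσ : C.T ψ m' σ ≠ 0)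
    (hJ : jac C.d (ψ ∘ C.x) ≠ 0) :
    ψ (u ^ m' / σ ^ m) = C.T ψ m u ^ m' / C.T ψ m' σ ^ m := by
  have h1 : ψ σ ≠ 0 := left_ne_zero_of_mul hσ
  simp only [Ctx.T, map_div₀, map_pow, mul_pow, ← pow_mul]
  rw [mul_comm m' m, mul_div_mul_right _ _ (pow_ne_zero _ hJ)]

theorem ord_q (i : ℕ) {m m' : ℕ} {u σ : L} (hu : u ≠ 0) (hσ : σ ≠ 0) (v : Place ℂ L) :
    (v.ord ((φ ^ i) (u ^ m' / σ ^ m)) : ℝ) =
      m' * gam C nn m (C.T (φ ^ i) m u) v - m * gam C nn m' (C.T (φ ^ i) m' σ) v := by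
  have h1 := h.dv.T_ne (φ ^ i) m u hu
  have h2 := h.dv.T_ne (φ ^ i) m' σ hσ
  rw [T_div _ h2 (h.dv.jac_ne _ (h.dv.tb_comp _)), v.ord_div (pow_ne_zero _ h1) (pow_ne_zero _ h2),
    Place.ord_pow, Place.ord_pow]
  simp only [gam, Ctx.fo]
  push_cast
  ring

omit h in
theorem ne_of_T {ψ : L →ₐ[ℂ] L} {m : ℕ} {σ : L} (hσ : C.T ψ m σ ≠ 0) : σ ≠ 0 := fun h0 =>
  hσ (by simp [Ctx.T, h0])

theorem T_zero (m : ℕ) (u : L) : C.T (φ ^ 0) m u = u := by rw [pow_zero, h.dv.T_one]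

theorem dm_q (iz : Place ℂ L → ℝ) : ∃ c : ℕ, ∀ (i N m m' β : ℕ) (u σ : L), 0 < N → N ≤ m' →
    u ≠ 0 → M.Good nn iz N m' (C.T (φ ^ i) m' σ) →
    M.Dm (fun E => -gam C nn m (C.T (φ ^ i) m u) (M.pl E)) β →
    M.Dm (fun E => m * |gam C nn m' (C.T (φ ^ i) m' σ) (M.pl E)|) (m * (c * (m' / N))) ∧
    Ht C.H (m' * β + m * (c * (m' / N)) + c) ((φ ^ i) (u ^ m' / σ ^ m)) := by
  obtain ⟨c, hc⟩ := h.good iz
  obtain ⟨i₁, hi⟩ := h.bas.ht_of_dm
  refine ⟨c + i₁, fun i N m m' β u σ hN hm hu hσ hβ => ?_⟩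
  have h0 := ne_of_T hσ.1
  have h1 : M.Dm (fun E => m * |gam C nn m' (C.T (φ ^ i) m' σ) (M.pl E)|)
      (m * ((c + i₁) * (m' / N))) :=
    h.mono (h.smul (hc N m' _ hN hm hσ) m) (fun E => le_rfl) (by gcongr; omega)
  refine ⟨h1, h.bas.ht_mono _ _ _ (by omega) (hi _ _ ((_root_.map_ne_zero _).2
    (div_ne_zero (pow_ne_zero _ hu) (pow_ne_zero _ h0)))
    (h.add (h.smul hβ m') h1 (fun E => ?_) le_rfl))⟩
  rw [h.ord_q i hu h0]
  have h2 := mul_le_mul_of_nonneg_left (le_abs_self (gam C nn m' (C.T (φ ^ i) m' σ) (M.pl E)))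
    (Nat.cast_nonneg (α := ℝ) m)
  linarith

theorem key {v : Place ℂ L} (hv : Dv n v) {cv : ℕ}
    (hcv : ∀ (e : ℕ) (u : L), Ht C.H e u → |v.ord u| ≤ cv * e) {N₀ j : ℕ} (hN₀ : 0 < N₀)
    (hj : ∀ (u : L) (e : ℕ), Ht C.H e u → Ht C.H e ((φ ^ (2 * j)) u) →
      Ht C.H (e / N₀) ((φ ^ j) u)) {m β : ℕ} {u : L} (hu : u ≠ 0)
    (h0 : M.Dm (fun E => -gam C nn m u (M.pl E)) β)
    (h2 : M.Dm (fun E => -gam C nn m (C.T (φ ^ (2 * j)) m u) (M.pl E)) β) :
    |gam C nn m (C.T (φ ^ j) m u) v| ≤ cv * β / N₀ := by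
  obtain ⟨iz, hiz⟩ := h.lim.app
  obtain ⟨c, hc⟩ := h.dm_q iz
  refine le_of_div (c := cv * (m * c + c) + m * iz v) fun N hN => ?_
  obtain ⟨m', σ, hm, hσ⟩ := hiz N (2 * j) hN
  have h3 := (hc 0 N m m' β u σ hN hm hu (hσ 0 (by omega)) (by rwa [h.T_zero])).2
  have h4 := (hc (2 * j) N m m' β u σ hN hm hu (hσ _ le_rfl) h2).2
  rw [pow_zero, AlgHom.one_apply] at h3
  have h5 := hcv _ _ (hj _ _ h3 h4)
  have h6 := (hσ j (by omega)).2.1 v hv
  have h7 := h.ord_q j (m := m) (m' := m') hu (ne_of_T (hσ j (by omega)).1) v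
  have h8 : |(v.ord ((φ ^ j) (u ^ m' / σ ^ m)) : ℝ)| ≤
      cv * (((m' * β + m * (c * (m' / N)) + c) / N₀ : ℕ) : ℝ) := by
    have h5' := (Int.cast_le (R := ℝ)).2 h5
    rwa [Int.cast_abs, Int.cast_mul, Int.cast_natCast, Int.cast_natCast] at h5'
  rw [h7] at h8
  change |gam C nn m' (C.T (φ ^ j) m' σ) v| ≤ _ at h6
  set a := gam C nn m (C.T (φ ^ j) m u) v
  set b := gam C nn m' (C.T (φ ^ j) m' σ) v
  have hN' : (0 : ℝ) < N := by exact_mod_cast hN
  have hN₀' : (1 : ℝ) ≤ N₀ := by exact_mod_cast hN₀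
  have hm' : (0 : ℝ) < m' := by exact_mod_cast hN.trans_le hm
  have h9 : ((m' / N : ℕ) : ℝ) ≤ m' / N := Nat.cast_div_le
  have h10 : (1 : ℝ) ≤ m' / N := by
    rw [le_div_iff₀ hN', one_mul]; exact_mod_cast hm
  have h11 : (((m' * β + m * (c * (m' / N)) + c) / N₀ : ℕ) : ℝ) ≤
      m' * β / N₀ + (m * c + c) * (m' / N) := by
    refine Nat.cast_div_le.trans ?_
    push_cast
    rw [add_assoc, add_div]
    refine add_le_add le_rfl ((div_le_self (by positivity) hN₀').trans ?_)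
    have h12 : (m : ℝ) * (c * (m' / N : ℕ)) ≤ m * (c * (m' / N)) := by gcongr
    have h13 : (c : ℝ) ≤ c * (m' / N) := le_mul_of_one_le_right (Nat.cast_nonneg _) h10
    linarith
  have h14 : m' * |a| ≤ m' * (cv * β / N₀ + (cv * (m * c + c) + m * iz v) / N) := by
    have h15 : m' * |a| = |(m' * a - m * b) + m * b| := by
      rw [sub_add_cancel, abs_mul, abs_of_pos hm']
    have h16 : |m * b| ≤ m * (iz v * m' / N) := by
      rw [abs_mul, Nat.abs_cast]; gcongr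
    rw [h15]
    refine (abs_add_le _ _).trans ((add_le_add (h8.trans (mul_le_mul_of_nonneg_left h11
      (Nat.cast_nonneg _))) h16).trans (le_of_eq ?_))
    field_simp
    ring
  exact le_of_mul_le_mul_left h14 hm'

theorem key0 {v : Place ℂ L} (hv : Dv n v) {cv : ℕ}
    (hcv : ∀ (e : ℕ) (u : L), Ht C.H e u → |v.ord u| ≤ cv * e) {m β : ℕ} {u : L} (hu : u ≠ 0)
    (h0 : M.Dm (fun E => -gam C nn m u (M.pl E)) β) : |gam C nn m u v| ≤ cv * β := by
  have := h.key hv hcv (N₀ := 1) (j := 0) one_pos (fun u e h1 _ => by simpa using h1) hu h0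
    (by rwa [mul_zero, h.T_zero])
  simpa [h.dv.T_one] using this

/-- A common constant for the components of the limit divisor. -/
theorem exists_cS : ∃ c : ℕ, ∀ E, nn (M.pl E) ≠ 0 → ∀ (e : ℕ) (u : L), Ht C.H e u →
    |(M.pl E).ord u| ≤ c * e := by
  choose cv hcv using fun E => h.bas.ht_ord (M.pl E) (M.dv E)
  obtain ⟨c, hc⟩ := h.exists_bd fun E => cv E
  refine ⟨c, fun E hE e u hu => (hcv E e u hu).trans ?_⟩
  have h1 : cv E ≤ c := by exact_mod_cast hc E hE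
  gcongr

theorem key1 : ∃ c : ℕ, ∀ (m β : ℕ) (u : L), u ≠ 0 →
    M.Dm (fun E => -gam C nn m u (M.pl E)) β →
    M.Dm (fun E => gam C nn m u (M.pl E)) (c * β + c) := by
  classical
  obtain ⟨iz, hiz⟩ := h.lim.app
  obtain ⟨c, hc⟩ := h.dm_q iz
  obtain ⟨cd, hcd⟩ := h.bas.dm_div
  obtain ⟨cS, hcS⟩ := h.exists_cS
  obtain ⟨eS, heS⟩ := h.exists_eS
  refine ⟨3 * cd + cS * eS, fun m β u hu hβ => ?_⟩
  obtain ⟨m', σ, hm, hσ⟩ := hiz (m * c + c + 1) 0 (by omega)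
  obtain ⟨h1, h2⟩ := hc 0 _ m m' β u σ (by omega) hm hu (hσ 0 le_rfl) (by rwa [h.T_zero])
  have h0 := ne_of_T (hσ 0 le_rfl).1
  have h3 := (h.bas.dm_of_ht _ _ ((_root_.map_ne_zero _).2
    (div_ne_zero (pow_ne_zero _ hu) (pow_ne_zero _ h0))) h2).1
  have h4 : m * (c * (m' / (m * c + c + 1))) ≤ m' := by
    refine le_trans ?_ (Nat.mul_div_le m' (m * c + c + 1))
    rw [← mul_assoc]
    gcongr
    omega
  have h5 : M.Dm (fun E => m' * gam C nn m u (M.pl E)) (m' * (β + 3)) := by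
    refine h.add h3 h1 (fun E => ?_) (by nlinarith)
    rw [h.ord_q 0 hu h0, h.T_zero]
    have h6 := mul_le_mul_of_nonneg_left (le_abs_self (gam C nn m' (C.T (φ ^ 0) m' σ) (M.pl E)))
      (Nat.cast_nonneg (α := ℝ) m)
    linarith
  have hm' : 0 < m' := by omega
  have h6 := hcd (fun E => if nn (M.pl E) = 0 then C.fo (M.pl E) m u else 0) m' _ hm'
    (h.mono (h.bas.dm_pos _ _ h5) (fun E => by
      by_cases h7 : nn (M.pl E) = 0
      · simp [h7, gam]
      · simp [h7]) le_rfl)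
  have h7 : cd * (m' * (β + 3)) / m' = cd * (β + 3) := by
    rw [mul_left_comm, Nat.mul_div_cancel_left _ hm']
  rw [h7] at h6
  refine h.add h6 (heS (cS * β) (fun E => if nn (M.pl E) = 0 then 0 else gam C nn m u (M.pl E))
    (fun E h8 => by simp [h8]) fun E h8 => ?_) (fun E => ?_) (by nlinarith)
  · rw [if_neg h8]
    push_cast
    exact (le_abs_self _).trans (h.key0 (M.dv E) (hcS E h8) hu hβ)
  · by_cases h8 : nn (M.pl E) = 0
    · simp [h8, gam]
    · simp [h8]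

/-- One step of the bootstrap. -/
theorem step {D : M.P → ℝ} (hD : (support D).Finite) (hD0 : ∀ E, 0 ≤ D E) :
    ∃ c : ℝ, 0 ≤ c ∧ ∀ (m : ℕ) (u : L) (b : ℝ), u ≠ 0 → 0 ≤ b →
    (∀ E, -gam C nn m u (M.pl E) ≤ b * nn (M.pl E) + D E) →
    ∀ E, -gam C nn m u (M.pl E) ≤ (b / 2 + c) * nn (M.pl E) + D E := by
  obtain ⟨eD, heD⟩ := h.bas.dm_fin D (hD.subset fun E hE => ne_of_gt hE)
  obtain ⟨eN, heN⟩ := h.exists_eN
  obtain ⟨K, hK⟩ := h.exists_K
  obtain ⟨cS, hcS⟩ := h.exists_cS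
  set N₀ := 2 * (cS * K * (1 + K) * eN) + 1 with hN₀
  obtain ⟨j, hj⟩ := h.kl N₀ (by omega)
  obtain ⟨c₁, hc₁⟩ := h.g5 j
  obtain ⟨c₂, hc₂⟩ := h.g5 (2 * j)
  choose w r hw using fun E => h.dv.above (φ ^ j) (M.pl E)
  have hdw : ∀ E, Dv n (w E) := fun E => (h.dv.dv_iff _ _ _ _ (hw E)).2 (M.dv E)
  choose cw hcw using fun E => h.bas.dm_pb (w E) (hdw E)
  obtain ⟨cW, hcW⟩ := h.exists_bd fun E => cw E
  refine ⟨cS * K * (1 + K) * (eN + eD + c₂ * eD) + K * (cW * (c₁ * eD)), by positivity,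
    fun m u b hu hb hle E => ?_⟩
  by_cases hE : nn (M.pl E) = 0
  · simpa [hE] using hle E
  have hb' : ∀ F, b * nn (M.pl F) ≤ ⌈b⌉₊ * nn (M.pl F) := fun F =>
    mul_le_mul_of_nonneg_right (Nat.le_ceil b) (h.N0 F)
  set β := ⌈b⌉₊ * eN + eD + c₂ * eD with hβ
  have h1 : M.Dm (fun F => -gam C nn m u (M.pl F)) β :=
    h.add (h.smul heN ⌈b⌉₊) heD (fun F => by linarith [hle F, hb' F]) (by omega)
  have h2 : M.Dm (fun F => -gam C nn m (C.T (φ ^ (2 * j)) m u) (M.pl F)) β :=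
    h.add (h.smul heN ⌈b⌉₊) (hc₂ m u b D eD hu hb hD heD hle)
      (fun F => by linarith [hb' F]) (by omega)
  have h3 : ∀ F, nn (M.pl F) ≠ 0 → |gam C nn m (C.T (φ ^ j) m u) (M.pl F)| ≤ cS * β / N₀ :=
    fun F hF => h.key (M.dv F) (hcS F hF) (by omega) hj hu h1 h2
  set b₁ : ℝ := cS * β / N₀ * K with hb₁
  have hb₁0 : 0 ≤ b₁ := by positivity
  set g : M.P → ℝ := fun F => gam C nn m (C.T (φ ^ j) m u) (M.pl F) with hg
  have hgf : (support g).Finite := h.fsg m _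
  have h4 : (support fun F => max (-1 * g F + -b₁ * nn (M.pl F)) 0).Finite :=
    fs_comp (fs_lin hgf h.fsN (-1) (-b₁)) (fun x => max x 0) (max_self 0)
  have h5 : M.Dm (fun F => max (-1 * g F + -b₁ * nn (M.pl F)) 0) (c₁ * eD) := by
    refine h.mono (h.bas.dm_pos _ _ (hc₁ m u b D eD hu hb hD heD hle)) (fun F => ?_) le_rfl
    by_cases hF : nn (M.pl F) = 0
    · simp [hF, hg]
    · refine max_le (le_trans ?_ (le_max_right _ _)) (le_max_right _ _)
      have h6 := (neg_le_abs _).trans (h3 F hF)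
      have h7 : cS * β / N₀ * 1 ≤ (cS * β / N₀ : ℝ) * (K * nn (M.pl F)) :=
        mul_le_mul_of_nonneg_left (hK F hF) (by positivity)
      change -g F ≤ _ at h6
      rw [hb₁]
      linarith
  have h6 := hcw E _ _ h4 h5
  change pb M (w E) _ ≤ _ at h6
  have h7 := pb_mono (w E) (fs_comp hgf Neg.neg neg_zero) (fs_lin h.fsN h4 b₁ 1) fun F => by
    have := le_max_left (-1 * g F + -b₁ * nn (M.pl F)) 0
    linarith
  rw [pb_neg _ hgf, pb_lin _ h.fsN h4, hg, ← h.g1 (hdw E), h.g2 (hdw E) (hw E) m hu] at h7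
  have h8 := mul_le_mul_of_nonneg_left (h.pbN_le (hdw E)) hb₁0
  have h9 := h.lim.inv j _ _ _ (hdw E) (hw E)
  have h10 : (1 : ℝ) ≤ r E := by exact_mod_cast (hw E).1
  have h11 : (cw E : ℝ) * (c₁ * eD : ℕ) ≤ cW * (c₁ * eD) := by
    push_cast
    exact mul_le_mul_of_nonneg_right (hcW E hE) (by positivity)
  have h12 := hK E hE
  have h13 := h.N0 E
  set x := nn (M.pl E)
  set y := gam C nn m u (M.pl E)
  set A : ℝ := cW * (c₁ * eD)
  have hA : 0 ≤ A := by positivity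
  have h14 : r E * -y ≤ r E * (b₁ * (x + 1) + A) := by
    have h15 : b₁ * nn (w E) ≤ b₁ * (r E * (x + 1)) :=
      mul_le_mul_of_nonneg_left (by linarith) hb₁0
    have h16 : A ≤ r E * A := le_mul_of_one_le_left hA h10
    rw [hg] at h6
    linarith
  have h15 := le_of_mul_le_mul_left h14 (by linarith)
  have h16 : b₁ * (1 + K) ≤ b / 2 + cS * K * (1 + K) * (eN + eD + c₂ * eD) := by
    have h17 : (β : ℝ) ≤ b * eN + (eN + eD + c₂ * eD) := by
      have := mul_le_mul_of_nonneg_right (Nat.ceil_lt_add_one hb).le (Nat.cast_nonneg (α := ℝ) eN)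
      rw [hβ]
      push_cast
      linarith
    have hN' : (N₀ : ℝ) = 2 * (cS * K * (1 + K) * eN) + 1 := by rw [hN₀]; push_cast; ring
    set q : ℝ := cS * K * (1 + K)
    have hq : 0 ≤ q := by positivity
    have h18 : b₁ * (1 + K) = q * β / N₀ := by rw [hb₁]; ring
    have h19 : (1 : ℝ) ≤ N₀ := by rw [hN']; have : 0 ≤ q * eN := by positivity
                                  linarith
    rw [h18, div_le_iff₀ (by linarith)]
    have h20 : q * β ≤ q * (b * eN + (eN + eD + c₂ * eD)) := mul_le_mul_of_nonneg_left h17 hq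
    have h21 : q * (eN + eD + c₂ * eD) ≤ q * (eN + eD + c₂ * eD) * N₀ :=
      le_mul_of_one_le_right (by positivity) h19
    have h22 : q * (b * eN) ≤ b / 2 * N₀ := by rw [hN']; nlinarith
    linarith
  have h17 : b₁ * (x + 1) ≤ b₁ * ((1 + K) * x) := mul_le_mul_of_nonneg_left (by linarith) hb₁0
  have h18 : A ≤ A * (K * x) := le_mul_of_one_le_right hA h12
  have h19 := mul_le_mul_of_nonneg_right h16 h13
  have h20 := hD0 E
  linarith

theorem unif (D : M.P →₀ ℤ) : ∃ (b : ℝ) (e : ℕ), ∀ (m : ℕ) (u : L), u ≠ 0 → u ∈ M.Sec m D →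
    (∀ E, -gam C nn m u (M.pl E) ≤ b * nn (M.pl E) + max (D E : ℝ) 0) ∧
    M.Dm (fun E => |gam C nn m u (M.pl E)|) e := by
  have hD : (support fun E => max (D E : ℝ) 0).Finite :=
    fs_comp (fs_cast (M := M) (f := D) D.hasFiniteSupport) (fun x => max x 0) (max_self 0)
  obtain ⟨c, hc0, hc⟩ := h.step hD fun E => le_max_right _ _
  obtain ⟨eD, heD⟩ := h.bas.dm_fin _ (hD.subset fun E hE => ne_of_gt hE)
  obtain ⟨eN, heN⟩ := h.exists_eN
  obtain ⟨c₁, hc₁⟩ := h.key1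
  set β := ⌈1 + 2 * c⌉₊ * eN + eD
  refine ⟨1 + 2 * c, β + (c₁ * β + c₁), fun m u hu hm => ?_⟩
  have h1 : ∀ (k : ℕ) (E), -gam C nn m u (M.pl E) ≤
      (m / 2 ^ k + 2 * c) * nn (M.pl E) + max (D E : ℝ) 0 := by
    intro k
    induction k with
    | zero =>
      intro E
      have h2 : ((-D E - m * kap C.d (M.pl E) : ℤ) : ℝ) ≤ (M.pl E).ord u := by
        exact_mod_cast (hm E).le hu
      have h3 := le_max_left (D E : ℝ) 0
      have h4 := mul_nonneg hc0 (h.N0 E)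
      simp only [gam, Ctx.fo]
      push_cast at h2 ⊢
      linarith
    | succ k ih =>
      intro E
      refine (hc m u _ hu (by positivity) ih E).trans (le_of_eq ?_)
      ring
  have h2 : ∀ E, -gam C nn m u (M.pl E) ≤ (1 + 2 * c) * nn (M.pl E) + max (D E : ℝ) 0 := by
    intro E
    have h3 : (m : ℝ) / 2 ^ m ≤ 1 := by
      rw [div_le_one (by positivity)]
      exact_mod_cast Nat.lt_two_pow_self.le
    have h4 := mul_le_mul_of_nonneg_right h3 (h.N0 E)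
    linarith [h1 m E]
  have h3 : M.Dm (fun E => -gam C nn m u (M.pl E)) β :=
    h.add (h.smul heN ⌈1 + 2 * c⌉₊) heD (fun E => by
      linarith [h2 E, mul_le_mul_of_nonneg_right (Nat.le_ceil (1 + 2 * c)) (h.N0 E)]) le_rfl
  refine ⟨h2, h.add (h.bas.dm_pos _ _ h3) (h.bas.dm_pos _ _ (hc₁ m β u hu h3)) (fun E => ?_) le_rfl⟩
  have h4 := le_max_left (-gam C nn m u (M.pl E)) 0
  have h5 := le_max_right (-gam C nn m u (M.pl E)) 0
  have h6 := le_max_left (gam C nn m u (M.pl E)) 0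
  have h7 := le_max_right (gam C nn m u (M.pl E)) 0
  exact abs_le.2 ⟨by linarith, by linarith⟩

theorem sec0 {D : M.P → ℤ} {u : L} (hu : ∀ E, -(D E : ℝ) ≤ (M.pl E).ord u) : u ∈ M.Sec 0 D :=
  fun E => Place.ge_of_le (by
    have : -D E ≤ (M.pl E).ord u := by exact_mod_cast hu E
    simpa using this)

theorem ord_gam {m : ℕ} {u u' : L} (hu : u ≠ 0) (hu' : u' ≠ 0) (v : Place ℂ L) :
    (v.ord (u / u') : ℝ) = gam C nn m u v - gam C nn m u' v := by
  rw [v.ord_div hu hu']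
  simp only [gam, Ctx.fo]
  push_cast
  ring

theorem b1 (D : M.P →₀ ℤ) : ∃ Y : Submodule ℂ L, FiniteDimensional ℂ Y ∧
    ∀ m : ℕ, ∃ a : L, a ≠ 0 ∧ ∀ u ∈ M.Sec m D, a * u ∈ Y := by
  obtain ⟨b, e, hb⟩ := h.unif D
  let D' : M.P → ℤ := fun E => ⌈b * nn (M.pl E)⌉ + max (D E) 0 - e * C.hm (M.pl E)
  have hD' : (support D').Finite := by
    refine ((h.fin.union D.hasFiniteSupport).union h.bas.fin_hm).subset fun E hE => ?_
    by_contra h1
    have h2 : nn (M.pl E) = 0 := by_contra fun h2 => h1 (Or.inl (Or.inl h2))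
    have h3 : D E = 0 := by_contra fun h3 => h1 (Or.inl (Or.inr h3))
    have h4 : C.hm (M.pl E) = 0 := by_contra fun h4 => h1 (Or.inr h4)
    exact hE (by simp [D', h2, h3, h4])
  refine ⟨M.Sec 0 D', h.bas.sec_fd D' hD', fun m => ?_⟩
  by_cases h1 : ∃ u₀ ∈ M.Sec m D, u₀ ≠ 0
  · obtain ⟨u₀, h1, h2⟩ := h1
    obtain ⟨z, -, hz0, hz⟩ := (hb m u₀ h2 h1).2
    refine ⟨z / u₀, div_ne_zero hz0 h2, fun u hu => ?_⟩
    by_cases h3 : u = 0
    · rw [h3, mul_zero]; exact zero_mem _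
    refine h.sec0 fun E => ?_
    rw [div_mul_eq_mul_div, mul_div_assoc, (M.pl E).ord_mul hz0 (div_ne_zero h3 h2)]
    have h4 := h.ord_gam (m := m) h3 h2 (M.pl E)
    have h5 := hz E
    have h6 := (hb m u h3 hu).1 E
    have h7 := le_abs_self (gam C nn m u₀ (M.pl E))
    have h8 := Int.le_ceil (b * nn (M.pl E))
    simp only [D']
    push_cast at h5 ⊢
    linarith
  · refine ⟨1, one_ne_zero, fun u hu => ?_⟩
    have h2 : u = 0 := by_contra fun h2 => h1 ⟨u, hu, h2⟩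
    rw [h2, mul_zero]
    exact zero_mem _

theorem b2 (D : M.P →₀ ℤ) : ∃ (e : ℕ) (Y : ℕ → Submodule ℂ L), (∀ i, FiniteDimensional ℂ (Y i)) ∧
    ∀ (m : ℕ) (u : L), u ≠ 0 → u ∈ M.Sec m D → ∃ z ∈ C.H ^ e, z ≠ 0 ∧ ∀ i : ℕ,
      z * (φ ^ i) z * (C.T (φ ^ i) m u / u) ∈ Y i ∧
      z * (φ ^ i) z / (C.T (φ ^ i) m u / u) ∈ Y i := by
  obtain ⟨b, e, hb⟩ := h.unif D
  let g : ℕ → M.P → ℤ := fun i E => ⨅ j, (M.pl E).ord ((φ ^ i) (C.y j))
  let D' : ℕ → M.P → ℤ := fun i E => -(e * C.hm (M.pl E) + e * g i E)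
  have hD' : ∀ i, (support (D' i)).Finite := fun i => by
    refine (h.bas.fin_hm.union (finite_iUnion fun j => M.fin_ord ((φ ^ i) (C.y j)))).subset
      fun E hE => ?_
    by_contra h1
    have h2 : C.hm (M.pl E) = 0 := by_contra fun h2 => h1 (Or.inl h2)
    have h3 : ∀ j, (M.pl E).ord ((φ ^ i) (C.y j)) = 0 := fun j =>
      by_contra fun h3 => h1 (Or.inr (mem_iUnion.2 ⟨j, h3⟩))
    exact hE (by simp only [D', g, h2, h3, ciInf_const, mul_zero, add_zero, neg_zero])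
  refine ⟨e, fun i => M.Sec 0 (D' i), fun i => h.bas.sec_fd _ (hD' i), fun m u hu hm => ?_⟩
  obtain ⟨z, hz1, hz0, hz⟩ := (hb m u hu hm).2
  refine ⟨z, hz1, hz0, fun i => ?_⟩
  have hT := h.dv.T_ne (φ ^ i) m u hu
  have hq := div_ne_zero hT hu
  have hφ : (φ ^ i) z ≠ 0 := (_root_.map_ne_zero _).2 hz0
  have h1 : ∀ E, |((M.pl E).ord (C.T (φ ^ i) m u / u) : ℝ)| - D' i E ≤
      (M.pl E).ord (z * (φ ^ i) z) := fun E => by
    obtain ⟨v, r, ho⟩ := h.dv.under (φ ^ i) (M.pl E)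
    have hv := (h.dv.dv_iff _ _ _ _ ho).1 (M.dv E)
    have h2 := pb_mono v (fs_comp (h.fsg m u) abs abs_zero)
      (fs_lin (fs_cast (M.fin_ord z)) (fs_cast h.bas.fin_hm) 1 (-e)) fun F => by
        have := hz F
        push_cast at this
        linarith
    rw [pb_lin v (fs_cast (M.fin_ord z)) (fs_cast h.bas.fin_hm), ← pb_cast v (M.fin_ord z),
      ← pb_cast v h.bas.fin_hm, ← M.pb_ord, ← M.pb_hm] at h2
    have h3 := (abs_pb v (h.fsg m u)).trans h2
    rw [← h.g1 hv] at h3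
    have h4 : g i E ≤ r * C.hm v := by
      obtain ⟨j, hj⟩ := exists_eq_ciInf_of_finite (f := fun j => v.ord (C.y j))
      rw [Ctx.hm, ← hj, ← ho.2]
      exact ciInf_le (Finite.bddBelow_range _) j
    have h5 : ((e * g i E : ℤ) : ℝ) ≤ ((e * (r * C.hm v) : ℤ) : ℝ) := by
      exact_mod_cast mul_le_mul_of_nonneg_left h4 (Int.natCast_nonneg e)
    have h6 := mul_le_mul_of_nonneg_left h3 (Nat.cast_nonneg (α := ℝ) r)
    have h7 := hz E
    rw [h.ord_gam (m := m) hT hu, h.g2 (M.dv E) ho m hu, (M.pl E).ord_mul hz0 hφ, ho.2]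
    have h8 := abs_sub (r * gam C nn m u v) (gam C nn m u (M.pl E))
    rw [abs_mul, Nat.abs_cast] at h8
    simp only [D']
    push_cast at h5 h7 ⊢
    linarith
  refine ⟨h.sec0 fun E => ?_, h.sec0 fun E => ?_⟩
  · rw [(M.pl E).ord_mul (mul_ne_zero hz0 hφ) hq]
    have h2 := neg_le_abs ((M.pl E).ord (C.T (φ ^ i) m u / u) : ℝ)
    have h3 := h1 E
    push_cast
    linarith
  · rw [(M.pl E).ord_div (mul_ne_zero hz0 hφ) hq]
    have h2 := le_abs_self ((M.pl E).ord (C.T (φ ^ i) m u / u) : ℝ)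
    have h3 := h1 E
    push_cast
    linarith

theorem b3 (m : ℕ) (u : L) (c : ℂ) (hu : u ≠ 0) (hc : C.T φ m u = c • u) : u ∈ M.Sec m 0 := by
  have hc0 : c ≠ 0 := fun h0 => h.dv.T_ne φ m u hu (by rw [hc, h0, zero_smul])
  have h1 : ∀ i : ℕ, C.T (φ ^ i) m u = c ^ i • u := fun i => by
    induction i with
    | zero => rw [h.T_zero, pow_zero, one_smul]
    | succ i ih =>
      rw [pow_succ, h.dv.T_mul, hc, pow_succ, mul_comm _ c, mul_smul, ← ih]
      simp only [Ctx.T, map_smul, smul_mul_assoc]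
  have h2 : ∀ (i : ℕ) (v : Place ℂ L), gam C nn m (C.T (φ ^ i) m u) v = gam C nn m u v :=
    fun i v => by simp only [h1, gam, Ctx.fo, v.ord_smul (pow_ne_zero _ hc0)]
  obtain ⟨β, hβ⟩ := h.bas.dm_fin (fun E => -gam C nn m u (M.pl E))
    ((h.fsg' m u).subset fun E hE => ne_of_gt hE)
  intro E
  obtain ⟨cv, hcv⟩ := h.bas.ht_ord _ (M.dv E)
  have h3 : |gam C nn m u (M.pl E)| ≤ 0 := le_of_div (c := cv * β) fun N hN => by
    obtain ⟨j, hj⟩ := h.kl N hN
    have := h.key (M.dv E) hcv hN hj hu hβ (by simpa only [h2] using hβ)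
    rwa [h2, ← zero_add (_ / _)] at this
  have h4 := abs_nonpos_iff.1 h3
  have h5 := mul_nonneg (Nat.cast_nonneg (α := ℝ) m) (h.N0 E)
  have h6 : (0 : ℝ) ≤ C.fo (M.pl E) m u := by
    simp only [gam] at h4
    linarith
  have h7 : 0 ≤ (M.pl E).ord u + m * kap C.d (M.pl E) := by exact_mod_cast h6
  exact Place.ge_of_le (by simp only [Pi.zero_apply]; omega)

end Hy

end BOOT

theorem blockBOOT (h1 : St_DV) (h2 : St_BAS) : St_BOOT := fun L _ _ n C M φ hk nn hl hf =>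
  have h : BOOT.Hy M φ nn := ⟨h1 L n C, h2 L n C M, hk, hl, hf⟩
  ⟨h.b1, h.b2, h.b3⟩

end Pool.Agent.Lib.GD
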