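import Pool.Agent.Lib.GD.Defs

/-! The statements of the blocks. -/

open Set Filter Pool.Agent.Lib.MP_9a2ae6_ag Pool.Agent.Lib.MP_e06174_ag
  Pool.Agent.Lib.MP_e39d36_ag

set_option linter.unusedSectionVars false
set_option linter.unusedVariables false

noncomputable section

namespace Pool.Agent.Lib.GD

/-! ### Heights -/

/-- The key inequality. -/
def St_KL : Prop := ∀ (k L : Type) [Field k] [Field L] [Algebra k L] (n : ℕ) (H : Submodule k L)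
  [FiniteDimensional k H] (y₀ : L) (x : Fin n → L), 0 < n → y₀ ≠ 0 → y₀ ∈ H →
    (∀ i, y₀ * x i ∈ H) → AlgebraicIndependent k x → ∀ φ : L →ₐ[k] L, CohHyp k n H φ →
    ∀ N : ℕ, 0 < N → ∀ᶠ j : ℕ in atTop, ∀ (u : L) (e : ℕ),
      Ht H e u → Ht H e ((φ ^ (2 * j)) u) → Dg k x (e / N) ((φ ^ j) u)

/-- No invariant functions. -/
def St_NIF : Prop := ∀ (L : Type) [Field L] [Algebra ℂ L] (n : ℕ) (C : Ctx L n)
  (φ : L →ₐ[ℂ] L), CohHyp ℂ n C.H φ → NIF C.H φ ∧ NIFall φ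

/-- The conductor of the homogeneous coordinate ring. -/
def St_CON : Prop := ∀ (L : Type) [Field L] [Algebra ℂ L] (n : ℕ) (C : Ctx L n),
  ∃ (i₁ : ℕ) (c : L), c ≠ 0 ∧ c ∈ C.H ^ i₁ ∧ ∀ (e : ℕ) (u : L),
    (∀ V : ValuationSubring L, (∀ a : ℂ, algebraMap ℂ L a ∈ V) →
      ∀ j, (∀ l, C.y l / C.y j ∈ V) → u / C.y j ^ e ∈ V) → c * u ∈ C.H ^ (e + i₁)

/-- Degree bounds height. -/
def St_DGH : Prop := ∀ (L : Type) [Field L] [Algebra ℂ L] (n : ℕ) (C : Ctx L n),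
  ∃ c : ℕ, ∀ (e : ℕ) (u : L), Dg ℂ C.x e u → Ht C.H (c * e) u

/-- Orders along a divisorial place grow linearly with the degree. -/
def St_IZ : Prop := ∀ (L : Type) [Field L] [Algebra ℂ L] (n : ℕ) (C : Ctx L n) (v : Place ℂ L),
  Dv n v → ∃ c : ℕ, ∀ (e : ℕ) (b : L), b ∈ C.H ^ e → b ≠ 0 → v.ord b - e * C.hm v ≤ c * e

/-! ### Divisorial places -/

/-- Facts on divisorial places and pull-back of forms. -/
structure DVF {L : Type} [Field L] [Algebra ℂ L] {n : ℕ} (C : Ctx L n) : Prop where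
  tb : ∀ (v : Place ℂ L) (z : Fin n → L) (i : Fin n), Adapt v z i → IsTranscendenceBasis ℂ z
  pres : ∀ (v : Place ℂ L) (z : Fin n → L) (i : Fin n), Adapt v z i → ∀ d, Dual z d →
    ∀ (a : Fin n) (f : L), v.Ge 0 f → v.Ge 0 (d a f)
  isKap : ∀ v : Place ℂ L, Dv n v → IsKap C.d v (kap C.d v)
  kap_eq : ∀ (v : Place ℂ L) (κ : ℤ), IsKap C.d v κ → kap C.d v = κ
  chain : ∀ (t : Fin n → L) (d : Fin n → Derivation ℂ L L), Dual t d → ∀ f : Fin n → L,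
    jac C.d f = jac d f * jac C.d t
  jac_ne : ∀ t : Fin n → L, IsTranscendenceBasis ℂ t → jac C.d t ≠ 0
  tb_comp : ∀ ψ : L →ₐ[ℂ] L, IsTranscendenceBasis ℂ (ψ ∘ C.x)
  alg : ∀ (ψ : L →ₐ[ℂ] L) (a : L), ∃ P : Polynomial L, P ≠ 0 ∧ P.eval₂ ψ.toRingHom a = 0
  jac_comp : ∀ (ψ : L →ₐ[ℂ] L) (f : Fin n → L),
    jac C.d (ψ ∘ f) = ψ (jac C.d f) * jac C.d (ψ ∘ C.x)
  T_mul : ∀ (ψ ψ' : L →ₐ[ℂ] L) (m : ℕ) (u : L), C.T (ψ * ψ') m u = C.T ψ m (C.T ψ' m u)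
  T_one : ∀ (m : ℕ) (u : L), C.T 1 m u = u
  T_ne : ∀ (ψ : L →ₐ[ℂ] L) (m : ℕ) (u : L), u ≠ 0 → C.T ψ m u ≠ 0
  under : ∀ (ψ : L →ₐ[ℂ] L) (w : Place ℂ L), ∃ v e, w.Over ψ v e
  above : ∀ (ψ : L →ₐ[ℂ] L) (v : Place ℂ L), ∃ (w : Place ℂ L) (e : ℕ), w.Over ψ v e
  dv_iff : ∀ (ψ : L →ₐ[ℂ] L) (w v : Place ℂ L) (e : ℕ), w.Over ψ v e → (Dv n w ↔ Dv n v)
  fo_T : ∀ (ψ : L →ₐ[ℂ] L) (w v : Place ℂ L) (e : ℕ), w.Over ψ v e → Dv n w →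
    ∀ (m : ℕ) (u : L), u ≠ 0 → C.fo w m (C.T ψ m u) + m = e * (C.fo v m u + m)

def St_DV : Prop := ∀ (L : Type) [Field L] [Algebra ℂ L] (n : ℕ) (C : Ctx L n), DVF C

/-! ### Smooth models -/

/-- Local rings of a smooth variety are local rings of an etale hypersurface. -/
def St_ET : Prop := ∀ (L : Type) [Field L] [Algebra ℂ L] (n : ℕ) (x : Fin n → L),
  IsTranscendenceBasis ℂ x → ∀ A : Subalgebra ℂ L, Algebra.Smooth ℂ A →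
    (∀ z, ∃ b ∈ A, b ≠ 0 ∧ b * z ∈ A) → ∀ T : Subring L, IsLoc T → LocOf A.toSubring T →
    ∃ (t : Fin n → L) (θ : L) (F : Polynomial (MvPolynomial (Fin n) ℂ)),
      IsTranscendenceBasis ℂ t ∧ F.Monic ∧
      F.eval₂ (MvPolynomial.aeval t : MvPolynomial (Fin n) ℂ →ₐ[ℂ] L).toRingHom θ = 0 ∧
      Un T (F.derivative.eval₂
        (MvPolynomial.aeval t : MvPolynomial (Fin n) ℂ →ₐ[ℂ] L).toRingHom θ) ∧
      LocOf (Algebra.adjoin ℂ (insert θ (range t))).toSubring T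

/-- Local coordinates. -/
def St_CRD : Prop := ∀ (L : Type) [Field L] [Algebra ℂ L] (n : ℕ) (x : Fin n → L),
  IsTranscendenceBasis ℂ x → ∀ A : Subalgebra ℂ L, Algebra.Smooth ℂ A →
    (∀ z, ∃ b ∈ A, b ≠ 0 ∧ b * z ∈ A) → Nml A.toSubring ∧
    ∀ T : Subring L, IsLoc T → LocOf A.toSubring T →
      ∃ t : Fin n → L, (∀ i, t i ∈ T) ∧ IsTranscendenceBasis ℂ t ∧
        ∀ d, Dual t d → ∀ i, ∀ f ∈ T, d i f ∈ T

/-- Prime divisors of a smooth variety are locally principal. -/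
def St_FAC : Prop := ∀ (L : Type) [Field L] [Algebra ℂ L] (n : ℕ) (x : Fin n → L),
  IsTranscendenceBasis ℂ x → ∀ A : Subalgebra ℂ L, Algebra.Smooth ℂ A →
    (∀ z, ∃ b ∈ A, b ≠ 0 ∧ b * z ∈ A) → ∀ T : Subring L, IsLoc T → LocOf A.toSubring T →
    ∀ E : Place ℂ L, LocOf T E.O.toSubring →
      ∃ f ∈ T, f ≠ 0 ∧ E.Ge 1 f ∧ ∀ a ∈ T, E.Ge 1 a → a / f ∈ T

/-- Prime divisors are divisorial places and have a degree. -/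
def St_DG : Prop := ∀ (K : Type) [Field K] [Algebra ℂ K] (n : ℕ) (x : Fin n → K),
  IsTranscendenceBasis ℂ x → ∀ (X : Var K) (Q : Var.Prj X), (∀ E : X.PD, Dv n (plc E)) ∧
    ∃ dg : X.PD → ℕ, (∀ E, 0 < dg E) ∧
      (∀ E : X.PD, ∃ z ∈ Q.Fm (dg E), z ≠ 0 ∧
        dg E * (⨅ j, (plc E).ord (Q.y j)) < (plc E).ord z) ∧
      ∃ c : ℕ, ∀ (e : ℕ) (z : K), z ∈ Q.Fm e → z ≠ 0 → ∀ F : Finset X.PD,
        ∑ E ∈ F, ((plc E).ord z - e * ⨅ j, (plc E).ord (Q.y j)) * dg E ≤ c * e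

/-- Logarithmic forms. -/
def St_LG : Prop := ∀ (K : Type) [Field K] [Algebra ℂ K] (n : ℕ) (C : Ctx K n) (X : Var K)
  (Q : Var.Prj X), (∀ E : X.PD, Var.Cart (Finsupp.single E 1)) → (∀ E : X.PD, Dv n (plc E)) →
    ∃ ρ : ℕ, ∀ Γ : Fin ρ → X.PD, Function.Injective Γ → ∃ η : Fin n → K,
      (∃ i, η ∉ frmV C.d (plc (Γ i))) ∧ ∀ (v : Place ℂ K) (x : X.Pt),
        Dom (X.O x) v.O.toSubring → η ∈ logV C.d v ∧
          ((∀ i, ¬X.O x ≤ X.O (Γ i).1) → η ∈ frmV C.d v)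

/-- The model. -/
def St_MOD : Prop := ∀ (L : Type) [Field L] [Algebra ℂ L] (n : ℕ) (C : Ctx L n),
  (∀ i, Algebra.Smooth ℂ (chart C.y i)) → Nonempty (Model C)

/-! ### The limit divisor -/

/-- Basic facts on heights and bounded divisors. -/
structure Bas {L : Type} [Field L] [Algebra ℂ L] {n : ℕ} {C : Ctx L n} (M : Model C) : Prop where
  fdH : ∀ e : ℕ, FiniteDimensional ℂ ↥(C.H ^ e)
  ge_hm : ∀ (v : Place ℂ L) (e : ℕ) (b : L), b ∈ C.H ^ e → v.Ge (e * C.hm v) b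
  fin_hm : {E | C.hm (M.pl E) ≠ 0}.Finite
  ht_mono : ∀ (e e' : ℕ) (u : L), e ≤ e' → Ht C.H e u → Ht C.H e' u
  ht_fd : ∀ Y : Submodule ℂ L, FiniteDimensional ℂ Y →
    ∃ e, ∀ a ∈ Y, ∀ b ∈ Y, Ht C.H e (a / b)
  ht_ord : ∀ v : Place ℂ L, Dv n v → ∃ c : ℕ, ∀ (e : ℕ) (u : L), Ht C.H e u → |v.ord u| ≤ c * e
  dm_mono : ∀ (D D' : M.P → ℝ) (e e' : ℕ), D' ≤ D → e ≤ e' → M.Dm D e → M.Dm D' e'
  dm_add : ∀ (D D' : M.P → ℝ) (e e' : ℕ), M.Dm D e → M.Dm D' e' → M.Dm (D + D') (e + e')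
  dm_nsmul : ∀ (D : M.P → ℝ) (e t : ℕ), M.Dm D e → M.Dm (t • D) (t * e)
  dm_pos : ∀ (D : M.P → ℝ) (e : ℕ), M.Dm D e → M.Dm (fun E => max (D E) 0) e
  dm_fin : ∀ D : M.P → ℝ, {E | 0 < D E}.Finite → ∃ e, M.Dm D e
  fin_dm : ∀ (D : M.P → ℝ) (e : ℕ), M.Dm D e → {E | 0 < D E}.Finite
  ht_of_dm : ∃ i₁ : ℕ, ∀ (u : L) (e : ℕ), u ≠ 0 →
    M.Dm (fun E => -((M.pl E).ord u : ℝ)) e → Ht C.H (e + i₁) u
  dm_of_ht : ∀ (u : L) (e : ℕ), u ≠ 0 → Ht C.H e u →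
    M.Dm (fun E => ((M.pl E).ord u : ℝ)) e ∧ M.Dm (fun E => -((M.pl E).ord u : ℝ)) e
  dm_div : ∃ c : ℕ, ∀ (G : M.P → ℤ) (N e : ℕ), 0 < N →
    M.Dm (fun E => (N : ℝ) * G E) e → M.Dm (fun E => (G E : ℝ)) (c * e / N)
  dm_card : ∃ c : ℕ, ∀ (D : M.P → ℝ) (e : ℕ), M.Dm D e → ∀ F : Finset M.P,
    ∑ E ∈ F, D E ≤ c * e
  dm_pb : ∀ v : Place ℂ L, Dv n v → ∃ c : ℕ, ∀ (D : M.P → ℝ) (e : ℕ),
    (Function.support D).Finite → M.Dm D e → ∑ᶠ E, D E * M.mu v E ≤ c * e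
  dm_T : ∀ ψ : L →ₐ[ℂ] L, ∃ c : ℕ, ∀ (D D' : M.P → ℝ) (e : ℕ), (Function.support D).Finite →
    M.Dm D e → (∀ E, ∃ (v : Place ℂ L) (r : ℕ), (M.pl E).Over ψ v r ∧
      D' E ≤ r * ∑ᶠ F, D F * M.mu v F) → M.Dm D' (c * e)
  sec_fd : ∀ D : M.P → ℤ, (Function.support D).Finite → FiniteDimensional ℂ (M.Sec 0 D)
  sec_T : ∀ ψ : L →ₐ[ℂ] L, ∃ c : ℕ, ∀ (m e : ℕ) (u : L), u ≠ 0 →
    M.Dm (fun E => -(C.fo (M.pl E) m u : ℝ)) e →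
      M.Dm (fun E => -(C.fo (M.pl E) m (C.T ψ m u) : ℝ)) (c * e)
  ht_div : ∃ c : ℕ, ∀ (m e : ℕ) (u u' : L), u ≠ 0 → u' ≠ 0 →
    M.Dm (fun E => -(C.fo (M.pl E) m u : ℝ)) e → M.Dm (fun E => -(C.fo (M.pl E) m u' : ℝ)) e →
      Ht C.H (c * m + 2 * e + c) (u / u')
  dm_fo : ∃ c : ℕ, ∀ (m e : ℕ) (u : L), u ≠ 0 → M.Dm (fun E => -(C.fo (M.pl E) m u : ℝ)) e →
    M.Dm (fun E => (C.fo (M.pl E) m u : ℝ)) (c * m + e + c)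
  fin_fo : ∀ (m : ℕ) (u : L), {E | C.fo (M.pl E) m u ≠ 0}.Finite

def St_BAS : Prop := ∀ (L : Type) [Field L] [Algebra ℂ L] (n : ℕ) (C : Ctx L n) (M : Model C),
  Bas M

/-- Existence of the limit. -/
def St_LIM : Prop := ∀ (L : Type) [Field L] [Algebra ℂ L] (n : ℕ) (C : Ctx L n) (M : Model C)
  (φ : L →ₐ[ℂ] L), KLP C.H φ → ∀ (S : Set ℕ) (s : ℕ → L) (D : M.P →₀ ℤ), S.Infinite →
    (∀ m ∈ S, s m ≠ 0 ∧ s m ∈ M.Sec m D) → ∃ nn, M.Lim φ nn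

/-- The limit divisor has finitely many components. -/
def St_FIN : Prop := ∀ (L : Type) [Field L] [Algebra ℂ L] (n : ℕ) (C : Ctx L n) (M : Model C)
  (φ : L →ₐ[ℂ] L), NIF C.H φ → ∀ nn, M.Lim φ nn → {E | nn (M.pl E) ≠ 0}.Finite

/-- Divisors of twisted pluricanonical forms stay at bounded distance from the limit. -/
def St_BOOT : Prop := ∀ (L : Type) [Field L] [Algebra ℂ L] (n : ℕ) (C : Ctx L n) (M : Model C)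
  (φ : L →ₐ[ℂ] L), KLP C.H φ → ∀ nn, M.Lim φ nn → {E | nn (M.pl E) ≠ 0}.Finite →
    (∀ D : M.P →₀ ℤ, ∃ Y : Submodule ℂ L, FiniteDimensional ℂ Y ∧
      ∀ m : ℕ, ∃ a : L, a ≠ 0 ∧ ∀ u ∈ M.Sec m D, a * u ∈ Y) ∧
    (∀ D : M.P →₀ ℤ, ∃ (e : ℕ) (Y : ℕ → Submodule ℂ L), (∀ i, FiniteDimensional ℂ (Y i)) ∧
      ∀ (m : ℕ) (u : L), u ≠ 0 → u ∈ M.Sec m D → ∃ z ∈ C.H ^ e, z ≠ 0 ∧ ∀ i : ℕ,
        z * (φ ^ i) z * (C.T (φ ^ i) m u / u) ∈ Y i ∧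
        z * (φ ^ i) z / (C.T (φ ^ i) m u / u) ∈ Y i) ∧
    ∀ (m : ℕ) (u : L) (c : ℂ), u ≠ 0 → C.T φ m u = c • u → u ∈ M.Sec m 0

/-! ### Invariant classes in a bounded family -/

/-- The argument on a curve over the function field of the square. -/
def St_CUR : Prop := ∀ (k F Λ Ω : Type) [Field k] [CharZero k] [IsAlgClosed k] [Field F] [Field Λ]
  [Field Ω] [Algebra k F] [Algebra k Λ] [Algebra k Ω] [Algebra F Ω] [Algebra Λ Ω]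
  [IsScalarTower k F Ω] [IsScalarTower k Λ Ω] (t : F), IsCoord k t →
    IsBC Λ (IsScalarTower.toAlgHom k F Ω) → ∀ φx φy : Ω →ₐ[F] Ω,
    (∀ w, φx (φy w) = φy (φx w)) →
    (∀ a : Λ, φx (algebraMap Λ Ω a) ∈ range (algebraMap Λ Ω)) →
    (∀ a : Λ, φy (algebraMap Λ Ω a) ∈ range (algebraMap Λ Ω)) →
    (∀ a : Λ, ∃ P : Polynomial Λ, P ≠ 0 ∧
      P.eval₂ ((φx.comp φy).toRingHom.comp (algebraMap Λ Ω)) (algebraMap Λ Ω a) = 0) →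
    (∀ p : ℕ, 0 < p → ∀ a : Λ, (φx ∘ φy)^[p] (algebraMap Λ Ω a) = algebraMap Λ Ω a →
      a ∈ range (algebraMap k Λ)) →
    ∀ hx hy zx zy : Ω, φy hx = hx → φx hy = hy →
    Star (Algebra.adjoin Λ (range (algebraMap F Ω)) : Set Ω) (φx ∘ φy) hx zx →
    Star (Algebra.adjoin Λ (range (algebraMap F Ω)) : Set Ω) (φx ∘ φy) hy zy →
    (∃ (σ : Type) (_ : Fintype σ) (a b : σ → F) (μx μy : σ → Λ), LinearIndependent k μx ∧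
      LinearIndependent k μy ∧
      hx = (∑ i, algebraMap Λ Ω (μx i) * algebraMap F Ω (a i)) /
        ∑ i, algebraMap Λ Ω (μx i) * algebraMap F Ω (b i) ∧
      hy = (∑ i, algebraMap Λ Ω (μy i) * algebraMap F Ω (a i)) /
        ∑ i, algebraMap Λ Ω (μy i) * algebraMap F Ω (b i)) →
    ∃ (r : Ω) (μ : Λ) (ρ : F), r ≠ 0 ∧ μ ≠ 0 ∧ ρ ≠ 0 ∧
      hx * φx r = algebraMap Λ Ω μ * algebraMap F Ω ρ * r

/-- Existence of base change. -/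
def St_BC : Prop := ∀ (L K : Type) [Field L] [Field K] [Algebra ℂ L] [Algebra ℂ K],
  IsDomain (TensorProduct ℂ L K)

/-- One step of the descent of the constants. -/
def St_STEP : Prop := ∀ (L : Type) [Field L] [Algebra ℂ L] (φ : L →ₐ[ℂ] L),
  (∀ a : L, ∃ P : Polynomial L, P ≠ 0 ∧ P.eval₂ φ.toRingHom a = 0) → NIFall φ →
  ∀ (k F Λ Ω : Type) [Field k] [IsAlgClosed k] [Field F] [Field Λ] [Field Ω] [Algebra ℂ k]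
    [Algebra ℂ F] [Algebra ℂ Λ] [Algebra ℂ Ω] [Algebra k F] [Algebra k Λ] [Algebra k Ω]
    [Algebra F Ω] [Algebra Λ Ω] [IsScalarTower ℂ k F] [IsScalarTower ℂ k Λ] [IsScalarTower ℂ F Ω]
    [IsScalarTower ℂ Λ Ω] [IsScalarTower k F Ω] [IsScalarTower k Λ Ω] (t : F), IsCoord k t →
    ∀ ι : L →ₐ[ℂ] Λ, IsBC k ι → IsBC F ((IsScalarTower.toAlgHom ℂ Λ Ω).comp ι) →
    ∀ (ψ₀ : Λ →ₐ[k] Λ) (ψ : Ω →ₐ[F] Ω), (∀ a, ψ₀ (ι a) = ι (φ a)) →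
    (∀ a, ψ (algebraMap Λ Ω a) = algebraMap Λ Ω (ψ₀ a)) → ∀ h z : Ω,
    Star (Algebra.adjoin F (range ((IsScalarTower.toAlgHom ℂ Λ Ω).comp ι)) : Set Ω) ψ h z →
    ∃ (r : Ω) (μ : Λ) (ρ : F), r ≠ 0 ∧ μ ≠ 0 ∧ ρ ≠ 0 ∧
      h * ψ r = algebraMap Λ Ω μ * algebraMap F Ω ρ * r

/-- Bounded cocycles are cohomologous to cocycles defined over the complex numbers. -/
def St_TH : Prop := ∀ (L : Type) [Field L] [Algebra ℂ L] (φ : L →ₐ[ℂ] L),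
  (∀ a : L, ∃ P : Polynomial L, P ≠ 0 ∧ P.eval₂ φ.toRingHom a = 0) → NIFall φ →
  ∀ (K Ω : Type) [Field K] [IsAlgClosed K] [Field Ω] [Algebra ℂ K] [Algebra ℂ Ω] [Algebra K Ω]
    [IsScalarTower ℂ K Ω] (ι : L →ₐ[ℂ] Ω), IsBC K ι → ∀ ψ : Ω →ₐ[K] Ω,
    (∀ a, ψ (ι a) = ι (φ a)) → ∀ h z : Ω, Star (Algebra.adjoin K (range ι) : Set Ω) ψ h z →
    ∃ (ρ : K) (μ : L) (u : Ω), ρ ≠ 0 ∧ μ ≠ 0 ∧ u ≠ 0 ∧ h * ψ u = algebraMap K Ω ρ * ι μ * u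

/-- Two members of a bounded family of cocycles are cohomologous. -/
def St_COB : Prop := ∀ (L : Type) [Field L] [Algebra ℂ L] (φ : L →ₐ[ℂ] L),
  (∀ a : L, ∃ P : Polynomial L, P ≠ 0 ∧ P.eval₂ φ.toRingHom a = 0) → NIFall φ →
  ∀ (S : Set ℕ) (h z : ℕ → L) (Z : Submodule ℂ L) (Y : ℕ → Submodule ℂ L), S.Infinite →
    FiniteDimensional ℂ Z → (∀ i, FiniteDimensional ℂ (Y i)) →
    (∀ m ∈ S, h m ≠ 0 ∧ z m ≠ 0 ∧ z m ∈ Z ∧ ∀ i : ℕ,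
      z m * φ^[i] (z m) * coc φ (h m) i ∈ Y i ∧ z m * φ^[i] (z m) / coc φ (h m) i ∈ Y i) →
    ∃ m ∈ S, ∃ m' ∈ S, m' < m ∧ ∃ (u : L) (c : ℂ), u ≠ 0 ∧ h m * u = c • (h m' * φ u)

/-- The theorem. -/
def St_MAIN : Prop := ∀ (L ι : Type) [Field L] [Algebra ℂ L] [Finite ι] [Nonempty ι] (y : ι → L)
  (n : ℕ), 0 < n → Algebra.trdeg ℂ L = n → SmoothModel y → ∀ φ : L →ₐ[ℂ] L,
    CohHyp ℂ n (Submodule.span ℂ (range y)) φ →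
    kappaSigma ℂ L n = ⊥ ∨ kappaSigma ℂ L n = 0 ∧ kodaira ℂ L n = 0

end Pool.Agent.Lib.GD
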