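import Pool.Agent.Lib.GD.Blue

/-! Two members of a bounded family of cocycles are cohomologous: an ultrapower argument. -/

open Set Filter

set_option linter.unusedSectionVars false
set_option linter.unusedVariables false

noncomputable section

namespace Pool.Agent.Lib.GD

namespace COB

/-- A surjective image of the ring of complex sequences that is a field is algebraically closed. -/
theorem algClosed {K : Type} [Field K] (mk : (ℕ → ℂ) →+* K) (hs : Function.Surjective mk) :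
    IsAlgClosed K := by
  refine IsAlgClosed.of_exists_root K fun p hp hirr => ?_
  obtain ⟨q, hq, hd, hm⟩ := Polynomial.lifts_and_natDegree_eq_and_monic
    (Polynomial.mem_lifts_of_surjective hs p) hp
  have hpos : 0 < p.natDegree := hirr.natDegree_pos
  have h1 : ∀ m : ℕ, ∃ x : ℂ, (q.map (Pi.evalRingHom (fun _ : ℕ => ℂ) m)).eval x = 0 := by
    intro m
    have h2 : (q.map (Pi.evalRingHom (fun _ : ℕ => ℂ) m)).natDegree = q.natDegree :=
      hm.natDegree_map _
    refine IsAlgClosed.exists_root _ ?_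
    intro h3
    have := Polynomial.natDegree_eq_of_degree_eq_some (n := 0) h3
    omega
  choose r hr using h1
  have h4 : q.eval r = 0 := by
    funext m
    have := hr m
    rw [Polynomial.eval_map] at this
    have h5 := Polynomial.hom_eval₂ q (RingHom.id _) (Pi.evalRingHom (fun _ : ℕ => ℂ) m) r
    rw [RingHom.comp_id] at h5
    change _ = Polynomial.eval₂ _ (r m) q at h5
    rw [this] at h5
    exact h5
  refine ⟨mk r, ?_⟩
  rw [← hq, Polynomial.eval_map, Polynomial.eval₂_at_apply, h4, map_zero]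

section abstract

variable {L K W : Type} [Field L] [Field K] [Field W] [Algebra ℂ L] [Algebra ℂ K] [Algebra ℂ W]
  [Algebra K W] [IsScalarTower ℂ K W]

/-- The data of an ultrapower. -/
structure UP (U : Ultrafilter ℕ) (φ : L →ₐ[ℂ] L) (mK : (ℕ → ℂ) →+* K) (mW : (ℕ → L) →+* W)
    (j : L →ₐ[ℂ] W) (Φ : W →ₐ[K] W) : Prop where
  sK : Function.Surjective mK
  sW : Function.Surjective mW
  zero : ∀ f, mW f = 0 ↔ ∀ᶠ m in (U : Filter ℕ), f m = 0
  alg : ∀ a, algebraMap K W (mK a) = mW fun m => algebraMap ℂ L (a m)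
  cst : ∀ a, j a = mW fun _ => a
  ph : ∀ f, Φ (mW f) = mW fun m => φ (f m)

variable {U : Ultrafilter ℕ} {φ : L →ₐ[ℂ] L} {mK : (ℕ → ℂ) →+* K} {mW : (ℕ → L) →+* W}
  {j : L →ₐ[ℂ] W} {Φ : W →ₐ[K] W}

theorem UP.eq_iff (h : UP U φ mK mW j Φ) (f g : ℕ → L) :
    mW f = mW g ↔ ∀ᶠ m in (U : Filter ℕ), f m = g m := by
  rw [← sub_eq_zero, ← map_sub, h.zero]
  simp only [Pi.sub_apply, sub_eq_zero]

theorem UP.ne_iff (h : UP U φ mK mW j Φ) (f : ℕ → L) :
    mW f ≠ 0 ↔ ∀ᶠ m in (U : Filter ℕ), f m ≠ 0 := by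
  rw [Ne, h.zero, Ultrafilter.eventually_not]

theorem UP.zeroK (h : UP U φ mK mW j Φ) (a : ℕ → ℂ) :
    mK a = 0 ↔ ∀ᶠ m in (U : Filter ℕ), a m = 0 := by
  rw [← (algebraMap K W).injective.eq_iff, map_zero, h.alg, h.zero]
  simp only [map_eq_zero]

theorem UP.sum (h : UP U φ mK mW j Φ) (t : Finset L) (G : L → ℕ → ℂ) :
    ∑ a ∈ t, mK (G a) • j a = mW fun m => ∑ a ∈ t, G a m • a := by
  have : (fun m => ∑ a ∈ t, G a m • a) =
      ∑ a ∈ t, ((fun m => algebraMap ℂ L (G a m)) * fun _ => a) := by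
    funext m
    simp only [Finset.sum_apply, Pi.mul_apply, Algebra.smul_def]
  rw [this, map_sum]
  refine Finset.sum_congr rfl fun a _ => ?_
  rw [map_mul, Algebra.smul_def, h.alg, h.cst]

theorem UP.indep (h : UP U φ mK mW j Φ) (s : Set L) (hs : LinearIndepOn ℂ id s) :
    LinearIndepOn K j s := by
  rw [linearIndepOn_iff'] at hs ⊢
  intro t g hts h0 a ha
  choose G hG using fun a => h.sK (g a)
  have h1 : ∑ a ∈ t, mK (G a) • j a = 0 := by
    rw [← h0]
    exact Finset.sum_congr rfl fun a _ => by rw [hG]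
  rw [h.sum, h.zero] at h1
  rw [← hG, h.zeroK]
  filter_upwards [h1] with m hm
  exact hs t (fun a => G a m) hts hm a ha

theorem UP.mem (h : UP U φ mK mW j Φ) (Y : Submodule ℂ L) (hY : FiniteDimensional ℂ Y)
    (f : ℕ → L) (hf : ∀ᶠ m in (U : Filter ℕ), f m ∈ Y) :
    mW f ∈ Algebra.adjoin K (range j) := by
  obtain ⟨t, ht⟩ : Y.FG := Module.Finite.iff_fg.mp hY
  have h1 : ∀ m, ∃ c : L → ℂ, f m ∈ Y → ∑ a ∈ t, c a • a = f m := by
    intro m
    by_cases hm : f m ∈ Y
    · rw [← ht, Submodule.mem_span_finset] at hm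
      obtain ⟨c, -, hc⟩ := hm
      exact ⟨c, fun _ => hc⟩
    · exact ⟨0, fun h' => absurd h' hm⟩
  choose c hc using h1
  have h2 : mW f = ∑ a ∈ t, mK (fun m => c m a) • j a := by
    rw [h.sum, h.eq_iff]
    filter_upwards [hf] with m hm
    exact (hc m hm).symm
  rw [h2]
  exact Subalgebra.sum_mem _ fun a _ =>
    Subalgebra.smul_mem _ (Algebra.subset_adjoin (mem_range_self a)) _

theorem UP.iter (h : UP U φ mK mW j Φ) (f : ℕ → L) (i : ℕ) :
    Φ^[i] (mW f) = mW fun m => φ^[i] (f m) := by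
  induction i with
  | zero => rfl
  | succ i ih =>
    simp only [Function.iterate_succ_apply']
    rw [ih, h.ph]

theorem UP.cocy (h : UP U φ mK mW j Φ) (f : ℕ → L) (i : ℕ) :
    coc Φ (mW f) i = mW fun m => coc φ (f m) i := by
  have : (fun m => coc φ (f m) i) = ∏ l ∈ Finset.range i, fun m => φ^[l] (f m) := by
    funext m
    simp only [coc, Finset.prod_apply]
  rw [this, map_prod]
  exact Finset.prod_congr rfl fun l _ => h.iter f l

theorem UP.div (h : UP U φ mK mW j Φ) (f g : ℕ → L) (hg : ∀ᶠ m in (U : Filter ℕ), g m ≠ 0) :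
    mW f / mW g = mW fun m => f m / g m := by
  rw [div_eq_iff ((h.ne_iff g).2 hg), ← map_mul, h.eq_iff]
  filter_upwards [hg] with m hm
  simp only [Pi.mul_apply]
  rw [div_mul_cancel₀ _ hm]

theorem iter_ne (φ : L →ₐ[ℂ] L) (a : L) (ha : a ≠ 0) (i : ℕ) : φ^[i] a ≠ 0 := by
  induction i with
  | zero => exact ha
  | succ i ih =>
    rw [Function.iterate_succ_apply']
    exact (map_ne_zero φ).2 ih

theorem coc_ne (φ : L →ₐ[ℂ] L) (a : L) (ha : a ≠ 0) (i : ℕ) : coc φ a i ≠ 0 :=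
  Finset.prod_ne_zero_iff.2 fun l _ => iter_ne φ a ha l

/-- The composite field. -/
abbrev Om (K : Type) [Field K] [Algebra K W] (j : L →ₐ[ℂ] W) : IntermediateField K W :=
  IntermediateField.adjoin K (range j)

/-- The embedding into the composite field. -/
def io (K : Type) [Field K] [Algebra ℂ K] [Algebra K W] [IsScalarTower ℂ K W] (j : L →ₐ[ℂ] W) :
    L →ₐ[ℂ] Om K j where
  toFun := fun a => ⟨j a, IntermediateField.subset_adjoin K _ ⟨a, rfl⟩⟩
  map_one' := Subtype.ext (map_one j)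
  map_mul' := fun a b => Subtype.ext (map_mul j a b)
  map_zero' := Subtype.ext (map_zero j)
  map_add' := fun a b => Subtype.ext (map_add j a b)
  commutes' := fun c => Subtype.ext (j.commutes c)

theorem mem_iff (j : L →ₐ[ℂ] W) (w : Om K j) :
    w ∈ Algebra.adjoin K (range (io K j)) ↔ (w : W) ∈ Algebra.adjoin K (range j) := by
  have h1 : (Algebra.adjoin K (range (io K j))).map (Om K j).val = Algebra.adjoin K (range j) := by
    rw [AlgHom.map_adjoin, ← range_comp]
    rfl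
  rw [← h1, Subalgebra.mem_map]
  constructor
  · exact fun h => ⟨w, h, rfl⟩
  · rintro ⟨x, hx, he⟩
    have : x = w := Subtype.ext he
    exact this ▸ hx

theorem le_Om (j : L →ₐ[ℂ] W) {w : W} (hw : w ∈ Algebra.adjoin K (range j)) : w ∈ Om K j :=
  IntermediateField.algebra_adjoin_le_adjoin K _ hw

theorem UP.isBC (h : UP U φ mK mW j Φ) : IsBC K (io K j) := by
  refine ⟨fun s hs => ?_, fun w => ?_⟩
  · have h1 := h.indep s hs
    exact LinearIndepOn.of_comp (Om K j).val.toLinearMap h1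
  · obtain ⟨r, hr, s, hs, he⟩ := IntermediateField.mem_adjoin_iff_div.1 w.2
    by_cases h0 : s = 0
    · refine ⟨1, one_mem _, one_ne_zero, ?_⟩
      have : w = 0 := Subtype.ext (by rw [he, h0, div_zero]; rfl)
      rw [this, mul_zero]
      exact zero_mem _
    · refine ⟨⟨s, le_Om j hs⟩, (mem_iff j _).2 hs, fun h' => h0 (congrArg Subtype.val h'), ?_⟩
      rw [mem_iff]
      change s * (w : W) ∈ _
      rw [he, mul_div_cancel₀ _ h0]
      exact hr

theorem UP.stab (h : UP U φ mK mW j Φ) {w : W} (hw : w ∈ Om K j) : Φ w ∈ Om K j := by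
  have h1 : (Om K j).map Φ ≤ Om K j := by
    rw [IntermediateField.adjoin_map]
    refine IntermediateField.adjoin.mono K _ _ ?_
    rintro _ ⟨_, ⟨a, rfl⟩, rfl⟩
    exact ⟨φ a, by rw [h.cst, h.cst, h.ph]⟩
  exact h1 ⟨w, hw, rfl⟩

/-- The restriction of the endomorphism. -/
def UP.ps (h : UP U φ mK mW j Φ) : Om K j →ₐ[K] Om K j where
  toFun := fun w => ⟨Φ w, h.stab w.2⟩
  map_one' := Subtype.ext (map_one Φ)
  map_mul' := fun a b => Subtype.ext (map_mul Φ (a : W) b)
  map_zero' := Subtype.ext (map_zero Φ)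
  map_add' := fun a b => Subtype.ext (map_add Φ (a : W) b)
  commutes' := fun c => Subtype.ext (Φ.commutes c)

theorem UP.ps_iter (h : UP U φ mK mW j Φ) (w : Om K j) (i : ℕ) :
    ((h.ps^[i] w : Om K j) : W) = Φ^[i] (w : W) := by
  induction i with
  | zero => rfl
  | succ i ih =>
    simp only [Function.iterate_succ_apply']
    rw [← ih]
    rfl

theorem UP.ps_coc (h : UP U φ mK mW j Φ) (w : Om K j) (i : ℕ) :
    ((coc h.ps w i : Om K j) : W) = coc Φ (w : W) i := by
  unfold coc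
  have := map_prod (Om K j).val (fun l => h.ps^[l] w) (Finset.range i)
  refine Eq.trans this (Finset.prod_congr rfl fun l _ => h.ps_iter w l)

theorem UP.main (hT : St_TH) (h : UP U φ mK mW j Φ) (hU : (U : Filter ℕ) ≤ atTop)
    (ha : ∀ a : L, ∃ P : Polynomial L, P ≠ 0 ∧ P.eval₂ φ.toRingHom a = 0) (hN : NIFall φ)
    (S : Set ℕ) (hS : ∀ᶠ m in (U : Filter ℕ), m ∈ S) (hh z : ℕ → L) (Z : Submodule ℂ L)
    (Y : ℕ → Submodule ℂ L) (hZ : FiniteDimensional ℂ Z) (hY : ∀ i, FiniteDimensional ℂ (Y i))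
    (H : ∀ m ∈ S, hh m ≠ 0 ∧ z m ≠ 0 ∧ z m ∈ Z ∧ ∀ i : ℕ,
      z m * φ^[i] (z m) * coc φ (hh m) i ∈ Y i ∧ z m * φ^[i] (z m) / coc φ (hh m) i ∈ Y i) :
    ∃ m ∈ S, ∃ m' ∈ S, m' < m ∧ ∃ (u : L) (c : ℂ), u ≠ 0 ∧ hh m * u = c • (hh m' * φ u) := by
  haveI : IsAlgClosed K := algClosed mK h.sK
  have hz : mW z ∈ Algebra.adjoin K (range j) :=
    h.mem Z hZ z (hS.mono fun m hm => (H m hm).2.2.1)
  have hz0 : mW z ≠ 0 := (h.ne_iff z).2 (hS.mono fun m hm => (H m hm).2.1)
  have hh0 : mW hh ≠ 0 := (h.ne_iff hh).2 (hS.mono fun m hm => (H m hm).1)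
  have h1 : ∀ i, mW z * Φ^[i] (mW z) * coc Φ (mW hh) i ∈ Algebra.adjoin K (range j) := by
    intro i
    rw [h.iter, h.cocy, ← map_mul, ← map_mul]
    exact h.mem (Y i) (hY i) _ (hS.mono fun m hm => ((H m hm).2.2.2 i).1)
  have h2 : ∀ i, mW z * Φ^[i] (mW z) / coc Φ (mW hh) i ∈ Algebra.adjoin K (range j) := by
    intro i
    rw [h.iter, h.cocy, ← map_mul, h.div _ _ (hS.mono fun m hm => coc_ne φ _ (H m hm).1 i)]
    exact h.mem (Y i) (hY i) _ (hS.mono fun m hm => ((H m hm).2.2.2 i).2)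
  have hzO : mW z ∈ Om K j := le_Om j hz
  have hhO : mW hh ∈ Om K j := by
    have h3 := le_Om j (h1 1)
    have h4 : mW z * Φ (mW z) ≠ 0 := mul_ne_zero hz0 ((map_ne_zero Φ).2 hz0)
    have h5 : mW hh = mW z * Φ^[1] (mW z) * coc Φ (mW hh) 1 / (mW z * Φ (mW z)) := by
      simp only [coc, Finset.range_one, Finset.prod_singleton, Function.iterate_zero, id_eq,
        Function.iterate_one]
      rw [mul_div_cancel_left₀ _ h4]
    rw [h5]
    exact div_mem h3 (mul_mem hzO (h.stab hzO))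
  have hst : Star (Algebra.adjoin K (range (io K j)) : Set (Om K j)) h.ps ⟨mW hh, hhO⟩
      ⟨mW z, hzO⟩ := by
    refine ⟨fun h' => hh0 (congrArg Subtype.val h'), fun h' => hz0 (congrArg Subtype.val h'),
      (mem_iff j _).2 hz, fun i => ⟨(mem_iff j _).2 ?_, (mem_iff j _).2 ?_⟩⟩
    · rw [IntermediateField.coe_mul, IntermediateField.coe_mul, h.ps_iter, h.ps_coc]
      exact h1 i
    · rw [IntermediateField.coe_div, IntermediateField.coe_mul, h.ps_iter, h.ps_coc]
      exact h2 i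
  obtain ⟨ρ, μ, u, hρ, hμ, hu, he⟩ := hT L φ ha hN K (Om K j) (io K j) h.isBC h.ps
    (fun a => Subtype.ext (by
      change Φ (j a) = j (φ a)
      rw [h.cst, h.cst, h.ph])) _ _ hst
  obtain ⟨r, rfl⟩ := h.sK ρ
  obtain ⟨v, hv⟩ := h.sW (u : W)
  have he' : mW hh * Φ (u : W) = algebraMap K W (mK r) * j μ * (u : W) :=
    congrArg Subtype.val he
  rw [← hv, h.ph, h.alg, h.cst, ← map_mul, ← map_mul, ← map_mul, h.eq_iff] at he'
  have hr : ∀ᶠ m in (U : Filter ℕ), r m ≠ 0 := by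
    rw [Ultrafilter.eventually_not, ← h.zeroK]
    exact hρ
  have hv0 : ∀ᶠ m in (U : Filter ℕ), v m ≠ 0 := by
    rw [← h.ne_iff, hv]
    exact fun h' => hu (Subtype.ext h')
  have hall := hS.and (he'.and (hr.and hv0))
  obtain ⟨m', a1, a2, a3, a4⟩ := hall.exists
  obtain ⟨m, ⟨b1, b2, b3, b4⟩, hlt⟩ := (hall.and (hU (eventually_gt_atTop m'))).exists
  simp only [Pi.mul_apply] at a2 b2
  refine ⟨m, b1, m', a1, hlt, v m' / v m, r m / r m', div_ne_zero a4 b4, ?_⟩
  have c1 : φ (v m) ≠ 0 := (map_ne_zero φ).2 b4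
  have c2 : algebraMap ℂ L (r m') ≠ 0 := (map_ne_zero _).2 a3
  rw [Algebra.smul_def, map_div₀, map_div₀]
  field_simp
  linear_combination (v m' * algebraMap ℂ L (r m')) * b2 - (algebraMap ℂ L (r m) * v m) * a2

end abstract

/-- The map induced on germs by a ring homomorphism. -/
def gmap (l : Filter ℕ) {R R' : Type} [CommRing R] [CommRing R'] (g : R →+* R') :
    Germ l R →+* Germ l R' where
  toFun := Germ.map g
  map_one' := by
    change Germ.map g ((1 : ℕ → R) : Germ l R) = ((1 : ℕ → R') : Germ l R')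
    rw [Germ.map_coe]
    congr 1
    funext m
    simp
  map_mul' := fun a b => Germ.inductionOn₂ a b fun a b => by
    rw [← Germ.coe_mul, Germ.map_coe, Germ.map_coe, Germ.map_coe, ← Germ.coe_mul]
    congr 1
    funext m
    simp
  map_zero' := by
    change Germ.map g ((0 : ℕ → R) : Germ l R) = ((0 : ℕ → R') : Germ l R')
    rw [Germ.map_coe]
    congr 1
    funext m
    simp
  map_add' := fun a b => Germ.inductionOn₂ a b fun a b => by
    rw [← Germ.coe_add, Germ.map_coe, Germ.map_coe, Germ.map_coe, ← Germ.coe_add]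
    congr 1
    funext m
    simp

theorem exists_field (U : Ultrafilter ℕ) (L : Type) [Field L] [Algebra ℂ L] (φ : L →+* L) :
    ∃ (K W : Type) (_ : Field K) (_ : Field W) (mK : (ℕ → ℂ) →+* K) (mW : (ℕ → L) →+* W)
      (α : K →+* W) (Φ : W →+* W), Function.Surjective mK ∧ Function.Surjective mW ∧
      (∀ f, mW f = 0 ↔ ∀ᶠ m in (U : Filter ℕ), f m = 0) ∧
      (∀ a, α (mK a) = mW fun m => algebraMap ℂ L (a m)) ∧
      ∀ f, Φ (mW f) = mW fun m => φ (f m) := by
  refine ⟨Germ (U : Filter ℕ) ℂ, Germ (U : Filter ℕ) L, inferInstance, inferInstance,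
    Germ.coeRingHom _, Germ.coeRingHom _, gmap _ (algebraMap ℂ L), gmap _ φ,
    fun a => Germ.inductionOn a fun f => ⟨f, rfl⟩, fun a => Germ.inductionOn a fun f => ⟨f, rfl⟩,
    fun f => ?_, fun a => rfl, fun f => rfl⟩
  change (f : Germ (U : Filter ℕ) L) = ((0 : ℕ → L) : Germ (U : Filter ℕ) L) ↔ _
  rw [Germ.coe_eq]
  rfl

end COB

theorem blockCOB (hT : St_TH) : St_COB := by
  intro L _ _ φ ha hN S hh z Z Y hS hZ hY H
  have hne : (atTop ⊓ Filter.principal S).NeBot :=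
    frequently_mem_iff_neBot.1 (Nat.frequently_atTop_iff_infinite.2 hS)
  let U : Ultrafilter ℕ := Ultrafilter.of (atTop ⊓ Filter.principal S)
  have hU : (U : Filter ℕ) ≤ atTop ⊓ Filter.principal S := Ultrafilter.of_le _
  obtain ⟨K, W, _, _, mK, mW, α, Φ, s1, s2, h0, hα, hΦ⟩ := COB.exists_field U L φ.toRingHom
  letI : Algebra ℂ K := (mK.comp (Pi.constRingHom ℕ ℂ)).toAlgebra
  letI : Algebra K W := α.toAlgebra
  letI : Algebra ℂ W := ((mW.comp (Pi.constRingHom ℕ L)).comp (algebraMap ℂ L)).toAlgebra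
  haveI : IsScalarTower ℂ K W := IsScalarTower.of_algebraMap_eq fun c => (hα _).symm
  let j : L →ₐ[ℂ] W := ⟨mW.comp (Pi.constRingHom ℕ L), fun c => rfl⟩
  let Φ' : W →ₐ[K] W := ⟨Φ, fun c => by
    obtain ⟨a, rfl⟩ := s1 c
    change Φ (α (mK a)) = α (mK a)
    rw [hα, hΦ]
    congr 1
    funext m
    exact φ.commutes _⟩
  have hUP : COB.UP U φ mK mW j Φ' := ⟨s1, s2, h0, hα, fun a => rfl, hΦ⟩
  exact hUP.main hT (hU.trans inf_le_left) ha hN S
    (le_principal_iff.1 (hU.trans inf_le_right)) hh z Z Y hZ hY H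

end Pool.Agent.Lib.GD
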