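import Pool.Agent.Lib.GD.CURa

/-! The argument on a curve over a difference field. -/

open Set Pool.Agent.Lib.MP_e06174_ag Pool.Agent.Lib.MP_e06174_ag.Place

set_option linter.unusedSectionVars false
set_option linter.unusedVariables false

noncomputable section

namespace Pool.Agent.Lib.GD

namespace CUR

variable {k F Λ Ω : Type} [Field k] [Field F] [Field Λ] [Field Ω] [Algebra k F]
  [Algebra k Λ] [Algebra k Ω] [Algebra F Ω] [Algebra Λ Ω] [IsScalarTower k F Ω]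
  [IsScalarTower k Λ Ω] [CharZero k] [IsAlgClosed k] {t : F}

/-- A semilinear operator preserving all orders on a bounded space has an eigenvector. -/
theorem exists_eigen (ht : IsCoord k t) (h1 : ∀ p : Place k F, (1 : Ω) ∉ W Λ Ω p 1)
    (V : Submodule Λ Ω) (θ : Ω → Ω) (hR : ∀ u ∈ V, u ∈ Algebra.adjoin Λ (range (algebraMap F Ω)))
    (hθ : ∀ u ∈ V, θ u ∈ V)
    (hW : ∀ u ∈ V, ∀ (p : Place k F) (n : ℤ), u ∈ W Λ Ω p n → θ u ∈ W Λ Ω p n)
    (S : Finset (Place k F)) (hS : S.Nonempty) (hoff : ∀ u ∈ V, ∀ p ∉ S, u ∈ W Λ Ω p 0)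
    (hne : ∃ u ∈ V, u ≠ 0) : ∃ u ∈ V, u ≠ 0 ∧ ∃ c : Λ, θ u = algebraMap Λ Ω c * u := by
  classical
  have hbd : ∀ m : ℤ, (∃ u, u ∈ V ∧ u ≠ 0 ∧ ∀ p ∈ S, u ∈ W Λ Ω p m) → m ≤ 0 := by
    rintro m ⟨u, huV, hu0, hum⟩
    by_contra h
    obtain ⟨q, hq⟩ := hS
    refine hu0 (eq_zero ht h1 (p := q) (hR u huV) (fun p => ?_) (W_mono (by omega) (hum q hq)))
    by_cases hp : p ∈ S
    · exact W_mono (by omega) (hum p hp)
    · exact hoff u huV p hp
  have hin : ∃ m : ℤ, ∃ u, u ∈ V ∧ u ≠ 0 ∧ ∀ p ∈ S, u ∈ W Λ Ω p m := by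
    obtain ⟨u, huV, hu0⟩ := hne
    choose n hn using fun p : Place k F => exists_lead ht p (hR u huV) hu0
    obtain ⟨q, -, hq⟩ := S.exists_min_image n hS
    exact ⟨n q, u, huV, hu0, fun p hp => W_mono (hq p hp) (hn p).mem⟩
  obtain ⟨m, ⟨u₀, hu₀⟩, hmax⟩ := Int.exists_greatest_of_bdd ⟨0, hbd⟩ hin
  · obtain ⟨T, hT, hTm⟩ := (S.powerset.filter fun T => ∃ u, (u ∈ V ∧ u ≠ 0 ∧
      ∀ p ∈ S, u ∈ W Λ Ω p m) ∧ ∀ p ∈ T, u ∈ W Λ Ω p (m + 1)).exists_max_image Finset.card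
      ⟨∅, Finset.mem_filter.2 ⟨Finset.empty_mem_powerset _, u₀, hu₀, by simp⟩⟩
    obtain ⟨hTS, u, ⟨huV, hu0, hum⟩, huT⟩ := Finset.mem_filter.1 hT
    have h2 : ∃ q ∈ S, q ∉ T := by
      by_contra h
      push Not at h
      have := hmax (m + 1) ⟨u, huV, hu0, fun p hp => huT p (h p hp)⟩
      omega
    obtain ⟨q, hqS, hqT⟩ := h2
    have h3 : ∀ v ∈ V, (∀ p ∈ S, v ∈ W Λ Ω p m) → (∀ p ∈ T, v ∈ W Λ Ω p (m + 1)) →
        v ∈ W Λ Ω q (m + 1) → v = 0 := by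
      intro v hv a1 a2 a3
      by_contra h0
      have := hTm (insert q T) (Finset.mem_filter.2 ⟨Finset.mem_powerset.2
        (Finset.insert_subset hqS (Finset.mem_powerset.1 hTS)), v, ⟨hv, h0, a1⟩,
        (Finset.forall_mem_insert _ _ _).2 ⟨a3, a2⟩⟩)
      rw [Finset.card_insert_of_notMem hqT] at this
      omega
    have h4 := lead_of_mem ht (hum q hqS) fun h => hu0 (h3 u huV hum huT h)
    obtain ⟨c, hc⟩ := h4.exists_sub ht (hW u huV q m (hum q hqS))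
    refine ⟨u, huV, hu0, c, sub_eq_zero.1 (h3 _ ?_ ?_ ?_ hc)⟩
    · rw [← Algebra.smul_def]
      exact sub_mem (hθ u huV) (V.smul_mem c huV)
    · exact fun p hp => sub_mem (hW u huV p m (hum p hp)) (cmul_mem c (hum p hp))
    · exact fun p hp => sub_mem (hW u huV p _ (huT p hp)) (cmul_mem c (huT p hp))

theorem transfer (ht : IsCoord k t) {p : Place k F} (h1 : (1 : Ω) ∉ W Λ Ω p 1) (Φ : Ω →ₐ[F] Ω)
    (hΦ : ∀ a : Λ, Φ (algebraMap Λ Ω a) ∈ range (algebraMap Λ Ω)) {u u' A B : Ω} {a n : ℤ}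
    (hu : u ∈ Algebra.adjoin Λ (range (algebraMap F Ω)))
    (hu' : u' ∈ Algebra.adjoin Λ (range (algebraMap F Ω))) (hA : Lead Λ Ω p a A)
    (hB : Lead Λ Ω p a B) (h : u' * B = Φ u * A) (hn : u ∈ W Λ Ω p n) : u' ∈ W Λ Ω p n := by
  by_cases h0 : u' = 0
  · simp [h0]
  obtain ⟨m, hm⟩ := exists_lead ht p hu' h0
  have h2 := mul_mem (map_mem Φ hΦ hn) hA.mem
  rw [← h] at h2
  have h3 := (hm.mul hB).le h1 h2
  exact W_mono (by omega) hm.mem

section simple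

variable {J : Type} {b : J → F} {Φ : Ω →ₐ[F] Ω} {ψ : Λ → Λ}

theorem map_lc (hψ : ∀ a, Φ (algebraMap Λ Ω a) = algebraMap Λ Ω (ψ a)) (h0 : ψ 0 = 0)
    (μ : J →₀ Λ) : Φ (Finsupp.linearCombination Λ (fun j => algebraMap F Ω (b j)) μ) =
      Finsupp.linearCombination Λ (fun j => algebraMap F Ω (b j)) (μ.mapRange ψ h0) := by
  rw [Finsupp.linearCombination_apply, Finsupp.linearCombination_apply,
    Finsupp.sum_mapRange_index (by simp), Finsupp.sum, Finsupp.sum, map_sum]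
  refine Finset.sum_congr rfl fun j _ => ?_
  rw [Algebra.smul_def, Algebra.smul_def, map_mul, hψ, AlgHom.commutes]

theorem split (hψ : ∀ a, Φ (algebraMap Λ Ω a) = algebraMap Λ Ω (ψ a))
    (hfix : ∀ a : Λ, Φ (algebraMap Λ Ω a) = algebraMap Λ Ω a → a ∈ range (algebraMap k Λ))
    (μ : J →₀ Λ) {j₀ : J} (hj : μ j₀ ≠ 0) (ν : Λ) (h : ∀ j, ψ (μ j) = ν * μ j) :
    ∃ ρ : F, Finsupp.linearCombination Λ (fun j => algebraMap F Ω (b j)) μ =
      algebraMap Λ Ω (μ j₀) * algebraMap F Ω ρ := by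
  have h0 : algebraMap Λ Ω (μ j₀) ≠ 0 := by simpa using hj
  have hν : algebraMap Λ Ω ν ≠ 0 := by
    intro h1
    have h2 := hψ (μ j₀)
    rw [h, map_mul, h1, zero_mul, map_eq_zero] at h2
    exact h0 h2
  have h1 : ∀ j, μ j / μ j₀ ∈ range (algebraMap k Λ) := fun j => hfix _ (by
    rw [map_div₀, map_div₀, hψ, hψ, h, h, map_mul, map_mul, mul_div_mul_left _ _ hν])
  choose c hc using h1
  refine ⟨∑ j ∈ μ.support, algebraMap k F (c j) * b j, ?_⟩
  rw [Finsupp.linearCombination_apply, Finsupp.sum, map_sum, Finset.mul_sum]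
  refine Finset.sum_congr rfl fun j _ => ?_
  rw [map_mul, ← cst (Λ := Λ), hc, map_div₀, Algebra.smul_def, ← mul_assoc, mul_div_cancel₀ _ h0]

end simple

/-- Eigenvectors of the difference operator split. -/
theorem eigen_split (hB : IsBC Λ (IsScalarTower.toAlgHom k F Ω)) (Φ : Ω →ₐ[F] Ω)
    (hΦ : ∀ a : Λ, Φ (algebraMap Λ Ω a) ∈ range (algebraMap Λ Ω))
    (hfix : ∀ a : Λ, Φ (algebraMap Λ Ω a) = algebraMap Λ Ω a → a ∈ range (algebraMap k Λ))
    {q : Ω} (hq : q ≠ 0) {ν : Λ} (h : Φ q = algebraMap Λ Ω ν * q) :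
    ∃ (μ : Λ) (ρ : F), q = algebraMap Λ Ω μ * algebraMap F Ω ρ := by
  classical
  choose ψ hψ' using hΦ
  have hψ : ∀ a, Φ (algebraMap Λ Ω a) = algebraMap Λ Ω (ψ a) := fun a => (hψ' a).symm
  have h0 : ψ 0 = 0 := by simpa using hψ' 0
  have hν : algebraMap Λ Ω ν ≠ 0 := by
    intro h1
    rw [h1, zero_mul, map_eq_zero] at h
    exact hq h
  let β := Module.Basis.ofVectorSpace k F
  have hli : LinearIndependent Λ fun j => algebraMap F Ω (β j) := by
    have h1 := hB.1 _ (Module.Basis.ofVectorSpaceIndex.linearIndependent k F)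
    have h2 : (fun j => algebraMap F Ω (β j)) = fun j : Module.Basis.ofVectorSpaceIndex k F =>
        IsScalarTower.toAlgHom k F Ω j := by
      funext j
      rw [Module.Basis.ofVectorSpace_apply_self]
      rfl
    rw [h2]
    exact h1
  let L := Finsupp.linearCombination Λ fun j => algebraMap F Ω (β j)
  let R := Algebra.adjoin Λ (range (algebraMap F Ω))
  have hL : ∀ u ∈ R, ∃ μ, L μ = u := by
    intro u hu
    refine (Submodule.span_le (p := LinearMap.range L)).2 ?_ (mem_span hu)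
    rintro _ ⟨a, rfl⟩
    rw [← β.linearCombination_repr a, Finsupp.linearCombination_apply, Finsupp.sum, map_sum]
    refine sum_mem fun i _ => ?_
    rw [Algebra.smul_def, map_mul, ← cst (Λ := Λ), ← Algebra.smul_def]
    exact Submodule.smul_mem _ _ ⟨Finsupp.single i 1, by simp [L]⟩
  have hLR : ∀ μ, L μ ∈ R := fun μ => by
    refine sum_mem fun i _ => ?_
    exact R.smul_mem (Algebra.subset_adjoin ⟨_, rfl⟩) _
  have hΦR : ∀ u ∈ R, Φ u ∈ R := fun u hu => by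
    obtain ⟨μ, rfl⟩ := hL u hu
    rw [map_lc hψ h0]
    exact hLR _
  have hex : ∃ n, ∃ μ, μ ≠ 0 ∧ q * L μ ∈ R ∧ μ.support.card = n := by
    obtain ⟨v, hv, hv0, hv1⟩ := hB.2 q
    obtain ⟨μ, rfl⟩ := hL v hv
    exact ⟨_, μ, fun h1 => hv0 (by simp [h1]), by rwa [mul_comm], rfl⟩
  obtain ⟨μ, hμ0, hμ, hμn⟩ := Nat.find_spec hex
  obtain ⟨j₀, hj₀⟩ := Finsupp.ne_iff.1 hμ0
  have hj : μ j₀ ≠ 0 := hj₀
  have h1 : μ.mapRange ψ h0 - (ψ (μ j₀) / μ j₀) • μ = 0 := by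
    by_contra h1
    refine Nat.find_min hex (m := _) ?_ ⟨_, h1, ?_, rfl⟩
    · rw [← hμn]
      refine Finset.card_lt_card ⟨fun j hj' => ?_, fun h2 => ?_⟩
      · rw [Finsupp.mem_support_iff] at hj' ⊢
        intro h3
        exact hj' (by simp [h3, h0])
      · have h3 := Finsupp.mem_support_iff.1 (h2 (Finsupp.mem_support_iff.2 hj))
        exact h3 (by simp [div_mul_cancel₀ _ hj])
    · rw [map_sub, map_smul, ← map_lc hψ h0, mul_sub, mul_smul_comm]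
      refine sub_mem ?_ (R.smul_mem hμ _)
      have h2 := R.smul_mem (hΦR _ hμ) ν⁻¹
      rwa [map_mul, h, Algebra.smul_def, map_inv₀, mul_assoc, inv_mul_cancel_left₀ hν] at h2
  obtain ⟨ρ, hρ⟩ := split (b := β) hψ hfix μ hj (ψ (μ j₀) / μ j₀) fun j => by
    simpa [sub_eq_zero] using DFunLike.congr_fun h1 j
  have h2 : L μ ≠ 0 := fun h2 => hμ0 (linearIndependent_iff.1 hli μ h2)
  have h3 : q ∈ R := by
    have h4 : q = q * L μ * (algebraMap Λ Ω (μ j₀)⁻¹ * algebraMap F Ω ρ⁻¹) := by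
      rw [map_inv₀, map_inv₀, ← mul_inv, ← hρ, mul_inv_cancel_right₀ h2]
    rw [h4]
    exact R.mul_mem hμ (R.mul_mem (R.algebraMap_mem _) (Algebra.subset_adjoin ⟨_, rfl⟩))
  obtain ⟨μ', rfl⟩ := hL q h3
  obtain ⟨j₁, hj₁⟩ := Finsupp.ne_iff.1 (show μ' ≠ 0 from fun h4 => hq (by simp [h4]))
  have h4 : μ'.mapRange ψ h0 = ν • μ' := by
    apply hli
    rw [← map_lc hψ h0, map_smul, Algebra.smul_def]
    exact h
  obtain ⟨ρ', hρ'⟩ := split (b := β) hψ hfix μ' hj₁ ν fun j => by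
    simpa using DFunLike.congr_fun h4 j
  exact ⟨_, ρ', hρ'⟩

theorem coc_succ {M : Type} [Field M] [Algebra F M] (Φ : M →ₐ[F] M) (h : M) (i : ℕ) :
    coc Φ h (i + 1) = h * Φ (coc Φ h i) := by
  rw [coc, coc, Finset.prod_range_succ', map_prod, mul_comm]
  simp only [Function.iterate_succ_apply', Function.iterate_zero_apply]

theorem lead_pair (ht : IsCoord k t) (p : Place k F) {σ : Type} [Fintype σ] {μ μ' : σ → Λ}
    (hμ : LinearIndependent k μ) (hμ' : LinearIndependent k μ') (a : σ → F)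
    (h : ∑ i, algebraMap Λ Ω (μ i) * algebraMap F Ω (a i) ≠ 0) :
    ∃ n, Lead Λ Ω p n (∑ i, algebraMap Λ Ω (μ i) * algebraMap F Ω (a i)) ∧
      Lead Λ Ω p n (∑ i, algebraMap Λ Ω (μ' i) * algebraMap F Ω (a i)) := by
  obtain ⟨i, hi, hi0⟩ := Finset.exists_ne_zero_of_sum_ne_zero h
  obtain ⟨j, hj, hj0, hj1⟩ := exists_min (p := p) Finset.univ a
    ⟨i, hi, fun h => hi0 (by simp [h])⟩
  exact ⟨_, gauss ht _ hμ a hj hj0 hj1, gauss ht _ hμ' a hj hj0 hj1⟩

end CUR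

open CUR in
theorem blockCUR : St_CUR := by
  intro k F Λ Ω _ _ _ _ _ _ _ _ _ _ _ _ _ t ht hB φx φy hcom hφx hφy _ hper hx hy zx zy hyx hxy
    sx sy ⟨σ, _, a, b, μx, μy, hμx, hμy, ex, ey⟩
  let Φ : Ω →ₐ[F] Ω := φx.comp φy
  have hΦ : ∀ a : Λ, Φ (algebraMap Λ Ω a) ∈ range (algebraMap Λ Ω) := fun a => by
    obtain ⟨c, hc⟩ := hφy a
    change φx (φy _) ∈ _
    rw [← hc]
    exact hφx c
  have h1 : ∀ p : Place k F, (1 : Ω) ∉ W Λ Ω p 1 := fun p => one_not_mem hB.1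
  obtain ⟨hx0, zx0, zxR, sx⟩ := sx
  obtain ⟨hy0, zy0, zyR, sy⟩ := sy
  change ∀ i, _ * Φ^[i] _ * coc Φ _ i ∈ _ ∧ _ * Φ^[i] _ / coc Φ _ i ∈ _ at sx sy
  let R := Algebra.adjoin Λ (range (algebraMap F Ω))
  have hz0 : zx * zy ≠ 0 := mul_ne_zero zx0 zy0
  have hzR : zx * zy ∈ R := R.mul_mem zxR zyR
  generalize hz : zx * zy = z at hz0 hzR
  have hΦz : Φ z ≠ 0 := by simpa using hz0
  let θ : Ω → Ω := fun u => hx / hy * (z / Φ z) * Φ u
  let e : ℕ → Ω := fun i => zx * Φ^[i] zx * coc Φ hx i * (zy * Φ^[i] zy / coc Φ hy i)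
  have he0 : e 0 = z * z := by
    simp only [e, coc, Finset.range_zero, Finset.prod_empty, Function.iterate_zero_apply, ← hz]
    ring
  have he : ∀ i, θ (e i) = e (i + 1) := by
    intro i
    have a1 : Φ zx ≠ 0 := by simpa using zx0
    have a2 : Φ zy ≠ 0 := by simpa using zy0
    simp only [θ, e, coc_succ, Function.iterate_succ_apply', map_mul, map_div₀, ← hz]
    field_simp
  have heR : ∀ i, e i ∈ R := fun i => R.mul_mem (sx i).1 (sy i).2
  let V := Submodule.span Λ (range e)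
  have hR : ∀ u ∈ V, u ∈ R := fun u hu =>
    (Submodule.span_le (p := Subalgebra.toSubmodule R)).2 (range_subset_iff.2 heR) hu
  have hθ : ∀ u ∈ V, θ u ∈ V := by
    intro u hu
    induction hu using Submodule.span_induction with
    | mem x hx =>
      obtain ⟨i, rfl⟩ := hx
      rw [he]
      exact Submodule.subset_span ⟨_, rfl⟩
    | zero => simp [θ]
    | add x y _ _ h2 h3 =>
      simp only [θ, map_add, mul_add] at h2 h3 ⊢
      exact add_mem h2 h3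
    | smul c x _ h2 =>
      obtain ⟨c', hc'⟩ := hΦ c
      have h3 := V.smul_mem c' h2
      simp only [θ, Algebra.smul_def, map_mul, ← hc'] at h3 ⊢
      rwa [mul_left_comm]
  have hW : ∀ u ∈ V, ∀ (p : Place k F) (n : ℤ), u ∈ W Λ Ω p n → θ u ∈ W Λ Ω p n := by
    intro u hu p n hn
    have a1 := div_ne_zero_iff.1 (ex ▸ hx0)
    have a2 := div_ne_zero_iff.1 (ey ▸ hy0)
    obtain ⟨na, b1, b2⟩ := lead_pair ht p hμx hμy a a1.1
    obtain ⟨nb, b3, b4⟩ := lead_pair ht p hμx hμy b a1.2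
    obtain ⟨nz, b5⟩ := exists_lead ht p hzR hz0
    have b6 := (b3.mul b2).mul (b5.map Φ hΦ)
    rw [add_comm nb na] at b6
    refine transfer ht (h1 p) Φ hΦ (hR u hu) (hR _ (hθ u hu)) ((b1.mul b4).mul b5) b6 ?_ hn
    obtain ⟨a3, a4⟩ := a1
    obtain ⟨a5, a6⟩ := a2
    simp only [θ]
    rw [ex, ey]
    generalize (∑ i, algebraMap Λ Ω (μx i) * algebraMap F Ω (a i)) = A1 at *
    generalize (∑ i, algebraMap Λ Ω (μx i) * algebraMap F Ω (b i)) = A2 at *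
    generalize (∑ i, algebraMap Λ Ω (μy i) * algebraMap F Ω (a i)) = A3 at *
    generalize (∑ i, algebraMap Λ Ω (μy i) * algebraMap F Ω (b i)) = A4 at *
    field_simp
  obtain ⟨S, hS, hS'⟩ := exists_fin ht hzR
  have hoff : ∀ u ∈ V, ∀ p ∉ S, u ∈ W Λ Ω p 0 := by
    intro u hu p hp
    refine Submodule.span_le.2 (range_subset_iff.2 fun i => ?_) hu
    induction i with
    | zero =>
      rw [he0]
      simpa using mul_mem (hS' p hp) (hS' p hp)
    | succ i ih =>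
      rw [← he]
      exact hW _ (Submodule.subset_span ⟨i, rfl⟩) p 0 ih
  obtain ⟨u, -, hu0, c, hc⟩ := exists_eigen ht h1 V θ hR hθ hW S hS hoff
    ⟨e 0, Submodule.subset_span ⟨0, rfl⟩, by rw [he0]; exact mul_ne_zero hz0 hz0⟩
  have hr0 : u / z ≠ 0 := div_ne_zero hu0 hz0
  have hr : hx * Φ (u / z) = algebraMap Λ Ω c * hy * (u / z) := by
    simp only [θ] at hc
    rw [map_div₀]
    field_simp
    field_simp at hc
    linear_combination hc
  generalize u / z = r at hr0 hr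
  have hΦr : Φ r ≠ 0 := by simpa using hr0
  have hxr : φx r ≠ 0 := by simpa using hr0
  have hc0 : algebraMap Λ Ω c ≠ 0 := by
    intro h
    rw [h, zero_mul, zero_mul] at hr
    exact mul_ne_zero hx0 hΦr hr
  obtain ⟨c', hc'⟩ := hφx c
  have h2 : Φ hx * Φ (φx r) = algebraMap Λ Ω c' * hy * φx r := by
    have h3 := congrArg φx hr
    rw [map_mul, map_mul, map_mul, ← hc', hxy] at h3
    rw [← h3]
    change φx (φy hx) * φx (φy (φx r)) = φx hx * φx (φx (φy r))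
    rw [hyx, hcom r]
  have hq0 : hx * φx r / r ≠ 0 := div_ne_zero (mul_ne_zero hx0 hxr) hr0
  obtain ⟨μ, ρ, h3⟩ := eigen_split hB Φ hΦ (hper 1 one_pos) hq0 (ν := c' / c) (by
    rw [map_div₀, map_mul, h2, map_div₀, div_eq_iff hΦr]
    field_simp
    linear_combination (-algebraMap Λ Ω c') * hr)
  refine ⟨r, μ, ρ, hr0, ?_, ?_, by rw [← h3, div_mul_cancel₀ _ hr0]⟩
  · rintro rfl
    exact hq0 (by simp [h3])
  · rintro rfl
    exact hq0 (by simp [h3])

end Pool.Agent.Lib.GD
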