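import Pool.Agent.Lib.GD.Blue

/-! The Gauss filtration of a constant field extension. -/

open Set Pool.Agent.Lib.MP_e06174_ag Pool.Agent.Lib.MP_e06174_ag.Place

set_option linter.unusedSectionVars false
set_option linter.unusedVariables false

noncomputable section

namespace Pool.Agent.Lib.GD.CUR

variable {k F : Type} (Λ Ω : Type) [Field k] [Field F] [Field Λ] [Field Ω] [Algebra k F]
  [Algebra k Λ] [Algebra k Ω] [Algebra F Ω] [Algebra Λ Ω] [IsScalarTower k F Ω]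
  [IsScalarTower k Λ Ω]

/-- The span of the functions vanishing to order at least `n`. -/
def W (p : Place k F) (n : ℤ) : Submodule Λ Ω :=
  Submodule.span Λ (algebraMap F Ω '' {ρ | p.Ge n ρ})

/-- `u` has exact order `n`. -/
def Lead (p : Place k F) (n : ℤ) (u : Ω) : Prop :=
  ∃ (c : Λ) (ρ : F), c ≠ 0 ∧ ρ ≠ 0 ∧ p.ord ρ = n ∧
    u - algebraMap Λ Ω c * algebraMap F Ω ρ ∈ W Λ Ω p (n + 1)

variable {Λ Ω} {p : Place k F}

theorem cst (c : k) : algebraMap Λ Ω (algebraMap k Λ c) = algebraMap F Ω (algebraMap k F c) := by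
  rw [← IsScalarTower.algebraMap_apply, ← IsScalarTower.algebraMap_apply]

theorem gen_mem {n : ℤ} {a : F} (h : p.Ge n a) : algebraMap F Ω a ∈ W Λ Ω p n :=
  Submodule.subset_span ⟨a, h, rfl⟩

theorem cmul_mem {n : ℤ} {u : Ω} (c : Λ) (h : u ∈ W Λ Ω p n) :
    algebraMap Λ Ω c * u ∈ W Λ Ω p n := by
  rw [← Algebra.smul_def]
  exact Submodule.smul_mem _ c h

theorem W_mono {m n : ℤ} (h : m ≤ n) {u : Ω} (hu : u ∈ W Λ Ω p n) : u ∈ W Λ Ω p m :=
  Submodule.span_mono (image_mono fun _ ha => Ge.mono ha h) hu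

theorem mul_mem {m n : ℤ} {u v : Ω} (hu : u ∈ W Λ Ω p m) (hv : v ∈ W Λ Ω p n) :
    u * v ∈ W Λ Ω p (m + n) := by
  have h := Submodule.mul_mem_mul hu hv
  rw [W, W, Submodule.span_mul_span] at h
  refine Submodule.span_mono ?_ h
  rintro _ ⟨_, ⟨a, ha, rfl⟩, _, ⟨b, hb, rfl⟩, rfl⟩
  exact ⟨a * b, Ge.mul ha hb, map_mul _ _ _⟩

theorem map_mem (Φ : Ω →ₐ[F] Ω) (hΦ : ∀ a : Λ, Φ (algebraMap Λ Ω a) ∈ range (algebraMap Λ Ω))
    {n : ℤ} {u : Ω} (hu : u ∈ W Λ Ω p n) : Φ u ∈ W Λ Ω p n := by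
  induction hu using Submodule.span_induction with
  | mem x hx =>
    obtain ⟨a, ha, rfl⟩ := hx
    rw [AlgHom.commutes]
    exact gen_mem ha
  | zero => simp
  | add x y _ _ hx hy => rw [map_add]; exact add_mem hx hy
  | smul c x _ hx =>
    obtain ⟨c', hc'⟩ := hΦ c
    rw [Algebra.smul_def, map_mul, ← hc']
    exact cmul_mem c' hx

theorem one_not_mem (hI : ∀ s : Set F, LinearIndepOn k id s → LinearIndepOn Λ (algebraMap F Ω) s) :
    (1 : Ω) ∉ W Λ Ω p 1 := by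
  obtain ⟨b, hb1, -, hb2, hb3⟩ := exists_linearIndepOn_id_extension
    (linearIndepOn_empty k (id : F → F)) (empty_subset {ρ | p.Ge 1 ρ})
  have h0 : ∀ x ∈ Submodule.span k b, p.Ge 1 x := by
    intro x hx
    induction hx using Submodule.span_induction with
    | mem x hx => exact hb1 hx
    | zero => simp
    | add x y _ _ hx hy => exact hx.add hy
    | smul c x _ hx => exact hx.smul c
  have h1 : (1 : F) ∉ Submodule.span k b := fun h =>
    not_ge_one_const (p := p) (one_ne_zero (α := k)) (by simpa using h0 1 h)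
  have h2 : (1 : F) ∉ b := fun h => h1 (Submodule.subset_span h)
  have h3 := ((linearIndepOn_insert h2).1 (hI _ (hb3.id_insert h1))).2
  rw [map_one] at h3
  refine fun h => h3 (Submodule.span_le.2 ?_ h)
  rintro _ ⟨a, ha, rfl⟩
  have ha' := hb2 ha
  clear ha
  induction ha' using Submodule.span_induction with
  | mem x hx => exact Submodule.subset_span ⟨x, hx, rfl⟩
  | zero => simp
  | add x y _ _ hx hy => rw [map_add]; exact add_mem hx hy
  | smul c x _ hx =>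
    rw [Algebra.smul_def, map_mul, ← cst (Λ := Λ), ← Algebra.smul_def]
    exact Submodule.smul_mem _ _ hx

theorem Lead.mem {n : ℤ} {u : Ω} (h : Lead Λ Ω p n u) : u ∈ W Λ Ω p n := by
  obtain ⟨c, ρ, -, -, h1, h2⟩ := h
  have := add_mem (W_mono (by omega : n ≤ n + 1) h2) (cmul_mem c (gen_mem (ge_of_le h1.ge)))
  rwa [sub_add_cancel] at this

theorem Lead.not_mem (h1 : (1 : Ω) ∉ W Λ Ω p 1) {n : ℤ} {u : Ω} (h : Lead Λ Ω p n u) :
    u ∉ W Λ Ω p (n + 1) := by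
  obtain ⟨c, ρ, hc, hρ, h2, h3⟩ := h
  intro hu
  have h4 := sub_mem hu h3
  rw [sub_sub_cancel] at h4
  have h5 := cmul_mem c⁻¹ (mul_mem h4 (gen_mem (a := ρ⁻¹) (n := -n) (ge_of_le (by simp [h2]))))
  have hc' : algebraMap Λ Ω c ≠ 0 := by simpa using hc
  have hρ' : algebraMap F Ω ρ ≠ 0 := by simpa using hρ
  rw [map_inv₀, map_inv₀, mul_assoc, mul_inv_cancel₀ hρ', mul_one, inv_mul_cancel₀ hc',
    show n + 1 + -n = 1 by ring] at h5
  exact h1 h5

theorem Lead.le (h1 : (1 : Ω) ∉ W Λ Ω p 1) {m n : ℤ} {u : Ω} (h : Lead Λ Ω p n u)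
    (hu : u ∈ W Λ Ω p m) : m ≤ n := by
  by_contra h2
  exact h.not_mem h1 (W_mono (by omega) hu)

theorem Lead.mul {m n : ℤ} {u v : Ω} (hu : Lead Λ Ω p m u) (hv : Lead Λ Ω p n v) :
    Lead Λ Ω p (m + n) (u * v) := by
  have hv' := hv.mem
  obtain ⟨c, ρ, hc, hρ, h1, h2⟩ := hu
  obtain ⟨c', ρ', hc', hρ', h1', h2'⟩ := hv
  refine ⟨c * c', ρ * ρ', mul_ne_zero hc hc', mul_ne_zero hρ hρ',
    by rw [p.ord_mul hρ hρ', h1, h1'], ?_⟩
  have h3 := mul_mem h2 hv'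
  have h4 := mul_mem (cmul_mem c (gen_mem (ge_of_le h1.ge))) h2'
  rw [show m + 1 + n = m + n + 1 by ring] at h3
  rw [← add_assoc] at h4
  have h5 := add_mem h3 h4
  have : u * v - algebraMap Λ Ω (c * c') * algebraMap F Ω (ρ * ρ') =
      (u - algebraMap Λ Ω c * algebraMap F Ω ρ) * v + algebraMap Λ Ω c * algebraMap F Ω ρ *
        (v - algebraMap Λ Ω c' * algebraMap F Ω ρ') := by
    rw [map_mul, map_mul]; ring
  rw [this]
  exact h5

theorem Lead.map (Φ : Ω →ₐ[F] Ω) (hΦ : ∀ a : Λ, Φ (algebraMap Λ Ω a) ∈ range (algebraMap Λ Ω))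
    {n : ℤ} {u : Ω} (h : Lead Λ Ω p n u) : Lead Λ Ω p n (Φ u) := by
  obtain ⟨c, ρ, hc, hρ, h1, h2⟩ := h
  obtain ⟨c', hc'⟩ := hΦ c
  refine ⟨c', ρ, ?_, hρ, h1, ?_⟩
  · rintro rfl
    rw [map_zero, eq_comm, map_eq_zero, map_eq_zero] at hc'
    exact hc hc'
  · have := map_mem Φ hΦ h2
    rwa [map_sub, map_mul, AlgHom.commutes, ← hc'] at this

variable [CharZero k] [IsAlgClosed k] {t : F}

theorem res (ht : IsCoord k t) {n : ℤ} {a ρ : F} (hρ : ρ ≠ 0) (h : p.ord ρ = n) (ha : p.Ge n a) :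
    p.Ge (n + 1) (a - algebraMap k F (p.cen (a / ρ)) * ρ) := by
  have h1 : p.Ge 0 (a / ρ) := by
    rw [div_eq_mul_inv]
    exact ha.mul' (ge_ord _) (by simp [h])
  have h2 := Ge.mul (ht.at_cen h1) (ge_of_le h.ge)
  rwa [sub_mul, div_mul_cancel₀ _ hρ, add_comm] at h2

theorem exists_res (ht : IsCoord k t) {n : ℤ} {ρ : F} (hρ : ρ ≠ 0) (h : p.ord ρ = n) {v : Ω}
    (hv : v ∈ W Λ Ω p n) : ∃ c : Λ, v - algebraMap Λ Ω c * algebraMap F Ω ρ ∈ W Λ Ω p (n + 1) := by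
  induction hv using Submodule.span_induction with
  | mem x hx =>
    obtain ⟨a, ha, rfl⟩ := hx
    refine ⟨algebraMap k Λ (p.cen (a / ρ)), ?_⟩
    rw [cst (F := F), ← map_mul, ← map_sub]
    exact gen_mem (res ht hρ h ha)
  | zero => exact ⟨0, by simp⟩
  | add x y _ _ hx hy =>
    obtain ⟨c, hc⟩ := hx
    obtain ⟨c', hc'⟩ := hy
    refine ⟨c + c', ?_⟩
    rw [map_add, add_mul, add_sub_add_comm]
    exact add_mem hc hc'
  | smul c x _ hx =>
    obtain ⟨c', hc'⟩ := hx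
    refine ⟨c * c', ?_⟩
    rw [Algebra.smul_def, map_mul, mul_assoc, ← mul_sub]
    exact cmul_mem c hc'

theorem Lead.exists_sub (ht : IsCoord k t) {n : ℤ} {u v : Ω} (h : Lead Λ Ω p n u)
    (hv : v ∈ W Λ Ω p n) : ∃ c : Λ, v - algebraMap Λ Ω c * u ∈ W Λ Ω p (n + 1) := by
  obtain ⟨c, ρ, hc, hρ, h1, h2⟩ := h
  obtain ⟨c', hc'⟩ := exists_res ht hρ h1 hv
  refine ⟨c' / c, ?_⟩
  have h3 := sub_mem hc' (cmul_mem (c' / c) h2)
  have hc0 : algebraMap Λ Ω c ≠ 0 := by simpa using hc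
  have : v - algebraMap Λ Ω (c' / c) * u = v - algebraMap Λ Ω c' * algebraMap F Ω ρ -
      algebraMap Λ Ω (c' / c) * (u - algebraMap Λ Ω c * algebraMap F Ω ρ) := by
    rw [map_div₀]; field_simp; ring
  rw [this]
  exact h3

theorem lead_of_mem (ht : IsCoord k t) {n : ℤ} {u : Ω} (h : u ∈ W Λ Ω p n)
    (h' : u ∉ W Λ Ω p (n + 1)) : Lead Λ Ω p n u := by
  obtain ⟨ρ, hρ, h1⟩ := p.exists_ord_eq n
  obtain ⟨c, hc⟩ := exists_res ht hρ h1 h
  refine ⟨c, ρ, ?_, hρ, h1, hc⟩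
  rintro rfl
  exact h' (by simpa using hc)

theorem exists_min {σ : Type} (s : Finset σ) (a : σ → F) (h : ∃ i ∈ s, a i ≠ 0) :
    ∃ j ∈ s, a j ≠ 0 ∧ ∀ i ∈ s, p.Ge (p.ord (a j)) (a i) := by
  classical
  obtain ⟨j, hj, hj'⟩ := (s.filter fun i => a i ≠ 0).exists_min_image (fun i => p.ord (a i))
    (h.imp fun i hi => Finset.mem_filter.2 hi)
  rw [Finset.mem_filter] at hj
  refine ⟨j, hj.1, hj.2, fun i hi => ?_⟩
  by_cases h0 : a i = 0
  · simp [h0]
  · exact ge_of_le (hj' i (Finset.mem_filter.2 ⟨hi, h0⟩))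

/-- The order of a combination with independent coefficients is the least order. -/
theorem gauss (ht : IsCoord k t) {σ : Type} (s : Finset σ) {μ : σ → Λ}
    (hμ : LinearIndependent k μ) (a : σ → F) {j : σ} (hj : j ∈ s) (h0 : a j ≠ 0)
    (h : ∀ i ∈ s, p.Ge (p.ord (a j)) (a i)) :
    Lead Λ Ω p (p.ord (a j)) (∑ i ∈ s, algebraMap Λ Ω (μ i) * algebraMap F Ω (a i)) := by
  refine ⟨∑ i ∈ s, p.cen (a i / a j) • μ i, a j, fun h1 => ?_, h0, rfl, ?_⟩
  · have h2 := linearIndependent_iff'.1 hμ s _ h1 j hj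
    have h3 : p.At (a j / a j) 1 := by simp [At, div_self h0]
    rw [h3.cen_eq] at h2
    exact one_ne_zero h2
  · rw [map_sum, Finset.sum_mul, ← Finset.sum_sub_distrib]
    refine sum_mem fun i hi => ?_
    rw [Algebra.smul_def, map_mul, cst (F := F), mul_comm (algebraMap F Ω _) (algebraMap Λ Ω _),
      mul_assoc, ← mul_sub, ← map_mul, ← map_sub]
    exact cmul_mem _ (gen_mem (res ht h0 rfl (h i hi)))

theorem ge_of_mem (ht : IsCoord k t) (h1 : (1 : Ω) ∉ W Λ Ω p 1) {σ : Type} (s : Finset σ)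
    {μ : σ → Λ} (hμ : LinearIndependent k μ) (a : σ → F) {n : ℤ}
    (h : ∑ i ∈ s, algebraMap Λ Ω (μ i) * algebraMap F Ω (a i) ∈ W Λ Ω p n) :
    ∀ i ∈ s, p.Ge n (a i) := by
  intro i hi
  by_cases h0 : a i = 0
  · simp [h0]
  obtain ⟨j, hj, hj0, hj1⟩ := exists_min (p := p) s a ⟨i, hi, h0⟩
  exact (hj1 i hi).mono ((gauss ht s hμ a hj hj0 hj1).le h1 h)

omit [CharZero k] [IsAlgClosed k] in
theorem mem_span {u : Ω} (hu : u ∈ Algebra.adjoin Λ (range (algebraMap F Ω))) :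
    u ∈ Submodule.span Λ (range (algebraMap F Ω)) := by
  have h := Algebra.adjoin_eq_span_of_subset (R := Λ) (s := range (algebraMap F Ω)) (by
    refine subset_trans ?_ Submodule.subset_span
    exact Submonoid.closure_le (S := (algebraMap F Ω).range.toSubmonoid) |>.2 subset_rfl)
  rw [← h]
  exact hu

variable (k) in
omit [CharZero k] [IsAlgClosed k] in
theorem exists_rep {u : Ω} (hu : u ∈ Algebra.adjoin Λ (range (algebraMap F Ω))) :
    ∃ (σ : Type) (s : Finset σ) (μ : σ → Λ) (a : σ → F), LinearIndependent k μ ∧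
      u = ∑ i ∈ s, algebraMap Λ Ω (μ i) * algebraMap F Ω (a i) := by
  let β := Module.Basis.ofVectorSpace k Λ
  let T := Submodule.span F (range fun i => algebraMap Λ Ω (β i))
  have h1 : ∀ c : Λ, algebraMap Λ Ω c ∈ T := by
    intro c
    rw [← β.linearCombination_repr c, Finsupp.linearCombination_apply, Finsupp.sum, map_sum]
    refine sum_mem fun i _ => ?_
    rw [Algebra.smul_def, map_mul, cst (F := F), ← Algebra.smul_def]
    exact T.smul_mem _ (Submodule.subset_span ⟨i, rfl⟩)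
  have h2 : u ∈ T := by
    obtain ⟨c, rfl⟩ := Finsupp.mem_span_range_iff_exists_finsupp.1 (mem_span hu)
    refine sum_mem fun ρ _ => ?_
    simp only
    rw [Algebra.smul_def, mul_comm, ← Algebra.smul_def]
    exact T.smul_mem _ (h1 _)
  obtain ⟨f, rfl⟩ := Finsupp.mem_span_range_iff_exists_finsupp.1 h2
  refine ⟨_, f.support, β, f, β.linearIndependent, Finset.sum_congr rfl fun i _ => ?_⟩
  simp only
  rw [Algebra.smul_def, mul_comm]

theorem exists_lead (ht : IsCoord k t) (p : Place k F) {u : Ω}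
    (hu : u ∈ Algebra.adjoin Λ (range (algebraMap F Ω))) (h0 : u ≠ 0) : ∃ n, Lead Λ Ω p n u := by
  obtain ⟨σ, s, μ, a, hμ, rfl⟩ := exists_rep k hu
  obtain ⟨i, hi, hi0⟩ := Finset.exists_ne_zero_of_sum_ne_zero h0
  obtain ⟨j, hj, hj0, hj1⟩ := exists_min (p := p) s a ⟨i, hi, fun h => hi0 (by simp [h])⟩
  exact ⟨_, gauss ht s hμ a hj hj0 hj1⟩

theorem exists_fin (ht : IsCoord k t) {u : Ω}
    (hu : u ∈ Algebra.adjoin Λ (range (algebraMap F Ω))) :
    ∃ S : Finset (Place k F), S.Nonempty ∧ ∀ p ∉ S, u ∈ W Λ Ω p 0 := by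
  classical
  obtain ⟨σ, s, μ, a, hμ, rfl⟩ := exists_rep k hu
  obtain ⟨p₀, -⟩ := ht.exists_pole
  refine ⟨insert p₀ (s.biUnion fun i => (ht.finite_poles (a i)).toFinset),
    Finset.insert_nonempty _ _, fun p hp => sum_mem fun i hi => cmul_mem _ (gen_mem ?_)⟩
  refine ge_of_le (not_lt.1 fun h => hp ?_)
  exact Finset.mem_insert_of_mem (Finset.mem_biUnion.2 ⟨i, hi, by simpa using h⟩)

theorem eq_zero (ht : IsCoord k t) (h1 : ∀ p : Place k F, (1 : Ω) ∉ W Λ Ω p 1) {u : Ω}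
    (hu : u ∈ Algebra.adjoin Λ (range (algebraMap F Ω))) (h : ∀ p : Place k F, u ∈ W Λ Ω p 0)
    (h' : u ∈ W Λ Ω p 1) : u = 0 := by
  obtain ⟨σ, s, μ, a, hμ, rfl⟩ := exists_rep k hu
  refine Finset.sum_eq_zero fun i hi => ?_
  obtain ⟨c, hc⟩ := ht.const_of_forall_ge fun q => ge_of_mem ht (h1 q) s hμ a (h q) i hi
  have h2 := ge_of_mem ht (h1 p) s hμ a h' i hi
  rw [hc] at h2
  rw [hc, eq_zero_of_ge_one_const h2]
  simp

end Pool.Agent.Lib.GD.CUR
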