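import Pool.Agent.Lib.GD.DGa

/-! Prime divisors are divisorial places and have a degree. -/

open Set Filter Pool.Agent.Lib.MP_e06174_ag Pool.Agent.Lib.MP_e39d36_ag
  Pool.Agent.Lib.MP_e39d36_ag.Var

set_option linter.unusedSectionVars false
set_option linter.unusedVariables false

noncomputable section

namespace Pool.Agent.Lib.GD

namespace DG

variable {K L M : Type} [Field K] [Algebra ℂ K] [Field L] [Algebra ℂ L] [Field M] [Algebra ℂ M]
  {X : Var K} {Y : Var L} {Z : Var M}

theorem hm_eq (Q : Prj X) (E : X.PD) :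
    ⨅ j, (plc E).ord (Q.y j) = X.ord (Q.y (ch E.1)) E.1 := by
  haveI := X.nei
  refine le_antisymm ?_ (le_ciInf fun j => ?_)
  · rw [← plc_ord]
    exact ciInf_le (Set.finite_range _).bddBelow _
  · have := Q.hyp_nonneg j E
    rw [Q.hyp_apply, ord_div (Q.ne _) (Q.ne _)] at this
    rw [plc_ord]
    simpa using this

theorem plc_inj {E F : X.PD} (h : plc E = plc F) : E = F :=
  pd_eq (by rw [← plc_O, ← plc_O, h])

variable [Algebra L K] [IsScalarTower ℂ L K]

theorem map_mem (Q : Prj X) (R : Prj Y) {z : Y.ι → K} {d : K} (hz : ∀ a, z a ∈ Q.Fm 1)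
    (hd : d ≠ 0) (hu : ∀ a, algebraMap L K (R.y a) = z a / d) {G : L} {m : ℕ} (h : G ∈ R.Fm m) :
    algebraMap L K G * d ^ m ∈ Q.Fm m := by
  have hc : ∀ c : ℂ, ∀ w : L, algebraMap L K (c • w) = c • algebraMap L K w := fun c w =>
    (IsScalarTower.toAlgHom ℂ L K).toLinearMap.map_smul c w
  induction h using Submodule.pow_induction_on_left' with
  | algebraMap r =>
    rw [pow_zero, mul_one, ← IsScalarTower.algebraMap_apply, Algebra.algebraMap_eq_smul_one]
    obtain ⟨i⟩ := X.nei
    exact Submodule.smul_mem _ _ (by simpa using Q.y_pow_mem i 0)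
  | add x y i _ _ hx hy => rw [map_add, add_mul]; exact add_mem hx hy
  | mem_mul a ha k x _ hx =>
    have h1 : algebraMap L K a * d ∈ Q.Fm 1 := by
      induction ha using Submodule.span_induction with
      | mem x hx =>
        obtain ⟨j, rfl⟩ := hx
        rw [hu, div_mul_cancel₀ _ hd]
        exact hz j
      | zero => simp
      | add a b _ _ ha hb => rw [map_add, add_mul]; exact add_mem ha hb
      | smul c a _ ha => rw [hc, smul_mul_assoc]; exact Submodule.smul_mem _ _ ha
    have h2 := Q.mul_mem_Fm h1 hx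
    rw [add_comm] at h2
    rw [map_mul, pow_succ', mul_mul_mul_comm]
    exact h2

variable [Algebra K M] [Algebra L M] [IsScalarTower ℂ K M] [IsScalarTower ℂ L M]
  [IsScalarTower L K M] [FiniteDimensional L M] [IsGalois L M] [FiniteDimensional K M]
  [IsGalois K M] (π : IC Y X) (π' : IC X Z)

theorem ord_z (Q : Prj X) (R : Prj Y) {z : Y.ι → K} {d : K} (hz : ∀ a, z a ∈ Q.Fm 1)
    (hv : ∀ x, ∃ a, z a ∉ Q.van 1 x) (hd : d ≠ 0) (hu : ∀ a, algebraMap L K (R.y a) = z a / d)
    (a : Y.ι) (E : Z.PD) :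
    (π.comp π').e E * R.hyp a ((π.comp π').pP E) =
      π'.e E * (X.ord (z a) (π'.pP E).1 - X.ord (Q.y (ch (π'.pP E).1)) (π'.pP E).1) := by
  have h0 : ∀ b, z b ≠ 0 := fun b h =>
    (map_ne_zero (algebraMap L K)).2 (R.ne b) (by rw [hu, h, zero_div])
  obtain ⟨b, hb⟩ := hv (π'.p E.1)
  obtain ⟨y, h1, h2⟩ := exists_centre (X := Y) (i := b) ((X.isLoc (π'.p E.1)).comap _)
    (R.A_eq b ▸ (Q.chA_le_iff hz hd hu ⟨b, hb⟩ (h0 b)).2 hb)
  rw [Y.sep _ _ _ ((X.isLoc _).comap _) h1 (π.dom _)] at h2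
  have h3 := (R.locEq_hyp a h2.1).eq (E := (π.comp π').pP E) le_rfl
  have h4 := (ch_spec (π'.p E.1)).1
  have h5 : X.ord (z b / Q.y (ch (π'.pP E).1) ^ 1) (π'.pP E).1 = 0 :=
    ord_un (E := π'.pP E) ((Q.notMem_van (hz b) h4).1 hb)
  rw [pow_one, ord_div (h0 b) (Q.ne _)] at h5
  rw [h3, ← IC.ord_alg, IsScalarTower.algebraMap_apply L K M, π'.ord_alg, map_div₀, hu, hu,
    div_div_div_cancel_right₀ hd, ord_div (h0 a) (h0 b)]
  congr 1
  linarith

theorem plc_over (E : Z.PD) : (plc E).Over (IsScalarTower.toAlgHom ℂ L M) (plc ((π.comp π').pP E))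
    ((π.comp π').e E) :=
  ⟨by exact_mod_cast (π.comp π').e_pos E, fun f => by
    rw [plc_ord, plc_ord]; exact (π.comp π').ord_alg f E⟩

theorem ord_norm {b : M} (hb : b ≠ 0) (E : Z.PD) :
    (π.comp π').e E * Y.ord (Algebra.norm L b) ((π.comp π').pP E).1 =
      ∑ σ : M ≃ₐ[L] M, Z.ord b ((π.comp π').actP σ⁻¹ E).1 := by
  rw [← IC.ord_alg, Algebra.norm_eq_prod_automorphisms, ord_val,
    od_prod fun σ _ => (map_ne_zero σ).2 hb]
  exact Finset.sum_congr rfl fun σ _ => by rw [← ord_val, (π.comp π').ord_act']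

omit [Algebra K M] [Algebra L M] [IsScalarTower ℂ K M] [IsScalarTower ℂ L M]
  [IsScalarTower L K M] [FiniteDimensional L M] [IsGalois L M] [FiniteDimensional K M]
  [IsGalois K M] [Field M] [Algebra ℂ M] in
theorem main [FiniteDimensional L K] (π : IC Y X) (Q : Prj X) (R : Prj Y)
    (hR : ∀ a, AlgebraicIndependent ℂ fun b : {b // b ≠ a} => R.y b / R.y a) {z : Y.ι → K} {d : K}
    (hz : ∀ a, z a ∈ Q.Fm 1) (hv : ∀ x, ∃ a, z a ∉ Q.van 1 x) (hd : d ≠ 0)
    (hu : ∀ a, algebraMap L K (R.y a) = z a / d) {n : ℕ} {x : Fin n → K}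
    (hx : IsTranscendenceBasis ℂ x) : (∀ E : X.PD, Dv n (plc E)) ∧
    ∃ dg : X.PD → ℕ, (∀ E, 0 < dg E) ∧
      (∀ E : X.PD, ∃ z ∈ Q.Fm (dg E), z ≠ 0 ∧
        dg E * (⨅ j, (plc E).ord (Q.y j)) < (plc E).ord z) ∧
      ∃ c : ℕ, ∀ (e : ℕ) (z : K), z ∈ Q.Fm e → z ≠ 0 → ∀ F : Finset X.PD,
        ∑ E ∈ F, ((plc E).ord z - e * ⨅ j, (plc E).ord (Q.y j)) * dg E ≤ c * e := by
  classical
  haveI : CharZero L := charZero_of_injective_algebraMap (algebraMap ℂ L).injective
  obtain ⟨M, _, _, _, _, _, _, _, _, _⟩ := exists_galois_closure L K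
  haveI := FiniteDimensional.right L K M
  haveI := IsGalois.tower_top_of_isGalois L K M
  obtain ⟨Z, ⟨π'⟩⟩ := exists_normalisation (K := M) X
  choose up hup using π'.pP_surj
  have h0 : ∀ b, z b ≠ 0 := fun b h =>
    (map_ne_zero (algebraMap L K)).2 (R.ne b) (by rw [hu, h, zero_div])
  have hord : ∀ (E : X.PD) (f : L), π'.e (up E) * X.ord (algebraMap L K f) E.1 =
      (π.comp π').e (up E) * Y.ord f ((π.comp π').pP (up E)).1 := fun E f => by
    rw [← IC.ord_alg, IsScalarTower.algebraMap_apply L K M, π'.ord_alg, hup]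
  refine ⟨fun E => ?_, ?_⟩
  · obtain ⟨a, c, hc⟩ := exists_adapt R hR ((π.comp π').pP (up E))
    have h1 : IsTranscendenceBasis ℂ (algebraMap L K ∘ tt R a) := (tb R hR a).algebraMap_comp
    obtain ⟨ε⟩ := Cardinal.eq.1 (hx.cardinalMk_eq h1)
    obtain ⟨t, ht0, ht⟩ := (plc E).exists_ord_eq_one
    refine ⟨Function.update (algebraMap L K ∘ tt R a ∘ ε) (ε.symm c) t, ε.symm c, by simpa using ht,
      fun p hp hdeg => ?_⟩
    have h2 : MvPolynomial.aeval (Function.update (algebraMap L K ∘ tt R a ∘ ε) (ε.symm c) t) p =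
        algebraMap L K (MvPolynomial.aeval (tt R a) (MvPolynomial.rename ε p)) := by
      rw [MvPolynomial.aeval_rename]
      refine MvPolynomial.hom_congr_vars
        (f₁ := (MvPolynomial.aeval
          (Function.update (algebraMap L K ∘ tt R a ∘ ε) (ε.symm c) t)).toRingHom)
        (f₂ := (algebraMap L K).comp (MvPolynomial.aeval (tt R a ∘ ε)).toRingHom) ?_ ?_ rfl
      · ext r
        simp [← IsScalarTower.algebraMap_apply]
      · intro i hi _
        have hne : i ≠ ε.symm c := fun e =>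
          MvPolynomial.mem_vars_iff_degreeOf_ne_zero.1 hi (e ▸ hdeg)
        simp [Function.update_of_ne hne]
    have h3 := hc (MvPolynomial.rename ε p)
      (fun h => hp (MvPolynomial.rename_injective _ ε.injective (by rw [h, map_zero])))
      (by rw [← ε.apply_symm_apply c, MvPolynomial.degreeOf_rename_of_injective ε.injective, hdeg])
    rw [h2, plc_ord]
    refine ⟨(map_ne_zero _).2 h3.1, ?_⟩
    have h4 := hord E (MvPolynomial.aeval (tt R a) (MvPolynomial.rename ε p))
    rw [ord_un h3, mul_zero] at h4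
    exact (mul_eq_zero.1 h4).resolve_left (π'.e_pos _).ne'
  obtain ⟨a⟩ := Y.nei
  choose φ dg hφ hdg hdiv using exists_deg R hR a
  refine ⟨fun E => dg ((π.comp π').pP (up E)), fun E => hdg _, fun E => ?_,
    Module.finrank L M * Module.finrank L M, fun e w hw hw0 T => ?_⟩
  · set F := (π.comp π').pP (up E) with hF
    have h1 := map_mem Q R hz hd hu (mem_Fm R hR (a := a) (d := dg F) (hφ F) fun G => by
      rw [← hdiv, Finsupp.single_apply]; split_ifs <;> simp)
    have h2 : algebraMap L K (φ F * R.y a ^ dg F) * d ^ dg F = algebraMap L K (φ F) * z a ^ dg F := by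
      rw [map_mul, map_pow, hu, div_pow, mul_assoc, div_mul_cancel₀ _ (pow_ne_zero _ hd)]
    rw [h2] at h1
    have h3 : algebraMap L K (φ F) ≠ 0 := (map_ne_zero _).2 (hφ F)
    refine ⟨_, h1, mul_ne_zero h3 (pow_ne_zero _ (h0 a)), ?_⟩
    rw [hm_eq, plc_ord, ord_mul h3 (pow_ne_zero _ (h0 a)), ord_pow]
    have h4 := ord_z π π' Q R hz hv hd hu a (up E)
    have h5 := hord E (φ F)
    have h6 := hdiv F F
    rw [Finsupp.single_eq_same] at h6
    rw [hup, ← hF] at h4
    rw [← hF] at h5
    have h7 := π'.e_pos (up E)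
    have h8 := (π.comp π').e_pos (up E)
    have h9 : π'.e (up E) * (X.ord (algebraMap L K (φ F)) E.1 + dg F * X.ord (z a) E.1 -
        dg F * X.ord (Q.y (ch E.1)) E.1) = (π.comp π').e (up E) := by
      linear_combination h5 - dg F * h4 - (π.comp π').e (up E) * h6
    rw [← h9] at h8
    have h10 := (mul_pos_iff_of_pos_left h7).1 h8
    linarith
  · have hb : algebraMap K M (w / z a ^ e) ≠ 0 :=
      (map_ne_zero _).2 (div_ne_zero hw0 (pow_ne_zero _ (h0 a)))
    -- the divisor upstairs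
    have h1 : ∀ E' : Z.PD, Z.ord (algebraMap K M (w / z a ^ e)) E'.1 +
        e * ((π.comp π').e E' * R.hyp a ((π.comp π').pP E')) =
        π'.e E' * (X.ord w (π'.pP E').1 - e * X.ord (Q.y (ch (π'.pP E').1)) (π'.pP E').1) := by
      intro E'
      rw [ord_z π π' Q R hz hv hd hu a E', π'.ord_alg, ord_div hw0 (pow_ne_zero _ (h0 a)), ord_pow]
      ring
    have h2 : ∀ E : X.PD, 0 ≤ X.ord w E.1 - e * X.ord (Q.y (ch E.1)) E.1 := fun E => by
      have := ord_nonneg (E := E) ((ch_spec E.1).1 (Q.div_mem hw (ch E.1)))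
      rwa [ord_div hw0 (pow_ne_zero _ (Q.ne _)), ord_pow] at this
    set N : Y.PD →₀ ℤ := Y.div (Algebra.norm L (algebraMap K M (w / z a ^ e))) +
      (Module.finrank L M * e) • R.hyp a with hN
    have hNa : ∀ G, N G = Y.ord (Algebra.norm L (algebraMap K M (w / z a ^ e))) G.1 +
        (Module.finrank L M * e : ℕ) * R.hyp a G := fun G => by simp [hN]
    have h3 : ∀ E' : Z.PD, (π.comp π').e E' * N ((π.comp π').pP E') =
        ∑ σ : M ≃ₐ[L] M, π'.e ((π.comp π').actP σ⁻¹ E') *
          (X.ord w (π'.pP ((π.comp π').actP σ⁻¹ E')).1 -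
            e * X.ord (Q.y (ch (π'.pP ((π.comp π').actP σ⁻¹ E')).1))
              (π'.pP ((π.comp π').actP σ⁻¹ E')).1) := by
      intro E'
      simp only [← h1, IC.e_act, IC.pP_act]
      rw [Finset.sum_add_distrib, ← ord_norm π π' hb, hNa, Finset.sum_const, Finset.card_univ,
        ← Nat.card_eq_fintype_card, IsGalois.card_aut_eq_finrank]
      simp only [nsmul_eq_mul]
      push_cast
      ring
    have h4 : ∀ E' : Z.PD, π'.e E' * (X.ord w (π'.pP E').1 -
        e * X.ord (Q.y (ch (π'.pP E').1)) (π'.pP E').1) ≤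
          (π.comp π').e E' * N ((π.comp π').pP E') := by
      intro E'
      rw [h3]
      have h5 := Finset.single_le_sum (s := Finset.univ) (f := fun σ : M ≃ₐ[L] M =>
        π'.e ((π.comp π').actP σ⁻¹ E') * (X.ord w (π'.pP ((π.comp π').actP σ⁻¹ E')).1 -
          e * X.ord (Q.y (ch (π'.pP ((π.comp π').actP σ⁻¹ E')).1))
            (π'.pP ((π.comp π').actP σ⁻¹ E')).1))
        (fun σ _ => mul_nonneg (π'.e_pos _).le (h2 _)) (Finset.mem_univ 1)
      have h6 : (π.comp π').actP 1⁻¹ E' = E' := by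
        rw [inv_one]; exact Subtype.ext (π.comp π').act_one
      simpa only [h6] using h5
    have h5 : ∀ G, 0 ≤ N G := fun G => by
      obtain ⟨E', rfl⟩ := (π.comp π').pP_surj G
      exact nonneg_of_mul_nonneg_right ((mul_nonneg (π'.e_pos _).le (h2 _)).trans (h4 E'))
        ((π.comp π').e_pos E')
    have h6 : ∀ E : X.PD, X.ord w E.1 - e * X.ord (Q.y (ch E.1)) E.1 ≤
        (π.comp π').e (up E) * N ((π.comp π').pP (up E)) := fun E => by
      have h7 := h4 (up E)
      rw [hup] at h7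
      exact (le_mul_of_one_le_left (h2 E) (π'.e_pos _)).trans h7
    have h7 : ∀ G : Y.PD, ∑ E ∈ T with (π.comp π').pP (up E) = G, ((π.comp π').e (up E) : ℤ) ≤
        Module.finrank L M := fun G => by
      have hi : Function.Injective fun E : X.PD => plc (up E) := fun E E' h => by
        rw [← hup E, ← hup E', plc_inj h]
      have h8 := Place.sum_ram_le (plc G)
        ((T.filter fun E => (π.comp π').pP (up E) = G).map ⟨_, hi⟩)
        (Function.extend (fun E : X.PD => plc (up E)) (fun E => (π.comp π').e (up E)) 0)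
        (fun v hv => by
          obtain ⟨E, hE, rfl⟩ := Finset.mem_map.1 hv
          simp only [Function.Embedding.coeFn_mk, hi.extend_apply]
          rw [← (Finset.mem_filter.1 hE).2]
          exact plc_over π π' (up E))
      rw [Finset.sum_map] at h8
      simp only [Function.Embedding.coeFn_mk, hi.extend_apply] at h8
      exact_mod_cast h8
    have h8 := deg_le R hφ hdiv N (Algebra.norm_ne_zero_iff.2 hb) (Module.finrank L M * e) hNa
    calc ∑ E ∈ T, ((plc E).ord w - e * ⨅ j, (plc E).ord (Q.y j)) * dg ((π.comp π').pP (up E))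
        ≤ ∑ E ∈ T, (π.comp π').e (up E) *
            (N ((π.comp π').pP (up E)) * dg ((π.comp π').pP (up E))) :=
          Finset.sum_le_sum fun E _ => by
            rw [hm_eq, plc_ord, ← mul_assoc]
            exact mul_le_mul_of_nonneg_right (h6 E) (Int.natCast_nonneg _)
      _ = ∑ G ∈ T.image fun E => (π.comp π').pP (up E),
            (∑ E ∈ T with (π.comp π').pP (up E) = G, ((π.comp π').e (up E) : ℤ)) * (N G * dg G) := by
          rw [← Finset.sum_fiberwise_of_maps_to
            (fun E hE => Finset.mem_image_of_mem (fun E => (π.comp π').pP (up E)) hE)]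
          refine Finset.sum_congr rfl fun G _ => ?_
          rw [Finset.sum_mul]
          exact Finset.sum_congr rfl fun E hE => by rw [(Finset.mem_filter.1 hE).2]
      _ ≤ ∑ G ∈ T.image fun E => (π.comp π').pP (up E), Module.finrank L M * (N G * dg G) :=
          Finset.sum_le_sum fun G _ => mul_le_mul_of_nonneg_right (h7 G)
            (mul_nonneg (h5 G) (Int.natCast_nonneg _))
      _ ≤ Module.finrank L M * N.sum fun G k => k * dg G := by
          rw [← Finset.mul_sum]
          refine mul_le_mul_of_nonneg_left ?_ (Int.natCast_nonneg _)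
          rw [Finsupp.sum_of_support_subset N (s := N.support ∪ T.image fun E =>
            (π.comp π').pP (up E)) Finset.subset_union_left _ (by simp)]
          exact Finset.sum_le_sum_of_subset_of_nonneg Finset.subset_union_right fun G _ _ =>
            mul_nonneg (h5 G) (Int.natCast_nonneg _)
      _ ≤ Module.finrank L M * (Module.finrank L M * e : ℕ) :=
          mul_le_mul_of_nonneg_left h8 (Int.natCast_nonneg _)
      _ = _ := by push_cast; ring

end DG

theorem blockDG : St_DG := by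
  intro K _ _ n x hx X Q
  obtain ⟨P⟩ := DU.PROb.pro1 K X Q
  haveI := P.fd
  exact DG.main P.π Q P.R P.ind P.mem P.nv P.d0 P.hu hx

end Pool.Agent.Lib.GD
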