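import Pool.Agent.Lib.GD.Blue
import Pool.Agent.Lib.DU.PROb

/-! Prime divisors and forms on projective space. -/

open Set Filter Pool.Agent.Lib.MP_e39d36_ag Pool.Agent.Lib.MP_e39d36_ag.Var MvPolynomial

set_option linter.unusedSectionVars false
set_option linter.unusedVariables false

noncomputable section

namespace Pool.Agent.Lib.GD

namespace DG

variable {L : Type} [Field L] [Algebra ℂ L] {Y : Var L} (R : Prj Y)

/-- Affine coordinates. -/
def tt (a : Y.ι) : {b // b ≠ a} → L := fun b => R.y b / R.y a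

theorem eff_const {ψ : L} (h0 : ψ ≠ 0) (h : ∀ F : Y.PD, 0 ≤ Y.ord ψ F.1) :
    ∃ c : ℂ, c ≠ 0 ∧ ψ = algebraMap ℂ L c := by
  obtain ⟨c, rfl⟩ := Y.eq_const (z := ψ) fun x => hartogs fun F _ => h F
  exact ⟨c, fun e => h0 (by simp [e]), rfl⟩

theorem eff_zero {ψ : L} (h0 : ψ ≠ 0) (h : ∀ F : Y.PD, 0 ≤ Y.ord ψ F.1) (F : Y.PD) :
    Y.ord ψ F.1 = 0 := by
  obtain ⟨c, hc, rfl⟩ := eff_const h0 h
  exact ord_un (Y.un_const _ hc)

theorem ord_zpow (f : L) (k : ℤ) (F : Y.PD) : Y.ord (f ^ k) F.1 = k * Y.ord f F.1 := by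
  simp [ord_val, od]

theorem pd_of_mem {G : L} {m : ℕ} (h : G ∈ R.Fm m) (b : Y.ι) :
    ∃ p : MvPolynomial {c // c ≠ b} ℂ, p.totalDegree ≤ m ∧ aeval (tt R b) p = G / R.y b ^ m := by
  induction h using Submodule.pow_induction_on_left' with
  | algebraMap r => exact ⟨C r, by simp, by simp⟩
  | add x y i _ _ hx hy =>
    obtain ⟨p, h1, h2⟩ := hx
    obtain ⟨q, h3, h4⟩ := hy
    exact ⟨p + q, (totalDegree_add p q).trans (max_le h1 h3), by rw [map_add, h2, h4, add_div]⟩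
  | mem_mul a ha k x _ hx =>
    obtain ⟨p, h1, h2⟩ := hx
    obtain ⟨q, h3, h4⟩ : ∃ q : MvPolynomial {c // c ≠ b} ℂ, q.totalDegree ≤ 1 ∧
        aeval (tt R b) q = a / R.y b := by
      induction ha using Submodule.span_induction with
      | mem x hx =>
        obtain ⟨j, rfl⟩ := hx
        by_cases hj : j = b
        · exact ⟨1, by simp, by simp [hj, R.ne b]⟩
        · exact ⟨X ⟨j, hj⟩, by simp, by simp [tt]⟩
      | zero => exact ⟨0, by simp, by simp⟩
      | add a a' _ _ ha ha' =>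
        obtain ⟨q, h3, h4⟩ := ha
        obtain ⟨q', h5, h6⟩ := ha'
        exact ⟨q + q', (totalDegree_add q q').trans (max_le h3 h5),
          by rw [map_add, h4, h6, add_div]⟩
      | smul c a _ ha =>
        obtain ⟨q, h3, h4⟩ := ha
        exact ⟨c • q, (totalDegree_smul_le c q).trans h3, by rw [map_smul, h4, smul_div_assoc]⟩
    refine ⟨q * p, (totalDegree_mul q p).trans (by omega), ?_⟩
    rw [map_mul, h2, h4, pow_succ', mul_div_mul_comm]

theorem mem_mono {w : L} {b : Y.ι} {k m : ℕ} (hk : k ≤ m) (h : w * R.y b ^ k ∈ R.Fm k) :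
    w * R.y b ^ m ∈ R.Fm m := by
  obtain ⟨j, rfl⟩ := Nat.exists_eq_add_of_le hk
  rw [pow_add, ← mul_assoc]
  exact R.mul_mem_Fm h (R.y_pow_mem b j)

theorem mem_of_pd {b : Y.ι} {m : ℕ} (p : MvPolynomial {c // c ≠ b} ℂ) (h : p.totalDegree ≤ m) :
    aeval (tt R b) p * R.y b ^ m ∈ R.Fm m := by
  classical
  have key : ∀ (s : Finset {c // c ≠ b}) (k : {c // c ≠ b} → ℕ),
      (∏ c ∈ s, tt R b c ^ k c) * R.y b ^ (∑ c ∈ s, k c) ∈ R.Fm (∑ c ∈ s, k c) := by
    intro s k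
    induction s using Finset.induction_on with
    | empty => simpa using R.y_pow_mem b 0
    | insert c s hc ih =>
      rw [Finset.prod_insert hc, Finset.sum_insert hc]
      have e : tt R b c ^ k c * (∏ c ∈ s, tt R b c ^ k c) * R.y b ^ (k c + ∑ c ∈ s, k c) =
          R.y c ^ k c * ((∏ c ∈ s, tt R b c ^ k c) * R.y b ^ (∑ c ∈ s, k c)) := by
        have := R.ne b
        rw [pow_add, tt, div_pow]
        field_simp
      rw [e]
      exact R.mul_mem_Fm (R.y_pow_mem c _) ih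
  rw [p.as_sum, map_sum, Finset.sum_mul]
  refine sum_mem fun s hs => ?_
  rw [aeval_monomial, mul_assoc, ← Algebra.smul_def]
  refine Submodule.smul_mem _ _ (mem_mono R ((le_totalDegree hs).trans h) ?_)
  exact key s.support s

variable (hR : ∀ a, AlgebraicIndependent ℂ fun b : {b // b ≠ a} => R.y b / R.y a)

include hR

theorem exists_equiv (a : Y.ι) : ∃ e : MvPolynomial {b // b ≠ a} ℂ ≃+* (Y.A a).toSubring,
    ∀ p, (e p : L) = aeval (tt R a) p :=
  ⟨(chEquiv (R.ne a) (hR a)).toRingEquiv.trans (RingEquiv.subringCongr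
    (congrArg Subalgebra.toSubring (R.A_eq a).symm)), fun p => (hR a).algebraMap_aevalEquiv p⟩

theorem tb (a : Y.ι) : IsTranscendenceBasis ℂ (tt R a) := by
  refine (hR a).isTranscendenceBasis_iff_isAlgebraic.2 ⟨fun w => ?_⟩
  obtain ⟨e, he⟩ := exists_equiv R hR a
  have hm : ∀ z ∈ Y.A a, z ∈ Algebra.adjoin ℂ (range (tt R a)) := fun z hz => by
    obtain ⟨p, hp⟩ := e.surjective ⟨z, hz⟩
    have := he p
    rw [hp] at this
    rw [Algebra.adjoin_range_eq_range_aeval]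
    exact ⟨p, this.symm⟩
  obtain ⟨b, h1, h2, h3⟩ := Y.frac a w
  refine ⟨Polynomial.C ⟨b, hm b h1⟩ * Polynomial.X - Polynomial.C ⟨_, hm _ h3⟩, fun h => ?_, ?_⟩
  · have := congrArg (fun q => Polynomial.coeff q 1) h
    simp only [Polynomial.coeff_sub, Polynomial.coeff_C_mul, Polynomial.coeff_X_one, mul_one,
      Polynomial.coeff_C_succ, sub_zero, Polynomial.coeff_zero] at this
    exact h2 (congrArg Subtype.val this)
  · simp

theorem exists_deg (a : Y.ι) (F : Y.PD) : ∃ (φ : L) (d : ℕ), φ ≠ 0 ∧ 0 < d ∧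
    ∀ G : Y.PD, Finsupp.single F (1 : ℤ) G = Y.ord φ G.1 + d * R.hyp a G := by
  classical
  have h0 : (0 : Y.PD →₀ ℤ) ≤ Finsupp.single F 1 := fun G => by
    rw [Finsupp.single_apply]; split_ifs <;> simp
  obtain ⟨φ, d, h1, h2, h3⟩ := DU.PROb.pic L Y R hR (Finsupp.single F 1) a
  obtain ⟨d, rfl⟩ := Int.eq_ofNat_of_zero_le (h3 h0)
  have h4 : ∀ G : Y.PD, Finsupp.single F (1 : ℤ) G = Y.ord φ G.1 + d * R.hyp a G := fun G => by
    rw [h2]; simp
  refine ⟨φ, d, h1, Nat.pos_of_ne_zero ?_, h4⟩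
  rintro rfl
  have h5 := eff_zero h1 (fun G => by simpa [h4 G] using h0 G) F
  have h6 := h4 F
  simp [h5] at h6

omit hR in
theorem deg_le {a : Y.ι} {φ : Y.PD → L} {d : Y.PD → ℕ} (h0 : ∀ F, φ F ≠ 0)
    (h : ∀ F G : Y.PD, Finsupp.single F (1 : ℤ) G = Y.ord (φ F) G.1 + d F * R.hyp a G)
    (N : Y.PD →₀ ℤ) {ψ : L} (hψ : ψ ≠ 0) (t : ℕ)
    (hN : ∀ G, N G = Y.ord ψ G.1 + t * R.hyp a G) : (N.sum fun F k => k * d F) ≤ t := by
  classical
  have key : ∀ N : Y.PD →₀ ℤ, ∃ χ : L, χ ≠ 0 ∧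
      ∀ G, N G = Y.ord χ G.1 + (N.sum fun F k => k * d F) * R.hyp a G := by
    intro N
    induction N using Finsupp.induction_linear with
    | zero => exact ⟨1, one_ne_zero, fun G => by simp [ord_un Un.one]⟩
    | add N N' h1 h2 =>
      obtain ⟨f, h3, h4⟩ := h1
      obtain ⟨g, h5, h6⟩ := h2
      refine ⟨f * g, mul_ne_zero h3 h5, fun G => ?_⟩
      rw [Finsupp.sum_add_index' (by simp) (fun _ _ _ => add_mul _ _ _), Finsupp.add_apply, h4, h6,
        ord_mul h3 h5]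
      ring
    | single F k =>
      refine ⟨φ F ^ k, zpow_ne_zero _ (h0 F), fun G => ?_⟩
      have e : Finsupp.single F k G = k * Finsupp.single F (1 : ℤ) G := by
        simp only [Finsupp.single_apply]; split_ifs <;> simp
      rw [Finsupp.sum_single_index (by simp), e, h, ord_zpow]
      ring
  by_contra hlt
  push Not at hlt
  obtain ⟨χ, h1, h2⟩ := key N
  have h3 : ∀ G : Y.PD, Y.ord (ψ / χ) G.1 = ((N.sum fun F k => k * d F) - t) * R.hyp a G :=
    fun G => by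
      have := h2 G
      rw [hN G] at this
      rw [ord_div hψ h1]
      linarith
  have h4 := eff_zero (div_ne_zero hψ h1) fun G => by
    rw [h3]; exact mul_nonneg (by linarith) (R.hyp_nonneg a G)
  have h5 : ∀ G, R.hyp a G = 0 := fun G => by
    have := h4 G
    rw [h3] at this
    exact (mul_eq_zero.1 this).resolve_left (by linarith)
  have h6 : N ≠ 0 := by
    rintro rfl
    simp at hlt
    omega
  obtain ⟨F, -⟩ := Finsupp.ne_iff.1 h6
  have h7 := eff_zero (h0 F) (fun G => by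
    have := h F G
    rw [h5, mul_zero, add_zero] at this
    rw [← this, Finsupp.single_apply]
    split_ifs <;> simp) F
  have h8 := h F F
  simp [h5, h7] at h8

theorem mem_Fm {φ : L} {d : ℕ} {a : Y.ι} (h0 : φ ≠ 0)
    (h : ∀ G : Y.PD, 0 ≤ Y.ord φ G.1 + d * R.hyp a G) : φ * R.y a ^ d ∈ R.Fm d := by
  by_cases hH : ∀ G : Y.PD, (Y.A a).toSubring ≤ Y.O G.1
  · obtain ⟨c, -, rfl⟩ := eff_const h0 fun G => by simpa [R.hyp_eq_zero (hH G)] using h G
    rw [← Algebra.smul_def]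
    exact Submodule.smul_mem _ _ (R.y_pow_mem a d)
  obtain ⟨H, hH⟩ := not_forall.1 hH
  have hc := (ch_spec H.1).1
  have hi : a ≠ ch H.1 := fun e => hH (e ▸ hc)
  have h1 : φ ∈ Y.A a := mem_A fun x hx => hartogs fun G hG => by
    simpa [R.hyp_eq_zero (hx.trans hG)] using h G
  obtain ⟨e, he⟩ := exists_equiv R hR (ch H.1)
  have step : ∀ m, d ≤ m → φ * R.y a ^ (m + 1) ∈ R.Fm (m + 1) → φ * R.y a ^ m ∈ R.Fm m := by
    intro m hm hG
    obtain ⟨p, h2, h3⟩ := pd_of_mem R hG (ch H.1)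
    have hb := R.ne (ch H.1)
    have ha := R.ne a
    have h4 : aeval (tt R (ch H.1)) p = φ * (R.y a / R.y (ch H.1)) ^ (m + 1) := by
      rw [h3, div_pow, mul_div_assoc]
    have h5 : ¬Un (Y.O H.1) (e p) := fun hu => by
      have h6 := ord_un hu
      rw [he, h4, ord_mul h0 (pow_ne_zero _ (R.div_ne _ _)), ord_pow, ← R.hyp_apply] at h6
      have h7 := h H
      have h8 := R.hyp_pos hH
      have h9 : (d : ℤ) ≤ m := by exact_mod_cast hm
      push_cast at h6
      nlinarith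
    have h6 := (not_un_iff_dvd hc (R.prime_y hR hi).1
      (fun hu => hH (R.le_of_un hc hu)) (e p)).1 h5
    have h7 : e (X ⟨a, hi⟩) = ⟨_, R.mem (ch H.1) a⟩ := Subtype.ext (by rw [he]; simp [tt])
    rw [← h7, map_dvd_iff] at h6
    obtain ⟨q, rfl⟩ := h6
    have h8 : q ≠ 0 := by
      rintro rfl
      rw [mul_zero, map_zero] at h4
      exact mul_ne_zero h0 (pow_ne_zero _ (R.div_ne _ _)) h4.symm
    rw [totalDegree_mul_of_isDomain (X_ne_zero _) h8, totalDegree_X] at h2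
    have h9 := mem_of_pd R q (m := m) (by omega)
    have h10 : aeval (tt R (ch H.1)) q = φ * (R.y a / R.y (ch H.1)) ^ m := by
      rw [map_mul, aeval_X, tt, pow_succ', mul_left_comm] at h4
      exact mul_left_cancel₀ (R.div_ne _ _) h4
    rwa [h10, div_pow, mul_assoc, div_mul_cancel₀ _ (pow_ne_zero _ hb)] at h9
  obtain ⟨m, h2, h3⟩ := ((R.eventually_mem h1).and (eventually_ge_atTop d)).exists
  obtain ⟨k, rfl⟩ := Nat.exists_eq_add_of_le h3
  clear h3
  induction k with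
  | zero => exact h2
  | succ k ih => exact ih (step _ (Nat.le_add_right d k) h2)

theorem exists_adapt (F : Y.PD) : ∃ (a : Y.ι) (c : {b // b ≠ a}),
    ∀ P : MvPolynomial {b // b ≠ a} ℂ, P ≠ 0 → P.degreeOf c = 0 →
      Un (Y.O F.1) (aeval (tt R a) P) := by
  have hE := (ch_spec F.1).1
  obtain ⟨e, he⟩ := exists_equiv R hR (ch F.1)
  haveI : UniqueFactorizationMonoid (Y.A (ch F.1)).toSubring :=
    e.toMulEquiv.uniqueFactorizationMonoid inferInstance
  obtain ⟨t, h0, ht⟩ := exists_unif (isV F).1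
  rw [← ord_val] at ht
  obtain ⟨b, h1, h2, h3⟩ := (locOf_of_le hE).2 t
    (((isV F).mem_iff h0).2 (by rw [← ord_val]; omega))
  have h4 : Y.ord (b * t) F.1 = 1 := by rw [ord_mul h2.1 h0, ord_un h2, ht, zero_add]
  have h5 : ¬Un (Y.O F.1) (b * t) := fun h => by rw [ord_un h] at h4; omega
  obtain ⟨f, h6, hf⟩ := Ideal.IsPrime.exists_mem_prime_of_ne_bot (I := mx (Y.isLoc _) hE)
    inferInstance fun h => by
      have : (⟨_, h3⟩ : (Y.A (ch F.1)).toSubring) ∈ mx (Y.isLoc _) hE := h5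
      rw [h] at this
      exact mul_ne_zero h2.1 h0 (congrArg Subtype.val this)
  obtain ⟨p, rfl⟩ := e.surjective f
  have hp0 : p ≠ 0 := fun h => hf.ne_zero (by rw [h, map_zero])
  obtain ⟨c, hc⟩ : ∃ c, c ∈ p.vars := by
    by_contra hv
    push Not at hv
    have h7 := vars_eq_empty_iff_eq_C.1 (Finset.eq_empty_of_forall_notMem hv)
    refine h6 ?_
    rw [he, h7, aeval_C]
    exact Y.un_const _ fun h => hp0 (by rw [h7, h, map_zero])
  refine ⟨ch F.1, c, fun P hP hd => ?_⟩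
  rw [← he]
  by_contra hu
  have h7 := (not_un_iff_dvd hE hf h6 (e P)).1 hu
  rw [map_dvd_iff] at h7
  obtain ⟨q, rfl⟩ := h7
  rw [degreeOf_mul_eq hp0 (right_ne_zero_of_mul hP)] at hd
  exact mem_vars_iff_degreeOf_ne_zero.1 hc (by omega)

end DG

end Pool.Agent.Lib.GD
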