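import Pool.Agent.Lib.GD.DVa

/-! Block DV: divisorial places and pull-back of forms. -/

open Set Pool.Agent.Lib.MP_e06174_ag Place

set_option linter.unusedSectionVars false

noncomputable section

namespace Pool.Agent.Lib.GD

namespace DV

variable {L : Type} [Field L] [Algebra ℂ L] {n : ℕ}

section jac

variable {t : Fin n → L} {d : Fin n → Derivation ℂ L L}

theorem jac_chain (hd : Dual t d) (φ : L →ₐ[ℂ] L) (θ : Fin n → Derivation ℂ L L)
    (f : Fin n → L) : jac θ (φ ∘ f) = φ (jac d f) * jac θ (φ ∘ t) := by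
  unfold jac
  rw [AlgHom.map_det, mul_comm, ← Matrix.det_mul]
  congr 1
  ext a b
  simp only [Matrix.of_apply, Function.comp_apply, Matrix.mul_apply, AlgHom.mapMatrix_apply,
    Matrix.map_apply, hd.chain φ (θ a) (f b)]
  exact Finset.sum_congr rfl fun _ _ => mul_comm _ _

theorem jac_chain' (hd : Dual t d) (θ : Fin n → Derivation ℂ L L) (f : Fin n → L) :
    jac θ f = jac d f * jac θ t := jac_chain hd (AlgHom.id ℂ L) θ f

theorem jac_self (hd : Dual t d) : jac d t = 1 := by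
  unfold jac
  rw [← Matrix.det_one (n := Fin n)]
  congr 1
  ext a b
  rw [Matrix.of_apply, hd.dual, Matrix.one_apply]

theorem jac_update (hd : Dual t d) (i : Fin n) (f : Fin n → L) (hf : ∀ j, j ≠ i → f j = t j) :
    jac d f = d i (f i) := by
  have h := Matrix.cramer_apply (1 : Matrix (Fin n) (Fin n) L) (fun a => d a (f i)) i
  rw [Matrix.cramer_one] at h
  refine Eq.trans ?_ h.symm
  unfold jac
  congr 1
  ext a b
  by_cases hb : b = i
  · subst hb
    simp
  · rw [Matrix.of_apply, Matrix.updateCol_ne hb, hf b hb, hd.dual, Matrix.one_apply]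

theorem jac_ne (C : Ctx L n) (ht : IsTranscendenceBasis ℂ t) : jac C.d t ≠ 0 := by
  obtain ⟨d, hd⟩ := exists_dual ht
  have h := jac_chain' C.dual d t
  rw [jac_self hd] at h
  exact left_ne_zero_of_mul_eq_one h.symm

theorem jac_ge {v : Place ℂ L} {f : Fin n → L} (h : ∀ a b, v.Ge 0 (d a (f b))) :
    v.Ge 0 (jac d f) := by
  unfold jac
  rw [Matrix.det_apply']
  exact Ge.sum fun σ _ => (ge_intCast _).mul' (Ge.prod_zero fun b _ => h _ _) (by simp)

theorem kap_eq {v : Place ℂ L} {κ : ℤ} (h : IsKap d v κ) : kap d v = κ := by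
  have h' : IsKap d v (kap d v) := Classical.epsilon_spec ⟨κ, h⟩
  obtain ⟨f, f1, f2, f3⟩ := h.2
  obtain ⟨g, g1, g2, g3⟩ := h'.2
  have h1 := (h.1 g g1).le g2
  have h2 := (h'.1 f f1).le f2
  omega

theorem isKap_adapt (C : Ctx L n) {v : Place ℂ L} {i : Fin n} (h : Adapt v t i) :
    IsKap C.d v (-v.ord (jac C.d t)) := by
  have ht := tb_of_ind C (adapt_ind h)
  obtain ⟨d, hd⟩ := exists_dual ht
  refine ⟨fun f hf => ?_, t, z_ge h, jac_ne C ht, by simp⟩
  rw [jac_chain' hd C.d f]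
  exact (jac_ge fun a b => pres C h hd a _ (hf b)).mul' (ge_ord _) (by simp)

end jac

section maps

variable {B : Type} [Field B] [Algebra ℂ B]

theorem alg_gen (ψ : B →ₐ[ℂ] L) {t : Fin n → B} (h : IsTranscendenceBasis ℂ (ψ ∘ t)) :
    @Algebra.IsAlgebraic B L _ _ ψ.toRingHom.toAlgebra := by
  let := ψ.toRingHom.toAlgebra
  refine ⟨fun a => ?_⟩
  have h1 : IsAlgebraic ψ.range a := (h.isAlgebraic.isAlgebraic a).tower_top_of_subalgebra_le
    (Algebra.adjoin_le (by rintro _ ⟨j, rfl⟩; exact ⟨t j, rfl⟩))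
  exact IsAlgebraic.of_ringHom_of_comp_eq ψ.rangeRestrict.toRingHom (RingHom.id L) h1
    ψ.rangeRestrict_surjective Function.injective_id rfl

theorem poly_gen (ψ : B →ₐ[ℂ] L) {t : Fin n → B} (h : IsTranscendenceBasis ℂ (ψ ∘ t)) (a : L) :
    ∃ P : Polynomial B, P ≠ 0 ∧ P.eval₂ ψ.toRingHom a = 0 := by
  let := ψ.toRingHom.toAlgebra
  exact (alg_gen ψ h).isAlgebraic a

theorem under_gen (ψ : B →ₐ[ℂ] L) {t : Fin n → B} (h : IsTranscendenceBasis ℂ (ψ ∘ t))
    (w : Place ℂ L) : ∃ v e, w.Over ψ v e := by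
  refine (w.restrict ψ).resolve_left fun h0 => ?_
  let := ψ.toRingHom.toAlgebra
  obtain ⟨π, h1, h2⟩ := w.exists_ord_eq (-1)
  have h3 := (ge_zero_of_isIntegral (R := B) w (fun r => ge_of_le (h0 r).ge)
    ((alg_gen ψ h).isAlgebraic π).isIntegral).le h1
  omega

theorem above_gen (C : Ctx L n) (ψ : B →ₐ[ℂ] L) {t : Fin n → B}
    (h : IsTranscendenceBasis ℂ (ψ ∘ t)) (v : Place ℂ B) :
    ∃ (w : Place ℂ L) (e : ℕ), w.Over ψ v e := by
  let := ψ.toRingHom.toAlgebra
  have : IsScalarTower ℂ B L := .of_algebraMap_eq fun c => (ψ.commutes c).symm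
  have := alg_gen ψ h
  have := fin_of_alg C B
  have : CharZero B := charZero_of_injective_algebraMap (algebraMap ℂ B).injective
  exact exists_over L v

end maps

theorem tb_comp (C : Ctx L n) (ψ : L →ₐ[ℂ] L) : IsTranscendenceBasis ℂ (ψ ∘ C.x) :=
  tb_of_ind C (C.tb.1.map' ψ.toRingHom.injective)

section residue

/-- Families whose residues are algebraically independent. -/
def RI {ι : Type} (v : Place ℂ L) (u : ι → L) : Prop :=
  ∀ P : MvPolynomial ι ℂ, P ≠ 0 → MvPolynomial.aeval u P ≠ 0 ∧ v.ord (MvPolynomial.aeval u P) = 0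

theorem adapt_iff {v : Place ℂ L} {z : Fin n → L} {i : Fin n} :
    Adapt v z i ↔ v.ord (z i) = 1 ∧ RI v fun j : {j // j ≠ i} => z j := by
  classical
  refine and_congr_right fun _ => ⟨fun h P hP => ?_, fun h P hP h0 => ?_⟩
  · have h1 := h (MvPolynomial.rename Subtype.val P)
      (fun e => hP (MvPolynomial.rename_injective _ Subtype.val_injective (by simpa using e))) (by
        by_contra h2
        obtain ⟨j, -, hj⟩ := Finset.mem_image.1
          (MvPolynomial.vars_rename _ _ (MvPolynomial.mem_vars_iff_degreeOf_ne_zero.2 h2))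
        exact j.2 hj)
    rwa [MvPolynomial.aeval_rename] at h1
  · obtain ⟨Q, rfl⟩ := MvPolynomial.exists_rename_eq_of_vars_subset_range P
      (Subtype.val : {j // j ≠ i} → Fin n) Subtype.val_injective fun j hj =>
        ⟨⟨j, fun e => MvPolynomial.mem_vars_iff_degreeOf_ne_zero.1 hj (e ▸ h0)⟩, rfl⟩
    rw [MvPolynomial.aeval_rename]
    exact h Q fun e => hP (by simp [e])

theorem adapt_update {v : Place ℂ L} {i : Fin n} {u : {j // j ≠ i} → L} (hu : RI v u) :
    ∃ z : Fin n → L, Adapt v z i ∧ ∀ j : {j // j ≠ i}, z j = u j := by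
  obtain ⟨π, -, hπ⟩ := v.exists_ord_eq_one
  have e : ∀ j : {j // j ≠ i}, (if h : j.1 ≠ i then u ⟨j.1, h⟩ else π) = u j := fun j => dif_pos j.2
  refine ⟨fun j => if h : j ≠ i then u ⟨j, h⟩ else π, adapt_iff.2 ⟨by simpa using hπ, ?_⟩, e⟩
  rwa [funext e]

theorem RI.map {ι : Type} {ψ : L →ₐ[ℂ] L} {w v : Place ℂ L} {e : ℕ} (h : w.Over ψ v e)
    {u : ι → L} (hu : RI v u) : RI w fun j => ψ (u j) := fun P hP => by
  rw [← MvPolynomial.comp_aeval_apply, h.2, (hu P hP).2]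
  exact ⟨(map_ne_zero ψ).2 (hu P hP).1, mul_zero _⟩

/-- The valuation ring as a subalgebra. -/
def OA (v : Place ℂ L) : Subalgebra ℂ L where
  carrier := {f | v.Ge 0 f}
  mul_mem' ha hb := ha.mul' hb (by simp)
  add_mem' ha hb := ha.add hb
  algebraMap_mem' := ge_const

/-- The maximal ideal. -/
def mx (v : Place ℂ L) : Ideal (OA v) where
  carrier := {f | v.Ge 1 (f : L)}
  zero_mem' := ge_zero _
  add_mem' ha hb := ha.add hb
  smul_mem' c _ h := Ge.mul' c.2 h (by simp)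

theorem mem_mx {v : Place ℂ L} {f : OA v} : f ∈ mx v ↔ v.Ge 1 (f : L) := Iff.rfl

theorem not_mem_mx {v : Place ℂ L} {f : OA v} : f ∉ mx v ↔ (f : L) ≠ 0 ∧ v.ord (f : L) = 0 := by
  rw [mem_mx, not_ge_iff]
  refine and_congr_right fun h => ?_
  have := Ge.le f.2 h
  omega

instance (v : Place ℂ L) : (mx v).IsPrime where
  ne_top' := (Ideal.ne_top_iff_one _).2 (not_mem_mx.2 (by simp))
  mem_or_mem' {a b} h := by
    by_contra h1
    rw [not_or, not_mem_mx, not_mem_mx] at h1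
    refine not_mem_mx.2 ⟨mul_ne_zero h1.1.1 h1.2.1, ?_⟩ h
    rw [Subalgebra.coe_mul, v.ord_mul h1.1.1 h1.2.1, h1.1.2, h1.2.2, add_zero]

theorem ri_iff {ι : Type} {v : Place ℂ L} (u : ι → OA v) :
    RI v (fun j => u j) ↔ AlgebraicIndependent ℂ fun j => Ideal.Quotient.mkₐ ℂ (mx v) (u j) := by
  rw [algebraicIndependent_iff]
  refine forall_congr' fun P => ?_
  have e : MvPolynomial.aeval (fun j => (u j : L)) P = (MvPolynomial.aeval u P : OA v) :=
    (MvPolynomial.comp_aeval_apply u (OA v).val P).symm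
  rw [← MvPolynomial.comp_aeval_apply, Ideal.Quotient.mkₐ_eq_mk, Ideal.Quotient.eq_zero_iff_mem, e,
    ← not_mem_mx, not_imp_not]

theorem RI.ge {ι : Type} {v : Place ℂ L} {u : ι → L} (h : RI v u) (j : ι) : v.Ge 0 (u j) := by
  have := (h (MvPolynomial.X j) (MvPolynomial.X_ne_zero j)).2
  rw [MvPolynomial.aeval_X] at this
  exact ge_of_le this.ge

variable {ψ : L →ₐ[ℂ] L} {w v : Place ℂ L} {e : ℕ}

/-- The map of valuation rings. -/
def oaMap (h : w.Over ψ v e) : OA v →ₐ[ℂ] OA w :=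
  (ψ.comp (OA v).val).codRestrict _ fun a => (h.ge_zero_iff a).2 a.2

theorem oaMap_comap (h : w.Over ψ v e) : mx v = (mx w).comap (oaMap h) :=
  Ideal.ext fun a => (h.ge_one_iff a).symm

/-- The map of residue rings. -/
def rsMap (h : w.Over ψ v e) : OA v ⧸ mx v →ₐ[ℂ] OA w ⧸ mx w :=
  Ideal.quotientMapₐ (mx w) (oaMap h) (oaMap_comap h).le

theorem rsMap_inj (h : w.Over ψ v e) : Function.Injective (rsMap h) :=
  Ideal.quotientMap_injective' (f := (oaMap h).toRingHom) (H := (oaMap_comap h).le)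
    (oaMap_comap h).ge

theorem rs_alg (C : Ctx L n) (h : w.Over ψ v e) (g : OA w ⧸ mx w) :
    ∃ Q : Polynomial (OA v ⧸ mx v), Q ≠ 0 ∧ Q.eval₂ (rsMap h).toRingHom g = 0 := by
  obtain ⟨g, rfl⟩ := Ideal.Quotient.mk_surjective g
  obtain ⟨P, hP, hg⟩ := poly_gen ψ (tb_comp C ψ) g
  obtain ⟨j, hj, hmin⟩ := P.support.exists_min_image (fun j => v.ord (P.coeff j))
    (Polynomial.support_nonempty.2 hP)
  have hj0 := Polynomial.mem_support_iff.1 hj
  obtain ⟨Q, hQ⟩ : Polynomial.C (P.coeff j)⁻¹ * P ∈ Polynomial.lifts (OA v).val.toRingHom := by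
    refine (Polynomial.lifts_iff_coeff_lifts _).2 fun l => ⟨⟨_, ?_⟩, rfl⟩
    change v.Ge 0 ((Polynomial.C (P.coeff j)⁻¹ * P).coeff l)
    rw [Polynomial.coeff_C_mul]
    by_cases hl : P.coeff l = 0
    · simp [hl]
    · have := hmin l (Polynomial.mem_support_iff.2 hl)
      exact (ge_ord _).mul' (ge_ord _) (by rw [ord_inv]; omega)
  rw [Polynomial.coe_mapRingHom] at hQ
  have h1 : Q.coeff j = 1 := by
    have := congrArg (Polynomial.coeff · j) hQ
    simp only [Polynomial.coeff_map, Polynomial.coeff_C_mul, inv_mul_cancel₀ hj0] at this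
    exact Subtype.ext this
  have h2 : Q.eval₂ (oaMap h).toRingHom g = 0 := by
    apply Subtype.val_injective
    change (OA w).val.toRingHom _ = 0
    rw [Polynomial.hom_eval₂]
    change Q.eval₂ (ψ.toRingHom.comp (OA v).val.toRingHom) (g : L) = 0
    rw [← Polynomial.eval₂_map, hQ, Polynomial.eval₂_mul, hg, mul_zero]
  refine ⟨Q.map (Ideal.Quotient.mk _), fun h0 => ?_, ?_⟩
  · have := congrArg (Polynomial.coeff · j) h0
    simp [h1] at this
  · rw [Polynomial.eval₂_map]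
    change Q.eval₂ ((Ideal.Quotient.mk (mx w)).comp (oaMap h).toRingHom) _ = 0
    rw [← Polynomial.hom_eval₂, h2, map_zero]

theorem ri_down {ι : Type} (C : Ctx L n) (h : w.Over ψ v e) {z : ι → L} (hz : RI w z) :
    ∃ u : ι → L, RI v u := by
  have h1 := (ri_iff (v := w) fun j => ⟨z j, hz.ge j⟩).1 hz
  let := (rsMap h).toRingHom.toAlgebra
  have : IsScalarTower ℂ (OA v ⧸ mx v) (OA w ⧸ mx w) :=
    .of_algebraMap_eq fun c => ((rsMap h).commutes c).symm
  have : FaithfulSMul (OA v ⧸ mx v) (OA w ⧸ mx w) :=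
    (faithfulSMul_iff_algebraMap_injective _ _).2 (rsMap_inj h)
  have : Algebra.IsAlgebraic (OA v ⧸ mx v) (OA w ⧸ mx w) := ⟨rs_alg C h⟩
  obtain ⟨s, hs⟩ := exists_isTranscendenceBasis ℂ (OA v ⧸ mx v)
  have h2 := h1.cardinalMk_le_trdeg
  rw [← (hs.algebraMap_comp (A := OA w ⧸ mx w)).cardinalMk_eq_trdeg] at h2
  obtain ⟨f⟩ := (Cardinal.le_def _ _).1 h2
  choose u hu using fun j => Ideal.Quotient.mkₐ_surjective ℂ (mx v) (f j : OA v ⧸ mx v)
  refine ⟨_, (ri_iff u).2 ?_⟩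
  rw [funext hu]
  exact hs.1.comp f f.injective

theorem adapt_up (h : w.Over ψ v e) {z : Fin n → L} {i : Fin n} (hz : Adapt v z i) :
    ∃ z' : Fin n → L, Adapt w z' i ∧ ∀ j, j ≠ i → ψ (z j) = z' j := by
  obtain ⟨z', h1, h2⟩ := adapt_update ((adapt_iff.1 hz).2.map h)
  exact ⟨z', h1, fun j hj => (h2 ⟨j, hj⟩).symm⟩

theorem dv_iff (C : Ctx L n) (h : w.Over ψ v e) : Dv n w ↔ Dv n v := by
  constructor
  · rintro ⟨z, i, hz⟩
    obtain ⟨u, hu⟩ := ri_down C h (adapt_iff.1 hz).2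
    obtain ⟨z', h1, -⟩ := adapt_update hu
    exact ⟨z', i, h1⟩
  · rintro ⟨z, i, hz⟩
    obtain ⟨z', h1, -⟩ := adapt_up h hz
    exact ⟨z', i, h1⟩

end residue

theorem ord_der (C : Ctx L n) {w : Place ℂ L} {z : Fin n → L} {i : Fin n} (hz : Adapt w z i)
    {d : Fin n → Derivation ℂ L L} (hd : Dual z d) {f : L} (hf : f ≠ 0) {e : ℕ} (he : 1 ≤ e)
    (h : w.ord f = e) : w.ord (d i f) = e - 1 := by
  have h0 := zi_ne hz
  have h1 := pow_ne_zero e h0
  have ha : w.ord (f / z i ^ e) = 0 := by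
    rw [w.ord_div hf h1, h, ord_pow, hz.1]
    ring
  have ha0 := div_ne_zero hf h1
  have he0 : (e : L) ≠ 0 := by
    have : CharZero L := charZero_of_injective_algebraMap (algebraMap ℂ L).injective
    exact Nat.cast_ne_zero.2 (by omega)
  have h2 : w.ord (f / z i ^ e * (e * z i ^ (e - 1))) = e - 1 := by
    have h3 : w.ord (e : L) = 0 := by simpa using w.ord_const (e : ℂ)
    rw [w.ord_mul ha0 (mul_ne_zero he0 (pow_ne_zero _ h0)), w.ord_mul he0 (pow_ne_zero _ h0), ha,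
      h3, ord_pow, hz.1]
    push_cast [he]
    ring
  have h3 := ord_add_of_ge (p := w) (y := z i ^ e * d i (f / z i ^ e))
    (mul_ne_zero ha0 (mul_ne_zero he0 (pow_ne_zero (e - 1) h0)))
    (((ge_of_le hz.1.ge).pow e).mul' (pres C hz hd i _ (ge_of_le ha.ge)) (by rw [h2]; simp))
  rw [← h2, ← h3.2]
  congr 1
  conv_lhs => rw [← mul_div_cancel₀ f h1]
  rw [Derivation.leibniz, Derivation.leibniz_pow, hd.dual, if_pos rfl]
  simp only [smul_eq_mul, nsmul_eq_mul, mul_one]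
  ring

theorem ord_jac (C : Ctx L n) {ψ : L →ₐ[ℂ] L} {w v : Place ℂ L} {e : ℕ} (h : w.Over ψ v e)
    (hw : Dv n w) : w.ord (jac C.d (ψ ∘ C.x)) + kap C.d w + 1 = e * (kap C.d v + 1) := by
  obtain ⟨z, i, hz⟩ := (dv_iff C h).1 hw
  obtain ⟨z', hz', h1⟩ := adapt_up h hz
  have tz := tb_of_ind C (adapt_ind hz)
  have tz' := tb_of_ind C (adapt_ind hz')
  obtain ⟨d, hd⟩ := exists_dual tz'
  have h2 := jac_chain' hd C.d (ψ ∘ z)
  have n1 := (map_ne_zero ψ).2 (jac_ne C tz)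
  have n2 := jac_ne C (tb_comp C ψ)
  rw [jac_chain C.dual, jac_update hd i (ψ ∘ z) h1] at h2
  have n3 := left_ne_zero_of_mul (h2 ▸ mul_ne_zero n1 n2)
  have h3 := congrArg w.ord h2
  rw [w.ord_mul n1 n2, w.ord_mul n3 (jac_ne C tz'), h.2, ord_der C hz' hd (f := (ψ ∘ z) i)
    ((map_ne_zero ψ).2 (zi_ne hz)) h.1 (by rw [Function.comp_apply, h.2, hz.1, mul_one])] at h3
  rw [kap_eq (isKap_adapt C hz), kap_eq (isKap_adapt C hz')]
  linarith

end DV

open DV in
theorem blockDV : St_DV := fun L _ _ n C =>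
  { tb := fun _ _ _ h => tb_of_ind C (adapt_ind h)
    pres := fun _ _ _ h _ hd => pres C h hd
    isKap := fun _ ⟨_, _, h⟩ => Classical.epsilon_spec ⟨_, isKap_adapt C h⟩
    kap_eq := fun _ _ => kap_eq
    chain := fun _ _ hd => jac_chain' hd C.d
    jac_ne := fun _ => jac_ne C
    tb_comp := tb_comp C
    alg := fun ψ => poly_gen ψ (tb_comp C ψ)
    jac_comp := fun ψ => jac_chain C.dual ψ C.d
    T_mul := fun ψ ψ' m u => by
      have h := jac_chain C.dual ψ C.d (ψ' ∘ C.x)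
      change ψ (ψ' u) * jac C.d (ψ ∘ ψ' ∘ C.x) ^ m = ψ (ψ' u * jac C.d (ψ' ∘ C.x) ^ m) * _
      rw [h, map_mul, map_pow, mul_pow, mul_assoc]
    T_one := fun m u => by
      change u * jac C.d C.x ^ m = u
      rw [jac_self C.dual, one_pow, mul_one]
    T_ne := fun ψ m u hu =>
      mul_ne_zero ((map_ne_zero ψ).2 hu) (pow_ne_zero _ (jac_ne C (tb_comp C ψ)))
    under := fun ψ => under_gen ψ (tb_comp C ψ)
    above := fun ψ => above_gen C ψ (tb_comp C ψ)
    dv_iff := fun _ _ _ _ => dv_iff C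
    fo_T := fun ψ w v e h hw m u hu => by
      have h1 := ord_jac C h hw
      unfold Ctx.fo Ctx.T
      rw [w.ord_mul ((map_ne_zero ψ).2 hu) (pow_ne_zero _ (jac_ne C (tb_comp C ψ))), ord_pow, h.2]
      linear_combination (m : ℤ) * h1 }

end Pool.Agent.Lib.GD
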