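import Pool.Agent.Lib.GD.Blue

/-! Block DV, part a: adapted coordinates and the dual derivations. -/

open Set Pool.Agent.Lib.MP_e06174_ag Place

set_option linter.unusedSectionVars false

noncomputable section

namespace Pool.Agent.Lib.GD.DV

variable {L : Type} [Field L] [Algebra ℂ L] {n : ℕ}

theorem tb_of_ind (C : Ctx L n) {z : Fin n → L} (hz : AlgebraicIndependent ℂ z) :
    IsTranscendenceBasis ℂ z :=
  hz.isTranscendenceBasis_of_trdeg_le_of_finite C.tb.cardinalMk_eq_trdeg.ge

theorem fin_of_alg (C : Ctx L n) (B : Type) [Field B] [Algebra ℂ B] [Algebra B L]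
    [IsScalarTower ℂ B L] [Algebra.IsAlgebraic B L] : FiniteDimensional B L := by
  have h1 : FiniteDimensional B
      (IntermediateField.adjoin B (range fun j => C.y j / C.y C.i₀)) :=
    IntermediateField.finiteDimensional_adjoin fun x _ =>
      (Algebra.IsAlgebraic.isAlgebraic x).isIntegral
  have h2 : ∀ a ∈ chart C.y C.i₀,
      a ∈ IntermediateField.adjoin B (range fun j => C.y j / C.y C.i₀) := fun a ha =>
    Algebra.adjoin_le (S := (IntermediateField.adjoin B
      (range fun j => C.y j / C.y C.i₀)).toSubalgebra.restrictScalars ℂ)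
      (IntermediateField.subset_adjoin B _) ha
  have h3 : IntermediateField.adjoin B (range fun j => C.y j / C.y C.i₀) = ⊤ := by
    refine eq_top_iff.2 fun z _ => ?_
    obtain ⟨b, hb, hb0, hbz⟩ := C.frac C.i₀ z
    have := div_mem (h2 _ hbz) (h2 _ hb)
    rwa [mul_div_cancel_left₀ _ hb0] at this
  rw [h3] at h1
  exact IntermediateField.topEquiv.toLinearEquiv.finiteDimensional

section adapt

open MvPolynomial

variable {v : Place ℂ L} {z : Fin n → L} {i : Fin n}

theorem split (P : MvPolynomial (Fin n) ℂ) (i : Fin n) :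
    ∃ P0 P1 : MvPolynomial (Fin n) ℂ, P0.degreeOf i = 0 ∧ P = X i * P1 + P0 := by
  refine ⟨_, _, ?_, (divMonomial_add_modMonomial_single P i).symm⟩
  refine Nat.le_zero.1 (degreeOf_le_iff.2 fun m hm => ?_)
  by_contra h
  refine mem_support_iff.1 hm (coeff_modMonomial_of_le _ ?_)
  rw [Finsupp.single_le_iff]
  omega

theorem zi_ne (h : Adapt v z i) : z i ≠ 0 := fun h0 => by
  have := h.1
  simp [h0] at this

theorem z_ge (h : Adapt v z i) (j : Fin n) : v.Ge 0 (z j) := by
  by_cases hj : i = j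
  · exact hj ▸ ge_of_le (by rw [h.1]; exact zero_le_one)
  · have := (h.2 (X j) (X_ne_zero j) (degreeOf_X_of_ne hj)).2
    rw [aeval_X] at this
    exact ge_of_le this.ge

theorem aeval_ge {ι : Type} {u : ι → L} (h : ∀ j, v.Ge 0 (u j)) (P : MvPolynomial ι ℂ) :
    v.Ge 0 (aeval u P) := by
  induction P using MvPolynomial.induction_on with
  | C c => simpa using ge_const c
  | add p q hp hq => rw [map_add]; exact hp.add hq
  | mul_X p j hp => rw [map_mul, aeval_X]; exact hp.mul' (h j) (by simp)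

theorem ge_one_of_dvd (h : Adapt v z i) {P : MvPolynomial (Fin n) ℂ} (hP : X i ∣ P) :
    v.Ge 1 (aeval z P) := by
  obtain ⟨Q, rfl⟩ := hP
  rw [map_mul, aeval_X]
  exact (ge_of_le h.1.ge).mul' (aeval_ge (z_ge h) Q) (by simp)

theorem unit_of_not_dvd (h : Adapt v z i) {P : MvPolynomial (Fin n) ℂ} (hP : ¬ X i ∣ P) :
    aeval z P ≠ 0 ∧ v.ord (aeval z P) = 0 := by
  obtain ⟨P0, P1, h0, rfl⟩ := split P i
  obtain ⟨h1, h2⟩ := h.2 P0 (fun e => hP (by simp [e])) h0
  have h3 := ord_add_of_ge (p := v) (y := aeval z (X i * P1)) h1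
    (by rw [h2, zero_add]; exact ge_one_of_dvd h (dvd_mul_right _ _))
  rwa [h2, ← map_add, add_comm] at h3

theorem norm_form (P : MvPolynomial (Fin n) ℂ) (hP : P ≠ 0) (i : Fin n) :
    ∃ (k : ℕ) (Q : MvPolynomial (Fin n) ℂ), ¬ X i ∣ Q ∧ P = X i ^ k * Q :=
  WfDvdMonoid.max_power_factor' hP X_prime.not_isUnit

theorem adapt_ind (h : Adapt v z i) : AlgebraicIndependent ℂ z := by
  refine algebraicIndependent_iff.2 fun P hP => ?_
  by_contra h0
  obtain ⟨k, Q, hQ, rfl⟩ := norm_form P h0 i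
  rw [map_mul, map_pow, aeval_X] at hP
  exact mul_ne_zero (pow_ne_zero _ (zi_ne h)) (unit_of_not_dvd h hQ).1 hP

variable {d : Fin n → Derivation ℂ L L}

theorem aeval_pres (h : Adapt v z i) (hd : Dual z d) (a : Fin n) (P : MvPolynomial (Fin n) ℂ) :
    aeval z P ∈ Pres v (d a) 0 := by
  induction P using MvPolynomial.induction_on with
  | C c => exact ⟨by simpa using ge_const c, by simp⟩
  | add p q hp hq => rw [map_add]; exact add_mem hp hq
  | mul_X p j hp =>
    rw [map_mul, aeval_X]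
    refine mul_mem hp ⟨z_ge h j, ?_⟩
    rw [hd.dual]
    split_ifs
    · exact ge_one
    · simp

theorem field_pres (h : Adapt v z i) (hd : Dual z d) (a : Fin n) {b : L}
    (hb : b ∈ IntermediateField.adjoin ℂ (range z)) (h0 : v.Ge 0 b) : b ∈ Pres v (d a) 0 := by
  obtain ⟨p, q, rfl⟩ := (IntermediateField.mem_adjoin_range_iff ℂ z b).1 hb
  by_cases hp : p = 0
  · simp [hp]
  by_cases hq : q = 0
  · simp [hq]
  obtain ⟨k, p', hp', rfl⟩ := norm_form p hp i
  obtain ⟨l, q', hq', rfl⟩ := norm_form q hq i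
  obtain ⟨p1, p2⟩ := unit_of_not_dvd h hp'
  obtain ⟨q1, q2⟩ := unit_of_not_dvd h hq'
  have hz := zi_ne h
  simp only [map_mul, map_pow, aeval_X] at h0 ⊢
  have e1 := mul_ne_zero (pow_ne_zero k hz) p1
  have e2 := mul_ne_zero (pow_ne_zero l hz) q1
  have h1 := h0.le (div_ne_zero e1 e2)
  rw [v.ord_div e1 e2, v.ord_mul (pow_ne_zero k hz) p1, v.ord_mul (pow_ne_zero l hz) q1, p2, q2,
    ord_pow, ord_pow, h.1] at h1
  obtain ⟨m, rfl⟩ := Nat.exists_eq_add_of_le (show l ≤ k by omega)
  have e3 : z i ^ (l + m) * aeval z p' / (z i ^ l * aeval z q') =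
      aeval z (X i ^ m * p') * (aeval z q')⁻¹ := by
    simp only [map_mul, map_pow, aeval_X]
    field_simp
    ring
  rw [e3]
  exact mul_mem (aeval_pres h hd a _) (inv_mem_pres (aeval_pres h hd a _) q2)

theorem bound (C : Ctx L n) (h : Adapt v z i) (hd : Dual z d) (a : Fin n) :
    ∃ s : ℤ, ∀ f, v.Ge 0 f → v.Ge s (d a f) := by
  have hz := tb_of_ind C (adapt_ind h)
  have := hz.isAlgebraic_field
  have := fin_of_alg C (IntermediateField.adjoin ℂ (range z))
  rcases v.restrict (IsScalarTower.toAlgHom ℂ (IntermediateField.adjoin ℂ (range z)) L) with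
    h1 | ⟨p, e, h1⟩
  · have h2 := h1 ⟨z i, IntermediateField.subset_adjoin ℂ _ ⟨i, rfl⟩⟩
    change v.ord (z i) = 0 at h2
    rw [h.1] at h2
    exact absurd h2 one_ne_zero
  · have h2 : v.Over (IsScalarTower.toAlgHom ℂ (IntermediateField.adjoin ℂ (range z)) L) p e := h1
    exact exists_bound (s := 0) h2 fun b hb =>
      (field_pres h hd a b.2 ((h2.ge_zero_iff b).2 hb)).2

end adapt

section hensel

open Polynomial

variable {v : Place ℂ L} {z : Fin n → L} {i : Fin n} {d : Fin n → Derivation ℂ L L}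

/-- evaluation of a polynomial with polynomial coefficients -/
def ev (z : Fin n → L) (f : L) : (MvPolynomial (Fin n) ℂ)[X] →+* L :=
  eval₂RingHom (MvPolynomial.aeval z : MvPolynomial (Fin n) ℂ →ₐ[ℂ] L).toRingHom f

theorem ev_C (f : L) (c : MvPolynomial (Fin n) ℂ) : ev z f (C c) = MvPolynomial.aeval z c := by
  simp [ev]

theorem ev_X (f : L) : ev z f X = f := by simp [ev]

theorem ev_ge (h : Adapt v z i) {f : L} (hf : v.Ge 0 f) (G : (MvPolynomial (Fin n) ℂ)[X]) :
    v.Ge 0 (ev z f G) := by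
  induction G using Polynomial.induction_on' with
  | add p q hp hq => rw [map_add]; exact hp.add hq
  | monomial j c =>
    rw [← C_mul_X_pow_eq_monomial, map_mul, map_pow, ev_C, ev_X]
    exact (aeval_ge (z_ge h) c).mul' (hf.pow j) (by simp)

theorem ev_der (h : Adapt v z i) (hd : Dual z d) (a : Fin n) {f : L} (hf : v.Ge 0 f)
    (G : (MvPolynomial (Fin n) ℂ)[X]) :
    v.Ge 0 (d a (ev z f G) - ev z f (derivative G) * d a f) := by
  induction G using Polynomial.induction_on' with
  | add p q hp hq =>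
    rw [map_add, map_add, map_add, map_add, add_mul, add_sub_add_comm]
    exact hp.add hq
  | monomial j c =>
    have e : d a (ev z f (monomial j c)) - ev z f (derivative (monomial j c)) * d a f =
        f ^ j * d a (MvPolynomial.aeval z c) := by
      rw [← C_mul_X_pow_eq_monomial, derivative_C_mul, derivative_X_pow]
      simp only [map_mul, map_pow, ev_C, ev_X, Derivation.leibniz, Derivation.leibniz_pow,
        smul_eq_mul, nsmul_eq_mul, map_natCast]
      ring
    rw [e]
    exact (hf.pow j).mul' (aeval_pres h hd a c).2 (by simp)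

theorem exists_eq (C : Ctx L n) (h : Adapt v z i) (f : L) :
    ∃ G : (MvPolynomial (Fin n) ℂ)[X], ¬ Polynomial.C (MvPolynomial.X i) ∣ G ∧ ev z f G = 0 := by
  have hz := tb_of_ind C (adapt_ind h)
  obtain ⟨p, hp, hf⟩ := hz.isAlgebraic.isAlgebraic f
  have h0 : p.map hz.1.aevalEquiv.symm.toRingEquiv.toRingHom ≠ 0 :=
    (Polynomial.map_ne_zero_iff hz.1.aevalEquiv.symm.injective).2 hp
  have h1 : ev z f (p.map hz.1.aevalEquiv.symm.toRingEquiv.toRingHom) = 0 := by
    rw [← hf, ev, coe_eval₂RingHom, eval₂_map, aeval_def]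
    congr 1
    ext b
    obtain ⟨c, rfl⟩ := hz.1.aevalEquiv.surjective b
    simp
  obtain ⟨k, G, hG, e⟩ := WfDvdMonoid.max_power_factor' (x := Polynomial.C (MvPolynomial.X i)) h0
    fun hu => MvPolynomial.X_prime.not_isUnit (isUnit_C.1 hu)
  refine ⟨G, hG, ?_⟩
  rw [e, map_mul, map_pow, ev_C, MvPolynomial.aeval_X] at h1
  exact (mul_eq_zero.1 h1).resolve_left (pow_ne_zero _ (zi_ne h))

theorem exists_sep (h : Adapt v z i) {f : L} (hf : v.Ge 0 f) (G : (MvPolynomial (Fin n) ℂ)[X])
    (h1 : ¬ C (MvPolynomial.X i) ∣ G) (h2 : v.Ge 1 (ev z f G)) :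
    ∃ G : (MvPolynomial (Fin n) ℂ)[X], v.Ge 1 (ev z f G) ∧ ¬ v.Ge 1 (ev z f (derivative G)) := by
  induction hN : G.natDegree using Nat.strong_induction_on generalizing G with
  | _ N ih =>
  by_cases h3 : v.Ge 1 (ev z f (derivative G))
  swap
  · exact ⟨G, h2, h3⟩
  by_cases h4 : C (MvPolynomial.X i) ∣ derivative G
  · exfalso
    have h5 : C (MvPolynomial.X i) ∣ G.divX := by
      rw [C_dvd_iff_dvd_coeff] at h4 ⊢
      intro j
      have h6 := h4 j
      rw [coeff_derivative] at h6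
      rw [coeff_divX]
      refine (IsUnit.dvd_mul_right ?_).1 h6
      have h7 : IsUnit ((j : ℂ) + 1) := isUnit_iff_ne_zero.2 (by exact_mod_cast j.succ_ne_zero)
      simpa using h7.map (MvPolynomial.C : ℂ →+* MvPolynomial (Fin n) ℂ)
    have h6 : ¬ MvPolynomial.X i ∣ G.coeff 0 := fun h7 => h1 (by
      rw [← X_mul_divX_add G]
      exact dvd_add (h5.mul_left _) (map_dvd C h7))
    obtain ⟨H, hH⟩ := h5
    have h7 : v.Ge 1 (ev z f (X * G.divX)) := by
      rw [hH, map_mul, map_mul, ev_X, ev_C]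
      exact hf.mul' ((ge_one_of_dvd h dvd_rfl).mul' (ev_ge h hf H) (l := 1) (by simp)) (by simp)
    have h8 := h2.sub h7
    rw [← map_sub, ← eq_sub_iff_add_eq'.2 (X_mul_divX_add G), ev_C] at h8
    obtain ⟨u1, u2⟩ := unit_of_not_dvd h h6
    have := h8.le u1
    omega
  · refine ih _ ?_ _ h4 h3 rfl
    rw [← hN]
    refine natDegree_derivative_lt fun h5 => h4 ?_
    rw [derivative_of_natDegree_zero h5]
    exact dvd_zero _

theorem pres (C : Ctx L n) (h : Adapt v z i) (hd : Dual z d) (a : Fin n) (f : L) (hf : v.Ge 0 f) :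
    v.Ge 0 (d a f) := by
  obtain ⟨s, hs⟩ := bound C h hd a
  have hz := zi_ne h
  have key : ∀ k : ℕ, ∀ f, v.Ge 0 f → v.Ge (min 0 (s + k)) (d a f) := by
    intro k
    induction k with
    | zero => exact fun f hf => (hs f hf).mono (by simp)
    | succ k ih =>
      intro f hf
      obtain ⟨G0, g1, g2⟩ := exists_eq C h f
      obtain ⟨G, h1, h2⟩ := exists_sep h hf G0 g1 (by simp [g2])
      rw [not_ge_iff] at h2
      have h3 := (ev_ge h hf (derivative G)).le h2.1
      have h4 : v.Ge 0 (ev z f G / z i) :=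
        (div_eq_mul_inv (ev z f G) (z i)).symm ▸ h1.mul' (ge_ord (z i)⁻¹) (by simp [h.1])
      have h5 : v.Ge (min 0 (s + (k + 1 : ℕ))) (d a (ev z f G)) := by
        rw [← mul_div_cancel₀ (ev z f G) hz, Derivation.leibniz, smul_eq_mul, smul_eq_mul]
        refine ((ge_of_le h.1.ge).mul' (ih _ h4) (by push_cast; omega)).add
          (h4.mul' (m := 0) (n := 0) ?_ (by omega))
        simpa using (aeval_pres h hd a (MvPolynomial.X i)).2
      have h6 := h5.sub ((ev_der h hd a hf G).mono (min_le_left _ _))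
      rw [sub_sub_cancel] at h6
      have h7 := (ge_ord (p := v) (ev z f (derivative G))⁻¹).mul' h6
        (l := min 0 (s + (k + 1 : ℕ))) (by rw [ord_inv]; omega)
      rwa [inv_mul_cancel_left₀ h2.1] at h7
  exact (key (-s).toNat f hf).mono (by omega)

end hensel

end Pool.Agent.Lib.GD.DV
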