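import Pool.Agent.Lib.GD.SDefs
import Pool.Agent.Lib.MP_e39d36_ag.Hyp
import Pool.Agent.Lib.GD.Base

/-! Heights, divisorial places, canonical orders, models. -/

open Set Filter Pool.Agent.Lib.MP_9a2ae6_ag Pool.Agent.Lib.MP_e06174_ag

set_option linter.unusedSectionVars false
set_option linter.unusedVariables false

noncomputable section

namespace Pool.Agent.Lib.GD

section height

variable {k L : Type} [Field k] [Field L] [Algebra k L]

/-- `u` is a quotient of two elements of `H ^ e`. -/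
def Ht (H : Submodule k L) (e : ℕ) (u : L) : Prop := ∃ b ∈ H ^ e, b ≠ 0 ∧ u * b ∈ H ^ e

variable (k) in
/-- `u` satisfies an equation over `k[x]` of degree at most `e` in each variable. -/
def Dg {n : ℕ} (x : Fin n → L) (e : ℕ) (u : L) : Prop :=
  ∃ G : Polynomial (MvPolynomial (Fin n) k), G ≠ 0 ∧
    G.eval₂ (MvPolynomial.aeval x : MvPolynomial (Fin n) k →ₐ[k] L).toRingHom u = 0 ∧
    ∀ i j, (G.coeff j).degreeOf i ≤ e

/-- The height is strictly convex along orbits. -/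
def KLP (H : Submodule k L) (φ : L →ₐ[k] L) : Prop :=
  ∀ N : ℕ, 0 < N → ∃ j : ℕ, ∀ (u : L) (e : ℕ), Ht H e u → Ht H e ((φ ^ (2 * j)) u) →
    Ht H (e / N) ((φ ^ j) u)

/-- Orbits of bounded height consist of constants. -/
def NIF (H : Submodule k L) (φ : L →ₐ[k] L) : Prop :=
  ∀ (e : ℕ) (u : L), (∀ i : ℕ, Ht H e ((φ ^ i) u)) → IsAlgebraic k u

/-- The product `h * φ h * ⋯ * φ ^ (i - 1) h`. -/
def coc {M : Type} [CommMonoid M] (φ : M → M) (h : M) (i : ℕ) : M :=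
  ∏ j ∈ Finset.range i, φ^[j] h

/-- `Ω` is the fraction field of the tensor product of `L` and `K` over `k`. -/
def IsBC (K : Type) {Ω : Type} [Field K] [Field Ω] [Algebra k Ω] [Algebra K Ω]
    (ι : L →ₐ[k] Ω) : Prop :=
  (∀ s : Set L, LinearIndepOn k id s → LinearIndepOn K ι s) ∧
    ∀ w : Ω, ∃ b ∈ Algebra.adjoin K (range ι), b ≠ 0 ∧ b * w ∈ Algebra.adjoin K (range ι)

/-- The cocycle generated by `h` has bounded zeros and poles. -/
def Star {M : Type} [Field M] (R : Set M) (φ : M → M) (h z : M) : Prop :=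
  h ≠ 0 ∧ z ≠ 0 ∧ z ∈ R ∧ ∀ i : ℕ, z * φ^[i] z * coc φ h i ∈ R ∧ z * φ^[i] z / coc φ h i ∈ R

end height

/-- After every extension of the constants, and after twisting by an endomorphism of the constants,
periodic elements are algebraic over the constants. -/
def NIFall {L : Type} [Field L] [Algebra ℂ L] (φ : L →ₐ[ℂ] L) : Prop :=
  ∀ (K Ω : Type) [Field K] [Field Ω] [Algebra ℂ K] [Algebra ℂ Ω] [Algebra K Ω]
    [IsScalarTower ℂ K Ω] (ι : L →ₐ[ℂ] Ω), IsBC K ι → ∀ (ψ : Ω →ₐ[K] Ω) (χ : Ω →+* Ω),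
    (∀ a, ψ (ι a) = ι (φ a)) → (∀ a, χ (ι a) = ι a) →
    (∀ c : K, χ (algebraMap K Ω c) ∈ range (algebraMap K Ω)) → (∀ w, ψ (χ w) = χ (ψ w)) →
    ∀ p : ℕ, 0 < p → ∀ w : Ω, (ψ ∘ χ)^[p] w = w → IsAlgebraic K w

section places

variable {L : Type} [Field L] [Algebra ℂ L] {n : ℕ}

/-- Coordinates adapted to a place: `z i` is a uniformiser and the residues of the other
coordinates are algebraically independent. -/
def Adapt (v : Place ℂ L) (z : Fin n → L) (i : Fin n) : Prop :=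
  v.ord (z i) = 1 ∧ ∀ P : MvPolynomial (Fin n) ℂ, P ≠ 0 → P.degreeOf i = 0 →
    MvPolynomial.aeval z P ≠ 0 ∧ v.ord (MvPolynomial.aeval z P) = 0

variable (n) in
/-- Divisorial places. -/
def Dv (v : Place ℂ L) : Prop := ∃ (z : Fin n → L) (i : Fin n), Adapt v z i

/-- The Jacobian determinant. -/
def jac (d : Fin n → Derivation ℂ L L) (f : Fin n → L) : L :=
  (Matrix.of fun a b => d a (f b)).det

/-- `κ` is the order along `v` of the top form dual to `d`. -/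
def IsKap (d : Fin n → Derivation ℂ L L) (v : Place ℂ L) (κ : ℤ) : Prop :=
  (∀ f : Fin n → L, (∀ j, v.Ge 0 (f j)) → v.Ge (-κ) (jac d f)) ∧
    ∃ f : Fin n → L, (∀ j, v.Ge 0 (f j)) ∧ jac d f ≠ 0 ∧ v.ord (jac d f) = -κ

/-- The order along `v` of the top form dual to `d`. -/
def kap (d : Fin n → Derivation ℂ L L) (v : Place ℂ L) : ℤ := Classical.epsilon (IsKap d v)

/-- The coefficient vector of `d f`. -/
def grad (d : Fin n → Derivation ℂ L L) (f : L) : Fin n → L := fun a => d a f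

/-- One-forms regular along a place. -/
def frmV (d : Fin n → Derivation ℂ L L) (v : Place ℂ L) :
    Submodule v.O.toSubring (Fin n → L) :=
  Submodule.span _ (grad d '' {f | v.Ge 0 f})

/-- One-forms with at most a logarithmic pole along a place. -/
def logV (d : Fin n → Derivation ℂ L L) (v : Place ℂ L) :
    Submodule v.O.toSubring (Fin n → L) :=
  Submodule.span _ (range fun f : L => f⁻¹ • grad d f)

end places

/-- Homogeneous coordinates and a transcendence basis. -/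
structure Ctx (L : Type) [Field L] [Algebra ℂ L] (n : ℕ) where
  ι : Type
  fin : Finite ι
  i₀ : ι
  y : ι → L
  ne : ∀ i, y i ≠ 0
  frac : ∀ i z, ∃ b ∈ chart y i, b ≠ 0 ∧ b * z ∈ chart y i
  x : Fin n → L
  tb : IsTranscendenceBasis ℂ x
  hx : ∀ i, y i₀ * x i ∈ Submodule.span ℂ (range y)
  d : Fin n → Derivation ℂ L L
  dual : Dual x d
  pos : 0 < n

namespace Ctx

variable {L : Type} [Field L] [Algebra ℂ L] {n : ℕ} (C : Ctx L n)

instance : Finite C.ι := C.fin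

instance : Nonempty C.ι := ⟨C.i₀⟩

/-- The linear system of hyperplane sections. -/
def H : Submodule ℂ L := Submodule.span ℂ (range C.y)

/-- The least order of a homogeneous coordinate. -/
def hm (v : Place ℂ L) : ℤ := ⨅ j, v.ord (C.y j)

/-- The order of the pluricanonical form with weight `m` and coefficient `u`. -/
def fo (v : Place ℂ L) (m : ℕ) (u : L) : ℤ := v.ord u + m * kap C.d v

/-- Pull-back of pluricanonical forms of weight `m`, on coefficients. -/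
def T (ψ : L →ₐ[ℂ] L) (m : ℕ) (u : L) : L := ψ u * jac C.d (ψ ∘ C.x) ^ m

end Ctx

/-- The prime divisors of a smooth projective model. -/
structure Model {L : Type} [Field L] [Algebra ℂ L] {n : ℕ} (C : Ctx L n) where
  P : Type
  pl : P → Place ℂ L
  dv : ∀ E, Dv n (pl E)
  fin_ord : ∀ u, {E | (pl E).ord u ≠ 0}.Finite
  fin_kap : {E | kap C.d (pl E) ≠ 0}.Finite
  /-- multiplicity of a prime divisor along a place -/
  mu : Place ℂ L → P → ℕ
  pb_ord : ∀ (v : Place ℂ L) (u : L), v.ord u = ∑ᶠ E, (pl E).ord u * mu v E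
  pb_hm : ∀ v : Place ℂ L, C.hm v = ∑ᶠ E, C.hm (pl E) * mu v E
  pb_kap : ∀ v : Place ℂ L, Dv n v → ∑ᶠ E, kap C.d (pl E) * mu v E ≤ kap C.d v
  con : ∃ (i₁ : ℕ) (c : L), c ≠ 0 ∧ c ∈ C.H ^ i₁ ∧ ∀ (e : ℕ) (u : L),
    (∀ E, (pl E).Ge (e * C.hm (pl E)) u) → c * u ∈ C.H ^ (e + i₁)
  /-- degree of a prime divisor -/
  dg : P → ℕ
  dg_pos : ∀ E, 0 < dg E
  dg_ex : ∀ E, ∃ z ∈ C.H ^ dg E, z ≠ 0 ∧ dg E * C.hm (pl E) < (pl E).ord z
  dg_sum : ∃ c : ℕ, ∀ (e : ℕ) (z : L), z ∈ C.H ^ e → z ≠ 0 → ∀ F : Finset P,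
    ∑ E ∈ F, ((pl E).ord z - e * C.hm (pl E)) * dg E ≤ c * e
  der : ∃ β : P →₀ ℤ, ∀ (a : Fin n) (E : P) (f : L), (pl E).Ge 0 f → (pl E).Ge (-β E) (C.d a f)
  lg : ∃ ρ : ℕ, ∀ Γ : Fin ρ → P, Function.Injective Γ → ∃ η : Fin n → L,
    (∃ i, η ∉ frmV C.d (pl (Γ i))) ∧ (∀ E, E ∉ range Γ → η ∈ frmV C.d (pl E)) ∧
    ∀ v : Place ℂ L, η ∈ logV C.d v ∧ ((∀ i, mu v (Γ i) = 0) → η ∈ frmV C.d v)
  reg : ∀ (m : ℕ) (u : L), (∀ E, (pl E).Ge (-(m * kap C.d (pl E))) u) →
    form C.x m u ∈ sections ℂ L n m {1}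

namespace Model

variable {L : Type} [Field L] [Algebra ℂ L] {n : ℕ} {C : Ctx L n} (M : Model C)

/-- The real divisor `D` is bounded by a hypersurface section of degree `e`. -/
def Dm (D : M.P → ℝ) (e : ℕ) : Prop :=
  ∃ z ∈ C.H ^ e, z ≠ 0 ∧ ∀ E, D E ≤ (((M.pl E).ord z - e * C.hm (M.pl E) : ℤ) : ℝ)

/-- Forms of weight `m` with poles bounded by `D`. -/
def Sec (m : ℕ) (D : M.P → ℤ) : Submodule ℂ L where
  carrier := {u | ∀ E, (M.pl E).Ge (-D E - m * kap C.d (M.pl E)) u}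
  zero_mem' := fun _ => Place.ge_zero _
  add_mem' := fun ha hb E => (ha E).add (hb E)
  smul_mem' := fun c _ h E => (h E).smul c

/-- The form `σ` of weight `m` approximates `m * nn` up to `m / N`. -/
def Good (nn iz : Place ℂ L → ℝ) (N m : ℕ) (σ : L) : Prop :=
  σ ≠ 0 ∧ (∀ v, Dv n v → |(C.fo v m σ : ℝ) - m * nn v| ≤ iz v * m / N) ∧
    M.Dm (fun E => if nn (M.pl E) = 0 then |(C.fo (M.pl E) m σ : ℝ)| else 0) (m / N)

/-- The invariant limit of normalised orders of vanishing. -/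
structure Lim (φ : L →ₐ[ℂ] L) (nn : Place ℂ L → ℝ) : Prop where
  nonneg : ∀ v, Dv n v → 0 ≤ nn v
  inv : ∀ (i : ℕ) (w v : Place ℂ L) (e : ℕ), Dv n w → w.Over (φ ^ i) v e →
    nn w + 1 = e * (nn v + 1)
  low : ∀ (v : Place ℂ L) (E : M.P), Dv n v → nn (M.pl E) * M.mu v E ≤ nn v
  fin : ∀ c : ℝ, 0 < c → {E | c ≤ nn (M.pl E)}.Finite
  app : ∃ iz : Place ℂ L → ℝ, ∀ N I : ℕ, 0 < N → ∃ (m : ℕ) (σ : L), N ≤ m ∧
    ∀ i ≤ I, M.Good nn iz N m (C.T (φ ^ i) m σ)

end Model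

section var

open Pool.Agent.Lib.MP_e39d36_ag

variable {K : Type} [Field K] [Algebra ℂ K] {X : Var K}

/-- The place of a prime divisor. -/
def plc (E : X.PD) : Place ℂ K where
  v := Var.val E
  triv := fun c hc => by
    have h1 := (Var.isV E).un_iff.1 (X.un_const E.1 hc)
    rw [val_eq_exp (v := Var.val E) h1.1, h1.2]
    rfl
  surj := (Var.isV E).1 _

theorem plc_ord (E : X.PD) (f : K) : (plc E).ord f = X.ord f E.1 := (Var.ord_val f E).symm

theorem plc_O (E : X.PD) : (plc E).O.toSubring = X.O E.1 := by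
  ext f
  exact ((Var.isV E).2 f).symm

end var

end Pool.Agent.Lib.GD
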