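import Pool.Agent.Lib.GD.NIF

/-! The end of the proof. -/

open Module Submodule Filter Set Pool.Agent.Lib.MP_9a2ae6_ag Pool.Agent.Lib.MP_e06174_ag Place

set_option linter.unusedSectionVars false
set_option linter.unusedVariables false

noncomputable section

namespace Pool.Agent.Lib.GD

namespace END

variable {L : Type} [Field L] [Algebra ℂ L] {n : ℕ}

theorem exists_ctx {ι : Type} [Finite ι] [Nonempty ι] {y : ι → L} (hn : 0 < n)
    (ht : Algebra.trdeg ℂ L = n) (hy : SmoothModel y) :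
    ∃ C : Ctx L n, C.H = span ℂ (range y) ∧ ∀ i, Algebra.Smooth ℂ (chart C.y i) := by
  obtain ⟨i₀⟩ := ‹Nonempty ι›
  have := (hy i₀).2.1
  have : Algebra.IsAlgebraic (Algebra.adjoin ℂ (range fun j => y j / y i₀)) L :=
    IsLocalization.isAlgebraic (R := chart y i₀) L (nonZeroDivisors _)
  obtain ⟨t, h1, h2⟩ := exists_isTranscendenceBasis_subset (R := ℂ) (range fun j => y j / y i₀)
  obtain ⟨e⟩ : Nonempty (Fin n ≃ t) :=
    Cardinal.eq.1 (by rw [h2.cardinalMk_eq_trdeg, ht, Cardinal.mk_fin])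
  have h3 := h2.comp_equiv e
  obtain ⟨d, hd⟩ := exists_dual h3
  refine ⟨⟨ι, ‹_›, i₀, y, fun i => (hy i).1, fun i z => ?_, _, h3, fun i => ?_, d, hd, hn⟩, rfl,
    fun i => (hy i).2.2⟩
  · have := (hy i).2.1
    obtain ⟨a, b, hb, rfl⟩ := IsFractionRing.div_surjective (A := chart y i) z
    have h4 : (b : L) ≠ 0 := fun h => nonZeroDivisors.ne_zero hb (Subtype.ext h)
    exact ⟨b, b.2, h4, by
      change (b : L) * ((a : L) / b) ∈ _
      rw [mul_div_cancel₀ _ h4]; exact a.2⟩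
  · obtain ⟨j, hj⟩ := h1 (e i).2
    rw [Function.comp, ← hj, mul_div_cancel₀ _ (hy i₀).1]
    exact subset_span ⟨j, rfl⟩

variable {C : Ctx L n} {M : Model C}

theorem klp (h1 : St_DGH) (hB : Bas M) {φ : L →ₐ[ℂ] L} (h : CohHyp ℂ n C.H φ) : KLP C.H φ := by
  intro N hN
  obtain ⟨c, hc⟩ := h1 L n C
  have : FiniteDimensional ℂ C.H := FiniteDimensional.span_of_finite ℂ (finite_range _)
  obtain ⟨j, hj⟩ := (blockKL ℂ L n C.H _ C.x C.pos (C.ne _) (subset_span ⟨_, rfl⟩) C.hx C.tb.1 φ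
    h (N * (c + 1)) (by positivity)).exists
  refine ⟨j, fun u e h2 h3 => hB.ht_mono _ _ _ ?_ (hc _ _ (hj u e h2 h3))⟩
  rw [← Nat.div_div_eq_div_mul]
  exact (Nat.mul_le_mul_right _ c.le_succ).trans (Nat.mul_div_le _ _)

theorem sec_sub (hD : DVF C) (hB : Bas M) (W : Finset L) : ∃ D : M.P →₀ ℤ, ∀ (m : ℕ) ω,
    ω ∈ sections ℂ L n m W → ∃ u ∈ M.Sec m D, ω = form C.x m u := by
  obtain ⟨E₀⟩ : Nonempty M.P := by
    by_contra h
    have := hB.sec_fd 0 (by simp)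
    have h1 : M.Sec 0 0 = ⊤ := eq_top_iff.2 fun u _ E => (h ⟨E⟩).elim
    rw [h1] at this
    have : FiniteDimensional ℂ L := Module.Finite.equiv (Submodule.topEquiv (R := ℂ) (M := L))
    exact C.tb.1.transcendental ⟨0, C.pos⟩ (IsAlgebraic.of_finite ℂ _)
  refine ⟨∑ a ∈ W, Finsupp.ofSupportFinite (fun E => |(M.pl E).ord a|)
    ((M.fin_ord a).subset fun E hE => by simpa using hE), fun m ω hω => ?_⟩
  set D := ∑ a ∈ W, Finsupp.ofSupportFinite (fun E => |(M.pl E).ord a|)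
    ((M.fin_ord a).subset fun E hE => by simpa using hE) with hD'
  have h1 : ∀ E, ∃ u, (M.pl E).Ge (-D E - m * kap C.d (M.pl E)) u ∧ ω = form C.x m u := by
    intro E
    let T : Submodule (M.pl E).O.toSubring L :=
      { carrier := {u | (M.pl E).Ge (-D E - m * kap C.d (M.pl E)) u}
        zero_mem' := Place.ge_zero _
        add_mem' := fun ha hb => ha.add hb
        smul_mem' := fun c _ h => (mem_O.1 c.2).mul' h (by simp) }
    refine C.dual.coeff hω (M.pl E).O inferInstance (fun c => mem_O.2 (ge_const c)) T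
      fun a ha f hf => (ge_ord a).mul' (Ge.prod fun b _ =>
        (hD.isKap _ (M.dv E)).1 (f b) fun j => mem_O.1 (hf b j)) ?_
    have h2 : |(M.pl E).ord a| ≤ D E := by
      rw [hD', Finsupp.finsetSum_apply]
      exact Finset.single_le_sum (f := fun a => |(M.pl E).ord a|) (fun _ _ => abs_nonneg _) ha
    have := neg_abs_le ((M.pl E).ord a)
    simp only [Finset.sum_const, Finset.card_univ, Fintype.card_fin, nsmul_eq_mul]
    linarith
  obtain ⟨u, -, hu⟩ := h1 E₀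
  refine ⟨u, fun E => ?_, hu⟩
  obtain ⟨u', h2, h3⟩ := h1 E
  rwa [form_injective C.tb m (hu.symm.trans h3)]

theorem growth_le_zero (hD : DVF C) (hB : Bas M)
    (h : ∀ D : M.P →₀ ℤ, ∃ Y : Submodule ℂ L, FiniteDimensional ℂ Y ∧
      ∀ m : ℕ, ∃ a : L, a ≠ 0 ∧ ∀ u ∈ M.Sec m D, a * u ∈ Y) : kappaSigma ℂ L n ≤ 0 := by
  refine iSup_le fun W => ?_
  obtain ⟨D, h1⟩ := sec_sub hD hB W
  obtain ⟨Y, _, h2⟩ := h D
  refine growth_le (h := 0) (C := finrank ℂ Y) fun m _ => ?_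
  obtain ⟨a, ha, h3⟩ := h2 m
  rw [pow_zero, mul_one, finrank_eq_rank, plurigenus_eq]
  refine (rank_mono (t := Y.map ((LinearMap.toSpanSingleton L _ (form C.x m a⁻¹)).restrictScalars
    ℂ)) fun ω hω => ?_).trans (rank_map_le _ _)
  obtain ⟨u, hu, rfl⟩ := h1 m ω hω
  refine ⟨_, h3 u hu, ?_⟩
  change (a * u) • form C.x m a⁻¹ = _
  rw [form, form, smul_smul, mul_comm a, mul_inv_cancel_right₀ ha]

theorem coc_eq (hD : DVF C) (φ : L →ₐ[ℂ] L) (m : ℕ) {s : L} (hs : s ≠ 0) (i : ℕ) :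
    coc φ (C.T φ m s / s) i = C.T (φ ^ i) m s / s := by
  induction i with
  | zero => rw [pow_zero, hD.T_one, div_self hs]; rfl
  | succ i ih =>
    have h1 : (φ ^ i) s ≠ 0 := (map_ne_zero _).2 hs
    rw [coc, Finset.prod_range_succ, ← coc, ih, pow_succ, hD.T_mul, ← AlgHom.coe_pow, map_div₀]
    simp only [Ctx.T]
    field_simp

end END

open END

theorem blockEND (h1 : St_DV) (h2 : St_DGH) (h3 : St_MOD) (h4 : St_BAS) (h5 : St_LIM)
    (h6 : St_FIN) (h7 : St_BOOT) (h8 : St_COB) : St_MAIN := by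
  intro L ι _ _ _ _ y n hn ht hy φ h
  obtain ⟨C, hC, hS⟩ := exists_ctx hn ht hy
  rw [← hC] at h
  obtain ⟨M⟩ := h3 L n C hS
  have hD := h1 L n C
  have hB := h4 L n C M
  have hK := klp h2 hB h
  obtain ⟨hN, hN'⟩ := blockNIF L n C φ h
  refine or_iff_not_imp_left.2 fun h0 => ?_
  obtain ⟨W, hW⟩ : ∃ W, growth (plurigenus ℂ L n W) ≠ ⊥ := not_forall.1 fun h => h0 (iSup_eq_bot.2 h)
  obtain ⟨D, hD'⟩ := sec_sub hD hB W
  let S := {m | ∃ u, u ≠ 0 ∧ u ∈ M.Sec m D}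
  have hS : S.Infinite := fun hf => by
    obtain ⟨b, hb⟩ := hf.bddAbove
    refine hW (growth_eq_bot (m₀ := b + 1) fun m hm => ?_)
    rw [plurigenus_eq]
    refine rank_zero_iff_forall_zero.2 fun ω => ?_
    obtain ⟨u, hu, hu'⟩ := hD' m _ ω.2
    by_cases h9 : u = 0
    · exact Subtype.ext (by rw [hu', h9, form, zero_smul]; rfl)
    · have := hb ⟨u, h9, hu⟩
      omega
  choose! s hs using fun m (hm : m ∈ S) => hm
  obtain ⟨nn, hl⟩ := h5 L n C M φ hK S s D hS hs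
  obtain ⟨b1, b2, b3⟩ := h7 L n C M φ hK nn hl (h6 L n C M φ hN nn hl)
  have k1 := growth_le_zero hD hB b1
  obtain ⟨e, Y, hY, b2⟩ := b2 D
  choose! z hz using fun m (hm : m ∈ S) => b2 m (s m) (hs m hm).1 (hs m hm).2
  obtain ⟨m, hm, m', hm', hlt, u, c, hu, hc⟩ := h8 L φ (hD.alg φ) hN' S
    (fun m => C.T φ m (s m) / s m) z (C.H ^ e) Y hS (hB.fdH e) hY fun m hm =>
      ⟨div_ne_zero (hD.T_ne _ _ _ (hs m hm).1) (hs m hm).1, (hz m hm).2.1, (hz m hm).1, fun i => by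
        rw [coc_eq hD φ m (hs m hm).1, ← AlgHom.coe_pow]
        exact (hz m hm).2.2 i⟩
  obtain ⟨r, rfl⟩ := Nat.exists_eq_add_of_lt hlt
  have s1 := (hs _ hm).1
  have s2 := (hs _ hm').1
  have s3 : jac C.d (φ ∘ C.x) ≠ 0 := hD.jac_ne _ (hD.tb_comp φ)
  have s4 : s (m' + r + 1) / (s m' * u) ≠ 0 := div_ne_zero s1 (mul_ne_zero s2 hu)
  have s5 : C.T φ (r + 1) (s (m' + r + 1) / (s m' * u)) = c • (s (m' + r + 1) / (s m' * u)) := by
    have t1 : φ (s m') ≠ 0 := by simpa using s2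
    have t2 : φ u ≠ 0 := by simpa using hu
    simp only [Ctx.T, Algebra.smul_def, map_div₀, map_mul] at hc ⊢
    rw [add_assoc m', pow_add] at hc
    rw [add_assoc m'] at s1 ⊢
    field_simp at hc ⊢
    exact hc
  generalize s (m' + r + 1) / (s m' * u) = w at s4 s5
  have k2 : 0 ≤ kodaira ℂ L n := by
    refine le_growth (h := 0) (a := r + 1) (by omega) fun t => ?_
    have t1 := b3 ((r + 1) * (t + 1)) (w ^ (t + 1)) (c ^ (t + 1)) (pow_ne_zero _ s4) (by
      rw [← smul_pow, ← s5, Ctx.T, Ctx.T, map_pow, mul_pow, pow_mul])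
    rw [pow_zero, Cardinal.one_le_iff_pos, plurigenus_eq, rank_pos_iff_exists_ne_zero]
    exact ⟨⟨_, M.reg _ _ fun E => by simpa using t1 E⟩, fun h =>
      form_ne_zero C.tb _ (pow_ne_zero _ s4) (congrArg Subtype.val h)⟩
  have k3 := kodaira_le_kappaSigma ℂ L n
  exact ⟨le_antisymm k1 (k2.trans k3), le_antisymm (k3.trans k1) k2⟩

end Pool.Agent.Lib.GD
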