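import Pool.Agent.Lib.GD.Blue

/-! Prime divisors of a smooth variety are locally principal. -/

open Set Polynomial Pool.Agent.Lib.MP_e06174_ag Pool.Agent.Lib.MP_e39d36_ag

set_option linter.unusedSectionVars false
set_option linter.style.haveILetI false

noncomputable section

namespace Pool.Agent.Lib.GD

namespace FAC

variable {L : Type} [Field L] [Algebra ℂ L] {T : Subring L} {E : Place ℂ L}

theorem mem_O' {a : L} : a ∈ E.O.toSubring ↔ E.Ge 0 a := Place.mem_O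

theorem not_un {a : L} (h : E.Ge 1 a) : ¬Un E.O.toSubring a := fun k => by
  have h1 := h.le k.1
  have h2 := (mem_O'.1 k.2.2).le (inv_ne_zero k.1)
  rw [Place.ord_inv] at h2
  omega

theorem un_of {a : L} (h0 : E.Ge 0 a) (h : ¬E.Ge 1 a) : Un E.O.toSubring a := by
  obtain ⟨h1, h2⟩ := Place.not_ge_iff.1 h
  exact ⟨h1, mem_O'.2 h0, mem_O'.2 (Place.ge_of_le (by rw [Place.ord_inv]; omega))⟩

theorem ge_mul {a b : L} (ha : a ∈ E.O.toSubring) (hb : E.Ge 1 b) : E.Ge 1 (a * b) :=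
  (mem_O'.1 ha).mul' hb (by omega)

section core

variable {R : Type} [CommRing R] [Algebra R L] {θ : L}

/-- The prime cut out by a place. -/
def pE (B : Subalgebra R L) (h : B.toSubring ≤ E.O.toSubring) : Ideal B where
  carrier := {b | E.Ge 1 (b : L)}
  zero_mem' := Place.ge_zero _
  add_mem' := fun ha hb => ha.add hb
  smul_mem' := fun c _ hb => ge_mul (h c.2) hb

instance (B : Subalgebra R L) (h : B.toSubring ≤ E.O.toSubring) : (pE B h).IsPrime where
  ne_top' := (Ideal.ne_top_iff_one _).2 fun k => not_un (E := E) k Un.one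
  mem_or_mem' := fun {a b} hab => by
    by_contra! k
    exact not_un (E := E) hab ((un_of (mem_O'.1 (h a.2)) k.1).mul (un_of (mem_O'.1 (h b.2)) k.2))

theorem exists_gen [IsDomain R] [UniqueFactorizationMonoid R] [FaithfulSMul R L]
    (hθ : IsIntegral R θ) (hB : LocOf (Algebra.adjoin R {θ}).toSubring E.O.toSubring) :
    ∃ G : R, algebraMap R L G ≠ 0 ∧ E.Ge 1 (algebraMap R L G) ∧
      ∀ g : R, E.Ge 1 (algebraMap R L g) → G ∣ g := by
  haveI : Algebra.IsIntegral R (Algebra.adjoin R {θ}) := Algebra.IsIntegral.adjoin (by simpa)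
  have inj := FaithfulSMul.algebraMap_injective R L
  let p := pE (Algebra.adjoin R {θ}) hB.1
  obtain ⟨π, h0, h1⟩ := E.exists_ord_eq_one
  obtain ⟨s, s1, s2, s3⟩ := hB.2 π (mem_O'.2 (Place.ge_of_le (by omega)))
  have hq : p.under R ≠ ⊥ :=
    Ideal.comap_ne_bot_of_integral_mem (x := (⟨_, s3⟩ : Algebra.adjoin R {θ}))
      (fun k => mul_ne_zero s2.1 h0 (congrArg Subtype.val k))
      (ge_mul s2.2.1 (Place.ge_of_le h1.ge)) (Algebra.IsIntegral.isIntegral _)
  obtain ⟨G, hG, pG⟩ := Ideal.IsPrime.exists_mem_prime_of_ne_bot inferInstance hq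
  have g0 : algebraMap R L G ≠ 0 := (map_ne_zero_iff _ inj).2 pG.ne_zero
  have g1 : E.Ge 1 (algebraMap R L G) := hG
  haveI : (Ideal.span {G}).IsPrime := (Ideal.span_singleton_prime pG.ne_zero).2 pG
  obtain ⟨P, hP, _, lo⟩ := Ideal.exists_ideal_le_liesOver_of_le (p := Ideal.span {G})
    (q := p.under R) p ((Ideal.span_singleton_le_iff_mem _).2 hG)
  refine ⟨G, g0, g1, fun g hg => ?_⟩
  by_cases hg0 : algebraMap R L g = 0
  · rw [(map_eq_zero_iff _ inj).1 hg0]
    exact dvd_zero G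
  obtain ⟨m, hm⟩ := Int.eq_ofNat_of_zero_le (show 0 ≤ E.ord (algebraMap R L G) by
    have := g1.le g0
    omega)
  obtain ⟨u, u1, u2, u3⟩ := hB.2 (algebraMap R L g ^ m / algebraMap R L G)
    (mem_O'.2 (Place.ge_of_le (by
      have := hg.le hg0
      rw [E.ord_div (pow_ne_zero _ hg0) g0, Place.ord_pow, hm]
      nlinarith [Int.natCast_nonneg m])))
  have e : (⟨u, u1⟩ : Algebra.adjoin R {θ}) * algebraMap R _ g ^ m = ⟨_, u3⟩ * algebraMap R _ G :=
    Subtype.ext (by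
      change u * algebraMap R L g ^ m = u * (_ / _) * algebraMap R L G
      field_simp)
  have h2 : algebraMap R (Algebra.adjoin R {θ}) G ∈ P := by
    have := Ideal.mem_span_singleton_self G
    rwa [lo.over] at this
  rcases ‹P.IsPrime›.mem_or_mem (e ▸ P.mul_mem_left _ h2) with k | k
  · exact absurd u2 (not_un (hP k))
  · have : g ∈ P.under R := ‹P.IsPrime›.mem_of_pow_mem _ k
    rwa [← lo.over, Ideal.mem_span_singleton] at this

theorem expand (hT : (algebraMap R L).range ≤ T) {x y : L} (hx : x ∈ T) (hy : y ∈ T) (H : R[X]) :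
    ∃ k ∈ T, aeval (x + y) H = aeval x H + aeval x (derivative H) * y + k * y ^ 2 := by
  let ψ : R →+* T := (algebraMap R L).codRestrict T fun r => hT ⟨r, rfl⟩
  obtain ⟨k, hk⟩ := (H.map ψ).binomExpansion ⟨x, hx⟩ ⟨y, hy⟩
  have e : ∀ (P : R[X]) (z : T), T.subtype ((P.map ψ).eval z) = aeval (z : L) P := fun P z => by
    rw [eval_map, hom_eval₂, aeval_def]
    rfl
  have := congrArg T.subtype hk
  rw [map_add, map_add, map_mul, map_mul, map_pow, derivative_map, e, e, e] at this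
  exact ⟨k, k.2, this⟩

theorem core [IsDomain R] [UniqueFactorizationMonoid R] [FaithfulSMul R L]
    (hθ : IsIntegral R θ) (hT : IsLoc T) (hB : LocOf (Algebra.adjoin R {θ}).toSubring T)
    (hE : LocOf T E.O.toSubring) {F : R[X]} (hF : aeval θ F = 0)
    (hF' : Un T (aeval θ (derivative F))) {a : L} (ha : a ∈ loc (algebraMap R L).range T)
    (h1 : E.Ge 1 (a - θ)) :
    ∃ f ∈ T, f ≠ 0 ∧ E.Ge 1 f ∧ ∀ b ∈ T, E.Ge 1 b → b / f ∈ T := by
  obtain ⟨G, g0, g1, hG⟩ := exists_gen hθ (hB.trans hE)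
  have hR : (algebraMap R L).range ≤ T := by
    rintro _ ⟨r, rfl⟩
    exact hB.1 (Subalgebra.algebraMap_mem _ r)
  have t1 : θ ∈ T := hB.1 (Algebra.subset_adjoin rfl)
  have t2 : a - θ ∈ T := sub_mem (loc_le hR ha) t1
  have k0 : ∀ H : R[X], E.Ge 1 (aeval a H) → aeval a H / algebraMap R L G ∈ T := fun H hH => by
    obtain ⟨_, ⟨r, rfl⟩, r1, g, hg⟩ := aeval_mem (R := loc (algebraMap R L).range T)
      (fun r => le_frac ⟨r, rfl⟩) ha H
    obtain ⟨g', rfl⟩ := hG g (hg ▸ ge_mul (hE.1 r1.2.1) hH)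
    refine Un.mem_of_mul r1 ?_
    rw [← mul_div_assoc, ← hg, map_mul, mul_div_cancel_left₀ _ g0]
    exact hR ⟨g', rfl⟩
  have k1 : ∀ H : R[X], ∃ k ∈ T,
      aeval a H = aeval θ H + (aeval θ (derivative H) + k * (a - θ)) * (a - θ) := fun H => by
    obtain ⟨k, hk, e⟩ := expand hR t1 t2 H
    rw [add_sub_cancel] at e
    exact ⟨k, hk, by rw [e]; ring⟩
  have k2 : (a - θ) / algebraMap R L G ∈ T := by
    obtain ⟨k, hk, e⟩ := k1 F
    have hu := hT.add_un hF' (mul_mem hk t2) fun z =>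
      not_un (ge_mul (hE.1 hk) h1) (z.mono hE.1)
    rw [hF, zero_add] at e
    refine hu.mem_of_mul ?_
    rw [← mul_div_assoc, ← e]
    exact k0 F (e ▸ ge_mul (hE.1 hu.2.1) h1)
  refine ⟨_, hR ⟨G, rfl⟩, g0, g1, fun b hb h2 => ?_⟩
  obtain ⟨s, -, s2, s3⟩ := hB.2 b hb
  obtain ⟨H, hH⟩ : ∃ H : R[X], aeval θ H = s * b := by
    have : s * b ∈ Algebra.adjoin R {θ} := s3
    rwa [Algebra.adjoin_singleton_eq_range_aeval] at this
  obtain ⟨k, hk, e⟩ := k1 H
  have hu := add_mem (aeval_mem (fun r => hR ⟨r, rfl⟩) t1 (derivative H)) (mul_mem hk t2)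
  have h3 := k0 H (e ▸ (hH ▸ ge_mul (hE.1 s2.2.1) h2).add (ge_mul (hE.1 hu) h1))
  refine s2.mem_of_mul ?_
  have h4 := sub_mem h3 (mul_mem hu k2)
  rwa [e, ← mul_div_assoc, ← sub_div, add_sub_cancel_right, hH, mul_div_assoc] at h4

theorem naka (hθ : IsIntegral R θ) (hT : IsLoc T) (hR : (algebraMap R L).range ≤ T)
    (hTE : T ≤ E.O.toSubring) (hB : (Algebra.adjoin R {θ}).toSubring ≤ E.O.toSubring)
    {I : Ideal R}
    (hI : ∀ r ∈ I, ¬Un T (algebraMap R L r)) {F : R[X]} (hF : aeval θ F = 0) (h0 : F.coeff 0 ∈ I)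
    {e : R} (h1 : e * F.coeff 1 - 1 ∈ I) {d : ℕ}
    (hd : (⟨θ, Algebra.subset_adjoin rfl⟩ : Algebra.adjoin R {θ}) ^ d ∈
      I.map (algebraMap R _) ⊔ pE _ hB) :
    ∃ a ∈ loc (algebraMap R L).range T, E.Ge 1 (a - θ) := by
  set z : Algebra.adjoin R {θ} := ⟨θ, Algebra.subset_adjoin rfl⟩ with hz
  set J := I.map (algebraMap R (Algebra.adjoin R {θ})) ⊔ pE _ hB with hJ
  have ev : ∀ H : R[X], ((aeval z H : Algebra.adjoin R {θ}) : L) = aeval θ H := fun H =>
    (aeval_algHom_apply (Algebra.adjoin R {θ}).val z H).symm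
  have sp : ∀ H : R[X], aeval z H = algebraMap R _ (H.coeff 0) + z * aeval z H.divX := fun H => by
    conv_lhs => rw [← X_mul_divX_add H, map_add, map_mul, aeval_X, aeval_C, add_comm]
  have iJ : ∀ r ∈ I, Ideal.Quotient.mk J (algebraMap R _ r) = 0 := fun r hr =>
    Ideal.Quotient.eq_zero_iff_mem.2 (Ideal.mem_sup_left (Ideal.mem_map_of_mem _ hr))
  have zJ : z ∈ J := by
    have a1 : aeval z F = 0 := Subtype.ext (by rw [ev, hF]; rfl)
    rw [sp, sp F.divX, coeff_divX] at a1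
    have a2 := congrArg (Ideal.Quotient.mk J) a1
    rw [map_add, iJ _ h0, zero_add, map_mul, map_add, map_mul, map_zero] at a2
    have a3 : IsNilpotent (Ideal.Quotient.mk J z) :=
      ⟨d, by rw [← map_pow]; exact Ideal.Quotient.eq_zero_iff_mem.2 hd⟩
    have a4 := iJ _ h1
    rw [map_sub, map_sub, map_mul, map_mul, map_one, map_one, sub_eq_zero] at a4
    have a5 := ((Commute.all _ _).isNilpotent_mul_right
      (y := Ideal.Quotient.mk J (aeval z F.divX.divX)) a3).isUnit_add_left_of_commute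
      (IsUnit.of_mul_eq_one_right _ a4) (Commute.all _ _)
    exact Ideal.Quotient.eq_zero_iff_mem.1 (a5.mul_left_eq_zero.1 a2)
  haveI : Module.Finite R (Algebra.adjoin R {θ}) := Algebra.finite_adjoin_simple_of_isIntegral hθ
  obtain ⟨r, r1, r2⟩ := Submodule.exists_sub_one_mem_and_smul_le_of_fg_of_le_sup (I := I)
    (N := Submodule.span R {1} ⊔ (pE _ hB).restrictScalars R) (N' := ⊤) (P := ⊤)
    Module.Finite.fg_top le_rfl fun b _ => by
      obtain ⟨H, hH⟩ : ∃ H : R[X], aeval θ H = b :=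
        (Algebra.adjoin_singleton_eq_range_aeval R θ).le b.2
      obtain rfl : aeval z H = b := Subtype.ext (by rw [ev, hH])
      obtain ⟨j, hj, q, hq, e⟩ := Submodule.mem_sup.1 (J.mul_mem_right (aeval z H.divX) zJ)
      rw [sp, ← e, add_comm j, ← add_assoc, Ideal.smul_top_eq_map]
      refine Submodule.add_mem_sup (Submodule.add_mem_sup ?_ hq) hj
      rw [Algebra.algebraMap_eq_smul_one]
      exact Submodule.smul_mem _ _ (Submodule.mem_span_singleton_self _)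
  obtain ⟨j, hj, q, hq, e⟩ := Submodule.mem_sup.1
    (r2 (Submodule.smul_mem_pointwise_smul z r ⊤ trivial))
  obtain ⟨g, rfl⟩ := Submodule.mem_span_singleton.1 hj
  have e1 : algebraMap R L g + q = algebraMap R L r * θ := by
    rw [Algebra.smul_def, Algebra.smul_def, mul_one] at e
    exact congrArg Subtype.val e
  have u : Un T (algebraMap R L r) := by
    have := hT.add_un Un.one (hR ⟨r - 1, rfl⟩) (hI _ r1)
    rwa [map_sub, map_one, add_sub_cancel] at this
  have u0 := u.1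
  refine ⟨algebraMap R L g / algebraMap R L r, ⟨_, ⟨r, rfl⟩, u, g, by field_simp⟩, ?_⟩
  rw [show algebraMap R L g / algebraMap R L r - θ = (algebraMap R L r)⁻¹ * (-q) by
    field_simp
    linear_combination e1]
  exact ge_mul (hTE u.2.2) (Place.Ge.neg hq)

end core

section ev

variable {n : ℕ} {S S' : Type} [CommRing S] [Algebra ℂ S] [CommRing S'] [Algebra ℂ S']

/-- Evaluation of a polynomial in `n + 1` variables. -/
def ev (y : Fin n → S) (θ : S) : (MvPolynomial (Fin n) ℂ)[X] →+* S :=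
  eval₂RingHom (MvPolynomial.aeval y : MvPolynomial (Fin n) ℂ →ₐ[ℂ] S).toRingHom θ

theorem ev_C (y : Fin n → S) (θ : S) (P : MvPolynomial (Fin n) ℂ) :
    ev y θ (C P) = MvPolynomial.aeval y P := eval₂_C _ _

theorem ev_X (y : Fin n → S) (θ : S) : ev y θ X = θ := eval₂_X _ _

theorem ev_eq {R : Type} [CommRing R] (f : (MvPolynomial (Fin n) ℂ)[X] →+* R) (ψ : S →+* R)
    (y : Fin n → S) (θ : S) (h1 : ∀ c, ψ (algebraMap ℂ S c) = f (C (MvPolynomial.C c)))
    (h2 : ∀ i, ψ (y i) = f (C (MvPolynomial.X i))) (h3 : ψ θ = f X) (H) : ψ (ev y θ H) = f H := by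
  refine RingHom.congr_fun (f := ψ.comp (ev y θ)) (Polynomial.ringHom_ext'
    (MvPolynomial.ringHom_ext (fun c => ?_) fun i => ?_) ?_) H
  · simpa [ev_C] using h1 c
  · simpa [ev_C] using h2 i
  · simpa [ev_X] using h3

theorem map_ev (ψ : S →+* S') (h : ∀ c, ψ (algebraMap ℂ S c) = algebraMap ℂ S' c)
    (y : Fin n → S) (θ : S) (H) : ψ (ev y θ H) = ev (fun i => ψ (y i)) (ψ θ) H :=
  ev_eq _ ψ y θ (fun c => by simp [ev_C, h]) (fun i => by simp [ev_C]) (by simp [ev_X]) H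

theorem ev_mem {A : Subring S} (h : ∀ c, algebraMap ℂ S c ∈ A) {y : Fin n → S} {θ : S}
    (hy : ∀ i, y i ∈ A) (hθ : θ ∈ A) (H) : ev y θ H ∈ A := by
  induction H using Polynomial.induction_on with
  | C P =>
    rw [ev_C]
    induction P using MvPolynomial.induction_on with
    | C c => simpa using h c
    | add p q hp hq => simpa using add_mem hp hq
    | mul_X p i hp => simpa using mul_mem hp (hy i)
  | add p q hp hq => simpa using add_mem hp hq
  | monomial k a ih =>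
    rw [pow_succ, ← mul_assoc, map_mul, ev_X]
    exact mul_mem ih hθ

/-- The graph of the residue map. -/
def gr (hT : IsLoc T) (h : ∀ c, algebraMap ℂ L c ∈ T) : Subring (L × ℂ) where
  carrier := {p | p.1 ∈ T ∧ ¬Un T (p.1 - algebraMap ℂ L p.2)}
  one_mem' := ⟨one_mem _, fun k => k.1 (by simp)⟩
  zero_mem' := ⟨zero_mem _, fun k => k.1 (by simp)⟩
  neg_mem' := fun {a} ha => ⟨neg_mem ha.1, fun k => ha.2 (by
    have := k.neg
    rwa [Prod.fst_neg, Prod.snd_neg, map_neg, neg_sub_neg, neg_sub] at this)⟩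
  add_mem' := fun {a b} ha hb => ⟨add_mem ha.1 hb.1, fun k => by
    rw [Prod.fst_add, Prod.snd_add, map_add, add_sub_add_comm] at k
    exact (hT.of_add (sub_mem ha.1 (h _)) (sub_mem hb.1 (h _)) k).elim ha.2 hb.2⟩
  mul_mem' := fun {a b} ha hb => ⟨mul_mem ha.1 hb.1, fun k => by
    rw [Prod.fst_mul, Prod.snd_mul, map_mul, show a.1 * b.1 - algebraMap ℂ L a.2 *
      algebraMap ℂ L b.2 = a.1 * (b.1 - algebraMap ℂ L b.2) +
      algebraMap ℂ L b.2 * (a.1 - algebraMap ℂ L a.2) by ring] at k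
    have h1 := sub_mem ha.1 (h a.2)
    have h2 := sub_mem hb.1 (h b.2)
    exact (hT.of_add (mul_mem ha.1 h2) (mul_mem (h _) h1) k).elim
      (fun z => hb.2 (z.of_mul' ha.1 h2)) fun z => ha.2 (z.of_mul' (h _) h1)⟩

theorem un_const (h : ∀ c, algebraMap ℂ L c ∈ T) {c : ℂ} (hc : c ≠ 0) : Un T (algebraMap ℂ L c) :=
  ⟨by simpa using hc, h c, by rw [← map_inv₀]; exact h _⟩

theorem un_ev (hT : IsLoc T) (h : ∀ c, algebraMap ℂ L c ∈ T) {y : Fin n → L} {θ : L}
    {α : Fin n → ℂ} {β : ℂ} (hy : ∀ i, (y i, α i) ∈ gr hT h) (hθ : (θ, β) ∈ gr hT h) (H) :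
    Un T (ev y θ H) ↔ ev α β H ≠ 0 := by
  have := ev_mem (A := gr hT h) (fun c => ⟨h c, fun k => k.1 (by simp)⟩) hy hθ H
  obtain ⟨h1, h2⟩ := this
  rw [show (ev (fun i => (y i, α i)) (θ, β) H).1 = ev y θ H from
    map_ev (RingHom.fst L ℂ) (fun _ => rfl) _ _ H] at h1 h2
  rw [show (ev (fun i => (y i, α i)) (θ, β) H).2 = ev α β H from
    map_ev (RingHom.snd L ℂ) (fun _ => rfl) _ _ H] at h2
  refine ⟨fun k z => h2 (by simpa [z] using k), fun k => ?_⟩
  simpa using hT.add_un (un_const h k) (sub_mem h1 (h _)) h2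

theorem dep {x : Fin n → L} (hx : IsTranscendenceBasis ℂ x) (y : Fin n → L) {s : L}
    (hs : s ≠ 0) : ∃ P, P.coeff 0 ≠ 0 ∧ ev y s P = 0 := by
  have h1 : ¬AlgebraicIndependent ℂ fun o : Option (Fin n) => o.elim s y := fun k => by
    have := k.cardinalMk_le_trdeg
    rw [← hx.cardinalMk_eq_trdeg] at this
    simp only [Cardinal.mk_fintype, Fintype.card_option, Fintype.card_fin, Nat.cast_le] at this
    omega
  rw [algebraicIndependent_iff] at h1
  push Not at h1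
  obtain ⟨P, h2, h3⟩ := h1
  obtain ⟨Q, h4, h5⟩ := exists_eq_pow_rootMultiplicity_mul_and_not_dvd
    (MvPolynomial.optionEquivLeft ℂ (Fin n) P) (by simpa using h3) 0
  have h6 : ev y s (MvPolynomial.optionEquivLeft ℂ (Fin n) P) = 0 := by
    rw [← h2]
    exact RingHom.congr_fun (f := (ev y s).comp (MvPolynomial.optionEquivLeft ℂ (Fin n)))
      (g := (MvPolynomial.aeval fun o : Option (Fin n) => o.elim s y).toRingHom)
      (MvPolynomial.ringHom_ext (fun c => by simp [ev_C]) fun o => by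
        cases o <;> simp [ev_C, ev_X]) P
  rw [C_0, sub_zero] at h4 h5
  rw [h4, map_mul, map_pow, ev_X] at h6
  exact ⟨Q, fun k => h5 (X_dvd_iff.2 k), (mul_eq_zero.1 h6).resolve_left (pow_ne_zero _ hs)⟩

theorem ev_zero (c : Fin n → ℂ) (H) : ev c 0 H = MvPolynomial.eval c (H.coeff 0) :=
  ev_eq ((MvPolynomial.eval c).comp constantCoeff) (RingHom.id ℂ) c 0 (by simp) (by simp)
    (by simp) H

end ev

section main

variable {n : ℕ}

section alg

variable [Algebra (MvPolynomial (Fin n) ℂ) L] [IsScalarTower ℂ (MvPolynomial (Fin n) ℂ) L]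
  {w : Fin n → L} (hw : ∀ i, algebraMap (MvPolynomial (Fin n) ℂ) L (MvPolynomial.X i) = w i)

theorem alg_C (c : ℂ) :
    algebraMap (MvPolynomial (Fin n) ℂ) L (MvPolynomial.C c) = algebraMap ℂ L c :=
  (IsScalarTower.algebraMap_apply ℂ (MvPolynomial (Fin n) ℂ) L c).symm

include hw

theorem aeval_eq (z : L) (H : (MvPolynomial (Fin n) ℂ)[X]) : aeval z H = ev w z H :=
  (ev_eq (aeval z : (MvPolynomial (Fin n) ℂ)[X] →ₐ[MvPolynomial (Fin n) ℂ] L).toRingHom
    (RingHom.id L) w z (fun c => by simp [alg_C]) (fun i => by simp [hw]) (by simp) H).symm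

theorem alg_eq (P : MvPolynomial (Fin n) ℂ) :
    algebraMap (MvPolynomial (Fin n) ℂ) L P = MvPolynomial.aeval w P := by
  rw [← ev_C w 0, ← aeval_eq hw, aeval_C]

theorem locOf {t : Fin n → L} {θ z : L}
    (hB : LocOf (Algebra.adjoin ℂ (insert θ (range t))).toSubring T) (h1 : ∀ i, w i ∈ T)
    (h2 : z ∈ T) (h3 : θ ∈ Algebra.adjoin (MvPolynomial (Fin n) ℂ) {z})
    (h4 : ∀ i, t i ∈ Algebra.adjoin (MvPolynomial (Fin n) ℂ) {z}) :
    LocOf (Algebra.adjoin (MvPolynomial (Fin n) ℂ) {z}).toSubring T := by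
  refine hB.of_le (fun b hb => ?_) fun b hb => ?_
  · refine (Algebra.adjoin_le (S := (Algebra.adjoin (MvPolynomial (Fin n) ℂ) {z}).restrictScalars ℂ)
      ?_) hb
    rintro _ (rfl | ⟨i, rfl⟩)
    exacts [h3, h4 i]
  · obtain ⟨H, rfl⟩ : ∃ H : (MvPolynomial (Fin n) ℂ)[X], aeval z H = b :=
      (Algebra.adjoin_singleton_eq_range_aeval _ z).le hb
    rw [aeval_eq hw]
    exact ev_mem (fun c => hB.1 (Subalgebra.algebraMap_mem _ c)) h1 h2 H

theorem clear {z : L} (hz : z ≠ 0) (c : Fin n → ℂ) (P : MvPolynomial (Fin n) ℂ) :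
    ∃ (d : ℕ) (j : Algebra.adjoin (MvPolynomial (Fin n) ℂ) {z}),
      j ∈ (RingHom.ker (MvPolynomial.eval (0 : Fin n → ℂ))).map (algebraMap _ _) ∧
      (j : L) = z ^ d * (MvPolynomial.aeval (fun i => algebraMap ℂ L (c i) + z⁻¹ * w i) P -
        algebraMap ℂ L (MvPolynomial.eval c P)) := by
  let u : Algebra.adjoin (MvPolynomial (Fin n) ℂ) {z} := ⟨z, Algebra.subset_adjoin rfl⟩
  induction P using MvPolynomial.induction_on with
  | C a => exact ⟨0, 0, zero_mem _, by simp⟩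
  | add p q hp hq =>
    obtain ⟨d, j, h1, h2⟩ := hp
    obtain ⟨e, k, h3, h4⟩ := hq
    refine ⟨d + e, u ^ e * j + u ^ d * k, add_mem (Ideal.mul_mem_left _ _ h1)
      (Ideal.mul_mem_left _ _ h3), ?_⟩
    change z ^ e * j + z ^ d * k = _
    rw [h2, h4, map_add, map_add, map_add]
    ring
  | mul_X p i hp =>
    obtain ⟨d, j, h1, h2⟩ := hp
    refine ⟨d + 1, j * (algebraMap _ _ (MvPolynomial.C (σ := Fin n) (c i)) * u +
      algebraMap _ _ (MvPolynomial.X (R := ℂ) i)) + algebraMap _ _ (MvPolynomial.C (σ := Fin n)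
      (MvPolynomial.eval c p)) * u ^ d * algebraMap _ _ (MvPolynomial.X (R := ℂ) i),
      add_mem (Ideal.mul_mem_right _ _ h1) (Ideal.mul_mem_left _ _
        (Ideal.mem_map_of_mem _ (by simp))), ?_⟩
    change j * (algebraMap _ L _ * z + algebraMap _ L _) +
      algebraMap _ L _ * z ^ d * algebraMap _ L _ = _
    rw [h2, alg_C, alg_C, hw, map_mul, map_mul, map_mul, MvPolynomial.aeval_X,
      MvPolynomial.eval_X]
    generalize MvPolynomial.aeval (fun i => algebraMap ℂ L (c i) + z⁻¹ * w i) p = v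
    field_simp
    ring

end alg

theorem fac0 {t : Fin n → L} {θ : L} {F : (MvPolynomial (Fin n) ℂ)[X]}
    (ht : IsTranscendenceBasis ℂ t) (hm : F.Monic) (hF : ev t θ F = 0) (hT : IsLoc T)
    (hF' : Un T (ev t θ (derivative F)))
    (hB : LocOf (Algebra.adjoin ℂ (insert θ (range t))).toSubring T)
    (res : ∀ a ∈ T, ∃ c, ¬Un T (a - algebraMap ℂ L c)) (fr : ∀ z, ∃ b ∈ T, b ≠ 0 ∧ b * z ∈ T)
    (hE : LocOf T E.O.toSubring) :
    ∃ f ∈ T, f ≠ 0 ∧ E.Ge 1 f ∧ ∀ b ∈ T, E.Ge 1 b → b / f ∈ T := by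
  have hC : ∀ c, algebraMap ℂ L c ∈ T := fun c => hB.1 (Subalgebra.algebraMap_mem _ c)
  have t1 : θ ∈ T := hB.1 (Algebra.subset_adjoin (mem_insert _ _))
  have t2 : ∀ i, t i ∈ T := fun i => hB.1 (Algebra.subset_adjoin (Or.inr ⟨i, rfl⟩))
  obtain ⟨β, hβ⟩ := res θ t1
  choose α hα using fun i => res _ (t2 i)
  by_cases h1 : E.Ge 1 (θ - algebraMap ℂ L β)
  · letI := (MvPolynomial.aeval t : MvPolynomial (Fin n) ℂ →ₐ[ℂ] L).toRingHom.toAlgebra
    haveI : IsScalarTower ℂ (MvPolynomial (Fin n) ℂ) L :=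
      IsScalarTower.of_algebraMap_eq fun c => ((MvPolynomial.aeval t).commutes c).symm
    haveI : FaithfulSMul (MvPolynomial (Fin n) ℂ) L :=
      (faithfulSMul_iff_algebraMap_injective _ _).2 ht.1
    have hw : ∀ i, algebraMap (MvPolynomial (Fin n) ℂ) L (MvPolynomial.X i) = t i :=
      fun i => MvPolynomial.aeval_X t i
    exact core ⟨F, hm, hF⟩ hT (locOf hw hB t2 t1 (Algebra.subset_adjoin rfl)
      fun i => hw i ▸ Subalgebra.algebraMap_mem _ _) hE (F := F) hF hF'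
      (a := algebraMap ℂ L β) (le_frac ⟨_, alg_C β⟩) (by simpa using h1.neg)
  obtain ⟨z, hz⟩ : ∃ z, z = θ - algebraMap ℂ L β := ⟨_, rfl⟩
  rw [← hz] at h1 hβ
  have z1 : z ∈ T := hz ▸ sub_mem t1 (hC β)
  have z2 := un_of (mem_O'.1 (hE.1 z1)) h1
  have z0 := z2.1
  obtain ⟨π, p0, p1⟩ := E.exists_ord_eq_one
  obtain ⟨P₁, a1, a2⟩ := dep ht (fun i => (t i - algebraMap ℂ L (α i)) / z) p0
  obtain ⟨P₂, b1, b2⟩ := dep ht (fun i => (t i - algebraMap ℂ L (α i)) / z) (inv_ne_zero z0)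
  let G : (MvPolynomial (Fin n) ℂ)[X] := ev
    (fun i => C (MvPolynomial.C (α i)) + C (MvPolynomial.X i) * X) (X + C (MvPolynomial.C β)) F
  have mG : ∀ c : Fin n → ℂ, G.map (MvPolynomial.eval c) =
      ev (fun i => C (α i) + C (c i) * X) (X + C β) F := fun c =>
    (map_ev (mapRingHom (MvPolynomial.eval c)) (by simp) _ _ F).trans (by simp)
  have hD : G.coeff 1 ≠ 0 := fun k => by
    have e1 := ev_eq ((compRingHom (X + C β)).comp (mapRingHom (MvPolynomial.eval α)))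
      (RingHom.id ℂ[X]) (fun i => C (α i) + C 0 * X) (X + C β) (by simp) (by simp) (by simp) F
    have e2 := ev_eq ((evalRingHom β).comp (mapRingHom (MvPolynomial.eval α)))
      (RingHom.id ℂ) α β (by simp) (by simp) (by simp) (derivative F)
    have e3 : G.map (MvPolynomial.eval 0) = taylor β (F.map (MvPolynomial.eval α)) :=
      (mG 0).trans e1
    have e4 := congrArg (coeff · 1) e3
    simp only [coeff_map, k, map_zero, taylor_coeff_one, derivative_map] at e4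
    exact (un_ev hT hC (fun i => ⟨t2 i, hα i⟩) ⟨t1, hz ▸ hβ⟩ _).1 hF' (e2.trans e4.symm)
  obtain ⟨c, hc⟩ : ∃ c, MvPolynomial.eval c (P₁.coeff 0 * P₂.coeff 0 * G.coeff 1) ≠ 0 := by
    by_contra! k
    exact mul_ne_zero (mul_ne_zero a1 b1) hD (MvPolynomial.funext fun c => by rw [k, map_zero])
  simp only [map_mul, mul_ne_zero_iff] at hc
  obtain ⟨w, hw0⟩ : ∃ w : Fin n → L,
    ∀ i, t i = w i + algebraMap ℂ L (α i) + algebraMap ℂ L (c i) * z :=
    ⟨fun i => t i - algebraMap ℂ L (α i) - algebraMap ℂ L (c i) * z, fun i => by ring⟩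
  have hy : (fun i => (t i - algebraMap ℂ L (α i)) / z) =
      fun i => algebraMap ℂ L (c i) + z⁻¹ * w i := funext fun i => by
    rw [hw0]
    field_simp
    ring
  have w1 : ∀ i, (w i, (0 : ℂ)) ∈ gr hT hC := fun i => by
    have k1 : (t i - algebraMap ℂ L (α i), (0 : ℂ)) ∈ gr hT hC :=
      ⟨sub_mem (t2 i) (hC _), by simpa using hα i⟩
    have k2 : (z, (0 : ℂ)) ∈ gr hT hC := ⟨z1, by simpa using hβ⟩
    have k3 : (algebraMap ℂ L (c i), c i) ∈ gr hT hC := ⟨hC _, fun k => k.1 (by simp)⟩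
    have := sub_mem k1 (mul_mem k3 k2)
    rwa [Prod.mk_mul_mk, Prod.mk_sub_mk, mul_zero, sub_zero, hw0,
      show w i + algebraMap ℂ L (α i) + algebraMap ℂ L (c i) * z - algebraMap ℂ L (α i) -
        algebraMap ℂ L (c i) * z = w i by ring] at this
  letI := (MvPolynomial.aeval w : MvPolynomial (Fin n) ℂ →ₐ[ℂ] L).toRingHom.toAlgebra
  haveI : IsScalarTower ℂ (MvPolynomial (Fin n) ℂ) L :=
    IsScalarTower.of_algebraMap_eq fun c => ((MvPolynomial.aeval w).commutes c).symm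
  have hw : ∀ i, algebraMap (MvPolynomial (Fin n) ℂ) L (MvPolynomial.X i) = w i :=
    fun i => MvPolynomial.aeval_X w i
  have hB' := locOf hw hB (fun i => (w1 i).1) z1
    (by
      rw [show θ = z + algebraMap ℂ L β by rw [hz]; ring, ← alg_C (n := n)]
      exact add_mem (Algebra.subset_adjoin rfl) (Subalgebra.algebraMap_mem _ _))
    fun i => by
      rw [hw0, ← hw, ← alg_C (n := n), ← alg_C (n := n)]
      exact add_mem (add_mem (Subalgebra.algebraMap_mem _ _) (Subalgebra.algebraMap_mem _ _))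
        (mul_mem (Subalgebra.algebraMap_mem _ _) (Algebra.subset_adjoin rfl))
  have i1 : IsIntegral (algebraMap (MvPolynomial (Fin n) ℂ) L).range z :=
    isIntegral_of_val fun V hV => by
      by_contra k
      have hV' : IsLoc V.toSubring := isLoc_of_val V.mem_or_inv_mem
      have c1 : ∀ a, algebraMap ℂ L a ∈ V.toSubring := fun a => hV ⟨_, alg_C a⟩
      have c2 : z⁻¹ ∈ V.toSubring := (V.mem_or_inv_mem z).resolve_left k
      have c3 : ¬Un V.toSubring z⁻¹ := fun u => k (by simpa using u.2.2)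
      have c4 : ∀ i, w i ∈ V.toSubring := fun i => hV ⟨_, hw i⟩
      rw [hy] at b2
      exact ((un_ev hV' c1 (α := c) (β := 0) (fun i => ⟨add_mem (c1 _) (mul_mem c2 (c4 i)),
        fun u => c3 (Un.of_mul (by simpa using u) c2 (c4 i))⟩) ⟨c2, by simpa using c3⟩ P₂).2
        (by rw [ev_zero]; exact hc.1.2)).1 b2
  have i2 : IsIntegral (MvPolynomial (Fin n) ℂ) z := by
    letI := (algebraMap (MvPolynomial (Fin n) ℂ) L).rangeRestrict.toAlgebra
    haveI : IsScalarTower (MvPolynomial (Fin n) ℂ) (algebraMap (MvPolynomial (Fin n) ℂ) L).range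
      L := IsScalarTower.of_algebraMap_eq fun _ => rfl
    haveI := Algebra.isIntegral_of_surjective (R := MvPolynomial (Fin n) ℂ)
      (algebraMap (MvPolynomial (Fin n) ℂ) L).rangeRestrict_surjective
    exact isIntegral_trans z i1
  have i3 : ∀ b ∈ Algebra.adjoin (MvPolynomial (Fin n) ℂ) {z},
      IsAlgebraic (Algebra.adjoin ℂ (range w)) b := fun b hb => by
    letI : Algebra (MvPolynomial (Fin n) ℂ) (Algebra.adjoin ℂ (range w)) :=
      ((algebraMap (MvPolynomial (Fin n) ℂ) L).codRestrict _ fun P =>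
        (Algebra.adjoin_range_eq_range_aeval ℂ w).ge ⟨P, rfl⟩).toAlgebra
    haveI : IsScalarTower (MvPolynomial (Fin n) ℂ) (Algebra.adjoin ℂ (range w)) L :=
      IsScalarTower.of_algebraMap_eq fun _ => rfl
    exact (IsIntegral.tower_top (R := MvPolynomial (Fin n) ℂ)
      (adjoin_le_integralClosure i2 hb)).isAlgebraic
  haveI : Algebra.IsAlgebraic (Algebra.adjoin ℂ (range w)) L := ⟨fun u => by
    obtain ⟨b, k1, k2, k3⟩ := fr u
    obtain ⟨s, s1, s2, s3⟩ := hB'.2 b k1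
    obtain ⟨r, r1, r2, r3⟩ := hB'.2 _ k3
    refine IsAlgebraic.of_mul (mem_nonZeroDivisors_of_ne_zero
      (mul_ne_zero r2.1 (mul_ne_zero s2.1 k2))) (i3 _ (mul_mem r1 s3)) (i3 _ ?_)
    rw [show r * (s * b) * u = s * (r * (b * u)) by ring]
    exact mul_mem s1 r3⟩
  have tw : IsTranscendenceBasis ℂ w :=
    Algebra.IsAlgebraic.isTranscendenceBasis_of_le_trdeg_of_finite ℂ w ht.cardinalMk_eq_trdeg.le
  haveI : FaithfulSMul (MvPolynomial (Fin n) ℂ) L :=
    (faithfulSMul_iff_algebraMap_injective _ _).2 tw.1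
  let F' : (MvPolynomial (Fin n) ℂ)[X] := ev (fun i => C (MvPolynomial.X i) +
    C (MvPolynomial.C (α i)) + C (MvPolynomial.C (c i)) * X) (X + C (MvPolynomial.C β)) F
  have f1 : ev w z F' = 0 := by
    rw [← hF]
    refine (map_ev (ev w z) (fun a => by simp [ev_C]) _ _ F).trans ?_
    have e : z + algebraMap ℂ L β = θ := by rw [hz]; ring
    simp [ev_C, ev_X, ← hw0, e]
  have f2 : MvPolynomial.eval 0 (F'.coeff 1) ≠ 0 := by
    have e : F'.map (MvPolynomial.eval 0) = G.map (MvPolynomial.eval c) :=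
      (map_ev (mapRingHom (MvPolynomial.eval (0 : Fin n → ℂ))) (by simp) _ _ F).trans
        (by simp [mG])
    rw [← coeff_map, e, coeff_map]
    exact hc.2
  have z3 : (z, (0 : ℂ)) ∈ gr hT hC := ⟨z1, by simpa using hβ⟩
  have hI : ∀ H, Un T (ev w z H) ↔ MvPolynomial.eval 0 (H.coeff 0) ≠ 0 := fun H => by
    rw [← ev_zero]
    exact un_ev hT hC w1 z3 H
  have hR : (algebraMap (MvPolynomial (Fin n) ℂ) L).range ≤ T := by
    rintro _ ⟨r, rfl⟩
    exact hB'.1 (Subalgebra.algebraMap_mem _ r)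
  obtain ⟨d, j, j1, j2⟩ := clear hw z0 c (P₁.coeff 0)
  rw [← hy] at j2
  have j3 : E.Ge 1 (MvPolynomial.aeval (fun i => (t i - algebraMap ℂ L (α i)) / z)
      (P₁.coeff 0)) := by
    rw [← X_mul_divX_add P₁, map_add, map_mul, ev_X, ev_C, add_eq_zero_iff_neg_eq] at a2
    rw [← a2, mul_comm]
    exact (ge_mul (ev_mem (fun a => hE.1 (hC a))
      (fun i => z2.div_mem (hE.1 (sub_mem (t2 i) (hC _))))
      (mem_O'.2 (Place.ge_of_le (by omega))) _) (Place.ge_of_le p1.ge)).neg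
  obtain ⟨a, ha, h2⟩ := naka i2 hT hR hE.1 (hB'.1.trans hE.1)
    (I := RingHom.ker (MvPolynomial.eval (0 : Fin n → ℂ)))
    (fun r hr u => (hI (C r)).1 (by rwa [ev_C, ← alg_eq hw]) (by rwa [coeff_C_zero])) (F := F')
    (by rw [aeval_eq hw, f1]) (by_contra fun k => ((hI F').2 k).1 f1)
    (e := MvPolynomial.C (MvPolynomial.eval 0 (F'.coeff 1))⁻¹)
    (by rw [RingHom.mem_ker, map_sub, map_mul, MvPolynomial.eval_C, inv_mul_cancel₀ f2, map_one,
      sub_self]) (d := d) (by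
      let u : Algebra.adjoin (MvPolynomial (Fin n) ℂ) {z} := ⟨z, Algebra.subset_adjoin rfl⟩
      let k : ℂ → Algebra.adjoin (MvPolynomial (Fin n) ℂ) {z} := fun a =>
        algebraMap (MvPolynomial (Fin n) ℂ) _ (MvPolynomial.C a)
      have k1 : ∀ a, (k a : L) = algebraMap ℂ L a := fun a => alg_C a
      have e : u ^ d = k (MvPolynomial.eval c (P₁.coeff 0))⁻¹ *
          (-j + (j + u ^ d * k (MvPolynomial.eval c (P₁.coeff 0)))) := Subtype.ext (by
        have := (un_const hC hc.1.1).1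
        change z ^ d = (k _ : L) * (-(j : L) + (j + z ^ d * (k _ : L)))
        rw [k1, k1, map_inv₀]
        field_simp
        ring)
      change u ^ d ∈ _
      rw [e]
      refine Ideal.mul_mem_left _ _ (Submodule.add_mem_sup (neg_mem j1) ?_)
      change E.Ge 1 ((j : L) + z ^ d * (k _ : L))
      rw [j2, k1, ← mul_add, sub_add_cancel]
      exact ge_mul (pow_mem z2.2.1 d) j3)
  exact core i2 hT hB' hE (F := F') (by rw [aeval_eq hw, f1])
    (by rw [aeval_eq hw, hI, coeff_derivative]; simpa using f2) ha h2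

end main

end FAC

open FAC in
theorem blockFAC (h : St_ET) : St_FAC := by
  intro L _ _ n x hx A hA fr T hT hAT E hE
  obtain ⟨m, hm, le⟩ := Ideal.exists_le_maximal (mx hT hAT.1) Ideal.IsPrime.ne_top'
  obtain ⟨T₀, h1, h2, h3⟩ := exists_locP m
  have h4 : T₀ ≤ T := h2.le hAT.1 fun b hb u => by_contra fun k => (h3 ⟨b, hb⟩).1 u (le k)
  have h5 : LocOf T₀ T := hAT.of_le h2.1 h4
  have hC : ∀ c, algebraMap ℂ L c ∈ T₀ := fun c => h2.1 (A.algebraMap_mem c)
  have r0 : ∀ a ∈ A, ∃ c, ¬Un T₀ (a - algebraMap ℂ L c) := fun a ha => by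
    let m' : Ideal A := m
    haveI : m'.IsMaximal := hm
    letI := Ideal.Quotient.field m'
    haveI := finite_of_finite_type_of_isJacobsonRing ℂ (A ⧸ m')
    obtain ⟨c, hc⟩ := (IsAlgClosed.algebraMap_bijective_of_isIntegral (k := ℂ) (K := A ⧸ m')).2
      (Ideal.Quotient.mk m' ⟨a, ha⟩)
    exact ⟨c, fun u => (h3 ⟨_, sub_mem ha (A.algebraMap_mem c)⟩).1 u
      (Ideal.Quotient.eq.1 (show Ideal.Quotient.mk m' ⟨a, ha⟩ =
        Ideal.Quotient.mk m' (algebraMap ℂ A c) from hc.symm))⟩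
  have res : ∀ a ∈ T₀, ∃ c, ¬Un T₀ (a - algebraMap ℂ L c) := fun a ha => by
    obtain ⟨s, s1, s2, s3⟩ := h2.2 a ha
    obtain ⟨c, hc⟩ := r0 s s1
    obtain ⟨e, he⟩ := r0 _ s3
    have c0 : c ≠ 0 := fun k => hc (by simpa [k] using s2)
    have g1 : (s, c) ∈ gr h1 hC := ⟨h2.1 s1, hc⟩
    have g2 : (s * a, e) ∈ gr h1 hC := ⟨h2.1 s3, he⟩
    have g3 : (algebraMap ℂ L (e / c), e / c) ∈ gr h1 hC := ⟨hC _, fun k => k.1 (by simp)⟩
    refine ⟨e / c, fun u => (sub_mem g2 (mul_mem g1 g3)).2 ?_⟩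
    simpa [mul_div_cancel₀ _ c0, mul_sub] using s2.mul u
  obtain ⟨t, θ, F, f1, f2, f3, f4, f5⟩ := h L n x hx A hA fr T₀ h1 h2
  obtain ⟨f, k1, k2, k3, k4⟩ := fac0 f1 f2 f3 h1 f4 f5 res (fun z => by
    obtain ⟨b, b1, b2, b3⟩ := fr z
    exact ⟨b, h2.1 b1, b2, h2.1 b3⟩) (h5.trans hE)
  refine ⟨f, h4 k1, k2, k3, fun a ha h6 => ?_⟩
  obtain ⟨s, -, s2, s3⟩ := h5.2 a ha
  refine s2.mem_of_mul ?_
  rw [← mul_div_assoc]
  exact h4 (k4 _ s3 (ge_mul (hE.1 s2.2.1) h6))

end Pool.Agent.Lib.GD
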