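import Pool.Agent.Lib.GD.Blue

/-! The limit divisor has finitely many components. -/

open Set Pool.Agent.Lib.MP_e06174_ag

set_option linter.unusedSectionVars false
set_option linter.unusedVariables false

noncomputable section

namespace Pool.Agent.Lib.GD

namespace FIN

section lin

variable {L : Type} [Field L] {ι : Type} [Fintype ι] [DecidableEq ι] {n : ℕ}

/-- Independent vectors have an invertible maximal minor. -/
theorem exists_minor {v : ι → Fin n → L} (hv : LinearIndependent L v) :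
    ∃ s : ι → Fin n, (Matrix.of fun j k => v j (s k)).det ≠ 0 := by
  let A : Matrix ι (Fin n) L := Matrix.of v
  have hr : A.rank = Fintype.card ι := LinearIndependent.rank_matrix (M := A) hv
  obtain ⟨κ, a, ha, hsp, hli⟩ := exists_linearIndependent' L A.col
  have : Finite κ := Finite.of_injective a ha
  let _ : Fintype κ := Fintype.ofFinite κ
  have hc : Fintype.card κ = Fintype.card ι := by
    rw [linearIndependent_iff_card_eq_finrank_span.1 hli, Set.finrank, hsp,
      ← Matrix.rank_eq_finrank_span_cols, hr]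
  let e : ι ≃ κ := Fintype.equivOfCardEq hc.symm
  refine ⟨a ∘ e, ?_⟩
  have h1 : LinearIndependent L (Matrix.of fun j k => v j ((a ∘ e) k)).col :=
    hli.comp e e.injective
  exact ((Matrix.isUnit_iff_isUnit_det _).1 (Matrix.linearIndependent_cols_iff_isUnit.1 h1)).ne_zero

theorem of_minor {v : ι → Fin n → L} {s : ι → Fin n}
    (h : (Matrix.of fun j k => v j (s k)).det ≠ 0) : LinearIndependent L v :=
  LinearIndependent.of_comp (LinearMap.funLeft L L s)
    (Matrix.linearIndependent_rows_of_det_ne_zero h)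

theorem indep_map (φ : L →+* L) {v : ι → Fin n → L} (hv : LinearIndependent L v) :
    LinearIndependent L fun j => φ ∘ v j := by
  obtain ⟨s, hs⟩ := exists_minor hv
  refine of_minor (s := s) ?_
  have := φ.map_det (Matrix.of fun j k => v j (s k))
  intro h
  exact hs (φ.injective (by rw [this, map_zero]; exact h))

variable {k : Type} [Field k] [Algebra k L]

theorem prod_mem_pow (Y : Submodule k L) {α : Type} (s : Finset α) (f : α → L)
    (h : ∀ i ∈ s, f i ∈ Y) : ∏ i ∈ s, f i ∈ Y ^ s.card := by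
  classical
  induction s using Finset.induction_on with
  | empty => simp [Submodule.one_le.1 le_rfl]
  | insert a s ha ih =>
    rw [Finset.prod_insert ha, Finset.card_insert_of_notMem ha, pow_succ']
    exact Submodule.mul_mem_mul (h a (Finset.mem_insert_self _ _))
      (ih fun i hi => h i (Finset.mem_insert_of_mem hi))

theorem det_mem_pow (Y : Submodule k L) (A : Matrix ι ι L) (h : ∀ i j, A i j ∈ Y) :
    A.det ∈ Y ^ Fintype.card ι := by
  rw [Matrix.det_apply]
  refine Submodule.sum_mem _ fun σ _ => ?_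
  rw [Units.smul_def]
  exact Submodule.smul_of_tower_mem _ _ (prod_mem_pow Y Finset.univ _ fun i _ => h _ _)

/-- Cramer's rule. -/
theorem cramer (Y : Submodule k L) {v : ι → Fin n → L} (hv : LinearIndependent L v)
    (hY : ∀ j b, v j b ∈ Y) (a : ι → L) (hw : ∀ b, (∑ j, a j • v j) b ∈ Y) (j : ι) :
    ∃ p ∈ Y ^ Fintype.card ι, ∃ q ∈ Y ^ Fintype.card ι, a j = p / q := by
  obtain ⟨s, hs⟩ := exists_minor hv
  set A : Matrix ι ι L := Matrix.of fun j k => v j (s k) with hA
  refine ⟨(A.updateRow j (∑ l, a l • A l)).det, det_mem_pow Y _ fun i l => ?_, A.det,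
    det_mem_pow Y _ fun i l => hY _ _, ?_⟩
  · rw [Matrix.updateRow_apply]
    split_ifs
    · have := hw (s l)
      rw [Finset.sum_apply] at this ⊢
      exact this
    · exact hY _ _
  · rw [Matrix.det_updateRow_sum, smul_eq_mul, mul_div_cancel_right₀ _ hs]

end lin

section forms

variable {L : Type} [Field L] [Algebra ℂ L] {n : ℕ}

theorem smul_mem_V {v : Place ℂ L} (W : Submodule v.O.toSubring (Fin n → L)) {r : L}
    (hr : v.Ge 0 r) {a : Fin n → L} (ha : a ∈ W) : r • a ∈ W :=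
  W.smul_mem (⟨r, Place.mem_O.2 hr⟩ : v.O.toSubring) ha

theorem csmul_mem_V {v : Place ℂ L} (W : Submodule v.O.toSubring (Fin n → L)) (c : ℂ)
    {a : Fin n → L} (ha : a ∈ W) : c • a ∈ W := by
  rw [← algebraMap_smul L c a]
  exact smul_mem_V W (Place.ge_const c) ha

theorem ge_of_frm {d : Fin n → Derivation ℂ L L} {v : Place ℂ L} {β : ℤ} {b : Fin n}
    (h : ∀ f, v.Ge 0 f → v.Ge (-β) (d b f)) {a : Fin n → L} (ha : a ∈ frmV d v) :
    v.Ge (-β) (a b) := by
  induction ha using Submodule.span_induction with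
  | mem x hx =>
    obtain ⟨f, hf, rfl⟩ := hx
    exact h f hf
  | zero => exact Place.ge_zero _
  | add x y _ _ hx hy => exact hx.add hy
  | smul r x _ hx => exact (Place.mem_O.1 r.2).mul' hx (by simp)

theorem ge_dlog {D : Derivation ℂ L L} {v : Place ℂ L} {β : ℤ}
    (h : ∀ f, v.Ge 0 f → v.Ge (-β) (D f)) (f : L) : v.Ge (-β - 1) (f⁻¹ * D f) := by
  by_cases hf : f = 0
  · simp [hf]
  obtain ⟨π, hπ0, hπ⟩ := v.exists_ord_eq_one
  set m := v.ord f with hm
  have hp : π ^ m ≠ 0 := zpow_ne_zero _ hπ0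
  set u := f / π ^ m with hu
  have hu0 : u ≠ 0 := div_ne_zero hf hp
  have hou : v.ord u = 0 := by
    rw [hu, v.ord_div hf hp]
    simp [hπ, hm]
  have hfu : f = u * π ^ m := (div_mul_cancel₀ _ hp).symm
  have key : f⁻¹ * D f = u⁻¹ * D u + (m : L) * (π⁻¹ * D π) := by
    rw [hfu, Derivation.leibniz, Derivation.leibniz_zpow, zpow_sub₀ hπ0]
    simp only [smul_eq_mul, zsmul_eq_mul, zpow_one]
    field_simp
    ring
  rw [key]
  refine Place.Ge.add ?_ ?_
  · exact (Place.ge_ord u⁻¹).mul' (h u (Place.ge_of_le hou.ge)) (by simp [hou])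
  · refine (Place.ge_intCast m).mul' ((Place.ge_ord π⁻¹).mul (h π (Place.ge_of_le ?_))) ?_
    · omega
    · simp [hπ]
      omega

theorem ge_of_log {d : Fin n → Derivation ℂ L L} {v : Place ℂ L} {β : ℤ} {b : Fin n}
    (h : ∀ f, v.Ge 0 f → v.Ge (-β) (d b f)) {a : Fin n → L} (ha : a ∈ logV d v) :
    v.Ge (-β - 1) (a b) := by
  induction ha using Submodule.span_induction with
  | mem x hx =>
    obtain ⟨f, rfl⟩ := hx
    exact ge_dlog h f
  | zero => exact Place.ge_zero _
  | add x y _ _ hx hy => exact hx.add hy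
  | smul r x _ hx => exact (Place.mem_O.1 r.2).mul' hx (by simp)

variable (C : Ctx L n) (φ : L →ₐ[ℂ] L)

/-- The matrix of the differential. -/
def J : Matrix (Fin n) (Fin n) L := Matrix.of fun a b => C.d a ((φ ∘ C.x) b)

/-- Pull-back of one-forms, on coefficient vectors. -/
def ph (a : Fin n → L) : Fin n → L := (J C φ).mulVec (φ ∘ a)

theorem ph_zero : ph C φ 0 = 0 := by
  have : φ ∘ (0 : Fin n → L) = 0 := funext fun _ => map_zero φ
  rw [ph, this, Matrix.mulVec_zero]

theorem ph_add (a a' : Fin n → L) : ph C φ (a + a') = ph C φ a + ph C φ a' := by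
  have : φ ∘ (a + a') = φ ∘ a + φ ∘ a' := funext fun _ => map_add φ _ _
  rw [ph, this, Matrix.mulVec_add, ph, ph]

theorem ph_smul (r : L) (a : Fin n → L) : ph C φ (r • a) = φ r • ph C φ a := by
  have : φ ∘ (r • a) = φ r • (φ ∘ a) := funext fun _ => map_mul φ _ _
  rw [ph, this, Matrix.mulVec_smul, ph]

theorem ph_sum {ι : Type} (s : Finset ι) (a : ι → Fin n → L) :
    ph C φ (∑ j ∈ s, a j) = ∑ j ∈ s, ph C φ (a j) := by
  classical
  induction s using Finset.induction_on with
  | empty => simpa using ph_zero C φ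
  | insert j s hj ih => rw [Finset.sum_insert hj, Finset.sum_insert hj, ph_add, ih]

theorem ph_grad (f : L) : ph C φ (grad C.d f) = grad C.d (φ f) := by
  funext b
  change ∑ i, C.d b (φ (C.x i)) * φ (C.d i f) = C.d b (φ f)
  rw [C.dual.chain φ (C.d b) f]
  exact Finset.sum_congr rfl fun i _ => mul_comm _ _

variable {C φ}

theorem ph_frm {w v : Place ℂ L} {e : ℕ} (h : w.Over φ v e) {a : Fin n → L}
    (ha : a ∈ frmV C.d v) : ph C φ a ∈ frmV C.d w := by
  induction ha using Submodule.span_induction with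
  | mem x hx =>
    obtain ⟨f, hf, rfl⟩ := hx
    rw [ph_grad]
    exact Submodule.subset_span ⟨φ f, (h.ge_zero_iff f).2 hf, rfl⟩
  | zero => rw [ph_zero]; exact Submodule.zero_mem _
  | add x y _ _ hx hy => rw [ph_add]; exact Submodule.add_mem _ hx hy
  | smul r x _ hx =>
    change ph C φ ((r : L) • x) ∈ _
    rw [ph_smul]
    exact smul_mem_V _ ((h.ge_zero_iff _).2 (Place.mem_O.1 r.2)) hx

theorem ph_log {w v : Place ℂ L} {e : ℕ} (h : w.Over φ v e) {a : Fin n → L}
    (ha : a ∈ logV C.d v) : ph C φ a ∈ logV C.d w := by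
  induction ha using Submodule.span_induction with
  | mem x hx =>
    obtain ⟨f, rfl⟩ := hx
    change ph C φ (f⁻¹ • grad C.d f) ∈ _
    rw [ph_smul, ph_grad, map_inv₀]
    exact Submodule.subset_span ⟨φ f, rfl⟩
  | zero => rw [ph_zero]; exact Submodule.zero_mem _
  | add x y _ _ hx hy => rw [ph_add]; exact Submodule.add_mem _ hx hy
  | smul r x _ hx =>
    change ph C φ ((r : L) • x) ∈ _
    rw [ph_smul]
    exact smul_mem_V _ ((h.ge_zero_iff _).2 (Place.mem_O.1 r.2)) hx

theorem ph_indep (F : DVF C) {ι : Type} [Fintype ι] [DecidableEq ι] {v : ι → Fin n → L}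
    (hv : LinearIndependent L v) : LinearIndependent L fun j => ph C φ (v j) := by
  have h1 := indep_map φ.toRingHom hv
  have h2 : (J C φ).det ≠ 0 := F.jac_ne _ (F.tb_comp φ)
  have h3 : Function.Injective (J C φ).mulVec :=
    Matrix.mulVec_injective_iff_isUnit.2 ((Matrix.isUnit_iff_isUnit_det _).2 h2.isUnit)
  exact h1.map' (J C φ).mulVecLin (LinearMap.ker_eq_bot.2 h3)

variable (C) in
/-- Logarithmic forms that are regular where the limit is small. -/
def Lam (nn : Place ℂ L → ℝ) (c : ℝ) : Set (Fin n → L) :=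
  {a | ∀ v, Dv n v → a ∈ logV C.d v ∧ (nn v < c → a ∈ frmV C.d v)}

theorem ph_mem (F : DVF C) {M : Model C} {nn : Place ℂ L → ℝ} (hl : M.Lim φ nn) {c : ℝ}
    {a : Fin n → L} (ha : a ∈ Lam C nn c) : ph C φ a ∈ Lam C nn c := by
  intro w hw
  obtain ⟨v, e, h⟩ := F.under φ w
  have hv := (F.dv_iff φ w v e h).1 hw
  refine ⟨ph_log h (ha v hv).1, fun hc => ph_frm h ((ha v hv).2 ?_)⟩
  have h1 := hl.inv 1 w v e hw (by rwa [pow_one])
  have h2 := hl.nonneg v hv
  have h3 : (1 : ℝ) ≤ e := by exact_mod_cast h.1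
  nlinarith

theorem exists_Y {M : Model C} (B : Bas M) {nn : Place ℂ L → ℝ} (hl : M.Lim φ nn) {c : ℝ}
    (hc : 0 < c) : ∃ Y : Submodule ℂ L, FiniteDimensional ℂ Y ∧
      ∀ a ∈ Lam C nn c, ∀ b, a b ∈ Y := by
  classical
  obtain ⟨β, hβ⟩ := M.der
  refine ⟨M.Sec 0 fun E => β E + if c ≤ nn (M.pl E) then 1 else 0, B.sec_fd _ ?_, ?_⟩
  · refine (β.support.finite_toSet.union (hl.fin c hc)).subset fun E hE => ?_
    by_contra h
    simp only [mem_union, Finset.mem_coe, Finsupp.mem_support_iff, mem_ofPred_eq, not_or,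
      not_not] at h
    exact hE (by simp [h.1, h.2])
  · intro a ha b E
    have h := ha _ (M.dv E)
    by_cases hE : c ≤ nn (M.pl E)
    · exact (ge_of_log (hβ b E) h.1).mono (by simp [hE])
    · exact (ge_of_frm (hβ b E) (h.2 (not_le.1 hE))).mono (by simp [hE])

theorem const_of_alg {a : L} (h : IsAlgebraic ℂ a) : a ∈ (algebraMap ℂ L).range :=
  minpoly.mem_range_of_degree_eq_one ℂ a
    (IsAlgClosed.degree_eq_one_of_irreducible ℂ (minpoly.irreducible h.isIntegral))

/-- Jouanolou's argument. -/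
theorem not_indep (F : DVF C) {M : Model C} (B : Bas M) (hN : NIF C.H φ) {nn : Place ℂ L → ℝ}
    (hl : M.Lim φ nn) {c : ℝ} (hc : 0 < c) (η : Fin (n + 1) → Fin n → L)
    (hη : ∀ j, η j ∈ Lam C nn c) : ¬LinearIndependent ℂ η := by
  classical
  intro hi
  obtain ⟨Y, hY, hmem⟩ := exists_Y B hl hc
  obtain ⟨κ, s, hs, hsp, hli⟩ := exists_linearIndependent' L η
  have : Finite κ := Finite.of_injective s hs
  let _ : Fintype κ := Fintype.ofFinite κ
  have hcard : Fintype.card κ ≤ n := by simpa using hli.fintype_card_le_finrank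
  obtain ⟨j₀, hj₀⟩ : ∃ j₀, j₀ ∉ range s := by
    by_contra h
    push Not at h
    have := Fintype.card_le_of_surjective s h
    simp at this
    omega
  have h0 : η j₀ ∈ Submodule.span L (range (η ∘ s)) := by
    rw [hsp]
    exact Submodule.subset_span (mem_range_self _)
  obtain ⟨a, ha⟩ := (Submodule.mem_span_range_iff_exists_fun L).1 h0
  have hfd : FiniteDimensional ℂ ↥(Y ^ Fintype.card κ) :=
    Module.Finite.iff_fg.2 ((Module.Finite.iff_fg.1 hY).pow _)
  obtain ⟨e, he⟩ := B.ht_fd _ hfd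
  have key : ∀ i : ℕ, ∃ v : κ → Fin n → L, LinearIndependent L v ∧ (∀ j, v j ∈ Lam C nn c) ∧
      ∑ j, (φ ^ i) (a j) • v j ∈ Lam C nn c := by
    intro i
    induction i with
    | zero => exact ⟨η ∘ s, hli, fun j => hη _, by simpa using ha ▸ hη j₀⟩
    | succ i ih =>
      obtain ⟨v, h1, h2, h3⟩ := ih
      refine ⟨fun j => ph C φ (v j), ph_indep F h1, fun j => ph_mem F hl (h2 j), ?_⟩
      have h4 := ph_mem F hl h3
      rw [ph_sum] at h4
      simp only [ph_smul] at h4
      simpa only [pow_succ', AlgHom.mul_apply] using h4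
  have hconst : ∀ j, ∃ t : ℂ, algebraMap ℂ L t = a j := by
    intro j
    refine const_of_alg (hN e (a j) fun i => ?_)
    obtain ⟨v, h1, h2, h3⟩ := key i
    obtain ⟨p, hp, q, hq, hpq⟩ := cramer Y h1 (fun j b => hmem _ (h2 j) b)
      (fun j => (φ ^ i) (a j)) (hmem _ h3) j
    rw [hpq]
    exact he p hp q hq
  choose t ht using hconst
  refine hi.notMem_span_image hj₀ ?_
  rw [← ha]
  refine Submodule.sum_mem _ fun j _ => ?_
  rw [← ht, algebraMap_smul]
  exact Submodule.smul_mem _ _ (Submodule.subset_span ⟨s j, mem_range_self _, rfl⟩)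

end forms

end FIN

open FIN in
theorem blockFIN (h1 : St_DV) (h2 : St_BAS) : St_FIN := by
  classical
  intro L _ _ n C M φ hN nn hl
  by_contra hinf
  obtain ⟨ρ, hρ⟩ := M.lg
  let emb := (Set.not_finite.1 hinf).natEmbedding
  let enc : Fin (n + 1) × Fin ρ ↪ ℕ := finProdFinEquiv.toEmbedding.trans Fin.valEmbedding
  let Γ : Fin (n + 1) → Fin ρ → M.P := fun j i => (emb (enc (j, i))).1
  have hinj : ∀ j i j' i', Γ j i = Γ j' i' → (j, i) = (j', i') := fun j i j' i' h =>
    enc.injective (emb.injective (Subtype.ext h))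
  have hpos : ∀ j i, 0 < nn (M.pl (Γ j i)) := fun j i =>
    lt_of_le_of_ne (hl.nonneg _ (M.dv _)) (Ne.symm (emb (enc (j, i))).2)
  obtain ⟨c, hc, hle⟩ : ∃ c : ℝ, 0 < c ∧ ∀ j i, c ≤ nn (M.pl (Γ j i)) := by
    obtain ⟨c, hc, h⟩ := Pi.exists_forall_pos_add_lt (x := fun _ : Fin (n + 1) × Fin ρ => (0 : ℝ))
      (y := fun p => nn (M.pl (Γ p.1 p.2))) fun p => hpos p.1 p.2
    exact ⟨c, hc, fun j i => by simpa using (h (j, i)).le⟩
  choose η hη1 hη2 hη3 using fun j => hρ (Γ j) fun i i' h => (Prod.ext_iff.1 (hinj j i j i' h)).2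
  refine not_indep (h1 L n C) (h2 L n C M) hN hl hc η (fun j v hv => ⟨(hη3 j v).1, fun hlt =>
    (hη3 j v).2 fun i => ?_⟩) ?_
  · by_contra h
    have h3 : (1 : ℝ) ≤ M.mu v (Γ j i) := by exact_mod_cast Nat.one_le_iff_ne_zero.2 h
    have h4 := hl.low v (Γ j i) hv
    have h5 := hle j i
    nlinarith
  · rw [Fintype.linearIndependent_iff]
    intro g hg j
    by_contra hj
    obtain ⟨i, hi⟩ := hη1 j
    apply hi
    rw [← Finset.add_sum_erase _ _ (Finset.mem_univ j)] at hg
    have h3 : η j = (-(g j)⁻¹) • ∑ l ∈ Finset.univ.erase j, g l • η l := by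
      rw [eq_neg_of_add_eq_zero_right hg, smul_neg, neg_smul, neg_neg, smul_smul,
        inv_mul_cancel₀ hj, one_smul]
    rw [h3]
    refine csmul_mem_V _ _ (Submodule.sum_mem _ fun l hl' => csmul_mem_V _ _ (hη2 l _ ?_))
    rintro ⟨i', h⟩
    exact Finset.ne_of_mem_erase hl' (Prod.ext_iff.1 (hinj _ _ _ _ h)).1

end Pool.Agent.Lib.GD
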