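import Pool.Agent.Lib.GD.HTa

/-! Orders of vanishing along a divisorial place grow at most linearly with the degree. -/

open Set Filter Pool.Agent.Lib.MP_9a2ae6_ag Pool.Agent.Lib.MP_e06174_ag
  Pool.Agent.Lib.MP_e39d36_ag

set_option linter.unusedSectionVars false
set_option linter.unusedVariables false
set_option linter.style.haveILetI false

noncomputable section

namespace Pool.Agent.Lib.GD

namespace HT

open MvPolynomial Place
open scoped nonZeroDivisors

variable {L : Type} [Field L] [Algebra ℂ L] {n : ℕ} {v : Place ℂ L} {z : Fin n → L} {i : Fin n}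

theorem ge_var (h : Adapt v z i) (j : Fin n) : v.Ge 0 (z j) := by
  by_cases hj : i = j
  · subst hj
    exact ge_of_le (by rw [h.1]; exact zero_le_one)
  · have := (h.2 (X j) (X_ne_zero j) (degreeOf_X_of_ne hj)).2
    rw [aeval_X] at this
    exact ge_of_le this.ge

theorem ge_aeval (h : Adapt v z i) (P : MvPolynomial (Fin n) ℂ) : v.Ge 0 (aeval z P) := by
  induction P using MvPolynomial.induction_on with
  | C a => rw [aeval_C]; exact ge_const a
  | add p q hp hq => rw [map_add]; exact hp.add hq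
  | mul_X p j hp => rw [map_mul, aeval_X]; exact hp.mul' (ge_var h j) le_rfl

theorem ord_le (h : Adapt v z i) : ∀ (N : ℕ) (P : MvPolynomial (Fin n) ℂ), P ≠ 0 →
    P.degreeOf i = N → aeval z P ≠ 0 ∧ v.ord (aeval z P) ≤ N := by
  have hz : z i ≠ 0 := fun h0 => by
    have := h.1
    rw [h0, ord_zero] at this
    exact zero_ne_one this
  intro N
  induction N using Nat.strong_induction_on with
  | _ N ih =>
    intro P hP hN
    have e := divMonomial_add_modMonomial_single P i
    set Q := P.divMonomial (Finsupp.single i 1)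
    set R := P.modMonomial (Finsupp.single i 1) with hR
    by_cases hR0 : R = 0
    · rw [hR0, add_zero, mul_comm] at e
      have hQ : Q ≠ 0 := fun h0 => hP (by rw [← e, h0, zero_mul])
      have h1 : P.degreeOf i = Q.degreeOf i + 1 := by
        have := degreeOf_mul_X_self_pow_eq_add_of_ne_zero (p := Q) i 1 hQ
        rwa [pow_one, e] at this
      obtain ⟨h2, h3⟩ := ih (Q.degreeOf i) (by omega) Q hQ rfl
      rw [← e, map_mul, aeval_X]
      refine ⟨mul_ne_zero h2 hz, ?_⟩
      rw [v.ord_mul h2 hz, h.1]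
      omega
    · have h1 : R.degreeOf i = 0 := by
        refine Nat.le_zero.1 (degreeOf_le_iff.2 fun m hm => ?_)
        by_contra hc
        refine mem_support_iff.1 hm (coeff_modMonomial_of_le P ?_)
        rw [Finsupp.single_le_iff]
        omega
      obtain ⟨h2, h3⟩ := h.2 R hR0 h1
      have h4 : v.Ge (v.ord (aeval z R) + 1) (aeval z (X i * Q)) := by
        rw [map_mul, aeval_X, h3]
        exact (ge_of_le h.1.ge).mul' (ge_aeval h Q) le_rfl
      obtain ⟨h5, h6⟩ := ord_add_of_ge h2 h4
      rw [← e, map_add, add_comm]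
      exact ⟨h5, by rw [h6, h3]; exact Int.natCast_nonneg N⟩

theorem algInd (h : Adapt v z i) : AlgebraicIndependent ℂ z :=
  (injective_iff_map_eq_zero _).2 fun P hP => by
    by_contra h0
    exact (ord_le h _ P h0 rfl).1 hP

variable {κ : Type} [Fintype κ]

/-- Elements acting on the family `ω` by a polynomial matrix of degree at most `N` in `X i`. -/
def Wm (z : Fin n → L) (i : Fin n) (ω : κ → L) (N : ℕ) (a : L) : Prop :=
  ∃ M : Matrix κ κ (MvPolynomial (Fin n) ℂ), (∀ p q, (M p q).degreeOf i ≤ N) ∧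
    ∀ q, a * ω q = ∑ p, ω p * aeval z (M p q)

variable {ω : κ → L}

theorem Wm.const (c : ℂ) : Wm z i ω 0 (algebraMap ℂ L c) := by
  classical
  refine ⟨Matrix.diagonal fun _ => C c, fun p q => ?_, fun q => ?_⟩
  · rw [Matrix.diagonal_apply]
    split_ifs
    · exact (degreeOf_C _ _).le
    · exact (degreeOf_zero _).le
  · rw [Finset.sum_eq_single q (fun p _ hp => by rw [Matrix.diagonal_apply_ne _ hp]; simp)
      (by simp), Matrix.diagonal_apply_eq, aeval_C, mul_comm]

theorem Wm.add {N : ℕ} {a b : L} (ha : Wm z i ω N a) (hb : Wm z i ω N b) : Wm z i ω N (a + b) := by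
  obtain ⟨M, h1, h2⟩ := ha
  obtain ⟨M', h3, h4⟩ := hb
  refine ⟨M + M', fun p q => (degreeOf_add_le _ _ _).trans (max_le (h1 p q) (h3 p q)),
    fun q => ?_⟩
  rw [add_mul, h2, h4, ← Finset.sum_add_distrib]
  exact Finset.sum_congr rfl fun p _ => by rw [Matrix.add_apply, map_add, mul_add]

theorem Wm.mul {N N' : ℕ} {a b : L} (ha : Wm z i ω N a) (hb : Wm z i ω N' b) :
    Wm z i ω (N + N') (a * b) := by
  obtain ⟨M, h1, h2⟩ := ha
  obtain ⟨M', h3, h4⟩ := hb
  refine ⟨M * M', fun p q => ?_, fun q => ?_⟩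
  · rw [Matrix.mul_apply]
    refine (degreeOf_sum_le _ _ _).trans (Finset.sup_le fun r _ => ?_)
    exact (degreeOf_mul_le _ _ _).trans (add_le_add (h1 p r) (h3 r q))
  · rw [mul_assoc, h4, Finset.mul_sum]
    simp only [← mul_assoc, h2, Finset.sum_mul, Matrix.mul_apply, map_sum, map_mul,
      Finset.mul_sum]
    exact Finset.sum_comm

theorem Wm.zero (N : ℕ) : Wm z i ω N 0 :=
  ⟨0, fun p q => by simp, fun q => by simp⟩

theorem Wm.ord_le [Nonempty κ] (h : Adapt v z i)
    (hω : ∀ c : κ → MvPolynomial (Fin n) ℂ, ∑ p, ω p * aeval z (c p) = 0 → c = 0) {N : ℕ} {a : L}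
    (ha : Wm z i ω N a) (h0 : a ≠ 0) : v.ord a ≤ Fintype.card κ * N := by
  classical
  obtain ⟨M, h1, h2⟩ := ha
  have key : ∀ c : κ → MvPolynomial (Fin n) ℂ,
      a * ∑ q, ω q * aeval z (c q) = ∑ p, ω p * aeval z (M.mulVec c p) := fun c => by
    rw [Finset.mul_sum]
    simp only [← mul_assoc, h2, Finset.sum_mul, Matrix.mulVec, dotProduct, map_sum, map_mul,
      Finset.mul_sum]
    exact Finset.sum_comm
  have hd : M.det ≠ 0 := fun hd => by
    obtain ⟨c, hc, hMc⟩ := Matrix.exists_mulVec_eq_zero_iff.2 hd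
    have h3 := key c
    rw [hMc] at h3
    simp only [Pi.zero_apply, map_zero, mul_zero, Finset.sum_const_zero] at h3
    exact hc (hω c ((mul_eq_zero.1 h3).resolve_left h0))
  have hω0 : ∀ q, ω q ≠ 0 := fun q hq => by
    have h3 := hω (Pi.single q 1) (Finset.sum_eq_zero fun p _ => by
      by_cases hp : p = q
      · rw [hp, hq, zero_mul]
      · rw [Pi.single_eq_of_ne hp, map_zero, mul_zero])
    have h4 := congrFun h3 q
    rw [Pi.single_eq_same] at h4
    exact one_ne_zero h4
  obtain ⟨q, hq⟩ := Finite.exists_min fun p => v.ord (ω p)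
  have h3 := key fun p => M.adjugate p q
  have h4 : ∀ p, M.mulVec (fun p => M.adjugate p q) p = if p = q then M.det else 0 := fun p => by
    have := congrFun (congrFun (Matrix.mul_adjugate M) p) q
    rw [Matrix.mul_apply, Matrix.smul_apply, Matrix.one_apply, smul_eq_mul, mul_ite, mul_one,
      mul_zero] at this
    exact this
  have h3' : ∑ p, ω p * aeval z (M.mulVec (fun p => M.adjugate p q) p) = ω q * aeval z M.det := by
    rw [Finset.sum_eq_single q (fun p _ hp => by rw [h4, if_neg hp, map_zero, mul_zero]) (by simp),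
      h4, if_pos rfl]
  rw [h3'] at h3
  obtain ⟨h5, h6⟩ := HT.ord_le h _ M.det hd rfl
  have h7 : v.Ge (v.ord a + v.ord (ω q)) (ω q * aeval z M.det) := by
    rw [← h3]
    exact (ge_ord a).mul (Ge.sum fun p _ =>
      (ge_of_le (hq p)).mul' (ge_aeval h _) (add_zero _).ge)
  have h8 := h7.le (mul_ne_zero (hω0 q) h5)
  rw [v.ord_mul (hω0 q) h5] at h8
  have h9 : M.det.degreeOf i ≤ Fintype.card κ * N := by
    rw [Matrix.det_apply']
    refine (degreeOf_sum_le _ _ _).trans (Finset.sup_le fun σ _ => ?_)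
    refine (degreeOf_mul_le _ _ _).trans ?_
    have h10 : degreeOf i (((Equiv.Perm.sign σ : ℤˣ) : ℤ) : MvPolynomial (Fin n) ℂ) = 0 := by
      rw [← map_intCast (C : ℂ →+* MvPolynomial (Fin n) ℂ), degreeOf_C]
    rw [h10, zero_add]
    refine (degreeOf_prod_le _ _ _).trans ?_
    refine (Finset.sum_le_card_nsmul _ _ N fun p _ => h1 _ _).trans ?_
    rw [Finset.card_univ, smul_eq_mul]
  have h11 : ((M.det.degreeOf i : ℕ) : ℤ) ≤ Fintype.card κ * N := by exact_mod_cast h9
  omega

theorem exists_frame {ι : Type} [Finite ι] (hz : IsTranscendenceBasis ℂ z) (t : ι → L) :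
    ∃ (m : ℕ) (ω : Fin (m + 1) → L) (D : MvPolynomial (Fin n) ℂ) (N : ℕ), D ≠ 0 ∧
      (∀ c : Fin (m + 1) → MvPolynomial (Fin n) ℂ, ∑ p, ω p * aeval z (c p) = 0 → c = 0) ∧
      ∀ l, Wm z i ω N (aeval z D * t l) := by
  let A := MvPolynomial (Fin n) ℂ
  let : Algebra A L := (MvPolynomial.aeval z : A →ₐ[ℂ] L).toRingHom.toAlgebra
  have hA : ∀ a : A, algebraMap A L a = MvPolynomial.aeval z a := fun _ => rfl
  have hinj : Function.Injective (algebraMap A L) := hz.1
  have : FaithfulSMul A L := (faithfulSMul_iff_algebraMap_injective A L).2 hinj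
  let K := FractionRing A
  let : Algebra K L := FractionRing.liftAlgebra A L
  have : Algebra.IsAlgebraic A L := by
    have h1 := hz.isAlgebraic
    exact Algebra.IsAlgebraic.of_ringHom_of_comp_eq
      (hz.1.aevalEquiv : A →+* Algebra.adjoin ℂ (Set.range z)) (RingHom.id L)
      hz.1.aevalEquiv.surjective Function.injective_id
      (RingHom.ext fun a => hz.1.algebraMap_aevalEquiv a)
  have : Algebra.IsAlgebraic K L := IsFractionRing.comap_isAlgebraic_iff.1 this
  let B := Algebra.adjoin K (range t)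
  haveI : Module.Finite K B := Algebra.finite_adjoin_of_finite_of_isIntegral (finite_range t)
    fun x _ => (Algebra.IsAlgebraic.isAlgebraic x).isIntegral
  obtain ⟨m, hm⟩ : ∃ m, Module.finrank K B = m + 1 :=
    Nat.exists_eq_succ_of_ne_zero Module.finrank_pos.ne'
  let b := Module.finBasisOfFinrankEq K B hm
  let s : ι → B := fun l => ⟨t l, Algebra.subset_adjoin ⟨l, rfl⟩⟩
  obtain ⟨D, hD⟩ := IsLocalization.exist_integer_multiples_of_finite A⁰
    (fun x : ι × Fin (m + 1) × Fin (m + 1) => b.repr (s x.1 * b x.2.2) x.2.1)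
  choose M hM using hD
  obtain ⟨N, hN⟩ := (finite_range fun x => (M x).degreeOf i).bddAbove
  have hKL : ∀ a : A, algebraMap K L (algebraMap A K a) = aeval z a := fun a => by
    rw [← IsScalarTower.algebraMap_apply, hA]
  refine ⟨m, fun p => b p, D, N, nonZeroDivisors.coe_ne_zero D, fun c hc => ?_, fun l => ?_⟩
  · have h1 := Fintype.linearIndependent_iff.1 b.linearIndependent (fun p => algebraMap A K (c p))
      (Subtype.ext (by
        rw [AddSubmonoidClass.coe_finsetSum]
        refine Eq.trans (Finset.sum_congr rfl fun p _ => ?_) hc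
        rw [Subalgebra.coe_smul, Algebra.smul_def, hKL, mul_comm]))
    funext p
    exact IsFractionRing.injective A K ((h1 p).trans (map_zero _).symm)
  · refine ⟨fun p q => M (l, p, q), fun p q => hN ⟨_, rfl⟩, fun q => ?_⟩
    have h1 := congrArg Subtype.val (b.sum_repr (s l * b q))
    rw [AddSubmonoidClass.coe_finsetSum] at h1
    have h2 : t l * (b q : L) = _ := h1.symm
    rw [mul_assoc, h2, Finset.mul_sum]
    refine Finset.sum_congr rfl fun p _ => ?_
    have h3 : aeval z (M (l, p, q)) =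
        aeval z (D : A) * algebraMap K L (b.repr (s l * b q) p) := by
      rw [← hKL (M (l, p, q)), hM, Algebra.smul_def, map_mul (algebraMap K L), hKL]
    rw [Subalgebra.coe_smul, Algebra.smul_def]
    show _ = (b p : L) * aeval z (M (l, p, q))
    rw [h3]
    ring

end HT

theorem blockIZ : St_IZ := by
  rintro L _ _ n C v ⟨z, i, h⟩
  have hz : IsTranscendenceBasis ℂ z :=
    (HT.algInd h).isTranscendenceBasis_of_trdeg_le_of_finite C.tb.cardinalMk_eq_trdeg.ge
  obtain ⟨j, hj⟩ := Finite.exists_min fun j => v.ord (C.y j)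
  have hm : C.hm v = v.ord (C.y j) :=
    le_antisymm (ciInf_le (finite_range _).bddBelow j) (le_ciInf hj)
  obtain ⟨m, ω, D, N, hD, hω, hW⟩ := HT.exists_frame (i := i) hz fun l => C.y l / C.y j
  have hD0 := (HT.ord_le h _ D hD rfl).1
  have h1 : ∀ a ∈ C.H, HT.Wm z i ω N (MvPolynomial.aeval z D / C.y j * a) := fun a ha => by
    induction ha using Submodule.span_induction with
    | mem x hx =>
      obtain ⟨l, rfl⟩ := hx
      rw [div_mul_eq_mul_div, mul_div_assoc]
      exact hW l
    | zero => rw [mul_zero]; exact HT.Wm.zero N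
    | add x y _ _ hx hy => rw [mul_add]; exact hx.add hy
    | smul c x _ hx =>
      rw [Algebra.smul_def, mul_left_comm, ← zero_add N]
      exact (HT.Wm.const c).mul hx
  have h2 : ∀ (e : ℕ) (b : L), b ∈ C.H ^ e →
      HT.Wm z i ω (N * e) ((MvPolynomial.aeval z D / C.y j) ^ e * b) := fun e b hb => by
    induction hb using Submodule.pow_induction_on_left' with
    | algebraMap r => rw [pow_zero, one_mul]; exact HT.Wm.const r
    | add x y k _ _ hx hy => rw [mul_add]; exact hx.add hy
    | mem_mul a ha k x _ hx =>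
      rw [pow_succ', mul_mul_mul_comm, Nat.mul_succ, add_comm (N * k)]
      exact (h1 a ha).mul hx
  refine ⟨(m + 1) * N, fun e b hb hb0 => ?_⟩
  have h3 := div_ne_zero hD0 (C.ne j)
  have h4 := (h2 e b hb).ord_le h hω (mul_ne_zero (pow_ne_zero e h3) hb0)
  rw [v.ord_mul (pow_ne_zero e h3) hb0, Place.ord_pow, v.ord_div hD0 (C.ne j),
    Fintype.card_fin] at h4
  have h5 := (HT.ge_aeval h D).le hD0
  have h6 : 0 ≤ (e : ℤ) * v.ord (MvPolynomial.aeval z D) := mul_nonneg (Int.natCast_nonneg e) h5
  rw [hm]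
  push_cast at h4 ⊢
  linarith

end Pool.Agent.Lib.GD
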