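import Pool.Agent.Lib.GD.Blue

/-! The conductor of the homogeneous coordinate ring, and heights from degrees. -/

open Set Filter Pool.Agent.Lib.MP_9a2ae6_ag Pool.Agent.Lib.MP_e06174_ag
  Pool.Agent.Lib.MP_e39d36_ag

set_option linter.unusedSectionVars false
set_option linter.unusedVariables false
set_option linter.style.haveILetI false

noncomputable section

namespace Pool.Agent.Lib.GD

namespace HT

open Polynomial
open scoped nonZeroDivisors

attribute [local instance] FractionRing.liftAlgebra FractionRing.isScalarTower_liftAlgebra in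
theorem noeth (k R L : Type) [Field k] [CharZero k] [CommRing R] [IsDomain R] [Algebra k R]
    [Algebra.FiniteType k R] [Field L] [Algebra R L] [IsFractionRing R L] :
    ∃ c : R, c ≠ 0 ∧ ∀ z : L, IsIntegral R z → ∃ r : R, algebraMap R L c * z = algebraMap R L r := by
  obtain ⟨n, g, hg, hf⟩ := exists_finite_inj_algHom_of_fg k R
  let P := MvPolynomial (Fin n) k
  letI : Algebra P R := g.toRingHom.toAlgebra
  haveI : Module.Finite P R := hf
  letI : Algebra P L := ((algebraMap R L).comp (algebraMap P R)).toAlgebra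
  haveI : IsScalarTower P R L := IsScalarTower.of_algebraMap_eq fun _ => rfl
  haveI : FaithfulSMul P R := (faithfulSMul_iff_algebraMap_injective P R).2 hg
  haveI : FaithfulSMul P L := (faithfulSMul_iff_algebraMap_injective P L).2
    ((IsFractionRing.injective R L).comp hg)
  let K := FractionRing P
  haveI : CharZero P := algebraRat.charZero P
  haveI : IsLocalization (Algebra.algebraMapSubmonoid R P⁰) L := inferInstance
  haveI : FiniteDimensional K L := .of_isLocalization P R P⁰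
  haveI : IsNoetherian P (integralClosure P L) := IsIntegralClosure.isNoetherian P K L _
  have h1 : (Subalgebra.toSubmodule (integralClosure P L)).FG := by
    rw [← Module.Finite.iff_fg]
    exact (inferInstance : Module.Finite P (integralClosure P L))
  obtain ⟨s, hs⟩ := h1
  obtain ⟨b, hb⟩ := IsLocalization.exist_integer_multiples R⁰ s (fun z : L => z)
  refine ⟨b, nonZeroDivisors.coe_ne_zero b, fun z hz => ?_⟩
  have h2 : z ∈ Submodule.span R (s : Set L) := by
    refine Submodule.span_le_restrictScalars P R _ ?_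
    rw [hs]
    exact isIntegral_trans z hz
  clear hz
  induction h2 using Submodule.span_induction with
  | mem x hx =>
    obtain ⟨r, hr⟩ := hb x hx
    exact ⟨r, by rw [hr, Algebra.smul_def]⟩
  | zero => exact ⟨0, by simp⟩
  | add x y _ _ hx hy =>
    obtain ⟨r, hr⟩ := hx
    obtain ⟨t, ht⟩ := hy
    exact ⟨r + t, by rw [mul_add, hr, ht, map_add]⟩
  | smul a x _ hx =>
    obtain ⟨r, hr⟩ := hx
    exact ⟨a * r, by rw [Algebra.smul_def, mul_left_comm, hr, map_mul]⟩

open scoped IntermediateField.algebraAdjoinAdjoin in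
theorem cond (k K : Type) [Field k] [CharZero k] [Field K] [Algebra k K] (S : Set K)
    (hS : S.Finite) : ∃ c ∈ Algebra.adjoin k S, c ≠ 0 ∧ ∀ z ∈ IntermediateField.adjoin k S,
      IsIntegral (Algebra.adjoin k S) z → c * z ∈ Algebra.adjoin k S := by
  haveI : Algebra.FiniteType k (Algebra.adjoin k S) := .adjoin_of_finite hS
  let L := IntermediateField.adjoin k S
  let f : L →ₐ[Algebra.adjoin k S] K := IsScalarTower.toAlgHom _ L K
  obtain ⟨c, h0, h⟩ := noeth k (Algebra.adjoin k S) L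
  refine ⟨c, c.2, fun h1 => h0 (Subtype.ext h1), fun z hz hi => ?_⟩
  obtain ⟨r, hr⟩ := h ⟨z, hz⟩ ((isIntegral_algHom_iff f (algebraMap L K).injective).1 hi)
  have h2 : (c : K) * z = r := congrArg Subtype.val hr
  rw [h2]
  exact r.2

variable {L : Type} [Field L] [Algebra ℂ L]

/-- Polynomials whose coefficient of degree `i` lies in `H ^ i`. -/
def rees (H : Submodule ℂ L) : Subalgebra ℂ L[X] where
  carrier := {p | ∀ i, p.coeff i ∈ H ^ i}
  mul_mem' := fun {p q} hp hq i => by
    rw [coeff_mul]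
    refine Submodule.sum_mem _ fun c hc => ?_
    rw [← Finset.HasAntidiagonal.mem_antidiagonal.1 hc, pow_add]
    exact Submodule.mul_mem_mul (hp _) (hq _)
  add_mem' := fun {p q} hp hq i => by
    rw [coeff_add]
    exact add_mem (hp i) (hq i)
  algebraMap_mem' := fun c i => by
    rw [Polynomial.algebraMap_apply, coeff_C]
    split_ifs with h
    · rw [h, pow_zero]
      exact Submodule.algebraMap_mem c
    · exact zero_mem _

theorem con {n : ℕ} (D : Ctx L n) {K : Type} [Field K] [Algebra ℂ K] (ψ : L[X] →ₐ[ℂ] K)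
    (hψ : Function.Injective ψ) :
    ∃ (i₁ : ℕ) (c : L), c ≠ 0 ∧ c ∈ D.H ^ i₁ ∧ ∀ (e : ℕ) (u : L),
      (∀ V : ValuationSubring L, (∀ a : ℂ, algebraMap ℂ L a ∈ V) →
        ∀ j, (∀ l, D.y l / D.y j ∈ V) → u / D.y j ^ e ∈ V) → c * u ∈ D.H ^ (e + i₁) := by
  let φ : L →ₐ[ℂ] K := ψ.comp (IsScalarTower.toAlgHom ℂ L L[X])
  have hφ : ∀ a, φ a = ψ (C a) := fun a => rfl
  let t : K := ψ X
  have ht : t ≠ 0 := fun h => X_ne_zero (hψ (h.trans (map_zero ψ).symm))
  let S : Set K := range fun j => φ (D.y j) * t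
  have hS : ∀ j, φ (D.y j) * t ∈ S := fun j => ⟨j, rfl⟩
  have hq : ∀ i j, φ (D.y j / D.y i) = φ (D.y j) * t / (φ (D.y i) * t) := fun i j => by
    rw [map_div₀, mul_div_mul_right _ _ ht]
  have h5 : ∀ (i : D.ι) (e : ℕ) (u : L),
      φ u * t ^ e = φ (u / D.y i ^ e) * (φ (D.y i) * t) ^ e := fun i e u => by
    have : φ (D.y i) ≠ 0 := (_root_.map_ne_zero φ).2 (D.ne i)
    rw [map_div₀, map_pow, mul_pow]
    field_simp
  have hF : ∀ a : L, φ a ∈ IntermediateField.adjoin ℂ S := fun a => by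
    have h3 : chart D.y D.i₀ ≤ (IntermediateField.adjoin ℂ S).toSubalgebra.comap φ :=
      Algebra.adjoin_le (by
        rintro _ ⟨j, rfl⟩
        show φ (D.y j / D.y D.i₀) ∈ IntermediateField.adjoin ℂ S
        rw [hq]
        exact div_mem (IntermediateField.subset_adjoin ℂ S (hS j))
          (IntermediateField.subset_adjoin ℂ S (hS D.i₀)))
    obtain ⟨b, hb, hb0, hba⟩ := D.frac D.i₀ a
    have h4 : φ a = φ (b * a) / φ b := by
      rw [map_mul, mul_div_cancel_left₀ _ ((_root_.map_ne_zero φ).2 hb0)]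
    rw [h4]
    exact div_mem (h3 hba) (h3 hb)
  have hR : Algebra.adjoin ℂ S ≤ (rees D.H).map ψ := Algebra.adjoin_le (by
    rintro _ ⟨j, rfl⟩
    refine ⟨C (D.y j) * X, fun i => ?_, by rw [map_mul]; rfl⟩
    rw [coeff_C_mul_X]
    split_ifs with h
    · rw [h, pow_one]
      exact Submodule.subset_span ⟨j, rfl⟩
    · exact zero_mem _)
  obtain ⟨c, hc, hc0, h⟩ := cond ℂ K S (finite_range _)
  obtain ⟨p, hp, rfl⟩ := hR hc
  have hp0 : p ≠ 0 := by
    rintro rfl
    exact hc0 (map_zero _)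
  refine ⟨p.natDegree, p.leadingCoeff, leadingCoeff_ne_zero.2 hp0, hp _, fun e u hu => ?_⟩
  have h1 : φ u * t ^ e ∈ IntermediateField.adjoin ℂ S := by
    rw [h5 D.i₀]
    exact mul_mem (hF _) (pow_mem (IntermediateField.subset_adjoin ℂ S (hS D.i₀)) e)
  have h2 : IsIntegral (Algebra.adjoin ℂ S) (φ u * t ^ e) := by
    refine isIntegral_of_val (R := (Algebra.adjoin ℂ S).toSubring) fun V hV => ?_
    obtain ⟨i, hi⟩ := Finite.exists_max fun j => V.valuation (φ (D.y j) * t)
    have h6 := hu (V.comap φ.toRingHom) (fun a => by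
      show φ (algebraMap ℂ L a) ∈ V
      rw [φ.commutes]
      exact hV ((Algebra.adjoin ℂ S).algebraMap_mem a)) i (fun l => by
      show φ (D.y l / D.y i) ∈ V
      rw [hq, ← V.valuation_le_one_iff, map_div₀]
      exact div_le_one_of_le₀ (hi l) zero_le)
    rw [h5 i]
    exact mul_mem h6 (pow_mem (hV (Algebra.subset_adjoin (hS i))) e)
  obtain ⟨q, hq1, hq2⟩ := hR (h _ h1 h2)
  have h7 : q = p * C u * X ^ e := hψ (by
    rw [map_mul, map_mul, map_pow, mul_assoc]
    exact hq2)
  have h8 := hq1 (p.natDegree + e)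
  rw [h7, coeff_mul_X_pow, coeff_mul_C] at h8
  rw [add_comm]
  exact h8

theorem ht_mono {H : Submodule ℂ L} {y : L} (hy : y ∈ H) (h0 : y ≠ 0) {e e' : ℕ} (h : e ≤ e')
    {u : L} (hu : Ht H e u) : Ht H e' u := by
  obtain ⟨b, hb, hb0, hub⟩ := hu
  obtain ⟨d, rfl⟩ := Nat.exists_eq_add_of_le h
  refine ⟨b * y ^ d, ?_, mul_ne_zero hb0 (pow_ne_zero _ h0), ?_⟩
  · rw [pow_add]
    exact Submodule.mul_mem_mul hb (Submodule.pow_mem_pow _ hy d)
  · rw [pow_add, ← mul_assoc]
    exact Submodule.mul_mem_mul hub (Submodule.pow_mem_pow _ hy d)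

theorem prod_mem {ι : Type} (s : Finset ι) (f : ι → L) (M : ι → Submodule ℂ L)
    (h : ∀ i, f i ∈ M i) : ∏ i ∈ s, f i ∈ ∏ i ∈ s, M i := by
  classical
  induction s using Finset.induction_on with
  | empty => simp [Submodule.one_le.1 le_rfl]
  | insert a s ha ih =>
    rw [Finset.prod_insert ha, Finset.prod_insert ha]
    exact Submodule.mul_mem_mul (h a) ih

theorem aeval_mem {n : ℕ} (D : Ctx L n) (e : ℕ) (P : MvPolynomial (Fin n) ℂ)
    (hP : ∀ i, P.degreeOf i ≤ e) :
    D.y D.i₀ ^ (n * e) * MvPolynomial.aeval D.x P ∈ D.H ^ (n * e) := by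
  have hy : D.y D.i₀ ∈ D.H := Submodule.subset_span ⟨_, rfl⟩
  rw [MvPolynomial.aeval_def, MvPolynomial.eval₂_eq', Finset.mul_sum]
  refine Submodule.sum_mem _ fun m hm => ?_
  rw [mul_left_comm, ← Algebra.smul_def]
  refine Submodule.smul_mem _ _ ?_
  have h1 : ∀ i, m i ≤ e := fun i => (MvPolynomial.monomial_le_degreeOf i hm).trans (hP i)
  have h2 : D.y D.i₀ ^ (n * e) * ∏ i, D.x i ^ m i =
      ∏ i : Fin n, (D.y D.i₀ ^ (e - m i) * (D.y D.i₀ * D.x i) ^ m i) := by
    have h3 : ∀ i : Fin n, D.y D.i₀ ^ (e - m i) * (D.y D.i₀ * D.x i) ^ m i =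
        D.y D.i₀ ^ e * D.x i ^ m i := fun i => by
      rw [mul_pow, ← mul_assoc, ← pow_add, Nat.sub_add_cancel (h1 i)]
    simp only [h3]
    rw [Finset.prod_mul_distrib, Finset.prod_const, Finset.card_univ, Fintype.card_fin,
      ← pow_mul, mul_comm e n]
  have h4 : D.H ^ (n * e) = ∏ i : Fin n, D.H ^ e := by
    rw [Finset.prod_const, Finset.card_univ, Fintype.card_fin, ← pow_mul, mul_comm e n]
  rw [h2, h4]
  refine prod_mem _ _ _ fun i => ?_
  have h5 := Submodule.mul_mem_mul (Submodule.pow_mem_pow _ hy (e - m i))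
    (Submodule.pow_mem_pow _ (show D.y D.i₀ * D.x i ∈ D.H from D.hx i) (m i))
  rwa [← pow_add, Nat.sub_add_cancel (h1 i)] at h5

theorem div_mem_val {n : ℕ} (D : Ctx L n) (V : ValuationSubring L)
    (hV : ∀ a : ℂ, algebraMap ℂ L a ∈ V) (j : D.ι) (hj : ∀ l, D.y l / D.y j ∈ V) {N : ℕ} {a : L}
    (ha : a ∈ D.H ^ N) : a / D.y j ^ N ∈ V := by
  have h1 : ∀ m ∈ D.H, m / D.y j ∈ V := fun m hm => by
    induction hm using Submodule.span_induction with
    | mem x hx =>
      obtain ⟨l, rfl⟩ := hx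
      exact hj l
    | zero => simp
    | add x y _ _ hx hy => rw [add_div]; exact add_mem hx hy
    | smul c x _ hx => rw [Algebra.smul_def, mul_div_assoc]; exact mul_mem (hV c) hx
  induction ha using Submodule.pow_induction_on_left' with
  | algebraMap r => simpa using hV r
  | add x y i _ _ hx hy => rw [add_div]; exact add_mem hx hy
  | mem_mul m hm i x _ hx =>
    rw [pow_succ', mul_div_mul_comm]
    exact mul_mem (h1 m hm) hx

theorem lead_mem (V : ValuationSubring L) (r : ℕ) (α : ℕ → L) (hα : ∀ j, α j ∈ V) (u : L)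
    (h : ∑ j ∈ Finset.range (r + 1), α j * u ^ j = 0) (h0 : α r ≠ 0) : α r * u ∈ V := by
  by_contra hn
  rw [← V.valuation_le_one_iff, not_le] at hn
  have h1 : ∀ j, V.valuation (α j) ≤ 1 := fun j => (V.valuation_le_one_iff _).2 (hα j)
  have hu : 1 < V.valuation u := by
    refine hn.trans_le ?_
    rw [map_mul]
    exact mul_le_of_le_one_left' (h1 r)
  cases r with
  | zero => simp [h0] at h
  | succ k =>
    rw [Finset.sum_range_succ] at h
    have h2 : V.valuation (∑ j ∈ Finset.range (k + 1), α j * u ^ j) ≤ V.valuation u ^ k := by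
      refine V.valuation.map_sum_le fun j hj => ?_
      rw [map_mul, map_pow]
      exact (mul_le_of_le_one_left' (h1 j)).trans
        (pow_le_pow_right₀ hu.le (Nat.lt_succ_iff.1 (Finset.mem_range.1 hj)))
    rw [eq_neg_of_add_eq_zero_left h, Valuation.map_neg, pow_succ', ← mul_assoc, map_mul,
      map_pow] at h2
    have h3 : 0 < V.valuation u ^ k := pow_pos (zero_lt_one.trans hu) k
    exact absurd h2 (not_le.2 (lt_mul_of_one_lt_left h3 hn))

theorem dg_val {n : ℕ} (D : Ctx L n) {e : ℕ} {u : L} (h : Dg ℂ D.x e u) :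
    ∃ b ∈ D.H ^ (n * e), b ≠ 0 ∧ ∀ V : ValuationSubring L, (∀ a : ℂ, algebraMap ℂ L a ∈ V) →
      ∀ j, (∀ l, D.y l / D.y j ∈ V) → u * b / D.y j ^ (n * e) ∈ V := by
  obtain ⟨G, hG, h1, h2⟩ := h
  have h3 : MvPolynomial.aeval D.x G.leadingCoeff ≠ 0 := fun h =>
    leadingCoeff_ne_zero.2 hG (D.tb.1 (h.trans (map_zero _).symm))
  have h4 : D.y D.i₀ ^ (n * e) * MvPolynomial.aeval D.x G.leadingCoeff ≠ 0 :=
    mul_ne_zero (pow_ne_zero _ (D.ne _)) h3
  refine ⟨_, aeval_mem D e G.leadingCoeff fun i => h2 i _, h4, fun V hV j hj => ?_⟩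
  have h5 := lead_mem V G.natDegree
    (fun l => D.y D.i₀ ^ (n * e) * MvPolynomial.aeval D.x (G.coeff l) / D.y j ^ (n * e))
    (fun l => div_mem_val D V hV j hj (aeval_mem D e _ fun i => h2 i l)) u (by
      rw [eval₂_eq_sum_range] at h1
      have h6 := congrArg (fun w => D.y D.i₀ ^ (n * e) / D.y j ^ (n * e) * w) h1
      simp only [Finset.mul_sum, mul_zero] at h6
      refine Eq.trans (Finset.sum_congr rfl fun l _ => ?_) h6
      show _ = _ * (MvPolynomial.aeval D.x (G.coeff l) * u ^ l)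
      ring)
    (div_ne_zero h4 (pow_ne_zero _ (D.ne j)))
  rw [mul_div_assoc, mul_comm]
  exact h5

theorem const_of_val {z : L}
    (h : ∀ V : ValuationSubring L, (∀ a : ℂ, algebraMap ℂ L a ∈ V) → z ∈ V) :
    ∃ a : ℂ, algebraMap ℂ L a = z := by
  have h1 : IsIntegral (algebraMap ℂ L).range z :=
    isIntegral_of_val fun V hV => h V fun a => hV ⟨a, rfl⟩
  letI : Algebra ℂ (algebraMap ℂ L).range := (algebraMap ℂ L).rangeRestrict.toAlgebra
  haveI : IsScalarTower ℂ (algebraMap ℂ L).range L := IsScalarTower.of_algebraMap_eq fun _ => rfl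
  haveI : Algebra.IsIntegral ℂ (algebraMap ℂ L).range :=
    Algebra.isIntegral_of_surjective (algebraMap ℂ L).rangeRestrict_surjective
  have h2 : IsIntegral ℂ z := isIntegral_trans z h1
  exact minpoly.mem_range_of_degree_eq_one ℂ z
    (IsAlgClosed.degree_eq_one_of_irreducible ℂ (minpoly.irreducible h2))

end HT

theorem blockCON : St_CON := fun L _ _ n C =>
  HT.con C (IsScalarTower.toAlgHom ℂ (Polynomial L) (FractionRing (Polynomial L)))
    (IsFractionRing.injective (Polynomial L) _)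

theorem blockDGH (h : St_CON) : St_DGH := by
  intro L _ _ n C
  obtain ⟨i₁, c, hc0, hc, hcon⟩ := h L n C
  refine ⟨n + i₁, fun e u hu => ?_⟩
  obtain ⟨b, hb, hb0, hV⟩ := HT.dg_val C hu
  rcases Nat.eq_zero_or_pos e with rfl | he
  · refine ⟨b, hb, hb0, ?_⟩
    obtain ⟨a, ha⟩ := HT.const_of_val (z := u * b) fun V hV0 => by
      obtain ⟨j, hj⟩ := Finite.exists_max fun j => V.valuation (C.y j)
      have := hV V hV0 j fun l => by
        rw [← V.valuation_le_one_iff, map_div₀]
        exact div_le_one_of_le₀ (hj l) zero_le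
      simpa using this
    rw [← ha, mul_zero, pow_zero]
    exact Submodule.algebraMap_mem a
  · have h1 : Ht C.H (n * e + i₁) u := by
      refine ⟨b * c, ?_, mul_ne_zero hb0 hc0, ?_⟩
      · rw [pow_add]
        exact Submodule.mul_mem_mul hb hc
      · have := hcon (n * e) (u * b) hV
        rwa [mul_comm c, mul_assoc] at this
    refine HT.ht_mono (Submodule.subset_span (mem_range_self C.i₀)) (C.ne _) ?_ h1
    nlinarith

end Pool.Agent.Lib.GD
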