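import Pool.Agent.Lib.GD.KLa

/-! The key inequality. -/

open Module Submodule Filter Topology

set_option linter.unusedSectionVars false
set_option linter.unusedVariables false

namespace Pool.Agent.Lib.GD

namespace KL

/-- The leading form of the Hilbert polynomial. -/
noncomputable def lead (n : ℕ) (d : ℕ → ℕ) (a b : ℕ) : ℝ := ∑ j ∈ Finset.range (n + 1),
  (d j : ℝ) * (a : ℝ) ^ (n - j) * (b : ℝ) ^ j / ((n - j).factorial * j.factorial)

theorem lead_mul (n : ℕ) (d : ℕ → ℕ) (a b e : ℕ) :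
    lead n d (a * e) (b * e) = (e : ℝ) ^ n * lead n d a b := by
  rw [lead, lead, Finset.mul_sum]
  refine Finset.sum_congr rfl fun j hj => ?_
  obtain ⟨r, rfl⟩ := Nat.exists_eq_add_of_le (Nat.lt_succ_iff.1 (Finset.mem_range.1 hj))
  simp only [Nat.add_sub_cancel_left, Nat.cast_mul, mul_pow, pow_add]
  ring

theorem le_lead {n p : ℕ} (hp : p ≤ n) (d : ℕ → ℕ) (M : ℕ) :
    (d p : ℝ) * (M : ℝ) ^ n / ((n - p).factorial * p.factorial) ≤ lead n d M M := by
  refine le_of_eq_of_le ?_ (Finset.single_le_sum (f := fun j => (d j : ℝ) * (M : ℝ) ^ (n - j) *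
    (M : ℝ) ^ j / ((n - j).factorial * j.factorial)) (fun j _ => by positivity)
    (Finset.mem_range.2 (Nat.lt_succ_of_le hp)))
  rw [mul_assoc, ← pow_add, Nat.sub_add_cancel hp]

theorem lead_le {n p : ℕ} (hp : p ≤ n) {d : ℕ → ℕ} {A B c X Y : ℝ} {a b : ℕ} (hB : 0 ≤ B)
    (hA : (d p : ℝ) ≤ A) (hd : ∀ l ≤ n, l ≠ p → (d l : ℝ) ≤ B) (hc : 0 ≤ c) (hY : 0 ≤ Y)
    (h1 : (a : ℝ) ^ (n - p) * (b : ℝ) ^ p ≤ c * X)
    (h2 : ∀ l ≤ n, (a : ℝ) ^ (n - l) * (b : ℝ) ^ l ≤ c * Y) :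
    lead n d a b ≤ c * (A * X + n * (B * Y)) := by
  have h3 : ∀ j, (d j : ℝ) * (a : ℝ) ^ (n - j) * (b : ℝ) ^ j / ((n - j).factorial * j.factorial) ≤
      (d j : ℝ) * ((a : ℝ) ^ (n - j) * (b : ℝ) ^ j) := fun j => by
    rw [mul_assoc]
    refine div_le_self (by positivity) ?_
    exact_mod_cast Nat.mul_pos (Nat.factorial_pos _) (Nat.factorial_pos _)
  refine (Finset.sum_le_sum fun j _ => h3 j).trans ?_
  have hm := Finset.mem_range.2 (Nat.lt_succ_of_le hp)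
  rw [← Finset.add_sum_erase _ _ hm, mul_add]
  refine add_le_add ?_ ?_
  · rw [mul_left_comm c]
    exact mul_le_mul hA h1 (by positivity) ((Nat.cast_nonneg _).trans hA)
  · refine (Finset.sum_le_card_nsmul _ _ (B * (c * Y)) fun l hl => ?_).trans (le_of_eq ?_)
    · have h4 := Nat.lt_succ_iff.1 (Finset.mem_range.1 (Finset.mem_of_mem_erase hl))
      exact mul_le_mul (hd l h4 (Finset.ne_of_mem_erase hl)) (h2 l h4) (by positivity) hB
    · rw [Finset.card_erase_of_mem hm, Finset.card_range, nsmul_eq_mul, Nat.succ_sub_one]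
      ring

theorem ev_le {u : ℕ → ℕ} {l r : ℝ}
    (h : Tendsto (fun i : ℕ => (u i : ℝ) ^ ((i : ℝ)⁻¹)) atTop (𝓝 l)) (hr : l < r) :
    ∀ᶠ i in atTop, (u i : ℝ) ≤ r ^ i := by
  filter_upwards [h.eventually (gt_mem_nhds hr), eventually_ne_atTop 0] with i h1 h2
  rw [← Real.rpow_inv_natCast_pow (Nat.cast_nonneg (u i)) h2]
  exact pow_le_pow_left₀ (by positivity) h1.le _

theorem ev_ge {u : ℕ → ℕ} {l r : ℝ}
    (h : Tendsto (fun i : ℕ => (u i : ℝ) ^ ((i : ℝ)⁻¹)) atTop (𝓝 l)) (h0 : 0 ≤ r) (hr : r < l) :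
    ∀ᶠ i in atTop, r ^ i ≤ (u i : ℝ) := by
  filter_upwards [h.eventually (lt_mem_nhds hr), eventually_ne_atTop 0] with i h1 h2
  rw [← Real.rpow_inv_natCast_pow (Nat.cast_nonneg (u i)) h2]
  exact pow_le_pow_left₀ h0 h1.le _

theorem pw_le {n l : ℕ} (hn : 0 < n) (hl : l ≤ n) (M : ℕ) :
    (n : ℝ) ^ (n - l) * ((2 * M : ℕ) : ℝ) ^ l ≤ (2 * n) ^ n * (M : ℝ) ^ l := by
  have h1 : (1 : ℝ) ≤ n := by exact_mod_cast hn
  have h2 : (2 * n : ℝ) ^ n = (2 * n) ^ (n - l) * (2 * n) ^ l := by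
    rw [← pow_add, Nat.sub_add_cancel hl]
  rw [h2, Nat.cast_mul, mul_pow, ← mul_assoc]
  gcongr
  · linarith
  · push_cast; linarith

theorem arith {n p : ℕ} (hn : 0 < n) (hp : p ≤ n) {d : ℕ → ℕ → ℕ} {l : ℕ → ℝ}
    (h : ∀ j ≤ n, Tendsto (fun i : ℕ => (d i j : ℝ) ^ ((i : ℝ)⁻¹)) atTop (𝓝 (l j)))
    (hl : ∀ j ≤ n, j ≠ p → l j < l p) (N : ℕ) : ∀ᶠ j : ℕ in atTop, ∃ M : ℕ, 0 < M ∧
      N * (lead n (d j) n (2 * M) * lead n (d j) (2 * M) n) < M * lead n (d (2 * j)) M M := by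
  have h0 : 0 < l p := by
    obtain ⟨j, hj, hj'⟩ : ∃ j ≤ n, j ≠ p := by
      by_cases h0 : p = 0
      · exact ⟨n, le_rfl, by omega⟩
      · exact ⟨0, by omega, by omega⟩
    exact (ge_of_tendsto' (h j hj) fun i => by positivity).trans_lt (hl j hj hj')
  obtain ⟨μ, hμ, hμ0, hμ1⟩ : ∃ μ : ℝ, (∀ j ∈ Finset.range (n + 1), j ≠ p → l j < μ) ∧ 0 < μ ∧
      μ < l p := by
    refine Eventually.exists (f := 𝓝[<] l p) (((Finset.eventually_all _).2 fun j hj => ?_).and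
      (Eventually.and (nhdsWithin_le_nhds (lt_mem_nhds h0)) self_mem_nhdsWithin))
    by_cases hj' : j = p
    · simp [hj']
    · exact Eventually.mono (nhdsWithin_le_nhds (lt_mem_nhds
        (hl j (Nat.lt_succ_iff.1 (Finset.mem_range.1 hj)) hj'))) fun _ h _ => h
  obtain ⟨s, hs, hs1⟩ : ∃ s : ℝ, s ^ (5 * n + 3) * μ < l p ∧ 1 < s := by
    have h1 : ContinuousAt (fun s : ℝ => s ^ (5 * n + 3) * μ) 1 := by fun_prop
    exact Eventually.exists (f := 𝓝[>] 1) (Eventually.and (nhdsWithin_le_nhds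
      (h1.eventually (gt_mem_nhds (by simpa using hμ1)))) self_mem_nhdsWithin)
  have hs0 : 0 < s := one_pos.trans hs1
  set c : ℝ := N * ((2 * n) ^ n) ^ 2 * ((n - p).factorial * p.factorial) with hc
  have t1 := (tendsto_pow_atTop_nhds_zero_of_lt_one (inv_pos.2 hs0).le
    (inv_lt_one_of_one_lt₀ hs1)).const_mul c
  have t2 := (tendsto_pow_atTop_nhds_zero_of_lt_one (r := s ^ (5 * n + 3) * μ / l p)
    (by positivity) ((div_lt_one h0).2 hs)).const_mul (c * (n * (n + 2) * 2 ^ n))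
  have t3 := (tendsto_id.const_mul_atTop' two_pos).eventually
    (ev_ge (h p hp) (r := l p / s) (by positivity) (div_lt_self h0 hs1))
  have t4 : ∀ᶠ j : ℕ in atTop, ∀ r ∈ Finset.range (n + 1), r ≠ p → (d j r : ℝ) ≤ μ ^ j :=
    (Finset.eventually_all _).2 fun r hr => by
      by_cases hr' : r = p
      · simp [hr']
      · exact (ev_le (h r (Nat.lt_succ_iff.1 (Finset.mem_range.1 hr))) (hμ r hr hr')).mono
          fun _ h _ => h
  have t5 := t1.add t2
  rw [mul_zero, mul_zero, add_zero] at t5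
  filter_upwards [t5.eventually (gt_mem_nhds one_pos), t3, t4,
    ev_le (h p hp) (r := s * l p) (lt_mul_of_one_lt_left h0 hs1)] with j e1 e3 e4 e5
  have h1 : 1 ≤ (s ^ j) ^ 5 := one_le_pow₀ (one_le_pow₀ hs1.le)
  obtain ⟨M, hM, hM'⟩ : ∃ M : ℕ, (s ^ j) ^ 5 ≤ M ∧ (M : ℝ) ≤ 2 * (s ^ j) ^ 5 :=
    ⟨_, Nat.le_ceil _, by linarith [Nat.ceil_lt_add_one (zero_le_one.trans h1)]⟩
  have hM1 : (1 : ℝ) ≤ M := h1.trans hM
  refine ⟨M, by exact_mod_cast one_pos.trans_le hM1, ?_⟩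
  have hd : ∀ r ≤ n, r ≠ p → (d j r : ℝ) ≤ μ ^ j := fun r hr =>
    e4 r (Finset.mem_range.2 (Nat.lt_succ_of_le hr))
  have hMn : ∀ r ≤ n, (M : ℝ) ^ r ≤ (M : ℝ) ^ n := fun r hr => pow_le_pow_right₀ hM1 hr
  have b1 := lead_le hp (c := (2 * n) ^ n) (a := n) (b := 2 * M) (by positivity) e5 hd
    (by positivity) (Y := (M : ℝ) ^ n) (by positivity) (pw_le hn hp M) fun r hr =>
    (pw_le hn hr M).trans (mul_le_mul_of_nonneg_left (hMn r hr) (by positivity))
  have h2 : ∀ r ≤ n, ((2 * M : ℕ) : ℝ) ^ (n - r) * (n : ℝ) ^ r ≤ (2 * n) ^ n * (M : ℝ) ^ (n - r) :=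
    fun r hr => by
      have := pw_le hn (Nat.sub_le n r) M
      rwa [Nat.sub_sub_self hr, mul_comm] at this
  have b2 := lead_le hp (c := (2 * n) ^ n) (a := 2 * M) (b := n) (by positivity) e5 hd
    (by positivity) (Y := (M : ℝ) ^ n) (by positivity) (h2 p hp) fun r hr =>
    (h2 r hr).trans (mul_le_mul_of_nonneg_left (hMn _ (Nat.sub_le n r)) (by positivity))
  have b3 := le_lead hp (d (2 * j)) M
  have b4 : 0 ≤ lead n (d j) (2 * M) n := Finset.sum_nonneg fun _ _ => by positivity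
  simp only [id, mul_pow, div_pow, inv_pow, pow_mul', pow_right_comm s _ j] at e1 e3 e5 b1 b2
  have hS : 0 < s ^ j := by positivity
  have hS1 : 1 ≤ s ^ j := one_le_pow₀ hs1.le
  have hP : 0 < l p ^ j := by positivity
  have hU : 0 < μ ^ j := by positivity
  have hUP : μ ^ j ≤ l p ^ j := pow_le_pow_left₀ hμ0.le hμ1.le _
  have hF : (0 : ℝ) < (n - p).factorial * p.factorial := by positivity
  generalize s ^ j = S at *
  generalize l p ^ j = P at *
  generalize μ ^ j = U at *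
  have hX : (M : ℝ) ^ p * (M : ℝ) ^ (n - p) = (M : ℝ) ^ n := by
    rw [← pow_add, Nat.add_sub_cancel' hp]
  have hY : (M : ℝ) ^ n ≤ 2 ^ n * S ^ (5 * n) := by
    rw [pow_mul, ← mul_pow]
    exact pow_le_pow_left₀ (by positivity) hM' _
  have x1 := hMn p hp
  have x2 := hMn _ (Nat.sub_le n p)
  have y0 : (0 : ℝ) < (M : ℝ) ^ n := by positivity
  have y1 : (0 : ℝ) ≤ (M : ℝ) ^ p := by positivity
  have y2 : (0 : ℝ) ≤ (M : ℝ) ^ (n - p) := by positivity
  generalize (M : ℝ) ^ n = Y at *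
  generalize (M : ℝ) ^ p = X₁ at *
  generalize (M : ℝ) ^ (n - p) = X₂ at *
  have hUS : U ≤ S * P := hUP.trans (le_mul_of_one_le_left hP.le hS1)
  have k1 : (S * P * X₁ + n * (U * Y)) * (S * P * X₂ + n * (U * Y)) ≤
      (S * P) ^ 2 * Y + n * (n + 2) * (S * P * U * Y ^ 2) := by
    calc _ = (S * P) ^ 2 * (X₁ * X₂) + n * (S * P * U * Y * (X₁ + X₂) + n * (U * U * Y ^ 2)) := by
          ring
      _ ≤ (S * P) ^ 2 * (X₁ * X₂) + n * (S * P * U * Y * (Y + Y) + n * (S * P * U * Y ^ 2)) := by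
          gcongr
      _ = _ := by rw [hX]; ring
  have k2 : (S * P) ^ 2 * Y ≤ S⁻¹ * (M * (P ^ 2 / S ^ 2 * Y)) := by
    calc _ = S⁻¹ * (S ^ 5 * (P ^ 2 / S ^ 2 * Y)) := by field_simp
      _ ≤ _ := by gcongr
  have k3 : S * P * U * Y ^ 2 ≤
      2 ^ n * (S ^ (5 * n + 3) * U / P) * (M * (P ^ 2 / S ^ 2 * Y)) := by
    calc _ = S * P * U * Y * Y * 1 := by ring
      _ ≤ S * P * U * Y * (2 ^ n * S ^ (5 * n)) * M := by gcongr
      _ = _ := by rw [pow_add]; field_simp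
  have k4 : 0 < M * (P ^ 2 / S ^ 2 * Y) := by positivity
  have k5 : M * (P ^ 2 / S ^ 2 * Y) ≤ M * ((n - p).factorial * p.factorial *
      lead n (d (2 * j)) M M) := by
    rw [div_le_iff₀' hF] at b3
    exact mul_le_mul_of_nonneg_left ((mul_le_mul_of_nonneg_right e3 y0.le).trans b3)
      (Nat.cast_nonneg M)
  refine lt_of_mul_lt_mul_left ?_ hF.le
  calc _ ≤ ((n - p).factorial * p.factorial : ℝ) * (N * (((2 * n) ^ n *
        (S * P * X₁ + n * (U * Y))) * ((2 * n) ^ n * (S * P * X₂ + n * (U * Y))))) := by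
        simp only [mul_pow]
        gcongr
    _ = c * ((S * P * X₁ + n * (U * Y)) * (S * P * X₂ + n * (U * Y))) := by rw [hc]; ring
    _ ≤ c * (S⁻¹ * (M * (P ^ 2 / S ^ 2 * Y)) + n * (n + 2) *
        (2 ^ n * (S ^ (5 * n + 3) * U / P) * (M * (P ^ 2 / S ^ 2 * Y)))) := by
        refine mul_le_mul_of_nonneg_left (k1.trans ?_) (by positivity)
        gcongr
    _ = (c * S⁻¹ + c * (n * (n + 2) * 2 ^ n) * (S ^ (5 * n + 3) * U / P)) *
        (M * (P ^ 2 / S ^ 2 * Y)) := by ring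
    _ < 1 * (M * (P ^ 2 / S ^ 2 * Y)) := mul_lt_mul_of_pos_right e1 k4
    _ ≤ _ := by rw [one_mul, mul_left_comm _ (M : ℝ)]; exact k5

variable {k L : Type} [Field k] [Field L] [Algebra k L]

instance fd_map (U : Submodule k L) [FiniteDimensional k U] (ψ : L →ₐ[k] L) :
    FiniteDimensional k ↥(U.map ψ.toLinearMap) := Module.Finite.iff_fg.2 ((fg_of U).map _)

theorem fr_map (U : Submodule k L) (ψ : L →ₐ[k] L) :
    finrank k ↥(U.map ψ.toLinearMap) = finrank k U :=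
  (equivMapOfInjective _ ψ.toRingHom.injective U).finrank_eq.symm

theorem ht_map {H : Submodule k L} {e : ℕ} {u : L} (h : Ht H e u) (ψ : L →ₐ[k] L) :
    Ht (H.map ψ.toLinearMap) e (ψ u) := by
  obtain ⟨b, h1, h2, h3⟩ := h
  refine ⟨ψ b, ?_, by simpa using h2, ?_⟩
  · rw [← Submodule.map_pow]; exact mem_map_of_mem h1
  · rw [← Submodule.map_pow, ← map_mul]; exact mem_map_of_mem h3

theorem ht_le {H : Submodule k L} [FiniteDimensional k H] {e : ℕ} {u : L} (h : Ht H e u)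
    (W : Submodule k L) [FiniteDimensional k W] (α : ℕ) :
    finrank k ↥(span k {1, u} ^ α * W) ≤ finrank k ↥(H ^ (e * α) * W) := by
  obtain ⟨b, h1, h2, h3⟩ := h
  rw [← fr_single _ (pow_ne_zero α h2), mul_right_comm, ← Set.singleton_pow, ← span_pow,
    ← mul_pow, pow_mul]
  refine finrank_mono (mul_le_mul_left (pow_le_pow_left' ?_ α) _)
  rw [span_mul_span, span_le]
  rintro _ ⟨a, rfl | rfl, _, rfl, rfl⟩
  · simpa using h1
  · exact h3

theorem step {n : ℕ} {H : Submodule k L} [FiniteDimensional k H] (ψ : L →ₐ[k] L) {u : L} {e : ℕ}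
    (h1 : Ht H e u) (h2 : Ht H e ((ψ * ψ) u)) (α a : ℕ) :
    finrank k ↥(span k {1, ψ u} ^ α * H ^ a) *
      finrank k ↥(H ^ (e * α) * H.map (ψ * ψ).toLinearMap ^ (e * α)) ≤
    finrank k ↥(H ^ a * H.map ψ.toLinearMap ^ (2 * (e * α))) *
      finrank k ↥(H ^ (2 * (e * α)) * H.map ψ.toLinearMap ^ a) := by
  have h3 : H.map (ψ * ψ).toLinearMap = (H.map ψ.toLinearMap).map ψ.toLinearMap := by
    rw [← Submodule.map_comp]; rfl
  have h4 := ruzsa (span k {1, (ψ * ψ) u} ^ α * H.map ψ.toLinearMap ^ a)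
    (H.map (ψ * ψ).toLinearMap ^ (e * α)) (H ^ (e * α))
  have h5 := ht_le (ht_map h1 (ψ * ψ))
    (H.map ψ.toLinearMap ^ a * H.map (ψ * ψ).toLinearMap ^ (e * α)) α
  have h6 := ht_le h2 (H.map ψ.toLinearMap ^ a * H ^ (e * α)) α
  rw [mul_assoc, mul_assoc, mul_comm (_ ^ _) (H ^ _)] at h4
  refine le_of_eq_of_le ?_ (h4.trans ((Nat.mul_le_mul h5 h6).trans (le_of_eq ?_)))
  · rw [← fr_map _ ψ, Submodule.map_mul, Submodule.map_pow, Submodule.map_pow, map_span,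
      Set.image_pair, AlgHom.toLinearMap_apply, map_one]
    rfl
  · rw [← fr_map (H ^ a * _) ψ, Submodule.map_mul, Submodule.map_pow, Submodule.map_pow, ← h3,
      mul_left_comm, ← pow_add, mul_comm (_ ^ a) (H ^ _), ← mul_assoc, ← pow_add, ← two_mul]

end KL

open KL

theorem blockKL : St_KL := by
  rintro k L _ _ _ n H _ y₀ x hn h0 h1 h2 hx φ ⟨l, p, ⟨d, hd, hl⟩, hp, hl'⟩ N hN
  filter_upwards [arith hn hp hl hl' N] with j ⟨M, hM, hj⟩ u e h3 h4
  by_contra h5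
  rcases e.eq_zero_or_pos with rfl | he
  · obtain ⟨b, hb, hb0, hb'⟩ := h3
    rw [pow_zero, Submodule.mem_one] at hb hb'
    obtain ⟨b, rfl⟩ := hb
    obtain ⟨a, ha⟩ := hb'
    have : u = algebraMap k L (a / b) := by rw [map_div₀, ha, mul_div_cancel_right₀ _ hb0]
    refine h5 ⟨Polynomial.X - Polynomial.C (MvPolynomial.C (a / b)), Polynomial.X_sub_C_ne_zero _,
      by simp [this], fun i r => ?_⟩
    rw [Polynomial.coeff_sub, Polynomial.coeff_X, Polynomial.coeff_C]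
    split_ifs <;> first | omega | simp
  have t1 := hd j (n * e) (2 * M * e) (by positivity) (by positivity)
  have t2 := hd j (2 * M * e) (n * e) (by positivity) (by positivity)
  have t3 := (hd (2 * j) (M * e) (M * e) (by positivity) (by positivity)).const_mul
    ((M : ℝ) * ((e / N + 1 : ℕ) * (e : ℝ) ^ (n - 1)))
  have h6 := le_of_tendsto_of_tendsto t3 (t1.mul t2) (by
    filter_upwards [eventually_ge_atTop (e / N), eventually_gt_atTop 0] with t ht ht0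
    have h7 := lower hn h0 h1 h2 hx h5 (M * t) (e * t) (ht.trans (Nat.le_mul_of_pos_left _ he))
    have h8 := step (n := n) (φ ^ j) h3 (by rwa [← pow_add, ← two_mul]) (M * t) (n * (e * t))
    rw [← pow_add, ← two_mul] at h8
    have h9 : M * t * ((e / N + 1) * (e * t) ^ (n - 1)) ≤
        (M * t + 1) * ((e / N + 1) * (e * t + 1) ^ (n - 1)) := by gcongr <;> omega
    have h10 := (Nat.mul_le_mul_right _ (h9.trans h7)).trans h8
    rw [show e * (M * t) = t * (M * e) by ring, show n * (e * t) = t * (n * e) by ring,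
      show 2 * (t * (M * e)) = t * (2 * M * e) by ring] at h10
    have h11 : (0 : ℝ) < (t : ℝ) ^ n := by positivity
    rw [div_mul_div_comm, le_div_iff₀ (by positivity)]
    rw [← Nat.cast_mul]
    refine le_of_eq_of_le ?_ (Nat.cast_le.2 h10)
    generalize finrank k ↥(H ^ (t * (M * e)) * _) = r
    generalize e / N = q
    obtain ⟨n, rfl⟩ := Nat.exists_eq_add_one_of_ne_zero hn.ne'
    push_cast
    field_simp
    ring)
  change _ * lead n _ _ _ ≤ lead n _ _ _ * lead n _ _ _ at h6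
  rw [lead_mul, lead_mul, lead_mul] at h6
  have h7 : (e : ℝ) ≤ N * (e / N + 1 : ℕ) := by exact_mod_cast (Nat.lt_mul_div_succ e hN).le
  have h8 : 0 ≤ lead n (d (2 * j)) M M := Finset.sum_nonneg fun _ _ => by positivity
  obtain ⟨n, rfl⟩ := Nat.exists_eq_add_one_of_ne_zero hn.ne'
  have h9 : (0 : ℝ) < (e : ℝ) ^ n * (e : ℝ) ^ (n + 1) * e := by positivity
  refine (mul_lt_mul_of_pos_left hj h9).not_ge ?_
  calc _ ≤ (e : ℝ) ^ n * (e : ℝ) ^ (n + 1) * (N * (e / N + 1 : ℕ)) *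
        (M * lead (n + 1) (d (2 * j)) M M) := by gcongr
    _ = N * (M * ((e / N + 1 : ℕ) * (e : ℝ) ^ (n + 1 - 1)) *
        ((e : ℝ) ^ (n + 1) * lead (n + 1) (d (2 * j)) M M)) := by
        rw [Nat.add_sub_cancel]; ring
    _ ≤ _ := (mul_le_mul_of_nonneg_left h6 (Nat.cast_nonneg N)).trans (le_of_eq (by ring))

end Pool.Agent.Lib.GD
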