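import Pool.Agent.Lib.GD.Blue

/-! A linear form of the Ruzsa triangle inequality, and a lower bound for dimensions. -/

open Module Submodule

set_option linter.unusedSectionVars false
set_option linter.unusedVariables false

namespace Pool.Agent.Lib.GD.KL

variable {k L : Type} [Field k] [Field L] [Algebra k L]

theorem fg_of (W : Submodule k L) [h : FiniteDimensional k W] : W.FG := Module.Finite.iff_fg.1 h

instance fd_mul (U W : Submodule k L) [FiniteDimensional k U] [FiniteDimensional k W] :
    FiniteDimensional k ↥(U * W) := Module.Finite.iff_fg.2 ((fg_of U).mul (fg_of W))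

instance fd_pow (U : Submodule k L) [FiniteDimensional k U] (a : ℕ) :
    FiniteDimensional k ↥(U ^ a) := Module.Finite.iff_fg.2 ((fg_of U).pow a)

instance fd_pair (a b : L) : FiniteDimensional k (span k {a, b}) :=
  FiniteDimensional.span_of_finite k (Set.toFinite _)

theorem prod_mem {ι : Type} (s : Finset ι) {W : ι → Submodule k L} {a : ι → L}
    (h : ∀ i ∈ s, a i ∈ W i) : ∏ i ∈ s, a i ∈ ∏ i ∈ s, W i := by
  rw [← span_singleton_le_iff_mem, ← prod_span_singleton]
  exact Finset.prod_le_prod' fun i hi => (span_singleton_le_iff_mem _ _).2 (h i hi)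

theorem fr_single (W : Submodule k L) {c : L} (hc : c ≠ 0) :
    finrank k ↥(W * span k {c}) = finrank k W := by
  have h1 : W * span k {c} = W.map (LinearMap.mulRight k c) := by
    ext w
    simp [mem_mul_span_singleton]
  rw [h1]
  exact (equivMapOfInjective _ (mul_left_injective₀ hc) W).finrank_eq.symm

theorem petridis (X B : Submodule k L) [FiniteDimensional k X] [FiniteDimensional k B]
    (hmin : ∀ Z ≤ X, finrank k ↥(X * B) * finrank k Z ≤ finrank k X * finrank k ↥(Z * B))
    (s : Finset L) :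
    finrank k X * finrank k ↥(X * B * span k (s : Set L)) ≤
      finrank k ↥(X * B) * finrank k ↥(X * span k (s : Set L)) := by
  classical
  induction s using Finset.induction_on with
  | empty => rw [Finset.coe_empty, span_empty, mul_bot, finrank_bot]; simp
  | insert c s _ ih =>
    rw [Finset.coe_insert, span_insert]
    by_cases hc : c = 0
    · rwa [hc, span_zero_singleton, bot_sup_eq]
    set C := span k (s : Set L)
    let Z : Submodule k L := X ⊓ (X * B * C / (B * span k {c}))
    have : FiniteDimensional k Z := finiteDimensional_of_le inf_le_left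
    have h1 : Z * B * span k {c} ≤ X * B * span k {c} ⊓ X * B * C := by
      refine le_inf (mul_le_mul_left (mul_le_mul_left inf_le_left _) _) ?_
      rw [mul_assoc]
      exact le_div_iff_mul_le.1 inf_le_right
    have h2 : X * span k {c} ⊓ X * C ≤ Z * span k {c} := by
      rintro w ⟨hw, hw'⟩
      obtain ⟨a, ha, rfl⟩ := mem_mul_span_singleton.1 hw
      refine mul_mem_mul ⟨ha, mem_div_iff_forall_mul_mem.2 fun b hb => ?_⟩
        (mem_span_singleton_self c)
      obtain ⟨b, hb', rfl⟩ := mem_mul_span_singleton.1 hb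
      rw [mul_right_comm X B C, mul_comm b c, ← mul_assoc]
      exact mul_mem_mul hw' hb'
    have h3 := finrank_sup_add_finrank_inf_eq (X * B * span k {c}) (X * B * C)
    have h4 := finrank_sup_add_finrank_inf_eq (X * span k {c}) (X * C)
    have h5 := finrank_mono h1
    have h6 := finrank_mono h2
    have h7 := hmin Z inf_le_left
    rw [fr_single _ hc] at h3 h4 h5 h6
    rw [Submodule.mul_sup, Submodule.mul_sup]
    nlinarith

/-- The linear Ruzsa inequality. -/
theorem ruzsa (Q B C : Submodule k L) [FiniteDimensional k Q] [FiniteDimensional k B]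
    [FiniteDimensional k C] :
    finrank k Q * finrank k ↥(B * C) ≤ finrank k ↥(Q * B) * finrank k ↥(Q * C) := by
  by_cases hQ : Q = ⊥
  · rw [hQ, finrank_bot]; simp
  let S : Set (ℕ × ℕ) := {p | ∃ X ≤ Q, X ≠ ⊥ ∧ p = (finrank k X, finrank k ↥(X * B))}
  have hS : S.Finite := by
    refine ((Set.finite_Iic (finrank k Q)).prod (Set.finite_Iic (finrank k ↥(Q * B)))).subset ?_
    rintro _ ⟨X, hX, -, rfl⟩
    exact ⟨finrank_mono hX, finrank_mono (mul_le_mul_left hX _)⟩
  obtain ⟨_, ⟨X, hX, hX0, rfl⟩, hm⟩ := Set.exists_min_image S (fun p => (p.2 : ℚ) / p.1) hS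
    ⟨_, Q, le_rfl, hQ, rfl⟩
  have : FiniteDimensional k X := finiteDimensional_of_le hX
  have hpos : ∀ Z ≤ Q, Z ≠ ⊥ → 0 < finrank k Z := fun Z hZ h => by
    have : FiniteDimensional k Z := finiteDimensional_of_le hZ
    exact Nat.pos_of_ne_zero fun h' => h (finrank_eq_zero.1 h')
  have hmin : ∀ Z ≤ Q,
      finrank k ↥(X * B) * finrank k Z ≤ finrank k X * finrank k ↥(Z * B) := fun Z hZ => by
    by_cases h0 : Z = ⊥
    · rw [h0, finrank_bot]; simp
    have h1 := hm _ ⟨Z, hZ, h0, rfl⟩
    rw [div_le_div_iff₀ (by exact_mod_cast hpos X hX hX0) (by exact_mod_cast hpos Z hZ h0),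
      mul_comm (_ : ℚ) (finrank k X : ℚ)] at h1
    exact_mod_cast h1
  obtain ⟨s, rfl⟩ := fg_of C
  have h1 := petridis X B (fun Z hZ => hmin Z (hZ.trans hX)) s
  obtain ⟨a, ha, ha0⟩ := exists_mem_ne_zero_of_ne_bot hX0
  have h2 : finrank k ↥(B * span k (s : Set L)) ≤ finrank k ↥(X * B * span k (s : Set L)) := by
    rw [← fr_single _ ha0, mul_comm, mul_assoc]
    exact finrank_mono (mul_le_mul_left ((span_singleton_le_iff_mem _ _).2 ha) _)
  have h3 : finrank k ↥(X * span k (s : Set L)) ≤ finrank k ↥(Q * span k (s : Set L)) :=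
    finrank_mono (mul_le_mul_left hX _)
  have h4 := hmin Q le_rfl
  refine Nat.le_of_mul_le_mul_left ?_ (hpos X hX hX0)
  calc _ = finrank k Q * (finrank k X * finrank k ↥(B * span k (s : Set L))) := by ring
    _ ≤ finrank k Q * (finrank k ↥(X * B) * finrank k ↥(Q * span k (s : Set L))) :=
      Nat.mul_le_mul_left _ ((Nat.mul_le_mul_left _ h2).trans
        (h1.trans (Nat.mul_le_mul_left _ h3)))
    _ = finrank k ↥(X * B) * finrank k Q * finrank k ↥(Q * span k (s : Set L)) := by ring
    _ ≤ _ := by rw [← mul_assoc]; exact Nat.mul_le_mul_right _ h4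

open MvPolynomial

variable {n : ℕ} {x : Fin n → L} {v : L} {d : ℕ}

theorem ker_dvd (hx : AlgebraicIndependent k x) (v : L) :
    ∃ G : Polynomial (MvPolynomial (Fin n) k),
      G.eval₂ (aeval x : MvPolynomial (Fin n) k →ₐ[k] L).toRingHom v = 0 ∧
      ∀ G' : Polynomial (MvPolynomial (Fin n) k),
        G'.eval₂ (aeval x : MvPolynomial (Fin n) k →ₐ[k] L).toRingHom v = 0 → G ∣ G' := by
  let R := MvPolynomial (Fin n) k
  let _ : Algebra R L := (aeval x : R →ₐ[k] L).toRingHom.toAlgebra
  have hinj : Function.Injective (algebraMap R L) := hx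
  have : FaithfulSMul R L := (faithfulSMul_iff_algebraMap_injective R L).2 hinj
  let _ : Algebra (FractionRing R) L := FractionRing.liftAlgebra R L
  change ∃ G : Polynomial R, Polynomial.aeval v G = 0 ∧ ∀ G', Polynomial.aeval v G' = 0 → G ∣ G'
  by_cases h : RingHom.ker (Polynomial.aeval v : Polynomial R →ₐ[R] L) = ⊥
  · exact ⟨0, map_zero _, fun G' h' => zero_dvd_iff.2 (by
      rwa [← RingHom.mem_ker, h, Ideal.mem_bot] at h')⟩
  obtain ⟨G, hG, hp⟩ := (RingHom.ker_isPrime _).exists_mem_prime_of_ne_bot h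
  rw [RingHom.mem_ker] at hG
  have h1 : G.natDegree ≠ 0 := fun h1 => by
    rw [Polynomial.eq_C_of_natDegree_eq_zero h1, Polynomial.aeval_C, map_eq_zero_iff _ hinj] at hG
    exact hp.ne_zero (by rw [Polynomial.eq_C_of_natDegree_eq_zero h1, hG, map_zero])
  have h2 := hp.irreducible.isPrimitive h1
  have h3 := (h2.irreducible_iff_irreducible_map_fraction_map (K := FractionRing R)).1
    hp.irreducible
  refine ⟨G, hG, fun G' h' => h2.dvd_of_fraction_map_dvd_fraction_map (K := FractionRing R)
    (h3.dvd_iff_not_isCoprime.2 fun h4 => ?_)⟩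
  simpa [Polynomial.aeval_map_algebraMap, hG, h'] using Polynomial.aeval_ne_zero_of_isCoprime h4 v

theorem deg_iff (P : MvPolynomial (Option (Fin n)) k) (i : Fin n) :
    P.degreeOf (some i) ≤ d ↔ ∀ j, ((optionEquivLeft k _ P).coeff j).degreeOf i ≤ d := by
  simp only [degreeOf_le_iff, mem_support_coeff_optionEquivLeft]
  refine ⟨fun h j m hm => by simpa using h _ hm, fun h m hm => ?_⟩
  simpa using h (m none) m.some (by simpa using hm)

theorem ev_eq (P : MvPolynomial (Option (Fin n)) k) :
    (optionEquivLeft k _ P).eval₂ (aeval x : MvPolynomial (Fin n) k →ₐ[k] L).toRingHom v =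
      aeval (fun o => Option.elim o v x) P := by
  induction P using MvPolynomial.induction_on with
  | C a => simp
  | add p q hp hq => rw [map_add, Polynomial.eval₂_add, hp, hq, map_add]
  | mul_X p o hp =>
    rw [map_mul, Polynomial.eval₂_mul, hp, map_mul]
    cases o <;> simp

theorem ndg (hn : 0 < n) (hx : AlgebraicIndependent k x) (h : ¬Dg k x d v) :
    ∃ i, ∀ P : MvPolynomial (Option (Fin n)) k, P.degreeOf (some i) ≤ d →
      aeval (fun o => Option.elim o v x) P = 0 → P = 0 := by
  obtain ⟨G, hG, hd⟩ := ker_dvd hx v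
  obtain ⟨G, rfl⟩ := (optionEquivLeft k (Fin n)).surjective G
  replace hd : ∀ P, aeval (fun o => Option.elim o v x) P = 0 → G ∣ P := fun P hP =>
    (map_dvd_iff (optionEquivLeft k (Fin n))).1 (hd _ (by rwa [ev_eq]))
  by_cases h0 : G = 0
  · exact ⟨⟨0, hn⟩, fun P _ hP => zero_dvd_iff.1 (h0 ▸ hd P hP)⟩
  obtain ⟨i, hi⟩ : ∃ i, ¬G.degreeOf (some i) ≤ d := not_forall.1 fun h1 =>
    h ⟨_, by simpa using h0, hG, fun i => (deg_iff G i).1 (h1 i)⟩
  refine ⟨i, fun P hP hP' => by_contra fun h2 => hi ?_⟩
  obtain ⟨A, rfl⟩ := hd P hP'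
  rw [degreeOf_mul_eq h0 (right_ne_zero_of_mul h2)] at hP
  omega

theorem lower {H : Submodule k L} [FiniteDimensional k H] {y₀ : L} (hn : 0 < n) (h0 : y₀ ≠ 0)
    (h1 : y₀ ∈ H) (h2 : ∀ i, y₀ * x i ∈ H) (hx : AlgebraicIndependent k x) (h : ¬Dg k x d v)
    (α a : ℕ) (ha : d ≤ a) :
    (α + 1) * ((d + 1) * (a + 1) ^ (n - 1)) ≤ finrank k ↥(span k {1, v} ^ α * H ^ (n * a)) := by
  classical
  obtain ⟨i, hi⟩ := ndg hn hx h
  let bd : Option (Fin n) → ℕ := fun o => o.elim α fun l => if l = i then d else a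
  let e : (∀ o, Fin (bd o + 1)) → Option (Fin n) →₀ ℕ := fun f =>
    Finsupp.equivFunOnFinite.symm fun o => f o
  have he : Function.Injective e := fun f g hfg => funext fun o =>
    Fin.ext (DFunLike.congr_fun hfg o)
  let ev := (LinearMap.mulLeft k (y₀ ^ (n * a))).comp
    (aeval (R := k) fun o => Option.elim o v x).toLinearMap
  have h3 : LinearIndependent k (ev ∘ basisMonomials (Option (Fin n)) k ∘ e) := by
    refine ((basisMonomials _ k).linearIndependent.comp e he).map
      (disjoint_def.2 fun P hP hP' => hi P ?_ ?_)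
    · clear hP'
      induction hP using span_induction with
      | mem P hP =>
        obtain ⟨f, rfl⟩ := hP
        have := (f (some i)).2
        simp only [bd, Option.elim, if_true] at this
        simpa [degreeOf_monomial_eq, e] using Nat.lt_succ_iff.1 this
      | zero => simp
      | add _ _ _ _ ha hb => exact (degreeOf_add_le _ _ _).trans (max_le ha hb)
      | smul c _ _ ha => rw [smul_eq_C_mul]; exact (degreeOf_C_mul_le _ _ _).trans ha
    · simpa [ev, h0] using hP'
  have h4 : span k (Set.range (ev ∘ basisMonomials (Option (Fin n)) k ∘ e)) ≤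
      span k {1, v} ^ α * H ^ (n * a) := by
    rw [span_le]
    rintro _ ⟨f, rfl⟩
    have h5 : ∑ l, (f (some l) : ℕ) ≤ n * a := by
      simpa using Finset.sum_le_card_nsmul Finset.univ (fun l => (f (some l) : ℕ)) a fun l _ => by
        have := (f (some l)).2
        simp only [bd, Option.elim] at this
        split_ifs at this <;> omega
    have h6 : (f none : ℕ) ≤ α := Nat.lt_succ_iff.1 (f none).2
    obtain ⟨r, hr⟩ := Nat.exists_eq_add_of_le h5
    obtain ⟨s, hs⟩ := Nat.exists_eq_add_of_le h6
    have h7 : (ev ∘ basisMonomials (Option (Fin n)) k ∘ e) f =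
        v ^ (f none : ℕ) * 1 ^ s * ((∏ l, (y₀ * x l) ^ (f (some l) : ℕ)) * y₀ ^ r) := by
      simp only [ev, e, Function.comp, coe_basisMonomials, LinearMap.coe_comp,
        AlgHom.toLinearMap_apply, LinearMap.mulLeft_apply, aeval_monomial, map_one, one_mul]
      rw [Finsupp.prod_fintype _ _ fun _ => pow_zero _, Fintype.prod_option, hr]
      simp only [mul_pow, Finset.prod_mul_distrib, Finset.prod_pow_eq_pow_sum, pow_add]
      simp
      ring
    rw [h7, SetLike.mem_coe]
    refine mul_mem_mul ?_ ?_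
    · rw [hs, pow_add]
      exact mul_mem_mul (pow_mem_pow _ (subset_span (by simp)) _)
        (pow_mem_pow _ (subset_span (by simp)) _)
    · rw [hr, pow_add, ← Finset.prod_pow_eq_pow_sum]
      exact mul_mem_mul (prod_mem _ fun l _ => pow_mem_pow _ (h2 l) _) (pow_mem_pow _ h1 _)
  have h8 := finrank_mono h4
  rw [finrank_span_eq_card h3, Fintype.card_pi] at h8
  simp only [Fintype.card_fin, Fintype.prod_option] at h8
  refine le_of_eq_of_le ?_ h8
  simp only [bd, Option.elim]
  rw [← Finset.mul_prod_erase _ _ (Finset.mem_univ i), if_pos rfl,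
    Finset.prod_congr rfl fun l hl => by rw [if_neg (Finset.ne_of_mem_erase hl)]]
  simp

end Pool.Agent.Lib.GD.KL
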