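import Pool.Agent.Lib.GD.Blue
import Pool.Agent.Lib.DU.LOG
import Pool.Agent.Lib.DU.SER
import Pool.Agent.Lib.DU.FIL
import Pool.Agent.Lib.DU.H0
import Pool.Agent.Lib.DU.H1
import Pool.Agent.Lib.DU.PROb

/-! Logarithmic forms with poles on a bounded number of prime divisors. -/

open Set Filter Pool.Agent.Lib.MP_9a2ae6_ag Pool.Agent.Lib.MP_e06174_ag
  Pool.Agent.Lib.MP_e39d36_ag

set_option linter.unusedSectionVars false
set_option linter.unusedVariables false

noncomputable section

namespace Pool.Agent.Lib.GD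

namespace LG

variable {K : Type} [Field K] [Algebra ℂ K] {n : ℕ}

/-- The coefficient vector of a differential form. -/
def vec (d : Fin n → Derivation ℂ K K) : Ω[K⁄ℂ] →ₗ[K] (Fin n → K) :=
  LinearMap.pi fun a => (d a).liftKaehlerDifferential

theorem vec_D (d : Fin n → Derivation ℂ K K) (f : K) :
    vec d (KaehlerDifferential.D ℂ K f) = grad d f := by
  funext a
  simp [vec, grad]

theorem vec_dlog (d : Fin n → Derivation ℂ K K) (f : K) :
    vec d (DU.dlog f) = f⁻¹ • grad d f := by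
  rw [DU.dlog, map_smul, vec_D]

theorem vec_frm (d : Fin n → Derivation ℂ K K) {R : Subring K} {v : Place ℂ K}
    (h : R ≤ v.O.toSubring) {ω : Ω[K⁄ℂ]} (hω : ω ∈ DU.frm R) : vec d ω ∈ frmV d v := by
  induction hω using Submodule.span_induction with
  | mem y hy =>
    obtain ⟨f, hf, rfl⟩ := hy
    rw [vec_D]
    exact Submodule.subset_span ⟨f, Place.mem_O.1 (h hf), rfl⟩
  | zero => rw [map_zero]; exact zero_mem _
  | add y z _ _ hy hz => rw [map_add]; exact add_mem hy hz
  | smul r y _ hy =>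
    have e : vec d (r • y) = (⟨r.1, h r.2⟩ : v.O.toSubring) • vec d y :=
      (vec d).map_smul (r : K) y
    rw [e]
    exact Submodule.smul_mem _ _ hy

theorem frm_le_log (d : Fin n → Derivation ℂ K K) (v : Place ℂ K) : frmV d v ≤ logV d v := by
  refine Submodule.span_le.2 ?_
  rintro _ ⟨f, hf, rfl⟩
  by_cases h0 : f = 0
  · have : grad d f = 0 := by funext a; simp [grad, h0]
    rw [this]
    exact zero_mem _
  · have e : grad d f = (⟨f, Place.mem_O.2 hf⟩ : v.O.toSubring) • (f⁻¹ • grad d f) := by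
      change grad d f = f • (f⁻¹ • grad d f)
      rw [smul_smul, mul_inv_cancel₀ h0, one_smul]
    rw [e]
    exact Submodule.smul_mem _ _ (Submodule.subset_span ⟨f, rfl⟩)

theorem vec_csmul (d : Fin n → Derivation ℂ K K) (v : Place ℂ K) (c : ℂ) (ω : Ω[K⁄ℂ]) :
    vec d (c • ω) =
      (⟨algebraMap ℂ K c, Place.mem_O.2 (Place.ge_const c)⟩ : v.O.toSubring) • vec d ω := by
  rw [← algebraMap_smul K c ω, map_smul]
  rfl

theorem ge_of_frm {x : Fin n → K} {d : Fin n → Derivation ℂ K K} (hd : Dual x d) {v : Place ℂ K}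
    (θ : Derivation ℂ K K) (hθ : ∀ f, v.Ge 0 f → v.Ge 0 (θ f)) {a : Fin n → K}
    (ha : a ∈ frmV d v) : v.Ge 0 (∑ b, a b * θ (x b)) := by
  induction ha using Submodule.span_induction with
  | mem y hy =>
    obtain ⟨f, hf, rfl⟩ := hy
    have := hd.chain (AlgHom.id ℂ K) θ f
    simp only [AlgHom.id_apply] at this
    have h2 := hθ f hf
    rw [this] at h2
    exact h2
  | zero => simp
  | add y z _ _ hy hz =>
    simp only [Pi.add_apply, add_mul, Finset.sum_add_distrib]
    exact hy.add hz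
  | smul r y _ hy =>
    have e : ∑ b, (r • y) b * θ (x b) = (r : K) * ∑ b, y b * θ (x b) := by
      rw [Finset.mul_sum]
      exact Finset.sum_congr rfl fun b _ => mul_assoc (r : K) _ _
    rw [e]
    simpa using (Place.mem_O.1 r.2).mul hy

theorem locEq_one {X : Var K} {E : X.PD} {x : X.Pt} (h : ¬X.O x ≤ X.O E.1) :
    Var.LocEq (Finsupp.single E 1) x 1 :=
  Var.LocEq.mk' one_ne_zero fun F hF => by
    have hne : F ≠ E := fun e => h (by rw [← e]; exact hF)
    rw [Finsupp.single_eq_of_ne hne, Var.ord_un Un.one]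

end LG

open LG in
theorem blockLG (h : St_DV) : St_LG := by
  intro K _ _ n C X Q hc hv
  have hD := h K n C
  obtain ⟨ρ, hρ⟩ := DU.blockLOG DU.PROb.pro1 (DU.blockSER (DU.blockFIL DU.blockH0) DU.blockH1) K X Q
  refine ⟨ρ, fun Γ hΓ => ?_⟩
  obtain ⟨c, hc0, η, hη⟩ := hρ fun i => ⟨Finsupp.single (Γ i) 1, hc (Γ i)⟩
  refine ⟨vec C.d η, ?_, fun v x hx => ⟨?_, fun hm => ?_⟩⟩
  · obtain ⟨i, hi⟩ := Function.ne_iff.1 hc0
    refine ⟨i, fun hmem => ?_⟩
    classical
    obtain ⟨z, j, hz⟩ := hv (Γ i)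
    have hz1 : (plc (Γ i)).ord (z j) = 1 := hz.1
    have hz0 : z j ≠ 0 := fun e => by simp [e] at hz1
    have h1 := hη (Γ i).1 (fun l => if l = i then z j else 1) fun l => by
      split_ifs with hl
      · subst hl
        refine Var.LocEq.mk' hz0 fun F hF => ?_
        rw [← Var.pd_eq hF, ← plc_ord, hz1]
        exact Finsupp.single_eq_same
      · exact locEq_one fun e => hl (hΓ (Var.pd_eq e)).symm
    have h2 : ∑ l, c l • DU.dlog (if l = i then z j else 1) = c i • DU.dlog (z j) := by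
      rw [Finset.sum_eq_single i]
      · simp
      · intro l _ hl
        simp [hl, DU.dlog]
      · simp
    rw [h2] at h1
    have h3 := vec_frm C.d (v := plc (Γ i)) (plc_O (Γ i)).ge h1
    rw [map_sub] at h3
    have h4 := sub_mem hmem h3
    rw [sub_sub_cancel, ← algebraMap_smul K (c i), map_smul, vec_dlog] at h4
    obtain ⟨d', hd'⟩ := exists_dual (hD.tb _ z j hz)
    have h5 := ge_of_frm C.dual (d' j) (hD.pres _ z j hz d' hd' j) h4
    have h6 := C.dual.chain (AlgHom.id ℂ K) (d' j) (z j)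
    simp only [AlgHom.id_apply, hd'.dual, if_true] at h6
    have h7 : ∑ b, (algebraMap ℂ K (c i) • (z j)⁻¹ • grad C.d (z j)) b * d' j (C.x b) =
        algebraMap ℂ K (c i) * (z j)⁻¹ := by
      rw [← mul_one (algebraMap ℂ K (c i) * (z j)⁻¹), h6, Finset.mul_sum]
      exact Finset.sum_congr rfl fun b _ => by
        simp only [Pi.smul_apply, smul_eq_mul, grad]; ring
    have h8 : algebraMap ℂ K (c i) ≠ 0 := by simpa using hi
    rw [h7] at h5
    have h9 := h5.le (mul_ne_zero h8 (inv_ne_zero hz0))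
    rw [Place.ord_mul _ h8 (inv_ne_zero hz0), Place.ord_inv, hz1] at h9
    simp at h9
  · choose f hf using fun i => hc (Γ i) x
    have h1 := frm_le_log C.d v (vec_frm C.d hx.1 (hη x f hf))
    rw [map_sub, map_sum] at h1
    have h2 : ∑ i, vec C.d (c i • DU.dlog (f i)) ∈ logV C.d v :=
      sum_mem fun i _ => by
        rw [vec_csmul C.d v, vec_dlog]
        exact Submodule.smul_mem _ _ (Submodule.subset_span ⟨f i, rfl⟩)
    simpa using add_mem h1 h2
  · have h1 := vec_frm C.d hx.1 (hη x (fun _ => 1) fun i => locEq_one (hm i))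
    simpa [DU.dlog] using h1

end Pool.Agent.Lib.GD
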