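import Pool.Agent.Lib.GD.Blue

/-! Existence of the invariant limit of normalised orders of vanishing. -/

open Set Filter Topology Pool.Agent.Lib.MP_9a2ae6_ag Pool.Agent.Lib.MP_e06174_ag

set_option linter.unusedSectionVars false
set_option linter.unusedVariables false

noncomputable section

namespace Pool.Agent.Lib.GD

namespace LIM

variable {L : Type} [Field L] [Algebra ℂ L] {n : ℕ} {C : Ctx L n} {M : Model C}

theorem fo_pow (v : Place ℂ L) (m t : ℕ) (u : L) :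
    C.fo v (m * t) (u ^ t) = t * C.fo v m u := by
  simp only [Ctx.fo, Place.ord_pow]; push_cast; ring

theorem T_pow (ψ : L →ₐ[ℂ] L) (m t : ℕ) (u : L) :
    C.T ψ (m * t) (u ^ t) = C.T ψ m u ^ t := by
  simp only [Ctx.T, map_pow, mul_pow, pow_mul]

theorem map_quot (hD : DVF C) (ψ : L →ₐ[ℂ] L) (W : ℕ) (u u' : L) :
    ψ (u / u') = C.T ψ W u / C.T ψ W u' := by
  have h : jac C.d (ψ ∘ C.x) ^ W ≠ 0 := pow_ne_zero _ (hD.jac_ne _ (hD.tb_comp ψ))
  simp only [Ctx.T, map_div₀]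
  rw [mul_div_mul_right _ _ h]

theorem dm_pow (hB : Bas M) (m t e : ℕ) (u : L)
    (h : M.Dm (fun E => -(C.fo (M.pl E) m u : ℝ)) e) :
    M.Dm (fun E => -(C.fo (M.pl E) (m * t) (u ^ t) : ℝ)) (t * e) := by
  refine hB.dm_mono _ _ _ _ (fun E => le_of_eq ?_) le_rfl (hB.dm_nsmul _ e t h)
  simp only [fo_pow, Pi.smul_apply, nsmul_eq_mul]
  push_cast; ring

theorem ord_quot (v : Place ℂ L) (m m' : ℕ) (u u' : L) (hu : u ≠ 0) (hu' : u' ≠ 0) :
    v.ord (u ^ m' / u' ^ m) = m' * C.fo v m u - m * C.fo v m' u' := by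
  rw [v.ord_div (pow_ne_zero _ hu) (pow_ne_zero _ hu')]
  simp only [Ctx.fo, Place.ord_pow]; ring

/-- Lower bounds for the order along a divisorial place. -/
theorem pbk (hB : Bas M) (v : Place ℂ L) (hv : Dv n v) : ∃ c : ℕ, ∀ (m e : ℕ) (u : L),
    M.Dm (fun E => -(C.fo (M.pl E) m u : ℝ)) e →
      -((c : ℝ) * e) ≤ C.fo v m u ∧
        ∀ E, (C.fo (M.pl E) m u : ℝ) * M.mu v E - c * e ≤ C.fo v m u := by
  classical
  obtain ⟨c, hc⟩ := hB.dm_pb v hv
  refine ⟨c, fun m e u h => ?_⟩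
  have key : ∀ T : Finset M.P, (M.fin_ord u).toFinset ∪ M.fin_kap.toFinset ⊆ T →
      ∑ F ∈ T, (C.fo (M.pl F) m u : ℝ) * M.mu v F ≤ C.fo v m u ∧
      ∑ F ∈ T, max (-(C.fo (M.pl F) m u : ℝ)) 0 * M.mu v F ≤ c * e := by
    intro T hT
    have t1 : ∀ F, (M.pl F).ord u ≠ 0 → F ∈ T := fun F hF => hT (by simp [hF])
    have t2 : ∀ F, kap C.d (M.pl F) ≠ 0 → F ∈ T := fun F hF => hT (by simp [hF])
    have t3 : ∀ F, C.fo (M.pl F) m u ≠ 0 → F ∈ T := by
      intro F hF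
      by_contra hn
      have a1 : (M.pl F).ord u = 0 := by_contra fun h => hn (t1 F h)
      have a2 : kap C.d (M.pl F) = 0 := by_contra fun h => hn (t2 F h)
      exact hF (by simp [Ctx.fo, a1, a2])
    constructor
    · have h1 := M.pb_ord v u
      have h2 := M.pb_kap v hv
      rw [finsum_eq_sum_of_support_subset (s := T) _ fun F hF =>
        t1 F (left_ne_zero_of_mul hF)] at h1
      rw [finsum_eq_sum_of_support_subset (s := T) _ fun F hF =>
        t2 F (left_ne_zero_of_mul hF)] at h2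
      have h3 : ∑ F ∈ T, C.fo (M.pl F) m u * M.mu v F ≤ C.fo v m u := by
        have : ∑ F ∈ T, C.fo (M.pl F) m u * M.mu v F =
            ∑ F ∈ T, (M.pl F).ord u * M.mu v F + m * ∑ F ∈ T, kap C.d (M.pl F) * M.mu v F := by
          rw [Finset.mul_sum, ← Finset.sum_add_distrib]
          exact Finset.sum_congr rfl fun F _ => by simp only [Ctx.fo]; ring
        rw [this, ← h1]
        have := mul_le_mul_of_nonneg_left h2 (Int.natCast_nonneg m)
        simp only [Ctx.fo]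
        linarith
      exact_mod_cast h3
    · have t4 : ∀ F, max (-(C.fo (M.pl F) m u : ℝ)) 0 ≠ 0 → F ∈ T := by
        intro F hF
        refine t3 F fun h0 => hF ?_
        simp [h0]
      have h1 := hc _ e (T.finite_toSet.subset fun F hF => t4 F hF) (hB.dm_pos _ e h)
      rwa [finsum_eq_sum_of_support_subset (s := T) _ fun F hF =>
        t4 F (left_ne_zero_of_mul hF)] at h1
  have pt : ∀ F, -(max (-(C.fo (M.pl F) m u : ℝ)) 0 * M.mu v F) ≤
      (C.fo (M.pl F) m u : ℝ) * M.mu v F := by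
    intro F
    have := mul_le_mul_of_nonneg_right (le_max_left (-(C.fo (M.pl F) m u : ℝ)) 0)
      (Nat.cast_nonneg (α := ℝ) (M.mu v F))
    linarith
  constructor
  · obtain ⟨k1, k2⟩ := key _ subset_rfl
    have := Finset.sum_le_sum (s := (M.fin_ord u).toFinset ∪ M.fin_kap.toFinset) fun F _ => pt F
    rw [Finset.sum_neg_distrib] at this
    linarith
  · intro E
    obtain ⟨k1, k2⟩ := key (insert E ((M.fin_ord u).toFinset ∪ M.fin_kap.toFinset))
      (Finset.subset_insert _ _)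
    set T := insert E ((M.fin_ord u).toFinset ∪ M.fin_kap.toFinset) with hT
    have hE : E ∈ T := Finset.mem_insert_self _ _
    rw [← Finset.add_sum_erase _ _ hE] at k1 k2
    have := Finset.sum_le_sum (s := T.erase E) fun F _ => pt F
    rw [Finset.sum_neg_distrib] at this
    have h0 : 0 ≤ max (-(C.fo (M.pl E) m u : ℝ)) 0 * M.mu v E :=
      mul_nonneg (le_max_right _ _) (Nat.cast_nonneg _)
    linarith

/-- The family of pulled back forms. -/
structure Fm (M : Model C) (φ : L →ₐ[ℂ] L) (S : Set ℕ) (σ : ℕ → ℕ → L) (e μ : ℕ → ℕ) :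
    Prop where
  ne : ∀ j, ∀ m ∈ S, σ j m ≠ 0
  sh : ∀ i j m, C.T (φ ^ i) m (σ j m) = σ (i + j) m
  dm : ∀ j, ∀ m ∈ S, M.Dm (fun E => -(C.fo (M.pl E) m (σ j m) : ℝ)) (e j)
  mono : Monotone μ
  pos : ∀ j, j + 1 ≤ μ j
  big : ∀ j i, i ≤ 2 * j → (j + 1) * e i ≤ μ j

theorem exists_fm (hD : DVF C) (hB : Bas M) (φ : L →ₐ[ℂ] L) (S : Set ℕ) (s : ℕ → L)
    (D : M.P →₀ ℤ) (hs : ∀ m ∈ S, s m ≠ 0 ∧ s m ∈ M.Sec m D) :
    ∃ σ e μ, Fm M φ S σ e μ := by
  obtain ⟨e0, he0⟩ := hB.dm_fin (fun E => (D E : ℝ)) (D.hasFiniteSupport.subset fun E hE => by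
    have : (0 : ℝ) < D E := hE
    intro h0
    rw [h0] at this
    simp at this)
  choose c hc using fun j : ℕ => hB.sec_T (φ ^ j)
  refine ⟨fun j m => C.T (φ ^ j) m (s m), fun j => c j * e0,
    fun j => (j + 1) * (∑ i ∈ Finset.range (2 * j + 1), c i * e0 + 1), ?_, ?_, ?_, ?_, ?_, ?_⟩
  · exact fun j m hm => hD.T_ne _ _ _ (hs m hm).1
  · intro i j m
    rw [← hD.T_mul, ← pow_add]
  · intro j m hm
    refine hc j m e0 _ (hs m hm).1 (hB.dm_mono _ _ _ _ (fun E => ?_) le_rfl he0)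
    have h1 := ((hs m hm).2 E).le (hs m hm).1
    have h2 : -C.fo (M.pl E) m (s m) ≤ D E := by simp only [Ctx.fo]; linarith
    show -(C.fo (M.pl E) m (s m) : ℝ) ≤ (D E : ℝ)
    exact_mod_cast h2
  · intro j j' hj
    refine Nat.mul_le_mul (by omega) (Nat.succ_le_succ ?_)
    exact Finset.sum_le_sum_of_subset (Finset.range_mono (by omega))
  · intro j
    exact Nat.le_mul_of_pos_right _ (Nat.succ_pos _)
  · intro j i hi
    refine Nat.mul_le_mul_left _ (Nat.le_succ_of_le ?_)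
    exact Finset.single_le_sum (f := fun i => c i * e0) (fun _ _ => Nat.zero_le _)
      (Finset.mem_range.2 (by omega))

variable {φ : L →ₐ[ℂ] L} {S : Set ℕ} {σ : ℕ → ℕ → L} {e μ : ℕ → ℕ}

theorem Fm.le (h : Fm M φ S σ e μ) {j i m : ℕ} (hi : i ≤ 2 * j) (hm : μ j ≤ m) : e i ≤ m :=
  le_trans (Nat.le_mul_of_pos_left _ (Nat.succ_pos j)) ((h.big j i hi).trans hm)

theorem Fm.one_le (h : Fm M φ S σ e μ) {j m : ℕ} (hm : μ j ≤ m) : 1 ≤ m := by
  have := h.pos j; omega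

theorem cauchy (hD : DVF C) (hB : Bas M) (hK : KLP C.H φ) (h : Fm M φ S σ e μ) (N : ℕ)
    (hN : 0 < N) : ∃ j₀, ∀ j j' m m', j₀ ≤ j → j₀ ≤ j' → m ∈ S → m' ∈ S → μ j ≤ m → μ j' ≤ m' →
      Ht C.H (m * m' / N) (σ j m ^ m' / σ j' m' ^ m) := by
  obtain ⟨c, hc⟩ := hB.ht_div
  obtain ⟨j₀, hj₀⟩ := hK ((2 * c + 2) * N) (by positivity)
  refine ⟨j₀, fun j j' m m' hj hj' hm hm' h1 h1' => ?_⟩
  obtain ⟨a, rfl⟩ : ∃ a, j = j₀ + a := ⟨j - j₀, by omega⟩
  obtain ⟨a', rfl⟩ : ∃ a', j' = j₀ + a' := ⟨j' - j₀, by omega⟩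
  have p1 := h.one_le h1
  have p1' := h.one_le h1'
  have sh : ∀ i, (φ ^ i) (σ a m ^ m' / σ a' m' ^ m) = σ (i + a) m ^ m' / σ (i + a') m' ^ m := by
    intro i
    rw [map_quot hD _ (m * m'), T_pow, mul_comm m m', T_pow, h.sh, h.sh]
  have ht : ∀ i, i ≤ 2 * j₀ →
      Ht C.H ((2 * c + 2) * (m * m')) (σ (i + a) m ^ m' / σ (i + a') m' ^ m) := by
    intro i hi
    have b1 : e (i + a) ≤ m := h.le (by omega) h1
    have b2 : e (i + a') ≤ m' := h.le (by omega) h1'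
    have d1 := dm_pow hB m m' _ _ (h.dm (i + a) m hm)
    have d2 := dm_pow hB m' m _ _ (h.dm (i + a') m' hm')
    rw [mul_comm m' m] at d2
    have w1 : 1 ≤ m * m' := Nat.mul_pos p1 p1'
    refine hB.ht_mono _ _ _ ?_ (hc (m * m') (m * m') _ _ (pow_ne_zero _ (h.ne _ _ hm))
      (pow_ne_zero _ (h.ne _ _ hm')) (hB.dm_mono _ _ _ _ le_rfl ?_ d1)
      (hB.dm_mono _ _ _ _ le_rfl ?_ d2))
    · nlinarith
    · rw [mul_comm m m']; exact Nat.mul_le_mul_left _ b1
    · exact Nat.mul_le_mul_left _ b2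
  have h0 := ht 0 (Nat.zero_le _)
  simp only [zero_add] at h0
  have h2 := hj₀ _ _ h0 (by rw [sh]; exact ht _ le_rfl)
  rwa [sh, Nat.mul_div_mul_left _ _ (by positivity)] at h2

/-- The normalised order. -/
def rr (C : Ctx L n) (σ : ℕ → ℕ → L) (v : Place ℂ L) (j m : ℕ) : ℝ := (C.fo v m (σ j m) : ℝ) / m

theorem cauchy' (hD : DVF C) (hB : Bas M) (hK : KLP C.H φ) (h : Fm M φ S σ e μ) :
    ∃ iz : Place ℂ L → ℝ, (∀ v, 0 ≤ iz v) ∧ ∀ N : ℕ, 0 < N → ∃ j₀, ∀ j j' m m', j₀ ≤ j → j₀ ≤ j' →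
      m ∈ S → m' ∈ S → μ j ≤ m → μ j' ≤ m' → ∀ v, Dv n v →
        |rr C σ v j m - rr C σ v j' m'| ≤ iz v / N := by
  classical
  choose! c hc using hB.ht_ord
  refine ⟨fun v => c v, fun v => Nat.cast_nonneg _, fun N hN => ?_⟩
  obtain ⟨j₀, hj₀⟩ := cauchy hD hB hK h N hN
  refine ⟨j₀, fun j j' m m' hj hj' hm hm' h1 h1' v hv => ?_⟩
  have h2 := hc v hv _ _ (hj₀ j j' m m' hj hj' hm hm' h1 h1')
  rw [ord_quot (C := C) v m m' _ _ (h.ne _ _ hm) (h.ne _ _ hm')] at h2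
  have p1 : (0 : ℝ) < m := by exact_mod_cast h.one_le h1
  have p1' : (0 : ℝ) < m' := by exact_mod_cast h.one_le h1'
  have pN : (0 : ℝ) < N := by exact_mod_cast hN
  have h3 : |(m' : ℝ) * C.fo v m (σ j m) - m * C.fo v m' (σ j' m')| ≤
      c v * ((m * m' / N : ℕ) : ℝ) := by
    have := (Int.cast_le (R := ℝ)).2 h2
    simpa only [Int.cast_abs, Int.cast_sub, Int.cast_mul, Int.cast_natCast] using this
  have h4 : ((m * m' / N : ℕ) : ℝ) ≤ (m : ℝ) * m' / N := by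
    have := Nat.cast_div_le (α := ℝ) (m := m * m') (n := N)
    rwa [Nat.cast_mul] at this
  have h5 : rr C σ v j m - rr C σ v j' m' =
      ((m' : ℝ) * C.fo v m (σ j m) - m * C.fo v m' (σ j' m')) / (m * m') := by
    unfold rr; field_simp
  rw [h5, abs_div, abs_of_pos (mul_pos p1 p1'), div_le_iff₀ (mul_pos p1 p1')]
  calc _ ≤ c v * ((m : ℝ) * m' / N) :=
        h3.trans (mul_le_mul_of_nonneg_left h4 (Nat.cast_nonneg _))
    _ = _ := by ring

theorem small (a : ℝ) (ε : ℝ) (hε : 0 < ε) : ∃ N : ℕ, 0 < N ∧ a / N < ε := by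
  obtain ⟨N, hN⟩ := exists_nat_gt (a / ε)
  refine ⟨N + 1, Nat.succ_pos _, ?_⟩
  rw [div_lt_iff₀ (by positivity)]
  rw [div_lt_iff₀ hε] at hN
  push_cast
  nlinarith

theorem exists_lim (hD : DVF C) (hB : Bas M) (hK : KLP C.H φ) (h : Fm M φ S σ e μ)
    (hS : S.Infinite) : ∃ nn iz : Place ℂ L → ℝ, (∀ v, 0 ≤ iz v) ∧ ∀ N : ℕ, 0 < N → ∃ j₀,
      ∀ j m, j₀ ≤ j → m ∈ S → μ j ≤ m → ∀ v, Dv n v → |rr C σ v j m - nn v| ≤ iz v / N := by
  obtain ⟨iz, iz0, hz⟩ := cauchy' hD hB hK h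
  choose g hg hg' using fun j => hS.exists_gt (μ j)
  have cs : ∀ v, Dv n v → ∃ a, Tendsto (fun j => rr C σ v j (g j)) atTop (𝓝 a) := by
    intro v hv
    refine cauchySeq_tendsto_of_complete (Metric.cauchySeq_iff.2 fun ε hε => ?_)
    obtain ⟨N, hN, hN'⟩ := small (iz v) ε hε
    obtain ⟨j₀, hj₀⟩ := hz N hN
    exact ⟨j₀, fun j hj j' hj' => lt_of_le_of_lt
      (hj₀ j j' _ _ hj hj' (hg j) (hg j') (hg' j).le (hg' j').le v hv) hN'⟩
  choose! nn hnn using cs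
  refine ⟨nn, iz, iz0, fun N hN => ?_⟩
  obtain ⟨j₀, hj₀⟩ := hz N hN
  refine ⟨j₀, fun j m hj hm h1 v hv => ?_⟩
  refine le_of_tendsto ((hnn v hv).const_sub (rr C σ v j m)).abs ?_
  filter_upwards [eventually_ge_atTop j₀] with j' hj'
  exact hj₀ j j' m _ hj hj' hm (hg j') h1 (hg' j').le v hv

section lim

variable {nn iz : Place ℂ L → ℝ}

theorem tend (hz : ∀ N : ℕ, 0 < N → ∃ j₀,
      ∀ j m, j₀ ≤ j → m ∈ S → μ j ≤ m → ∀ v, Dv n v → |rr C σ v j m - nn v| ≤ iz v / N)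
    (i : ℕ) (g : ℕ → ℕ) (hg : ∀ j, g j ∈ S) (hg' : ∀ j, μ (i + j) ≤ g j) (v : Place ℂ L)
    (hv : Dv n v) : Tendsto (fun j => rr C σ v (i + j) (g j)) atTop (𝓝 (nn v)) := by
  refine Metric.tendsto_atTop.2 fun ε hε => ?_
  obtain ⟨N, hN, hN'⟩ := small (iz v) ε hε
  obtain ⟨j₀, hj₀⟩ := hz N hN
  exact ⟨j₀, fun j hj => lt_of_le_of_lt (hj₀ _ _ (by omega) (hg j) (hg' j) v hv) hN'⟩

theorem err (h : Fm M φ S σ e μ) (c : ℕ) {j m : ℕ} (hm : μ j ≤ m) :
    (c : ℝ) * e j / m ≤ c * (1 / ((j : ℝ) + 1)) := by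
  have p1 : (0 : ℝ) < m := by exact_mod_cast h.one_le hm
  have h1 : ((j : ℝ) + 1) * e j ≤ m := by exact_mod_cast (h.big j j (by omega)).trans hm
  rw [mul_div_assoc]
  refine mul_le_mul_of_nonneg_left ?_ (Nat.cast_nonneg _)
  rw [div_le_div_iff₀ p1 (by positivity)]
  linarith

theorem app (hD : DVF C) (hB : Bas M) (hK : KLP C.H φ) (h : Fm M φ S σ e μ) (hS : S.Infinite)
    (iz0 : ∀ v, 0 ≤ iz v) (hz : ∀ N : ℕ, 0 < N → ∃ j₀,
      ∀ j m, j₀ ≤ j → m ∈ S → μ j ≤ m → ∀ v, Dv n v → |rr C σ v j m - nn v| ≤ iz v / N)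
    (N : ℕ) (hN : 0 < N) : ∃ j₀, ∀ j m, j₀ ≤ j → m ∈ S → μ j ≤ m → M.Good nn iz N m (σ j m) := by
  classical
  obtain ⟨c, hc⟩ := hB.dm_div
  obtain ⟨j₁, hj₁⟩ := hz N hN
  obtain ⟨j₂, hj₂⟩ := cauchy hD hB hK h (4 * (c + 1) * N) (by positivity)
  refine ⟨j₁ + j₂ + 2 * N, fun j m hj hm h1 => ⟨h.ne _ _ hm, fun v hv => ?_, ?_⟩⟩
  · have p1 : (0 : ℝ) < m := by exact_mod_cast h.one_le h1
    have h2 := hj₁ j m (by omega) hm h1 v hv
    have h3 : (C.fo v m (σ j m) : ℝ) - m * nn v = m * (rr C σ v j m - nn v) := by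
      unfold rr; field_simp
    rw [h3, abs_mul, abs_of_pos p1]
    calc _ ≤ m * (iz v / N) := mul_le_mul_of_nonneg_left h2 p1.le
      _ = _ := by ring
  · have p1 : (0 : ℝ) < m := by exact_mod_cast h.one_le h1
    choose g hg hg' using fun j => hS.exists_gt (μ j)
    set G : M.P → ℤ := fun E => if nn (M.pl E) = 0 then max (C.fo (M.pl E) m (σ j m)) 0 else 0
      with hG
    have ev : ∀ᶠ j' in atTop, ∀ E ∈ {E | C.fo (M.pl E) m (σ j m) ≠ 0}, nn (M.pl E) = 0 →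
        rr C σ (M.pl E) j' (g j') < 1 / (2 * m) := by
      refine (Filter.eventually_all_finite (hB.fin_fo m (σ j m))).2 fun E _ => ?_
      by_cases h0 : nn (M.pl E) = 0
      · have t := tend hz 0 g hg (fun j => by simpa using (hg' j).le) _ (M.dv E)
        simp only [zero_add, h0] at t
        exact (t.eventually (gt_mem_nhds (by positivity))).mono fun _ hx _ => hx
      · exact Eventually.of_forall fun _ h1 => absurd h1 h0
    obtain ⟨j', hj', hj''⟩ := (ev.and (eventually_ge_atTop j₂)).exists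
    have q1 : 1 ≤ g j' := h.one_le (hg' j').le
    have q2 : (0 : ℝ) < g j' := by exact_mod_cast q1
    have ht := hj₂ j j' m (g j') (by omega) hj'' hm (hg j') h1 (hg' j').le
    have d1 := (hB.dm_of_ht _ _ (div_ne_zero (pow_ne_zero _ (h.ne _ _ hm))
      (pow_ne_zero _ (h.ne _ _ (hg j')))) ht).1
    have d2 := hB.dm_nsmul _ _ 2 (hB.dm_pos _ _ d1)
    have d3 : M.Dm (fun E => ((g j' : ℕ) : ℝ) * G E) (2 * (m * g j' / (4 * (c + 1) * N))) := by
      refine hB.dm_mono _ _ _ _ (fun E => ?_) le_rfl d2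
      simp only [Pi.smul_apply, nsmul_eq_mul, Nat.cast_ofNat]
      rw [ord_quot (C := C) _ m (g j') _ _ (h.ne _ _ hm) (h.ne _ _ (hg j'))]
      have z0 : (0 : ℝ) ≤ max (((g j' : ℕ) * C.fo (M.pl E) m (σ j m) -
        m * C.fo (M.pl E) (g j') (σ j' (g j')) : ℤ) : ℝ) 0 := le_max_right _ _
      have z1 := le_max_left (((g j' : ℕ) * C.fo (M.pl E) m (σ j m) -
        m * C.fo (M.pl E) (g j') (σ j' (g j')) : ℤ) : ℝ) 0
      by_cases h0 : nn (M.pl E) = 0
      · by_cases h2 : C.fo (M.pl E) m (σ j m) ≤ 0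
        · have : G E = 0 := by simp [hG, h0, h2]
          rw [this]; simp only [Int.cast_zero, mul_zero]; linarith
        · have h3 : 1 ≤ C.fo (M.pl E) m (σ j m) := by omega
          have : G E = C.fo (M.pl E) m (σ j m) := by
            simp only [hG, h0, if_true]; exact max_eq_left (by omega)
          rw [this]
          have h4 := hj' E (by show C.fo (M.pl E) m (σ j m) ≠ 0; omega) h0
          unfold rr at h4
          rw [div_lt_div_iff₀ q2 (by positivity)] at h4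
          have h5 : (1 : ℝ) ≤ C.fo (M.pl E) m (σ j m) := by exact_mod_cast h3
          have h6 := mul_le_mul_of_nonneg_left h5 q2.le
          push_cast at z1 ⊢
          linarith
      · have : G E = 0 := by simp [hG, h0]
        rw [this]; simp only [Int.cast_zero, mul_zero]; linarith
    have d4 := hc G (g j') _ q1 d3
    have d5 := hB.dm_add _ _ _ _ d4 (hB.dm_pos _ _ (h.dm j m hm))
    refine hB.dm_mono _ _ _ _ (fun E => ?_) ?_ d5
    · simp only [Pi.add_apply, hG]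
      have z0 : (0 : ℝ) ≤ max (-(C.fo (M.pl E) m (σ j m) : ℝ)) 0 := le_max_right _ _
      split_ifs with h0
      · push_cast
        rcases le_total (C.fo (M.pl E) m (σ j m) : ℝ) 0 with h2 | h2
        · rw [abs_of_nonpos h2, max_eq_right h2, max_eq_left (by linarith)]; linarith
        · rw [abs_of_nonneg h2, max_eq_left h2]; linarith
      · simp
    · rw [Nat.le_div_iff_mul_le hN]
      set Y := m * g j' / (4 * (c + 1) * N) with hY
      set X := c * (2 * Y) / g j' with hX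
      have a1 : Y * (4 * (c + 1) * N) ≤ m * g j' := Nat.div_mul_le_self _ _
      have a2 : X * g j' ≤ c * (2 * Y) := Nat.div_mul_le_self _ _
      have a3 : 2 * (X * N) * g j' ≤ m * g j' := by nlinarith [Nat.zero_le (Y * N)]
      have a4 : 2 * (X * N) ≤ m := Nat.le_of_mul_le_mul_right a3 q1
      have a5 : (j + 1) * e j ≤ m := (h.big j j (by omega)).trans h1
      have a6 : 2 * N * e j ≤ (j + 1) * e j := Nat.mul_le_mul_right _ (by omega)
      nlinarith

theorem lim (hD : DVF C) (hB : Bas M) (hK : KLP C.H φ) (h : Fm M φ S σ e μ) (hS : S.Infinite)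
    (iz0 : ∀ v, 0 ≤ iz v) (hz : ∀ N : ℕ, 0 < N → ∃ j₀,
      ∀ j m, j₀ ≤ j → m ∈ S → μ j ≤ m → ∀ v, Dv n v → |rr C σ v j m - nn v| ≤ iz v / N) :
    M.Lim φ nn := by
  choose g hg hg' using fun j => hS.exists_gt (μ j)
  have t0 : ∀ v, Dv n v → Tendsto (fun j => rr C σ v j (g j)) atTop (𝓝 (nn v)) := by
    intro v hv
    simpa only [zero_add] using tend hz 0 g hg (fun j => by simpa using (hg' j).le) v hv
  have gp : ∀ j, (0 : ℝ) < g j := fun j => by exact_mod_cast h.one_le (hg' j).le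
  have z : ∀ c : ℕ, Tendsto (fun j : ℕ => (c : ℝ) * (1 / ((j : ℝ) + 1))) atTop (𝓝 0) := by
    intro c
    simpa using tendsto_one_div_add_atTop_nhds_zero_nat.const_mul (c : ℝ)
  refine ⟨fun v hv => ?_, fun i w v r hw hO => ?_, fun v E hv => ?_, fun a ha => ?_, iz,
    fun N I hN => ?_⟩
  · obtain ⟨c, hc⟩ := pbk hB v hv
    have t := (t0 v hv).add (z c)
    rw [add_zero] at t
    refine ge_of_tendsto' t fun j => ?_
    have h1 := (hc (g j) _ _ (h.dm j _ (hg j))).1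
    have h2 := err h c (hg' j).le
    have h3 := div_le_div_of_nonneg_right h1 (gp j).le
    unfold rr
    rw [neg_div] at h3
    linarith
  · have hv : Dv n v := (hD.dv_iff _ w v r hO).1 hw
    have t1 := (tend hz i (fun j => g (i + j)) (fun j => hg _) (fun j => (hg' _).le) w hw).add_const 1
    have t2 := ((tend hz 0 (fun j => g (i + j)) (fun j => hg _)
      (fun j => (h.mono (by omega)).trans (hg' _).le) v hv).add_const 1).const_mul (r : ℝ)
    refine tendsto_nhds_unique t1 (t2.congr fun j => ?_)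
    have h1 := hD.fo_T _ w v r hO hw (g (i + j)) _ (h.ne j _ (hg (i + j)))
    rw [h.sh] at h1
    have h2 : (C.fo w (g (i + j)) (σ (i + j) (g (i + j))) : ℝ) + g (i + j) =
        r * (C.fo v (g (i + j)) (σ j (g (i + j))) + g (i + j)) := by exact_mod_cast h1
    have := (gp (i + j)).ne'
    simp only [rr, zero_add]
    field_simp
    linarith
  · obtain ⟨c, hc⟩ := pbk hB v hv
    have t := (t0 v hv).add (z c)
    rw [add_zero] at t
    refine le_of_tendsto_of_tendsto' ((t0 _ (M.dv E)).mul_const _) t fun j => ?_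
    have h1 := (hc (g j) _ _ (h.dm j _ (hg j))).2 E
    have h2 := err h c (hg' j).le
    have h3 := div_le_div_of_nonneg_right h1 (gp j).le
    unfold rr
    rw [sub_div, mul_div_right_comm] at h3
    linarith
  · obtain ⟨c₁, hc₁⟩ := hB.dm_fo
    obtain ⟨c₂, hc₂⟩ := hB.dm_card
    have bd : ∀ F : Finset M.P, ∑ E ∈ F, nn (M.pl E) ≤ c₂ * (2 * c₁ + 1) := by
      intro F
      refine le_of_tendsto' (tendsto_finsetSum F fun E _ => t0 _ (M.dv E)) fun j => ?_
      have h1 := hc₂ _ _ (hc₁ _ _ _ (h.ne j _ (hg j)) (h.dm j _ (hg j))) F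
      have h2 : (e j : ℝ) ≤ g j := by exact_mod_cast h.le (by omega : j ≤ 2 * j) (hg' j).le
      have h3 : (1 : ℝ) ≤ g j := by exact_mod_cast h.one_le (hg' j).le
      unfold rr
      rw [← Finset.sum_div, div_le_iff₀ (gp j), mul_assoc]
      refine h1.trans (mul_le_mul_of_nonneg_left ?_ (Nat.cast_nonneg _))
      push_cast
      have := mul_le_mul_of_nonneg_left h3 (Nat.cast_nonneg (α := ℝ) c₁)
      linarith
    by_contra hinf
    obtain ⟨K, hK'⟩ := exists_nat_gt ((c₂ : ℝ) * (2 * c₁ + 1) / a)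
    obtain ⟨F, hF, hc⟩ := Set.Infinite.exists_subset_card_eq hinf K
    have h1 := Finset.card_nsmul_le_sum F (fun E => nn (M.pl E)) a fun E hE => hF hE
    rw [hc, nsmul_eq_mul] at h1
    rw [div_lt_iff₀ ha] at hK'
    linarith [bd F]
  · obtain ⟨j₀, hj₀⟩ := app hD hB hK h hS iz0 hz N hN
    refine ⟨g (I + j₀ + N), σ j₀ (g (I + j₀ + N)), ?_, fun i hi => ?_⟩
    · have := h.pos (I + j₀ + N)
      have := hg' (I + j₀ + N)
      omega
    · rw [h.sh]
      exact hj₀ _ _ (by omega) (hg _) ((h.mono (by omega)).trans (hg' _).le)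

end lim

end LIM

theorem blockLIM (h1 : St_DV) (h2 : St_BAS) : St_LIM := by
  intro L _ _ n C M φ hK S s D hS hs
  obtain ⟨σ, e, μ, h⟩ := LIM.exists_fm (h1 L n C) (h2 L n C M) φ S s D hs
  obtain ⟨nn, iz, iz0, hz⟩ := LIM.exists_lim (h1 L n C) (h2 L n C M) hK h hS
  exact ⟨nn, LIM.lim (h1 L n C) (h2 L n C M) hK h hS iz0 hz⟩

end Pool.Agent.Lib.GD
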