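import Pool.Agent.Lib.GD.Blue

/-! The model attached to smooth homogeneous coordinates. -/

open Set Filter Pool.Agent.Lib.MP_9a2ae6_ag Pool.Agent.Lib.MP_e06174_ag
  Pool.Agent.Lib.MP_e39d36_ag

set_option linter.unusedSectionVars false
set_option linter.unusedVariables false

noncomputable section

namespace Pool.Agent.Lib.GD

namespace MOD

variable {L : Type} [Field L] [Algebra ℂ L] {n : ℕ}

section places

theorem mem_O' {v : Place ℂ L} {a : L} : a ∈ v.O.toSubring ↔ v.Ge 0 a := Place.mem_O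

theorem un_O {v : Place ℂ L} {a : L} : Un v.O.toSubring a ↔ a ≠ 0 ∧ v.ord a = 0 := by
  refine and_congr_right fun ha => ?_
  rw [mem_O', mem_O', Place.ge_iff ha, Place.ge_iff (inv_ne_zero ha), Place.ord_inv]
  omega

theorem jac_mem {R : Subring L} {d : Fin n → Derivation ℂ L L} {f : Fin n → L}
    (h : ∀ a b, d a (f b) ∈ R) : jac d f ∈ R := by
  rw [jac, Matrix.det_apply']
  exact sum_mem fun σ _ => mul_mem (intCast_mem _ _) (prod_mem fun i _ => h _ _)

theorem jac_self {x : Fin n → L} {d : Fin n → Derivation ℂ L L} (h : Dual x d) : jac d x = 1 := by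
  have h1 : (Matrix.of fun a b => d a (x b)) = 1 := by
    ext a b
    rw [Matrix.of_apply, h.dual, Matrix.one_apply]
  rw [jac, h1, Matrix.det_one]

theorem der_loc {T R : Subring L} (h : LocOf T R) {θ : Derivation ℂ L L} {b : L}
    (hb : ∀ f ∈ T, b * θ f ∈ R) {f : L} (hf : f ∈ R) : b * θ f ∈ R := by
  obtain ⟨c, h1, h2, h3⟩ := h.2 f hf
  refine h2.mem_of_mul ?_
  have h4 : c * (b * θ f) = b * θ (c * f) - f * (b * θ c) := by
    rw [Derivation.leibniz, smul_eq_mul, smul_eq_mul]; ring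
  rw [h4]
  exact sub_mem (hb _ h3) (mul_mem hf (hb _ h1))

theorem exists_common (A : Subalgebra ℂ L) (hA : ∀ z, ∃ b ∈ A, b ≠ 0 ∧ b * z ∈ A) {κ : Type}
    [Finite κ] (g : κ → L) : ∃ b ∈ A, b ≠ 0 ∧ ∀ k, b * g k ∈ A := by
  classical
  have := Fintype.ofFinite κ
  choose b h1 h2 h3 using fun k => hA (g k)
  refine ⟨∏ k, b k, prod_mem fun k _ => h1 k, Finset.prod_ne_zero_iff.2 fun k _ => h2 k,
    fun k => ?_⟩
  rw [← Finset.mul_prod_erase _ _ (Finset.mem_univ k), mul_right_comm]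
  exact mul_mem (h3 k) (prod_mem fun k _ => h1 k)

theorem der_adjoin {s : Set L} {θ : Derivation ℂ L L} {b : L}
    (hb : ∀ f ∈ s, b * θ f ∈ Algebra.adjoin ℂ s) {f : L} (hf : f ∈ Algebra.adjoin ℂ s) :
    b * θ f ∈ Algebra.adjoin ℂ s := by
  induction hf using Algebra.adjoin_induction with
  | mem x hx => exact hb x hx
  | algebraMap r => simp
  | add x y _ _ hx hy => rw [map_add, mul_add]; exact add_mem hx hy
  | mul x y h1 h2 hx hy =>
    have h4 : b * θ (x * y) = x * (b * θ y) + y * (b * θ x) := by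
      rw [Derivation.leibniz, smul_eq_mul, smul_eq_mul]; ring
    rw [h4]
    exact add_mem (mul_mem h1 hy) (mul_mem h2 hx)

end places

section centre

variable {X : Var L}

theorem mem_plc {E : X.PD} {a : L} : a ∈ X.O E.1 ↔ (plc E).Ge 0 a := by
  rw [← plc_O, mem_O']

variable (X) in
/-- The centre of a place. -/
def ctr (v : Place ℂ L) : X.Pt :=
  (X.exists_ctr_val v.O fun a => Place.mem_O.2 (Place.ge_const a)).choose

theorem dom_ctr (v : Place ℂ L) : Dom (X.O (ctr X v)) v.O.toSubring :=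
  (X.exists_ctr_val v.O fun a => Place.mem_O.2 (Place.ge_const a)).choose_spec

/-- The multiplicity of a prime divisor along a place. -/
def mu (v : Place ℂ L) (E : X.PD) : ℕ :=
  (v.ord (Var.lf (Finsupp.single E 1) (ctr X v))).toNat

variable (hC : ∀ E : X.PD, Var.Cart (Finsupp.single E 1))

include hC

theorem lf_mem (E : X.PD) (x : X.Pt) : Var.lf (Finsupp.single E 1) x ∈ X.O x :=
  ((hC E).lf x).mem (Finsupp.single_nonneg.2 zero_le_one)

theorem mu_eq (v : Place ℂ L) (E : X.PD) :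
    (mu v E : ℤ) = v.ord (Var.lf (Finsupp.single E 1) (ctr X v)) :=
  Int.toNat_of_nonneg ((mem_O'.1 ((dom_ctr v).1 (lf_mem hC E _))).le ((hC E).lf _).1)

theorem locEq_prod (D : X.PD →₀ ℤ) (x : X.Pt) :
    Var.LocEq D x (∏ E ∈ D.support, Var.lf (Finsupp.single E 1) x ^ D E) := by
  classical
  have h0 : ∀ E ∈ D.support, Var.lf (Finsupp.single E 1) x ^ D E ≠ 0 := fun E _ =>
    zpow_ne_zero _ ((hC E).lf x).1
  refine .mk' (Finset.prod_ne_zero_iff.2 h0) fun F hF => ?_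
  rw [← plc_ord, Place.ord_prod _ _ _ h0]
  have h1 : ∀ E ∈ D.support, (plc F).ord (Var.lf (Finsupp.single E 1) x ^ D E) =
      if E = F then D E else 0 := fun E _ => by
    rw [Place.ord_zpow, plc_ord, ← ((hC E).lf x).eq hF, Finsupp.single_apply]
    split_ifs <;> simp
  rw [Finset.sum_congr rfl h1, Finset.sum_ite_eq']
  split_ifs with h
  · rfl
  · exact Finsupp.notMem_support_iff.1 h

theorem key {D : X.PD →₀ ℤ} {v : Place ℂ L} {f : L} (h : Var.LocEq D (ctr X v) f) :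
    v.ord f = ∑ᶠ E, D E * mu v E := by
  have h1 := locEq_prod hC D (ctr X v)
  have h2 := (un_O.1 ((h.un h1).mono (dom_ctr v).1)).2
  rw [Place.ord_div _ h.1 h1.1, Place.ord_prod _ _ _ fun E _ => zpow_ne_zero _ ((hC E).lf _).1,
    sub_eq_zero] at h2
  rw [h2, finsum_eq_sum_of_support_subset (s := D.support)]
  · exact Finset.sum_congr rfl fun E _ => by rw [Place.ord_zpow, mu_eq hC]
  · intro E hE
    exact Finsupp.mem_support_iff.2 (left_ne_zero_of_mul hE)

theorem not_le_of_mu {v : Place ℂ L} {E : X.PD} (h : mu v E = 0) : ¬X.O (ctr X v) ≤ X.O E.1 := by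
  intro h1
  have h2 := mu_eq hC v E
  rw [h] at h2
  have h3 := (dom_ctr v).2 _ (lf_mem hC E _) (un_O.2 ⟨((hC E).lf _).1, h2.symm⟩)
  have h4 := ((hC E).lf (ctr X v)).eq h1
  rw [Var.ord_un (h3.mono h1), Finsupp.single_eq_same] at h4
  exact one_ne_zero h4

theorem pb_ord (v : Place ℂ L) (u : L) : v.ord u = ∑ᶠ E : X.PD, (plc E).ord u * mu v E := by
  by_cases hu : u = 0
  · simp [hu]
  · simp only [plc_ord]
    exact key hC (Var.locEq_div hu)

end centre

section cart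

variable {X : Var L}

theorem cart_single (h : ∀ (x : X.Pt) (E : Place ℂ L), LocOf (X.O x) E.O.toSubring →
    ∃ f ∈ X.O x, f ≠ 0 ∧ E.Ge 1 f ∧ ∀ a ∈ X.O x, E.Ge 1 a → a / f ∈ X.O x) (E : X.PD) :
    Var.Cart (Finsupp.single E 1) := by
  classical
  intro x
  by_cases hx : X.O x ≤ X.O E.1
  swap
  · refine ⟨1, .mk' one_ne_zero fun F hF => ?_⟩
    rw [Var.ord_un Un.one, Finsupp.single_eq_of_ne]
    rintro rfl
    exact hx hF
  obtain ⟨f, h1, h2, h3, h4⟩ := h x (plc E) (by rw [plc_O]; exact Var.locOf_of_sp hx)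
  refine ⟨f, .mk' h2 fun F hF => ?_⟩
  by_cases hFE : F = E
  · subst hFE
    rw [Finsupp.single_eq_same]
    obtain ⟨π, h5, h6⟩ := (plc F).exists_ord_eq_one
    obtain ⟨b, h7, h8, h9⟩ := (Var.locOf_of_sp hx).2 π (mem_plc.2 (Place.ge_of_le (by omega)))
    have h10 : (plc F).ord (b * π) = 1 := by
      rw [Place.ord_mul _ h8.1 h5, h6, plc_ord, Var.ord_un h8, zero_add]
    have h11 := (mem_plc.1 (hx (h4 _ h9 (Place.ge_of_le h10.ge)))).le
      (div_ne_zero (mul_ne_zero h8.1 h5) h2)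
    rw [Place.ord_div _ (mul_ne_zero h8.1 h5) h2, h10] at h11
    have h12 := h3.le h2
    rw [← plc_ord]
    omega
  · rw [Finsupp.single_eq_of_ne hFE]
    by_contra h5
    refine hFE (Var.pd_eq ((Var.locOf_of_sp hF).le hx fun b hb hu => ?_))
    by_contra h6
    have h7 : (plc E).Ge 1 b := Place.ge_of_le (by
      have := Var.ord_pos hu.1 (hx hb) h6
      rw [plc_ord]; omega)
    have h8 : b = f * (b / f) := by field_simp
    rw [h8] at hu
    exact h5 (Var.ord_un (hu.of_mul (hF h1) (hF (h4 b hb h7)))).symm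

end cart

section hm

variable {X : Var L} (Q : Var.Prj X)

theorem hm_eq {v : Place ℂ L} {i : X.ι} (h : (X.A i).toSubring ≤ v.O.toSubring) :
    ⨅ j, v.ord (Q.y j) = v.ord (Q.y i) := by
  have := X.nei
  refine le_antisymm (ciInf_le (Finite.bddBelow_range fun j => v.ord (Q.y j)) i)
    (le_ciInf fun j => ?_)
  have h1 := (mem_O'.1 (h (Q.mem i j))).le (Q.div_ne i j)
  rw [Place.ord_div _ (Q.ne j) (Q.ne i)] at h1
  omega

theorem hm_plc {E : X.PD} {i : X.ι} (h : (X.A i).toSubring ≤ X.O E.1) :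
    ⨅ j, (plc E).ord (Q.y j) = X.ord (Q.y i) E.1 := by
  rw [hm_eq Q (by rw [plc_O]; exact h), plc_ord]

theorem fin_hm : (Function.support fun E : X.PD => ⨅ j, (plc E).ord (Q.y j)).Finite :=
  (finite_iUnion fun i => Var.finite_ord (Q.y i)).subset fun E hE =>
    mem_iUnion.2 ⟨Var.ch E.1, by
      rw [Function.mem_support, hm_plc Q (Var.ch_spec E.1).1] at hE
      exact hE⟩

theorem pb_hm (hC : ∀ E : X.PD, Var.Cart (Finsupp.single E 1)) (v : Place ℂ L) :
    ⨅ j, v.ord (Q.y j) = ∑ᶠ E : X.PD, (⨅ j, (plc E).ord (Q.y j)) * mu v E := by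
  have h1 := (Var.ch_spec (ctr X v)).1
  rw [hm_eq Q (h1.trans (dom_ctr v).1)]
  exact key hC (D := Finsupp.ofSupportFinite _ (fin_hm Q))
    (.mk' (Q.ne _) fun E hE => hm_plc Q (h1.trans hE))

theorem con {e : ℕ} {u : L} (h : ∀ E : X.PD, (plc E).Ge (e * ⨅ j, (plc E).ord (Q.y j)) u)
    (V : ValuationSubring L) (hV : ∀ a : ℂ, algebraMap ℂ L a ∈ V) (j : X.ι)
    (hj : ∀ l, Q.y l / Q.y j ∈ V) : u / Q.y j ^ e ∈ V := by
  by_cases hu : u = 0
  · simp [hu]
  have h1 : (X.A j).toSubring ≤ V.toSubring := by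
    rw [Q.A_eq]
    exact chA_le hV hj
  obtain ⟨x, h2, h3⟩ := Var.exists_centre (isLoc_of_val V.mem_or_inv_mem) h1
  refine h2.1 (Var.hartogs fun E hE => ?_)
  have h4 := (h E).le hu
  rw [hm_plc Q (h3.1.trans hE), plc_ord] at h4
  rw [Var.ord_div hu (pow_ne_zero _ (Q.ne j)), Var.ord_pow]
  omega

include Q in
theorem exists_der (d : Fin n → Derivation ℂ L L) : ∃ β : X.PD →₀ ℤ,
    ∀ (a : Fin n) (E : X.PD) (f : L), (plc E).Ge 0 f → (plc E).Ge (-β E) (d a f) := by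
  have h1 : ∀ i : X.ι, ∃ b : L, b ≠ 0 ∧ ∀ a, ∀ f ∈ X.A i, b * d a f ∈ X.A i := fun i => by
    obtain ⟨b, -, h2, h3⟩ := exists_common (X.A i) (X.frac i)
      fun k : Fin n × X.ι => d k.1 (Q.y k.2 / Q.y i)
    refine ⟨b, h2, fun a f hf => ?_⟩
    rw [Q.A_eq] at hf h3 ⊢
    refine der_adjoin ?_ hf
    rintro _ ⟨j, rfl⟩
    exact h3 (a, j)
  choose b h2 h3 using h1
  refine ⟨Finsupp.ofSupportFinite (fun E => X.ord (b (Var.ch E.1)) E.1)
    ((finite_iUnion fun i => Var.finite_ord (b i)).subset fun E hE =>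
      mem_iUnion.2 ⟨Var.ch E.1, hE⟩), fun a E f hf => ?_⟩
  have h4 := mem_plc.1 (der_loc (Var.ch_spec E.1) (θ := d a) (b := b (Var.ch E.1))
    (fun g hg => (Var.ch_spec E.1).1 (h3 _ a g hg)) (mem_plc.2 hf))
  have h5 := (Place.ge_ord (p := plc E) (b (Var.ch E.1))⁻¹).mul h4
  rw [inv_mul_cancel_left₀ (h2 _), Place.ord_inv, add_zero, plc_ord] at h5
  exact h5

end hm

section kap

variable {X : Var L} {C : Ctx L n} (F : DVF C)

include F

theorem fin_kap (Q : Var.Prj X) : {E : X.PD | kap C.d (plc E) ≠ 0}.Finite := by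
  obtain ⟨β, hβ⟩ := exists_der Q C.d
  refine (β.support.finite_toSet.union (finite_iUnion fun j => Var.finite_ord (C.x j))).subset
    fun E hE => ?_
  by_contra h
  simp only [mem_union, Finset.mem_coe, Finsupp.mem_support_iff, mem_iUnion, mem_ofPred_eq, not_or,
    not_exists, not_not] at h
  refine hE (F.kap_eq _ _ ⟨fun f hf => ?_, C.x, fun j => ?_, ?_, ?_⟩)
  · rw [neg_zero]
    refine mem_plc.1 (jac_mem fun a b => mem_plc.2 ?_)
    simpa [h.1] using hβ a E _ (hf b)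
  · exact Place.ge_of_le (by rw [plc_ord, h.2 j])
  · rw [jac_self C.dual]; exact one_ne_zero
  · rw [jac_self C.dual]; simp

theorem kap_loc {x : X.Pt} {t : Fin n → L} (h1 : ∀ i, t i ∈ X.O x)
    (h2 : IsTranscendenceBasis ℂ t) (h3 : ∀ d, Dual t d → ∀ i, ∀ f ∈ X.O x, d i f ∈ X.O x)
    {E : X.PD} (hE : X.O x ≤ X.O E.1) : kap C.d (plc E) = -X.ord (jac C.d t) E.1 := by
  obtain ⟨d, hd⟩ := exists_dual h2
  refine F.kap_eq _ _ ⟨fun f hf => ?_, t, fun j => mem_plc.1 (hE (h1 j)), F.jac_ne t h2, ?_⟩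
  · rw [F.chain t d hd f, neg_neg, ← plc_ord]
    refine (mem_plc.1 (jac_mem fun a b => ?_)).mul' (Place.ge_ord _) (by rw [zero_add])
    have h4 := der_loc (Var.locOf_of_sp hE) (θ := d a) (b := 1)
      (fun g hg => by rw [one_mul]; exact hE (h3 d hd a g hg)) (mem_plc.2 (hf b))
    rwa [one_mul] at h4
  · rw [neg_neg, plc_ord]

variable (hT : ∀ x : X.Pt, ∃ t : Fin n → L, (∀ i, t i ∈ X.O x) ∧ IsTranscendenceBasis ℂ t ∧
  ∀ d, Dual t d → ∀ i, ∀ f ∈ X.O x, d i f ∈ X.O x)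

include hT

theorem pb_kap (Q : Var.Prj X) (hC : ∀ E : X.PD, Var.Cart (Finsupp.single E 1)) (v : Place ℂ L)
    (hv : Dv n v) : ∑ᶠ E : X.PD, kap C.d (plc E) * mu v E ≤ kap C.d v := by
  obtain ⟨t, h1, h2, h3⟩ := hT (ctr X v)
  have h4 := key hC (D := Finsupp.ofSupportFinite (fun E => kap C.d (plc E)) (fin_kap F Q))
    (v := v) (f := (jac C.d t)⁻¹) (.mk' (inv_ne_zero (F.jac_ne t h2)) fun E hE => by
      rw [← plc_ord, Place.ord_inv, plc_ord]
      exact kap_loc F h1 h2 h3 hE)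
  have h5 := ((F.isKap v hv).1 t fun j => mem_O'.1 ((dom_ctr v).1 (h1 j))).le (F.jac_ne t h2)
  rw [Place.ord_inv] at h4
  have h6 : ∑ᶠ E : X.PD, kap C.d (plc E) * mu v E = -v.ord (jac C.d t) := h4.symm
  omega

theorem reg (m : ℕ) (u : L) (h : ∀ E : X.PD, (plc E).Ge (-(m * kap C.d (plc E))) u) :
    form C.x m u ∈ sections ℂ L n m {1} := by
  intro O _ hO
  obtain ⟨x, hx⟩ := X.exists_ctr_val O hO
  obtain ⟨t, h1, h2, h3⟩ := hT x
  have h4 := F.jac_ne t h2
  have h5 : u / jac C.d t ^ m ∈ X.O x := by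
    by_cases hu : u = 0
    · simp [hu]
    refine Var.hartogs fun E hE => ?_
    have h5 := (h E).le hu
    rw [kap_loc F h1 h2 h3 hE, plc_ord] at h5
    rw [Var.ord_div hu (pow_ne_zero _ h4), Var.ord_pow]
    linarith
  have h6 : form C.x m u = (⟨_, hx.1 h5⟩ : O.toSubring) •
      ((1 : L) • pluri ℂ L n m fun _ => t) := by
    rw [C.dual.pluri, one_smul, Finset.prod_const, Finset.card_univ, Fintype.card_fin]
    change _ = (u / jac C.d t ^ m) • form C.x m (jac C.d t ^ m)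
    rw [form, form, smul_smul, div_mul_cancel₀ _ (pow_ne_zero _ h4)]
  rw [h6]
  exact Submodule.smul_mem _ _ (Submodule.subset_span
    ⟨1, Finset.mem_singleton_self _, fun _ => t, fun _ b => hx.1 (h1 b), rfl⟩)

end kap

/-- The variety with the given homogeneous coordinates. -/
def var (C : Ctx L n) (hN : ∀ i, Nml (chA C.y i).toSubring) : Var L :=
  Var.ofCharts (chA C.y) (fun _ => fg_chA) C.frac hN
    (fun i j _ _ _ _ => sep_chA (C.ne i) (C.ne j))
    fun i _ _ _ h1 _ h2 h3 => (compl_chA (C.ne i) h1.1 h2 h3).imp fun _ h => h.2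

/-- Its homogeneous coordinates. -/
def prj (C : Ctx L n) (hN : ∀ i, Nml (chA C.y i).toSubring) : Var.Prj (var C hN) where
  y := C.y
  ne := C.ne
  A_eq := fun _ => rfl

end MOD

open MOD in
theorem blockMOD (hCRD : St_CRD) (hFAC : St_FAC) (hCON : St_CON) (hDG : St_DG) (hLG : St_LG)
    (hDV : St_DV) : St_MOD := by
  intro L _ _ n C hS
  have hN : ∀ i, Nml (chA C.y i).toSubring := fun i =>
    (hCRD L n C.x C.tb (chart C.y i) (hS i) (C.frac i)).1
  have F := hDV L n C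
  have hC : ∀ E : (var C hN).PD, Var.Cart (Finsupp.single E 1) := cart_single fun x E hE =>
    hFAC L n C.x C.tb (chart C.y (Var.ch x)) (hS _) (C.frac _) _ ((var C hN).isLoc x)
      (Var.ch_spec x) E hE
  have hT : ∀ x : (var C hN).Pt, ∃ t : Fin n → L, (∀ i, t i ∈ (var C hN).O x) ∧
      IsTranscendenceBasis ℂ t ∧ ∀ d, Dual t d → ∀ i, ∀ f ∈ (var C hN).O x,
        d i f ∈ (var C hN).O x := fun x =>
    (hCRD L n C.x C.tb (chart C.y (Var.ch x)) (hS _) (C.frac _)).2 _ ((var C hN).isLoc x)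
      (Var.ch_spec x)
  obtain ⟨hdv, dg, g1, g2, g3⟩ := hDG L n C.x C.tb (var C hN) (prj C hN)
  obtain ⟨i₁, c, c1, c2, c3⟩ := hCON L n C
  obtain ⟨ρ, hρ⟩ := hLG L n C (var C hN) (prj C hN) hC hdv
  refine ⟨{
    P := (var C hN).PD
    pl := plc
    dv := hdv
    fin_ord := fun u => by simpa only [plc_ord] using Var.finite_ord u
    fin_kap := fin_kap F (prj C hN)
    mu := mu
    pb_ord := pb_ord hC
    pb_hm := pb_hm (prj C hN) hC
    pb_kap := pb_kap F hT (prj C hN) hC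
    con := ⟨i₁, c, c1, c2, fun e u h => c3 e u (con (prj C hN) h)⟩
    dg := dg
    dg_pos := g1
    dg_ex := g2
    dg_sum := g3
    der := exists_der (prj C hN) C.d
    lg := ⟨ρ, fun Γ hΓ => ?_⟩
    reg := reg F hT }⟩
  obtain ⟨η, h1, h2⟩ := hρ Γ hΓ
  refine ⟨η, h1, fun E hE => (h2 (plc E) E.1 (by rw [plc_O]; exact Dom.refl)).2
    fun i hi => hE ⟨i, (Var.pd_eq hi).symm⟩, fun v => ⟨(h2 v _ (dom_ctr v)).1, fun h =>
      (h2 v _ (dom_ctr v)).2 fun i => not_le_of_mu hC (h i)⟩⟩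

end Pool.Agent.Lib.GD
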