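import Pool.Agent.Lib.GD.Blue
import Pool.Agent.Lib.MP_99f32e_ag.Smooth

/-! Local structure of smooth varieties. -/

open Set Pool.Agent.Lib.MP_e39d36_ag

set_option linter.unusedSectionVars false
set_option linter.unusedVariables false

noncomputable section

namespace Pool.Agent.Lib.GD

namespace SM

variable {L : Type} [Field L] [Algebra ℂ L]

/-- The centre of a local ring. -/
def ctr (A : Subalgebra ℂ L) {T : Subring L} (hT : IsLoc T) (h : A.toSubring ≤ T) : Ideal A where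
  carrier := {b | ¬Un T (b : L)}
  zero_mem' := fun h => h.1 rfl
  add_mem' := fun {a b} ha hb hab => (hT.of_add (h a.2) (h b.2) hab).elim ha hb
  smul_mem' := fun c b hb hcb => hb (Un.of_mul' hcb (h c.2) (h b.2))

theorem ctr_prime (A : Subalgebra ℂ L) {T : Subring L} (hT : IsLoc T) (h : A.toSubring ≤ T) :
    (ctr A hT h).IsPrime where
  ne_top' := (Ideal.ne_top_iff_one _).2 fun h => h Un.one
  mem_or_mem' := fun {a b} hab => by
    by_contra hc
    rw [not_or] at hc
    exact hab (Un.mul (not_not.1 hc.1) (not_not.1 hc.2))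

theorem aeval_mem {n : ℕ} (t : Fin n → L) (D : Subalgebra ℂ L) (h : ∀ i, t i ∈ D)
    (c : MvPolynomial (Fin n) ℂ) : MvPolynomial.aeval t c ∈ D := by
  have h1 : Algebra.adjoin ℂ (range t) ≤ D := Algebra.adjoin_le (range_subset_iff.2 h)
  rw [Algebra.adjoin_range_eq_range_aeval] at h1
  exact h1 ⟨c, rfl⟩

theorem eval_mem {n : ℕ} (t : Fin n → L) (θ : L) (D : Subalgebra ℂ L) (h : ∀ i, t i ∈ D)
    (hθ : θ ∈ D) (G : Polynomial (MvPolynomial (Fin n) ℂ)) :
    G.eval₂ (MvPolynomial.aeval t : MvPolynomial (Fin n) ℂ →ₐ[ℂ] L).toRingHom θ ∈ D := by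
  rw [Polynomial.eval₂_eq_sum_range]
  exact sum_mem fun i _ => mul_mem (aeval_mem t D h _) (pow_mem hθ i)

/-- A field that is locally an integral hypersurface over independent elements. -/
theorem tb_of {n : ℕ} (t : Fin n → L) (θ : L) (F : Polynomial (MvPolynomial (Fin n) ℂ))
    (ht : AlgebraicIndependent ℂ t) (hF : F.Monic)
    (h0 : F.eval₂ (MvPolynomial.aeval t : MvPolynomial (Fin n) ℂ →ₐ[ℂ] L).toRingHom θ = 0)
    (T : Subring L) (hT : LocOf (Algebra.adjoin ℂ (insert θ (range t))).toSubring T)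
    (hf : ∀ z, ∃ b ∈ T, b ≠ 0 ∧ b * z ∈ T) : IsTranscendenceBasis ℂ t := by
  refine ht.isTranscendenceBasis_iff_isAlgebraic.2 ⟨fun z => ?_⟩
  set B := Algebra.adjoin ℂ (range t) with hB
  have hθ : IsAlgebraic B θ := by
    let g : MvPolynomial (Fin n) ℂ →+* B :=
      (MvPolynomial.aeval t : MvPolynomial (Fin n) ℂ →ₐ[ℂ] L).toRingHom.codRestrict B
        (aeval_mem t B fun i => Algebra.subset_adjoin ⟨i, rfl⟩)
    refine IsIntegral.isAlgebraic ⟨F.map g, hF.map g, ?_⟩
    rw [Polynomial.eval₂_map]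
    exact h0
  have h1 : Algebra.adjoin ℂ (insert θ (range t)) ≤
      (Subalgebra.algebraicClosure B L).restrictScalars ℂ := by
    refine Algebra.adjoin_le (insert_subset hθ ?_)
    rintro _ ⟨i, rfl⟩
    exact isAlgebraic_algebraMap (⟨t i, Algebra.subset_adjoin ⟨i, rfl⟩⟩ : B)
  have h2 : ∀ w ∈ T, IsAlgebraic B w := fun w hw => by
    obtain ⟨c, hc, hu, hcw⟩ := hT.2 w hw
    exact IsAlgebraic.of_mul (mem_nonZeroDivisors_of_ne_zero hu.1) (h1 hc) (h1 hcw)
  obtain ⟨b, hb, hb0, hbz⟩ := hf z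
  exact IsAlgebraic.of_mul (mem_nonZeroDivisors_of_ne_zero hb0) (h2 b hb) (h2 _ hbz)

theorem inj_of_etale (R S : Type) [CommRing R] [IsDomain R] [CommRing S] [IsDomain S] [Algebra R S]
    [Algebra.Etale R S] : Function.Injective (algebraMap R S) :=
  FaithfulSMul.algebraMap_injective R S

theorem et_aux (A : Subalgebra ℂ L) (hA : Algebra.Smooth ℂ A)
    (hf : ∀ z, ∃ b ∈ A, b ≠ 0 ∧ b * z ∈ A) (T : Subring L) (hT : IsLoc T)
    (h : LocOf A.toSubring T) :
    ∃ (n : ℕ) (t : Fin n → L) (θ : L) (F : Polynomial (MvPolynomial (Fin n) ℂ)),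
      IsTranscendenceBasis ℂ t ∧ F.Monic ∧
      F.eval₂ (MvPolynomial.aeval t : MvPolynomial (Fin n) ℂ →ₐ[ℂ] L).toRingHom θ = 0 ∧
      Un T (F.derivative.eval₂
        (MvPolynomial.aeval t : MvPolynomial (Fin n) ℂ →ₐ[ℂ] L).toRingHom θ) ∧
      LocOf (Algebra.adjoin ℂ (insert θ (range t))).toSubring T := by
  have := ctr_prime A hT h.1
  obtain ⟨f, hfp, n, alg, tower, std⟩ :=
    Algebra.IsSmoothAt.exists_isStandardEtale_mvPolynomial (R := ℂ) (p := ctr A hT h.1)
  have hfu : Un T (f : L) := not_not.1 hfp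
  have hf0 : f ≠ 0 := fun h0 => hfu.1 (by rw [h0]; rfl)
  have hle := powers_le_nonZeroDivisors_of_noZeroDivisors hf0
  have : IsDomain (Localization.Away f) := IsLocalization.isDomain_of_le_nonZeroDivisors _ hle
  have hun : ∀ y : Submonoid.powers f, Un T ((y : A) : L) := by
    rintro ⟨_, m, rfl⟩
    simpa using hfu.pow m
  let ψ : Localization.Away f →ₐ[ℂ] L :=
    IsLocalization.liftAlgHom (M := Submonoid.powers f) (f := A.val)
      fun y => isUnit_iff_ne_zero.2 (hun y).1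
  have hψa : ∀ a : A, ψ (algebraMap A _ a) = a := fun a => IsLocalization.lift_eq _ a
  have hψs : ∀ s, ∃ (a : A) (y : Submonoid.powers f), s * algebraMap A _ (y : A) = algebraMap A _ a ∧
      ψ s * ((y : A) : L) = a := fun s => by
    obtain ⟨⟨a, y⟩, e⟩ := IsLocalization.surj (Submonoid.powers f) s
    refine ⟨a, y, e, ?_⟩
    rw [← hψa a, ← hψa y, ← map_mul]
    exact congrArg ψ e
  have hψT : ∀ s, ψ s ∈ T := fun s => by
    obtain ⟨a, y, -, e⟩ := hψs s
    exact (hun y).mem_of_mul (by rw [mul_comm, e]; exact h.1 a.2)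
  have hψU : ∀ s, IsUnit s → Un T (ψ s) := by
    rintro _ ⟨u, rfl⟩
    have e : ψ u * ψ (u⁻¹ : (Localization.Away f)ˣ) = 1 := by rw [← map_mul]; simp
    exact Un.of_mul (by rw [e]; exact Un.one) (hψT _) (hψT _)
  have hψi : Function.Injective ψ := by
    rw [injective_iff_map_eq_zero]
    intro s hs
    obtain ⟨a, y, e1, e2⟩ := hψs s
    rw [hs, zero_mul] at e2
    have ha : a = 0 := Subtype.ext e2.symm
    rw [ha, map_zero] at e1
    exact (IsLocalization.map_units (Localization.Away f) y).mul_left_eq_zero.1 e1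
  obtain ⟨P⟩ := std.nonempty_standardEtalePresentation
  let t : Fin n → L := fun i =>
    ψ (algebraMap (MvPolynomial (Fin n) ℂ) (Localization.Away f) (MvPolynomial.X i))
  have ht : (MvPolynomial.aeval t : MvPolynomial (Fin n) ℂ →ₐ[ℂ] L) =
      ψ.comp (IsScalarTower.toAlgHom ℂ (MvPolynomial (Fin n) ℂ) (Localization.Away f)) :=
    MvPolynomial.algHom_ext fun i => by simp [t]
  have hev : ∀ G : Polynomial (MvPolynomial (Fin n) ℂ),
      G.eval₂ (MvPolynomial.aeval t : MvPolynomial (Fin n) ℂ →ₐ[ℂ] L).toRingHom (ψ P.x) =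
        ψ (Polynomial.aeval P.x G) := fun G => by
    rw [Polynomial.aeval_def, ht]
    exact (Polynomial.hom_eval₂ G (algebraMap _ _) ψ.toRingHom P.x).symm
  have hind : AlgebraicIndependent ℂ t := by
    rw [AlgebraicIndependent, ht]
    have het : Algebra.Etale (MvPolynomial (Fin n) ℂ) (Localization.Away f) :=
      .of_equiv P.equivRing.symm
    exact hψi.comp (inj_of_etale (MvPolynomial (Fin n) ℂ) _)
  have hθB : ψ P.x ∈ Algebra.adjoin ℂ (insert (ψ P.x) (range t)) :=
    Algebra.subset_adjoin (mem_insert _ _)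
  have htB : ∀ i, t i ∈ Algebra.adjoin ℂ (insert (ψ P.x) (range t)) := fun i =>
    Algebra.subset_adjoin (mem_insert_of_mem _ ⟨i, rfl⟩)
  have hB : ∀ G, ψ (Polynomial.aeval P.x G) ∈ Algebra.adjoin ℂ (insert (ψ P.x) (range t)) :=
    fun G => hev G ▸ eval_mem t _ _ htB hθB G
  have hg : Un T (ψ (Polynomial.aeval P.x P.g)) := hψU _ P.hasMap.2
  have hAB : ∀ a ∈ A, ∃ k : ℕ, a * ψ (Polynomial.aeval P.x P.g) ^ k ∈
      Algebra.adjoin ℂ (insert (ψ P.x) (range t)) := fun a ha => by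
    obtain ⟨p, k, e⟩ := P.exists_mul_aeval_x_g_pow_eq_aeval_x (algebraMap A _ ⟨a, ha⟩)
    refine ⟨k, ?_⟩
    have e2 := congrArg ψ e
    rw [map_mul, map_pow, hψa] at e2
    exact e2 ▸ hB p
  have hloc : LocOf (Algebra.adjoin ℂ (insert (ψ P.x) (range t))).toSubring T := by
    refine ⟨fun z hz => ?_, fun z hz => ?_⟩
    · have h1 : Algebra.adjoin ℂ (insert (ψ P.x) (range t)) ≤ ψ.range := by
        refine Algebra.adjoin_le (insert_subset ⟨_, rfl⟩ ?_)
        rintro _ ⟨i, rfl⟩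
        exact ⟨_, rfl⟩
      obtain ⟨s, rfl⟩ := h1 hz
      exact hψT s
    · obtain ⟨b, hb, hu, hbz⟩ := h.2 z hz
      obtain ⟨k, hk⟩ := hAB b hb
      obtain ⟨k', hk'⟩ := hAB _ hbz
      refine ⟨b * ψ (Polynomial.aeval P.x P.g) ^ k * ψ (Polynomial.aeval P.x P.g) ^ k',
        mul_mem hk (pow_mem (hB _) _), (hu.mul (hg.pow k)).mul (hg.pow k'), ?_⟩
      have e : b * ψ (Polynomial.aeval P.x P.g) ^ k * ψ (Polynomial.aeval P.x P.g) ^ k' * z =
          b * z * ψ (Polynomial.aeval P.x P.g) ^ k' * ψ (Polynomial.aeval P.x P.g) ^ k := by ring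
      rw [e]
      exact mul_mem hk' (pow_mem (hB _) _)
  have h0 : P.f.eval₂ (MvPolynomial.aeval t : MvPolynomial (Fin n) ℂ →ₐ[ℂ] L).toRingHom
      (ψ P.x) = 0 := by rw [hev, P.hasMap.1, map_zero]
  refine ⟨n, t, ψ P.x, P.f, tb_of t _ P.f hind P.monic_f h0 T hloc fun z => ?_, P.monic_f, h0,
    ?_, hloc⟩
  · obtain ⟨b, hb, hb0, hbz⟩ := hf z
    exact ⟨b, h.1 hb, hb0, h.1 hbz⟩
  · rw [hev]
    exact hψU _ P.hasMap.isUnit_derivative_f

/-- The elements of `T` whose derivative lies in `T`. -/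
def stab (T : Subring L) (hc : ∀ c : ℂ, algebraMap ℂ L c ∈ T) (d : Derivation ℂ L L) :
    Subalgebra ℂ L where
  carrier := {f | f ∈ T ∧ d f ∈ T}
  mul_mem' := fun {a b} ha hb => ⟨mul_mem ha.1 hb.1, by
    rw [d.leibniz, smul_eq_mul, smul_eq_mul]
    exact add_mem (mul_mem ha.1 hb.2) (mul_mem hb.1 ha.2)⟩
  add_mem' := fun {a b} ha hb => ⟨add_mem ha.1 hb.1, by
    rw [map_add]; exact add_mem ha.2 hb.2⟩
  algebraMap_mem' := fun c => ⟨hc c, by rw [d.map_algebraMap]; exact zero_mem _⟩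

theorem der_eval {R : Type} [CommRing R] (g : R →+* L) (θ : L) (T : Subring L)
    (d : Derivation ℂ L L) (hθ : θ ∈ T) (hg : ∀ c, d (g c) ∈ T) (G : Polynomial R) :
    d (G.eval₂ g θ) - G.derivative.eval₂ g θ * d θ ∈ T := by
  induction G using Polynomial.induction_on' with
  | add p q hp hq =>
    have e : d ((p + q).eval₂ g θ) - (p + q).derivative.eval₂ g θ * d θ =
        (d (p.eval₂ g θ) - p.derivative.eval₂ g θ * d θ) +
          (d (q.eval₂ g θ) - q.derivative.eval₂ g θ * d θ) := by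
      simp only [Polynomial.eval₂_add, map_add]; ring
    rw [e]
    exact add_mem hp hq
  | monomial m c =>
    have e : d ((Polynomial.monomial m c).eval₂ g θ) -
        (Polynomial.monomial m c).derivative.eval₂ g θ * d θ = θ ^ m * d (g c) := by
      rw [Polynomial.derivative_monomial, Polynomial.eval₂_monomial, Polynomial.eval₂_monomial,
        d.leibniz, d.leibniz_pow, map_mul, map_natCast]
      simp only [smul_eq_mul, nsmul_eq_mul]
      ring
    rw [e]
    exact mul_mem (pow_mem hθ m) (hg c)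

end SM

open SM in
theorem blockET : St_ET := by
  intro L _ _ n x hx A hA hf T hT h
  obtain ⟨n', t, θ, F, ht, H⟩ := et_aux A hA hf T hT h
  have e : n' = n := by simpa using ht.cardinalMk_eq hx
  subst e
  exact ⟨t, θ, F, ht, H⟩

open SM in
theorem blockCRD (hE : St_ET) : St_CRD := by
  intro L _ _ n x hx A hA hf
  refine ⟨fun z hz => ?_, fun T hT h => ?_⟩
  · have : IsFractionRing A.toSubring L := isFrac hf
    have h1 : IsIntegrallyClosed A.toSubring := MP_99f32e_ag.isIntegrallyClosed_of_smooth ℂ A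
    obtain ⟨y, rfl⟩ := (isIntegrallyClosed_iff (R := A.toSubring) L).1 h1 hz
    exact y.2
  · obtain ⟨t, θ, F, ht, -, h0, hu, hloc⟩ := hE L n x hx A hA hf T hT h
    have hθ : θ ∈ T := hloc.1 (Algebra.subset_adjoin (mem_insert _ _))
    have htT : ∀ i, t i ∈ T := fun i =>
      hloc.1 (Algebra.subset_adjoin (mem_insert_of_mem _ ⟨i, rfl⟩))
    refine ⟨t, htT, ht, fun d hd i f hfT => ?_⟩
    have hc : ∀ c : ℂ, algebraMap ℂ L c ∈ T := fun c => h.1 (A.algebraMap_mem c)
    have h1 : ∀ j, t j ∈ stab T hc (d i) := fun j => ⟨htT j, by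
      rw [hd.dual]
      split_ifs
      · exact one_mem _
      · exact zero_mem _⟩
    have h2 : d i θ ∈ T := by
      have h3 := der_eval
        (MvPolynomial.aeval t : MvPolynomial (Fin n) ℂ →ₐ[ℂ] L).toRingHom θ T (d i) hθ
        (fun c => (SM.aeval_mem t _ h1 c).2) F
      rw [h0, map_zero, zero_sub] at h3
      exact hu.mem_of_mul (by simpa using neg_mem h3)
    have h4 : Algebra.adjoin ℂ (insert θ (range t)) ≤ stab T hc (d i) :=
      Algebra.adjoin_le (insert_subset ⟨hθ, h2⟩ (range_subset_iff.2 h1))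
    obtain ⟨b, hb, hbu, hbf⟩ := hloc.2 f hfT
    refine hbu.mem_of_mul ?_
    have e : b * d i f = d i (b * f) - f * d i b := by
      rw [(d i).leibniz, smul_eq_mul, smul_eq_mul]; ring
    rw [e]
    exact sub_mem (h4 hbf).2 (mul_mem hfT (h4 hb).2)

end Pool.Agent.Lib.GD
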