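import Pool.Agent.Lib.GD.BCa

/-! Block STEP: one step of the descent of the constants. -/

open Set

set_option linter.unusedSectionVars false
set_option linter.unusedVariables false
set_option linter.style.haveILetI false

noncomputable section

namespace Pool.Agent.Lib.GD

namespace STEP

open BCa

theorem frac_of_closure {A M : Type} [Field A] [Field M] [Algebra A M] (S : Subalgebra A M) {w : M}
    (hw : w ∈ Subfield.closure (S : Set M)) : ∃ b ∈ S, b ≠ 0 ∧ b * w ∈ S := by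
  obtain ⟨y, hy, x, hx, rfl⟩ := Subfield.mem_closure_iff.1 hw
  have h : Subring.closure (S : Set M) ≤ S.toSubring := Subring.closure_le.2 fun _ h => h
  by_cases hx0 : x = 0
  · exact ⟨1, one_mem _, one_ne_zero, by rw [hx0, div_zero, mul_zero]; exact zero_mem _⟩
  · exact ⟨x, h hx, hx0, by rw [mul_div_cancel₀ _ hx0]; exact h hy⟩

theorem iter_hom {M : Type} [Field M] (Φ : M →+* M) (p : ℕ) : Φ^[p] = ⇑(Φ ^ p) :=
  (RingHom.coe_pow Φ p).symm

/-- Periodic elements algebraic over a field whose periodic elements are constants. -/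
theorem const_of_alg {k Λ M : Type} [Field k] [IsAlgClosed k] [Field Λ] [Field M] [Algebra k Λ]
    [Algebra Λ M] [Algebra k M] [IsScalarTower k Λ M] (Φ : M →+* M) (ψ : Λ →+* Λ)
    (h : ∀ c, Φ (algebraMap Λ M c) = algebraMap Λ M (ψ c))
    (hc : ∀ c : Λ, ψ c = c → IsAlgebraic k c) {a : M} (ha : Φ a = a) (hal : IsAlgebraic Λ a) :
    a ∈ range (algebraMap k M) := by
  have hi := hal.isIntegral
  have h1 : (minpoly Λ a).map ψ = minpoly Λ a := by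
    refine Polynomial.eq_of_monic_of_dvd_of_natDegree_le (minpoly.monic hi)
      ((minpoly.monic hi).map ψ) (minpoly.dvd Λ a ?_) (Polynomial.natDegree_map ψ).le
    have h2 := congrArg Φ (minpoly.aeval Λ a)
    rw [Polynomial.aeval_def, Polynomial.hom_eval₂, ha, map_zero] at h2
    rw [Polynomial.aeval_def, Polynomial.eval₂_map, ← h2]
    exact congrArg (fun f => Polynomial.eval₂ f a (minpoly Λ a)) (RingHom.ext fun c => (h c).symm)
  have h3 : minpoly Λ a ∈ Polynomial.lifts (algebraMap k Λ) := by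
    rw [Polynomial.lifts_iff_coeff_lifts]
    intro n
    refine mem_range_of_alg (hc _ ?_)
    rw [← Polynomial.coeff_map, h1]
  obtain ⟨Q, hQ⟩ := (Polynomial.mem_lifts _).1 h3
  refine mem_range_of_alg ⟨Q, fun h0 => minpoly.ne_zero hi (by rw [← hQ, h0, Polynomial.map_zero]), ?_⟩
  rw [← Polynomial.aeval_map_algebraMap Λ, hQ, minpoly.aeval]

theorem algO_map {M M' N N' : Type} [Field M] [Field M'] [Field N] [Field N'] {χ : M →+* M'}
    {χ' : N →+* N'} (f : M →+* N) (g : M' →+* N') (h : ∀ c, g (χ c) = χ' (f c)) {a : M'}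
    (ha : a ∈ algO χ) : g a ∈ algO χ' := by
  obtain ⟨P, hP, h1⟩ := mem_algO.1 ha
  refine mem_algO.2 ⟨P.map f, Polynomial.map_ne_zero hP, ?_⟩
  have h2 := congrArg g h1
  rw [Polynomial.hom_eval₂, map_zero] at h2
  rw [Polynomial.eval₂_map, ← h2]
  exact congrArg (fun f => Polynomial.eval₂ f (g a) P) (RingHom.ext fun c => (h c).symm)

theorem rep2 {k L K Ω : Type} [Field k] [Field L] [Field K] [Field Ω] [Algebra k L] [Algebra k K]
    [Algebra k Ω] [Algebra K Ω] [IsScalarTower k K Ω] {ι : L →ₐ[k] Ω} (h : IsBC K ι) (w : Ω) :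
    ∃ (σ : Type) (_ : Fintype σ) (a b : σ → K) (l : σ → L), LinearIndependent k l ∧
      w = (∑ i, ι (l i) * algebraMap K Ω (a i)) / ∑ i, ι (l i) * algebraMap K Ω (b i) := by
  classical
  obtain ⟨d, hd, hd0, hw⟩ := h.2 w
  let B := Module.Basis.ofVectorSpace k L
  obtain ⟨a, ha⟩ := rep B hw
  obtain ⟨b, hb⟩ := rep B hd
  have h1 : ∀ c : _ →₀ K, c.support ⊆ a.support ∪ b.support →
      ∑ i : ↥(a.support ∪ b.support), ι (B i) * algebraMap K Ω (c i) =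
        Finsupp.linearCombination K (fun i => ι (B i)) c := fun c hc => by
    rw [Finsupp.linearCombination_apply, Finsupp.sum_of_support_subset c hc
      (fun i a => a • ι (B i)) (fun i _ => zero_smul K _),
      Finset.sum_coe_sort (a.support ∪ b.support) (fun i => ι (B i) * algebraMap K Ω (c i))]
    exact Finset.sum_congr rfl fun i _ => by rw [Algebra.smul_def, mul_comm]
  refine ⟨↥(a.support ∪ b.support), inferInstance, fun i => a i, fun i => b i, fun i => B i,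
    B.linearIndependent.comp _ Subtype.val_injective, ?_⟩
  rw [h1 a Finset.subset_union_left, h1 b Finset.subset_union_right, ha, hb,
    mul_div_cancel_left₀ w hd0]

end STEP

open BCa STEP

theorem blockBC : St_BC := fun _ _ _ _ _ _ => dom

theorem blockSTEP (_h1 : St_BC) (h2 : St_CUR) : St_STEP := by
  intro L _ _ φ halg hnif k F Λ Ω _ _ _ _ _ _ _ _ _ _ _ _ _ _ _ _ _ _ _ _ t ht ι hι hι' ψ₀ ψ hψ₀ hψ
    h z hS
  set ι' := (IsScalarTower.toAlgHom ℂ Λ Ω).comp ι with hι'def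
  have hι'a : ∀ l, algebraMap Λ Ω (ι l) = ι' l := fun _ => rfl
  have hψι : ∀ l, ψ (ι' l) = ι' (φ l) := fun l => by rw [← hι'a, hψ, hψ₀, hι'a]
  obtain ⟨Ω₂, _, _, _, _, ιΩ, hΩ⟩ := exists_bc ℂ L Ω
  obtain ⟨Λ₂, _, _, _, _, ιΛ, hΛ⟩ := exists_bc ℂ L Λ
  have PΩ := Ind.pind hΩ.1
  have PΛ := Ind.pind hΛ.1
  obtain ⟨j, hj1, hj2⟩ : ∃ j : Λ₂ →+* Ω₂, (∀ c, j (algebraMap Λ Λ₂ c) =
      algebraMap Ω Ω₂ (algebraMap Λ Ω c)) ∧ ∀ l, j (ιΛ l) = ιΩ l :=
    lift hΛ (PΩ.comp (IsScalarTower.toAlgHom ℂ Λ Ω) (AlgHom.id ℂ L))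
  obtain ⟨fx, hx1, hx2⟩ : ∃ f : Ω₂ →+* Ω₂, (∀ c, f (algebraMap Ω Ω₂ c) = algebraMap Ω Ω₂ (ψ c)) ∧
      ∀ l, f (ιΩ l) = ιΩ l := lift hΩ (PΩ.comp (ψ.restrictScalars ℂ) (AlgHom.id ℂ L))
  obtain ⟨fy, hy1, hy2⟩ : ∃ f : Ω₂ →+* Ω₂, (∀ c, f (algebraMap Ω Ω₂ c) = algebraMap Ω Ω₂ c) ∧
      ∀ l, f (ιΩ l) = ιΩ (φ l) := lift hΩ (PΩ.comp (AlgHom.id ℂ Ω) φ)
  obtain ⟨gx, gx1, gx2⟩ : ∃ f : Λ₂ →+* Λ₂, (∀ c, f (algebraMap Λ Λ₂ c) = algebraMap Λ Λ₂ (ψ₀ c)) ∧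
      ∀ l, f (ιΛ l) = ιΛ l := lift hΛ (PΛ.comp (ψ₀.restrictScalars ℂ) (AlgHom.id ℂ L))
  obtain ⟨gy, gy1, gy2⟩ : ∃ f : Λ₂ →+* Λ₂, (∀ c, f (algebraMap Λ Λ₂ c) = algebraMap Λ Λ₂ c) ∧
      ∀ l, f (ιΛ l) = ιΛ (φ l) := lift hΛ (PΛ.comp (AlgHom.id ℂ Λ) φ)
  obtain ⟨iy, iy1, iy2⟩ : ∃ f : Ω →+* Ω₂, (∀ c, f (algebraMap F Ω c) =
      algebraMap Ω Ω₂ (algebraMap F Ω c)) ∧ ∀ l, f (ι' l) = ιΩ l :=
    lift hι' (PΩ.comp (IsScalarTower.toAlgHom ℂ F Ω) (AlgHom.id ℂ L))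
  letI : Algebra Λ₂ Ω₂ := j.toAlgebra
  letI : Algebra F Ω₂ := ((algebraMap Ω Ω₂).comp (algebraMap F Ω)).toAlgebra
  letI : Algebra Λ Ω₂ := ((algebraMap Ω Ω₂).comp (algebraMap Λ Ω)).toAlgebra
  letI : Algebra k Ω₂ := ((algebraMap Ω Ω₂).comp (algebraMap k Ω)).toAlgebra
  letI : Algebra k Λ₂ := ((algebraMap Λ Λ₂).comp (algebraMap k Λ)).toAlgebra
  have aj : ∀ a, algebraMap Λ₂ Ω₂ a = j a := fun _ => rfl
  have aF : ∀ a, algebraMap F Ω₂ a = algebraMap Ω Ω₂ (algebraMap F Ω a) := fun _ => rfl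
  haveI : IsScalarTower Λ Ω Ω₂ := IsScalarTower.of_algebraMap_eq fun _ => rfl
  haveI : IsScalarTower k Λ Λ₂ := IsScalarTower.of_algebraMap_eq fun _ => rfl
  haveI : IsScalarTower Λ Λ₂ Ω₂ := IsScalarTower.of_algebraMap_eq fun c => (hj1 c).symm
  haveI : IsScalarTower k F Ω₂ := IsScalarTower.of_algebraMap_eq fun c =>
    congrArg (algebraMap Ω Ω₂) (IsScalarTower.algebraMap_apply k F Ω c)
  haveI : IsScalarTower k Λ₂ Ω₂ := IsScalarTower.of_algebraMap_eq fun c =>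
    (congrArg (algebraMap Ω Ω₂) (IsScalarTower.algebraMap_apply k Λ Ω c)).trans (hj1 _).symm
  haveI : CharZero k := charZero_of_injective_algebraMap (algebraMap ℂ k).injective
  let φx : Ω₂ →ₐ[F] Ω₂ := { fx with
    commutes' := fun c => (hx1 _).trans (congrArg (algebraMap Ω Ω₂) (ψ.commutes c)) }
  let φy : Ω₂ →ₐ[F] Ω₂ := { fy with commutes' := fun c => hy1 _ }
  have hφx : ∀ w, φx w = fx w := fun _ => rfl
  have hφy : ∀ w, φy w = fy w := fun _ => rfl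
  have jx : ∀ a, fx (j a) = j (gx a) := hom_ext hΛ (fx.comp j) (j.comp gx)
    (fun c => by simp only [RingHom.comp_apply, hj1, hx1, gx1, hψ])
    (fun l => by simp only [RingHom.comp_apply, hj2, hx2, gx2])
  have jy : ∀ a, fy (j a) = j (gy a) := hom_ext hΛ (fy.comp j) (j.comp gy)
    (fun c => by simp only [RingHom.comp_apply, hj1, hy1, gy1])
    (fun l => by simp only [RingHom.comp_apply, hj2, hy2, gy2])
  have cxy : ∀ w, fx (fy w) = fy (fx w) := hom_ext hΩ (fx.comp fy) (fy.comp fx)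
    (fun c => by simp only [RingHom.comp_apply, hx1, hy1])
    (fun l => by simp only [RingHom.comp_apply, hx2, hy2])
  have gxy : ∀ w, gy (gx w) = gx (gy w) := hom_ext hΛ (gy.comp gx) (gx.comp gy)
    (fun c => by simp only [RingHom.comp_apply, gx1, gy1])
    (fun l => by simp only [RingHom.comp_apply, gx2, gy2])
  have xiy : ∀ w, fx (iy w) = iy w := hom_ext hι' (fx.comp iy) iy
    (fun c => by simp only [RingHom.comp_apply, iy1, hx1, AlgHom.commutes])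
    (fun l => by simp only [RingHom.comp_apply, iy2, hx2])
  have yiy : ∀ w, fy (iy w) = iy (ψ w) := hom_ext hι' (fy.comp iy) (iy.comp ψ.toRingHom)
    (fun c => by
      simp only [RingHom.comp_apply, iy1, hy1, AlgHom.toRingHom_eq_coe, RingHom.coe_coe,
        AlgHom.commutes])
    (fun l => by
      simp only [RingHom.comp_apply, iy2, hy2, AlgHom.toRingHom_eq_coe, RingHom.coe_coe, hψι])
  have hBC : IsBC Λ₂ (IsScalarTower.toAlgHom k F Ω₂) := by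
    have t1 : Ind Λ (IsScalarTower.toAlgHom k F Ω) := BCa.trans hι hι'.1 hι'a
    have t2 : Ind Λ₂ (IsScalarTower.toAlgHom Λ Ω Ω₂) := BCa.trans hΛ hΩ.1 hj2
    refine ⟨fun s hs => t2.li (t1 s hs), fun w => frac_of_closure _ ?_⟩
    have m1 : ∀ a, j a ∈ Subfield.closure
        (Algebra.adjoin Λ₂ (range (IsScalarTower.toAlgHom k F Ω₂)) : Set Ω₂) := fun a =>
      Subfield.subset_closure (Subalgebra.algebraMap_mem _ a)
    refine gen hΩ _ (gen hι' (Subfield.comap (algebraMap Ω Ω₂) _) (fun c => ?_) fun l => ?_)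
      (fun l => hj2 l ▸ m1 _) w
    · exact Subfield.subset_closure (Algebra.subset_adjoin ⟨c, rfl⟩)
    · rw [Subfield.mem_comap, ← hι'a, ← hj1]
      exact m1 _
  have hal : ∀ a : Λ₂, ∃ P : Polynomial Λ₂, P ≠ 0 ∧ P.eval₂ ((φx.comp φy).toRingHom.comp
      (algebraMap Λ₂ Ω₂)) (algebraMap Λ₂ Ω₂ a) = 0 := fun a => by
    have e1 : ∀ l, gx.comp gy (ιΛ l) = ιΛ (φ l) := fun l => by rw [RingHom.comp_apply, gy2, gx2]
    have e2 : ∀ c, gx.comp gy (algebraMap Λ Λ₂ c) = algebraMap Λ Λ₂ (ψ₀ c) := fun c => by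
      rw [RingHom.comp_apply, gy1, gx1]
    have m1 : a ∈ algO (gx.comp gy) := by
      refine gen hΛ _ (gen hι (Subfield.comap (algebraMap Λ Λ₂) _) (fun c => ?_) fun l => ?_)
        (fun l => ?_) a
      · rw [Subfield.mem_comap, ← ψ₀.commutes, ← e2]
        exact self_mem_algO _ _
      · exact algO_map ((algebraMap Λ Λ₂).comp ι.toRingHom) ((algebraMap Λ Λ₂).comp ι.toRingHom)
          (fun c => ((e2 _).trans (congrArg _ (hψ₀ c))).symm) (mem_algO.2 (halg l))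
      · exact algO_map ιΛ.toRingHom ιΛ.toRingHom (fun c => (e1 c).symm) (mem_algO.2 (halg l))
    exact mem_algO.1 (algO_map (RingHom.id Λ₂) j
      (fun c => ((congrArg fx (jy c)).trans (jx _)).symm) m1)
  have hper : ∀ p : ℕ, 0 < p → ∀ a : Λ₂, (φx ∘ φy)^[p] (algebraMap Λ₂ Ω₂ a) =
      algebraMap Λ₂ Ω₂ a → a ∈ range (algebraMap k Λ₂) := fun p hp a ha => by
    have e1 : (gy.comp gx)^[p] a = a := by
      apply j.injective
      rw [← iter_map (Φ := φx ∘ φy) (χ := j) (ψ := gy.comp gx) fun w =>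
        (congrArg fx (jy w)).trans ((jx _).trans (congrArg j (gxy w).symm))]
      exact ha
    have e2 : IsAlgebraic Λ a := hnif Λ Λ₂ ιΛ hΛ { gy with commutes' := gy1 } gx gy2 gx2
      (fun c => ⟨_, (gx1 c).symm⟩) gxy p hp a e1
    rw [iter_hom] at e1
    refine const_of_alg ((gy.comp gx) ^ p) (ψ₀.toRingHom ^ p) (fun c => ?_) (fun c hc => ?_) e1 e2
    · rw [← iter_hom, ← iter_hom]
      exact iter_map (χ := algebraMap Λ Λ₂) (ψ := ψ₀.toRingHom) (Φ := gy.comp gx)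
        (fun w => (congrArg gy (gx1 w)).trans (gy1 _)) p c
    · rw [← iter_hom] at hc
      exact hnif k Λ ι hι ψ₀ (RingHom.id Λ) hψ₀ (fun _ => rfl) (fun c => ⟨c, rfl⟩) (fun _ => rfl)
        p hp c hc
  have hR : ∀ χ : Ω →+* Ω₂, (∀ c, χ (algebraMap F Ω c) = algebraMap F Ω₂ c) →
      (∀ l, χ (ι' l) ∈ range j) → ∀ w ∈ (Algebra.adjoin F (range ι') : Set Ω),
      χ w ∈ (Algebra.adjoin Λ₂ (range (algebraMap F Ω₂)) : Set Ω₂) := fun χ e1 e2 w hw => by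
    refine ind_range (P := fun w => χ w ∈ Algebra.adjoin Λ₂ (range (algebraMap F Ω₂)))
      (by rw [map_zero]; exact zero_mem _) (fun u v hu hv => by rw [map_add]; exact add_mem hu hv)
      (fun c l => ?_) hw
    obtain ⟨a, ha⟩ := e2 l
    rw [map_mul, e1, ← ha]
    exact mul_mem (Algebra.subset_adjoin ⟨c, rfl⟩) (Subalgebra.algebraMap_mem _ a)
  have Sx := star_map (algebraMap Ω Ω₂) (Φ := φx ∘ φy)
    (fun w => (congrArg fx (hy1 w)).trans (hx1 w))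
    (hR _ (fun _ => rfl) fun l => ⟨_, (hj1 (ι l)).trans rfl⟩) hS
  have Sy := star_map iy (Φ := φx ∘ φy) (fun w => (congrArg fx (yiy w)).trans (xiy _))
    (hR _ iy1 fun l => ⟨_, (hj2 l).trans (iy2 l).symm⟩) hS
  obtain ⟨r, μ, ρ, hr, hμ, hρ, hE⟩ := h2 k F Λ₂ Ω₂ t ht hBC φx φy cxy (fun a => ⟨_, (jx a).symm⟩)
    (fun a => ⟨_, (jy a).symm⟩) hal hper _ _ _ _ (hy1 h) (xiy h) Sx Sy (by
      obtain ⟨σ, _, a, b, l, hl, hh⟩ := rep2 hι' h
      refine ⟨σ, inferInstance, a, b, fun i => algebraMap Λ Λ₂ (ι (l i)), fun i => ιΛ (l i),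
        (Ind.li hι.1 hl).map' (IsScalarTower.toAlgHom k Λ Λ₂).toLinearMap
          (LinearMap.ker_eq_bot.2 (algebraMap Λ Λ₂).injective),
        (Ind.li hΛ.1 hl).restrict_scalars' k, ?_, ?_⟩
      · rw [hh]
        simp only [map_div₀, map_sum, map_mul, aj, aF, hj1, hι'a]
      · rw [hh]
        simp only [map_div₀, map_sum, map_mul, aj, aF, hj2, iy1, iy2])
  obtain ⟨r₂, hr₂, hr₂0, hr₁⟩ := hΩ.2 r
  obtain ⟨m₂, hm₂, hm₂0, hm₁⟩ := hΛ.2 μ
  have jm : ∀ m ∈ Algebra.adjoin Λ (range ιΛ), j m ∈ Algebra.adjoin Ω (range ιΩ) := fun m hm => by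
    have := map_mem (A := ⊤) j (fun c => ⟨_, (hj1 c).symm⟩) hj2
      (by rwa [Algebra.coe_top, image_univ])
    rwa [Algebra.coe_top, image_univ] at this
  obtain ⟨A, θ, hθ, hW⟩ := spec hΩ.1 {r₂ * r, r₂, j (m₂ * μ), j m₂} (toFinite _) (by
    rintro w (rfl | rfl | rfl | rfl)
    exacts [hr₁, hr₂, jm _ hm₁, jm _ hm₂])
  obtain ⟨Θ, hΘ⟩ := Ind.exists_th hΩ.1 θ
  obtain ⟨Θ₀, hΘ₀⟩ := Ind.exists_th hΛ.1 θ
  obtain ⟨w1, n1⟩ := hW (r₂ * r) (by simp)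
  obtain ⟨w2, n2⟩ := hW r₂ (by simp)
  obtain ⟨w3, n3⟩ := hW (j (m₂ * μ)) (by simp)
  obtain ⟨w4, n4⟩ := hW (j m₂) (by simp)
  replace n1 := n1 Θ hΘ (mul_ne_zero hr₂0 hr)
  replace n2 := n2 Θ hΘ hr₂0
  replace n3 := n3 Θ hΘ ((map_ne_zero j).2 (mul_ne_zero hm₂0 hμ))
  replace n4 := n4 Θ hΘ ((map_ne_zero j).2 hm₂0)
  have cj : ∀ m ∈ Algebra.adjoin Λ (range ιΛ), Θ (j m) = algebraMap Λ Ω (Θ₀ m) := fun m hm =>
    compat j (algebraMap Λ Ω) (fun c => (IsScalarTower.algebraMap_apply ℂ Λ Ω c).symm) hj1 hj2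
      hΘ₀ hΘ hm
  have cx : ∀ w ∈ Algebra.adjoin Ω (range ιΩ), Θ (fx w) = ψ (Θ w) := fun w hw =>
    compat fx ψ.toRingHom (fun c => (ψ.restrictScalars ℂ).commutes c) hx1 hx2 hΘ hΘ hw
  have mx : ∀ w ∈ Algebra.adjoin Ω (ιΩ '' A), fx w ∈ Algebra.adjoin Ω (ιΩ '' A) := fun w hw =>
    map_mem fx (fun c => ⟨_, (hx1 c).symm⟩) hx2 hw
  have hE' : h • (fx (r₂ * r) * (r₂ * j m₂)) =
      algebraMap F Ω ρ • (j (m₂ * μ) * (r₂ * r * fx r₂)) := by
    rw [Algebra.smul_def, Algebra.smul_def, map_mul, map_mul]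
    rw [hφx, aj, aF] at hE
    linear_combination fx r₂ * r₂ * j m₂ * hE
  have hE'' := congrArg Θ hE'
  rw [map_smul, map_smul, hΘ.mul hθ (mx _ w1) (mul_mem w2 w4), hΘ.mul hθ w2 w4,
    hΘ.mul hθ w3 (mul_mem w1 (mx _ w2)), hΘ.mul hθ w1 (mx _ w2), cx _ hr₁, cx _ hr₂, cj _ hm₁,
    cj _ hm₂, smul_eq_mul, smul_eq_mul] at hE''
  rw [cj _ hm₁] at n3
  rw [cj _ hm₂] at n4
  refine ⟨Θ (r₂ * r) / Θ r₂, Θ₀ (m₂ * μ) / Θ₀ m₂, ρ, div_ne_zero n1 n2,
    div_ne_zero ((map_ne_zero _).1 n3) ((map_ne_zero _).1 n4), hρ, ?_⟩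
  have n5 : ψ (Θ r₂) ≠ 0 := (map_ne_zero ψ).2 n2
  rw [map_div₀, map_div₀]
  field_simp
  linear_combination hE''

end Pool.Agent.Lib.GD
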