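import Pool.Agent.Lib.GD.BCa

/-! Block TH: descent of bounded cocycles to the complex numbers. -/

open Set Pool.Agent.Lib.MP_e06174_ag
open scoped IntermediateField

set_option linter.unusedSectionVars false
set_option linter.unusedVariables false
set_option linter.style.haveILetI false

noncomputable section

namespace Pool.Agent.Lib.GD

namespace TH

open BCa

variable {L : Type} [Field L] [Algebra ℂ L] (φ : L →ₐ[ℂ] L)

/-- The statement for one field of constants. -/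
def P (K : Type) [Field K] [Algebra ℂ K] : Prop :=
  ∀ (Ω : Type) [Field Ω] [Algebra ℂ Ω] [Algebra K Ω] [IsScalarTower ℂ K Ω] (ι : L →ₐ[ℂ] Ω),
    IsBC K ι → ∀ ψ : Ω →ₐ[K] Ω, (∀ a, ψ (ι a) = ι (φ a)) → ∀ h z : Ω,
    Star (Algebra.adjoin K (range ι) : Set Ω) ψ h z →
    ∃ (ρ : K) (μ : L) (u : Ω), ρ ≠ 0 ∧ μ ≠ 0 ∧ u ≠ 0 ∧ h * ψ u = algebraMap K Ω ρ * ι μ * u

variable {φ}

section sub

variable {E K Ω : Type} [Field E] [Field K] [Field Ω] [Algebra ℂ E] [Algebra ℂ K] [Algebra ℂ Ω]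
  [Algebra E K] [Algebra E Ω] [Algebra K Ω] [IsScalarTower ℂ E K] [IsScalarTower ℂ K Ω]
  [IsScalarTower E K Ω] {ι : L →ₐ[ℂ] Ω}

variable (E) in
theorem sub (hι : IsBC K ι) (ψ : Ω →ₐ[K] Ω) (hψ : ∀ a, ψ (ι a) = ι (φ a)) :
    ∃ (Λ : Type) (_ : Field Λ) (_ : Algebra ℂ Λ) (_ : Algebra E Λ) (_ : Algebra Λ Ω)
      (_ : IsScalarTower ℂ E Λ) (_ : IsScalarTower ℂ Λ Ω) (_ : IsScalarTower E Λ Ω)
      (ι₀ : L →ₐ[ℂ] Λ) (ψ₀ : Λ →ₐ[E] Λ), IsBC E ι₀ ∧ (∀ l, algebraMap Λ Ω (ι₀ l) = ι l) ∧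
      (∀ l, ψ₀ (ι₀ l) = ι₀ (φ l)) ∧ ∀ a, ψ (algebraMap Λ Ω a) = algebraMap Λ Ω (ψ₀ a) := by
  obtain ⟨Λ, _, _, _, _, ι₀, h₀⟩ := exists_bc ℂ L E
  obtain ⟨j, j1, j2⟩ : ∃ j : Λ →+* Ω, (∀ c, j (algebraMap E Λ c) =
      algebraMap K Ω (algebraMap E K c)) ∧ ∀ l, j (ι₀ l) = ι l :=
    lift h₀ ((Ind.pind hι.1).comp (IsScalarTower.toAlgHom ℂ E K) (AlgHom.id ℂ L))
  obtain ⟨g, g1, g2⟩ : ∃ g : Λ →+* Λ, (∀ c, g (algebraMap E Λ c) = algebraMap E Λ c) ∧
      ∀ l, g (ι₀ l) = ι₀ (φ l) := lift h₀ ((Ind.pind h₀.1).comp (AlgHom.id ℂ E) φ)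
  letI : Algebra Λ Ω := j.toAlgebra
  refine ⟨Λ, inferInstance, inferInstance, inferInstance, inferInstance, inferInstance,
    IsScalarTower.of_algebraMap_eq fun c => ?_, IsScalarTower.of_algebraMap_eq fun c => ?_, ι₀,
    { g with commutes' := g1 }, h₀, j2, g2, hom_ext h₀ (ψ.toRingHom.comp j) (j.comp g)
      (fun c => ?_) fun l => ?_⟩
  · rw [IsScalarTower.algebraMap_apply ℂ E Λ, IsScalarTower.algebraMap_apply ℂ K Ω,
      IsScalarTower.algebraMap_apply ℂ E K]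
    exact (j1 _).symm
  · rw [IsScalarTower.algebraMap_apply E K Ω]
    exact (j1 _).symm
  · simp only [RingHom.comp_apply, j1, g1, AlgHom.toRingHom_eq_coe, RingHom.coe_coe, AlgHom.commutes]
  · simp only [RingHom.comp_apply, j2, g2, AlgHom.toRingHom_eq_coe, RingHom.coe_coe, hψ]

variable {Λ : Type} [Field Λ] [Algebra ℂ Λ] [Algebra E Λ] [Algebra Λ Ω] [IsScalarTower ℂ E Λ]
  [IsScalarTower E Λ Ω] {ι₀ : L →ₐ[ℂ] Λ}

theorem down (j2 : ∀ l, algebraMap Λ Ω (ι₀ l) = ι l) {θ : K →ₗ[E] E} {Θ : Ω →ₗ[Λ] Λ}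
    (hΘ : Th (IsScalarTower.toAlgHom E K Ω) θ Θ) {w : Ω} (hw : w ∈ Algebra.adjoin K (range ι)) :
    Θ w ∈ Algebra.adjoin E (range ι₀) := by
  refine ind_range (P := fun w => Θ w ∈ Algebra.adjoin E (range ι₀))
    (by rw [map_zero]; exact zero_mem _) (fun u v hu hv => by rw [map_add]; exact add_mem hu hv)
    (fun c l => ?_) hw
  have h1 := hΘ.gen (ι₀ l) c
  rw [j2, IsScalarTower.toAlgHom_apply, mul_comm] at h1
  rw [h1]
  exact mul_mem (Algebra.subset_adjoin (mem_range_self l)) (Subalgebra.algebraMap_mem _ _)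

theorem up (j2 : ∀ l, algebraMap Λ Ω (ι₀ l) = ι l) {w : Ω} (hw : w ∈ Algebra.adjoin K (range ι)) :
    w ∈ Algebra.adjoin Λ (range (IsScalarTower.toAlgHom E K Ω)) := by
  refine ind_range (P := fun w => w ∈ Algebra.adjoin Λ (range (IsScalarTower.toAlgHom E K Ω)))
    (zero_mem _) (fun u v => add_mem) (fun c l => ?_) hw
  rw [← j2]
  exact mul_mem (Algebra.subset_adjoin ⟨c, rfl⟩) (Subalgebra.algebraMap_mem _ _)

theorem desc (hι : IsBC K ι) (h₀ : IsBC E ι₀) (j2 : ∀ l, algebraMap Λ Ω (ι₀ l) = ι l) {a : Λ}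
    (ha : algebraMap Λ Ω a ∈ Algebra.adjoin K (range ι)) : a ∈ Algebra.adjoin E (range ι₀) := by
  obtain ⟨θ, hθ⟩ := (Algebra.linearMap E K).exists_leftInverse_of_injective
    (LinearMap.ker_eq_bot.2 (algebraMap E K).injective)
  have h1 : θ 1 = 1 := by simpa using LinearMap.congr_fun hθ 1
  obtain ⟨Θ, hΘ⟩ := (BCa.trans (k := E) (F := K) h₀ hι.1 j2).exists_th θ
  rw [← hΘ.alg h1 a]
  exact down j2 hΘ ha

end sub

section main

variable {K Ω : Type} [Field K] [Field Ω] [Algebra ℂ K] [Algebra ℂ Ω] [Algebra K Ω]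
  [IsScalarTower ℂ K Ω] {ι : L →ₐ[ℂ] Ω}

theorem coeffs {w : Ω} (hw : w ∈ Algebra.adjoin K (range ι)) : ∃ c : Finset K, ∀ E : Subfield Ω,
    (∀ x ∈ c, algebraMap K Ω x ∈ E) → (∀ l, ι l ∈ E) → w ∈ E := by
  classical
  refine ind_range (P := fun w => ∃ c : Finset K, ∀ E : Subfield Ω,
    (∀ x ∈ c, algebraMap K Ω x ∈ E) → (∀ l, ι l ∈ E) → w ∈ E) ⟨∅, fun E _ _ => zero_mem _⟩
    (fun u v ⟨c, hc⟩ ⟨c', hc'⟩ => ⟨c ∪ c', fun E h1 h2 => add_mem
      (hc E (fun x hx => h1 x (Finset.mem_union_left _ hx)) h2)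
      (hc' E (fun x hx => h1 x (Finset.mem_union_right _ hx)) h2)⟩)
    (fun c l => ⟨{c}, fun E h1 h2 => mul_mem (h1 c (Finset.mem_singleton_self c)) (h2 l)⟩) hw

theorem stab (ψ : Ω →ₐ[K] Ω) (hψ : ∀ a, ψ (ι a) = ι (φ a)) (i : ℕ) {w : Ω}
    (hw : w ∈ Algebra.adjoin K (range ι)) : ψ^[i] w ∈ Algebra.adjoin K (range ι) := by
  induction i with
  | zero => exact hw
  | succ i ih =>
    rw [Function.iterate_succ_apply']
    refine ind_range (P := fun w => ψ w ∈ Algebra.adjoin K (range ι))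
      (by rw [map_zero]; exact zero_mem _) (fun u v hu hv => by rw [map_add]; exact add_mem hu hv)
      (fun c l => ?_) ih
    rw [map_mul, AlgHom.commutes, hψ]
    exact mul_mem (Subalgebra.algebraMap_mem _ _) (Algebra.subset_adjoin (mem_range_self _))

theorem coc_eq (ψ : Ω →ₐ[K] Ω) {h r m : Ω} {ρ : K} (hE : h * ψ r = m * algebraMap K Ω ρ * r)
    (i : ℕ) : coc ψ h i * ψ^[i] r = coc ψ m i * algebraMap K Ω ρ ^ i * r := by
  induction i with
  | zero => simp [coc]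
  | succ i ih =>
    have h1 := congrArg (ψ ^ i) hE
    rw [map_mul, map_mul, map_mul, AlgHom.commutes, AlgHom.coe_pow] at h1
    rw [coc, coc, Finset.prod_range_succ, Finset.prod_range_succ, ← coc, ← coc,
      Function.iterate_succ_apply, mul_assoc, h1]
    linear_combination ψ^[i] m * algebraMap K Ω ρ * ih

theorem coc_ne (ψ : Ω →ₐ[K] Ω) {h : Ω} (hh : h ≠ 0) (i : ℕ) : coc ψ h i ≠ 0 :=
  Finset.prod_ne_zero_iff.2 fun j _ => by
    rw [← AlgHom.coe_pow]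
    exact (map_ne_zero (ψ ^ j)).2 hh

theorem star_twist (hι : IsBC K ι) (ψ : Ω →ₐ[K] Ω) (hψ : ∀ a, ψ (ι a) = ι (φ a)) {h z r m : Ω}
    {ρ : K} (hS : Star (Algebra.adjoin K (range ι) : Set Ω) ψ h z) (hr : r ≠ 0) (hm : m ≠ 0)
    (hρ : ρ ≠ 0) (hE : h * ψ r = m * algebraMap K Ω ρ * r) :
    ∃ z', Star (Algebra.adjoin K (range ι) : Set Ω) ψ m z' := by
  obtain ⟨q, hq, hq0, hp⟩ := hι.2 r
  refine ⟨z * (q * r * q), hm, mul_ne_zero hS.2.1 (mul_ne_zero (mul_ne_zero hq0 hr) hq0),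
    mul_mem hS.2.2.1 (mul_mem hp hq), fun i => ?_⟩
  have h1 := coc_eq ψ hE i
  have h2 := stab ψ hψ i hp
  have h3 := stab ψ hψ i hq
  obtain ⟨h4, h5⟩ := hS.2.2.2 i
  have n1 := coc_ne ψ hS.1 i
  have n2 := coc_ne ψ hm i
  have n3 : algebraMap K Ω ρ ≠ 0 := (map_ne_zero _).2 hρ
  rw [← AlgHom.coe_pow] at h1 h2 h3 h4 h5 ⊢
  have n4 : (ψ ^ i) r ≠ 0 := (map_ne_zero _).2 hr
  have e : coc ψ m i = coc ψ h i * (ψ ^ i) r / (algebraMap K Ω ρ ^ i * r) := by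
    rw [h1]
    field_simp
  constructor
  · have : z * (q * r * q) * (ψ ^ i) (z * (q * r * q)) * coc ψ m i =
        z * (ψ ^ i) z * coc ψ h i * (q * (ψ ^ i) (q * r)) ^ 2 * algebraMap K Ω ρ⁻¹ ^ i := by
      rw [e]
      simp only [map_mul, map_inv₀, inv_pow]
      field_simp
    rw [this]
    exact mul_mem (mul_mem h4 (pow_mem (mul_mem hq h2) 2)) (pow_mem (Subalgebra.algebraMap_mem _ _) i)
  · have : z * (q * r * q) * (ψ ^ i) (z * (q * r * q)) / coc ψ m i =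
        z * (ψ ^ i) z / coc ψ h i * (q * r * (ψ ^ i) q) ^ 2 * algebraMap K Ω ρ ^ i := by
      rw [e]
      simp only [map_mul]
      field_simp
    rw [this]
    exact mul_mem (mul_mem h5 (pow_mem (mul_mem hp h3) 2)) (pow_mem (Subalgebra.algebraMap_mem _ _) i)

end main

theorem base {K : Type} [Field K] [Algebra ℂ K] (hK : Function.Surjective (algebraMap ℂ K)) :
    P φ K := by
  intro Ω _ _ _ _ ι hι ψ hψ h z hS
  obtain ⟨μ, hμ⟩ := gen hι ι.toRingHom.fieldRange (fun c => by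
    obtain ⟨c, rfl⟩ := hK c
    exact ⟨algebraMap ℂ L c, (ι.commutes c).trans (IsScalarTower.algebraMap_apply ℂ K Ω c)⟩)
    (fun l => ⟨l, rfl⟩) h
  refine ⟨1, μ, 1, one_ne_zero, fun h0 => hS.1 (by rw [← hμ, h0, map_zero]), one_ne_zero, ?_⟩
  rw [map_one, map_one, one_mul, ← hμ]
  rfl

theorem union {K : Type} [Field K] [Algebra ℂ K] (hK : ∀ c : Finset K, ∃ (E : Type) (_ : Field E)
    (_ : Algebra ℂ E) (_ : Algebra E K) (_ : IsScalarTower ℂ E K),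
      P φ E ∧ ∀ a ∈ c, a ∈ range (algebraMap E K)) : P φ K := by
  classical
  intro Ω _ _ _ _ ι hι ψ hψ h z hS
  obtain ⟨c, hc⟩ := coeffs hS.2.2.1
  obtain ⟨c', hc'⟩ := coeffs (hS.2.2.2 1).1
  obtain ⟨E, _, _, _, _, hE, hm⟩ := hK (c ∪ c')
  letI : Algebra E Ω := ((algebraMap K Ω).comp (algebraMap E K)).toAlgebra
  haveI : IsScalarTower E K Ω := IsScalarTower.of_algebraMap_eq fun _ => rfl
  obtain ⟨Λ, _, _, _, _, _, _, _, ι₀, ψ₀, h₀, j2, g2, hj⟩ := sub E hι ψ hψ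
  have m1 : ∀ x ∈ c ∪ c', algebraMap K Ω x ∈ (algebraMap Λ Ω).fieldRange := fun x hx => by
    obtain ⟨y, rfl⟩ := hm x hx
    exact ⟨algebraMap E Λ y, (IsScalarTower.algebraMap_apply E Λ Ω y).symm⟩
  obtain ⟨z', rfl⟩ := hc _ (fun x hx => m1 x (Finset.mem_union_left _ hx)) fun l => ⟨_, j2 l⟩
  obtain ⟨w, hw⟩ := hc' _ (fun x hx => m1 x (Finset.mem_union_right _ hx)) fun l => ⟨_, j2 l⟩
  obtain ⟨h', rfl⟩ : ∃ h', algebraMap Λ Ω h' = h := by
    refine ⟨w / (z' * ψ₀ z'), ?_⟩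
    have n1 := hS.2.1
    have n2 : ψ (algebraMap Λ Ω z') ≠ 0 := (map_ne_zero ψ).2 n1
    rw [map_div₀, map_mul, ← hj, hw, Function.iterate_one, coc, Finset.prod_range_one,
      Function.iterate_zero_apply, mul_div_cancel_left₀ _ (mul_ne_zero n1 n2)]
  obtain ⟨ρ, μ, u, hρ, hμ, hu, hh⟩ := hE Λ ι₀ h₀ ψ₀ g2 h' z' (by
    refine ⟨(map_ne_zero _).1 hS.1, (map_ne_zero _).1 hS.2.1, desc hι h₀ j2 hS.2.2.1, fun i => ?_⟩
    have h1 := hS.2.2.2 i
    rw [iter_map hj, coc_map _ hj, ← map_mul, ← map_mul, ← map_div₀] at h1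
    exact ⟨desc hι h₀ j2 h1.1, desc hι h₀ j2 h1.2⟩)
  refine ⟨algebraMap E K ρ, μ, algebraMap Λ Ω u, (map_ne_zero _).2 hρ, hμ, (map_ne_zero _).2 hu, ?_⟩
  rw [hj, ← map_mul, hh, map_mul, map_mul, j2, ← IsScalarTower.algebraMap_apply,
    ← IsScalarTower.algebraMap_apply]

theorem step (hs : St_STEP) (halg : ∀ a : L, ∃ P : Polynomial L, P ≠ 0 ∧ P.eval₂ φ.toRingHom a = 0)
    (hnif : NIFall φ) {k F : Type} [Field k] [IsAlgClosed k] [Field F] [Algebra ℂ k] [Algebra ℂ F]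
    [Algebra k F] [IsScalarTower ℂ k F] {t : F} (ht : IsCoord k t) (hk : P φ k) : P φ F := by
  intro Ω _ _ _ _ ι hι ψ hψ h z hS
  letI : Algebra k Ω := ((algebraMap F Ω).comp (algebraMap k F)).toAlgebra
  haveI : IsScalarTower k F Ω := IsScalarTower.of_algebraMap_eq fun _ => rfl
  obtain ⟨Λ, _, _, _, _, _, _, _, ι₀, ψ₀, h₀, j2, g2, hj⟩ := sub k hι ψ hψ
  have e : (IsScalarTower.toAlgHom ℂ Λ Ω).comp ι₀ = ι := AlgHom.ext j2
  obtain ⟨r, μ, ρ, hr, hμ, hρ, hE⟩ := hs L φ halg hnif k F Λ Ω t ht ι₀ h₀ (e ▸ hι) ψ₀ ψ g2 hj h z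
    (e ▸ hS)
  obtain ⟨z', hS'⟩ := star_twist hι ψ hψ hS hr ((map_ne_zero _).2 hμ) hρ hE
  have hI : Ind Λ (IsScalarTower.toAlgHom k F Ω) := BCa.trans h₀ hι.1 j2
  obtain ⟨A, θ, hθ, hW⟩ := spec hI {z'} (toFinite _) (by
    rintro w rfl
    exact up j2 hS'.2.2.1)
  obtain ⟨Θ, hΘ⟩ := hI.exists_th θ
  obtain ⟨w1, n1⟩ := hW z' rfl
  have w2 : ∀ i, ψ^[i] z' ∈ Algebra.adjoin Λ (IsScalarTower.toAlgHom k F Ω '' A) ∧
      Θ (ψ^[i] z') = ψ₀^[i] (Θ z') := fun i => by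
    induction i with
    | zero => exact ⟨w1, rfl⟩
    | succ i ih =>
      rw [Function.iterate_succ_apply', Function.iterate_succ_apply', ← ih.2]
      exact ⟨map_mem ψ.toRingHom (fun c => ⟨_, (hj c).symm⟩) ψ.commutes ih.1,
        compat ψ.toRingHom ψ₀.toRingHom ψ₀.commutes hj ψ.commutes hΘ hΘ
          (Algebra.adjoin_mono (image_subset_range _ _) ih.1)⟩
  obtain ⟨ρ', μ', u, hρ', hμ', hu, hh⟩ := hk Λ ι₀ h₀ ψ₀ g2 μ (Θ z') (by
    refine ⟨hμ, n1 Θ hΘ hS'.2.1, down j2 hΘ hS'.2.2.1, fun i => ?_⟩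
    obtain ⟨h1, h2⟩ := hS'.2.2.2 i
    rw [coc_map _ hj] at h1 h2
    have h3 := down j2 hΘ h1
    have h4 := down j2 hΘ h2
    rw [mul_comm, ← Algebra.smul_def, map_smul, hΘ.mul hθ w1 (w2 i).1, (w2 i).2, smul_eq_mul,
      mul_comm] at h3
    rw [div_eq_inv_mul, ← map_inv₀, ← Algebra.smul_def, map_smul, hΘ.mul hθ w1 (w2 i).1, (w2 i).2,
      smul_eq_mul, ← div_eq_inv_mul] at h4
    exact ⟨h3, h4⟩)
  refine ⟨ρ * algebraMap k F ρ', μ', r * algebraMap Λ Ω u, mul_ne_zero hρ ((map_ne_zero _).2 hρ'),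
    hμ', mul_ne_zero hr ((map_ne_zero _).2 hu), ?_⟩
  have h5 := congrArg (algebraMap Λ Ω) hh
  rw [map_mul, map_mul, map_mul, j2, ← hj, ← IsScalarTower.algebraMap_apply,
    IsScalarTower.algebraMap_apply k F Ω] at h5
  rw [map_mul, map_mul]
  linear_combination ψ (algebraMap Λ Ω u) * hE + algebraMap F Ω ρ * r * h5

theorem coord {k K F : Type} [Field k] [Field K] [Field F] [Algebra k K] [Algebra k F] {t : K}
    (ht : Transcendental k t) [Algebra k⟮t⟯ F] [IsScalarTower k k⟮t⟯ F] [FiniteDimensional k⟮t⟯ F] :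
    IsCoord k (algebraMap k⟮t⟯ F (IntermediateField.AdjoinSimple.gen k t)) := by
  set t' := algebraMap k⟮t⟯ F (IntermediateField.AdjoinSimple.gen k t) with ht'
  refine ⟨fun h => ht ?_, ?_⟩
  · have h1 := (isAlgebraic_algebraMap_iff (algebraMap k⟮t⟯ F).injective).1 h
    exact h1.algebraMap (A := K)
  · have h1 : ∀ a : k⟮t⟯, algebraMap k⟮t⟯ F a ∈ k⟮t'⟯ := fun a => by
      have h2 : k⟮t⟯ ≤ IntermediateField.lift (k⟮t'⟯.comap (IsScalarTower.toAlgHom k k⟮t⟯ F)) :=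
        IntermediateField.adjoin_simple_le_iff.2
          ((IntermediateField.mem_lift (IntermediateField.AdjoinSimple.gen k t)).2
            (IntermediateField.mem_adjoin_simple_self k t'))
      exact (IntermediateField.mem_lift a).1 (h2 a.2)
    letI : Algebra k⟮t⟯ k⟮t'⟯ := ((algebraMap k⟮t⟯ F).codRestrict k⟮t'⟯ h1).toAlgebra
    haveI : IsScalarTower k⟮t⟯ k⟮t'⟯ F := IsScalarTower.of_algebraMap_eq fun _ => rfl
    exact Module.Finite.of_restrictScalars_finite k⟮t⟯ k⟮t'⟯ F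

end TH

open TH BCa in
theorem blockTH (hs : St_STEP) : St_TH := by
  classical
  intro L _ _ φ halg hnif K Ω _ _ _ _ _ _ _
  have main : ∀ s : Finset K, ∃ (k : Type) (_ : Field k) (_ : IsAlgClosed k) (_ : Algebra ℂ k)
      (_ : Algebra k K) (_ : IsScalarTower ℂ k K), P φ k ∧ ∀ a ∈ s, a ∈ range (algebraMap k K) := by
    intro s
    induction s using Finset.induction_on with
    | empty =>
      exact ⟨ℂ, inferInstance, inferInstance, inferInstance, inferInstance, inferInstance,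
        base fun c => ⟨c, rfl⟩, fun a ha => absurd ha (Finset.notMem_empty a)⟩
    | insert t s _ ih =>
      obtain ⟨k, _, _, _, _, _, hk, hm⟩ := ih
      by_cases ht : IsAlgebraic k t
      · exact ⟨k, inferInstance, inferInstance, inferInstance, inferInstance, inferInstance, hk,
          Finset.forall_mem_insert _ _ _ |>.2 ⟨mem_range_of_alg ht, hm⟩⟩
      · haveI : IsScalarTower ℂ k⟮t⟯ K := IsScalarTower.of_algebraMap_eq fun _ => rfl
        refine ⟨algebraicClosure k⟮t⟯ K, inferInstance, IsAlgClosure.isAlgClosed k⟮t⟯, inferInstance,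
          inferInstance, IsScalarTower.of_algebraMap_eq fun _ => rfl, union fun c => ?_, Finset.forall_mem_insert _ _ _ |>.2
          ⟨⟨algebraMap k⟮t⟯ _ (IntermediateField.AdjoinSimple.gen k t), rfl⟩, fun a ha => ?_⟩⟩
        · haveI : FiniteDimensional k⟮t⟯
              (IntermediateField.adjoin k⟮t⟯ (c : Set (algebraicClosure k⟮t⟯ K))) :=
            IntermediateField.finiteDimensional_adjoin fun x _ => Algebra.IsIntegral.isIntegral x
          haveI : IsScalarTower ℂ k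
              (IntermediateField.adjoin k⟮t⟯ (c : Set (algebraicClosure k⟮t⟯ K))) :=
            IsScalarTower.of_algebraMap_eq fun x =>
              Subtype.ext (Subtype.ext (IsScalarTower.algebraMap_apply ℂ k K x))
          exact ⟨IntermediateField.adjoin k⟮t⟯ (c : Set (algebraicClosure k⟮t⟯ K)), inferInstance,
            inferInstance, inferInstance, IsScalarTower.of_algebraMap_eq fun _ => rfl, step hs halg hnif (coord ht) hk,
            fun a ha => ⟨⟨a, IntermediateField.subset_adjoin _ _ ha⟩, rfl⟩⟩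
        · obtain ⟨b, rfl⟩ := hm a ha
          exact ⟨algebraMap k _ b, rfl⟩
  exact union (fun c => by
    obtain ⟨k, _, _, _, _, _, h⟩ := main c
    exact ⟨k, inferInstance, inferInstance, inferInstance, inferInstance, h⟩) Ω

end Pool.Agent.Lib.GD
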