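import Pool.Agent.Lib.GD.END
import Pool.Agent.Lib.GD.BAS
import Pool.Agent.Lib.GD.BOOT
import Pool.Agent.Lib.GD.COB
import Pool.Agent.Lib.GD.CUR
import Pool.Agent.Lib.GD.DG
import Pool.Agent.Lib.GD.DV
import Pool.Agent.Lib.GD.FAC
import Pool.Agent.Lib.GD.FIN
import Pool.Agent.Lib.GD.HT
import Pool.Agent.Lib.GD.LG
import Pool.Agent.Lib.GD.LIM
import Pool.Agent.Lib.GD.MOD
import Pool.Agent.Lib.GD.SM
import Pool.Agent.Lib.GD.STEP
import Pool.Agent.Lib.GD.TH

/-! Assembly. -/

namespace Pool.Agent.Lib.GD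

theorem main : St_MAIN :=
  have hB := blockBAS blockDV blockIZ
  blockEND blockDV (blockDGH blockCON)
    (blockMOD (blockCRD blockET) (blockFAC blockET) blockCON blockDG (blockLG blockDV) blockDV)
    hB (blockLIM blockDV hB) (blockFIN blockDV hB) (blockBOOT blockDV hB)
    (blockCOB (blockTH (blockSTEP blockBC blockCUR)))

end Pool.Agent.Lib.GD
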