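import Pool.Agent.Lib.GD.KL

/-! No invariant functions, also after extension of the constants. -/

open Module Submodule Filter Set TensorProduct

set_option linter.unusedSectionVars false
set_option linter.unusedVariables false

noncomputable section

namespace Pool.Agent.Lib.GD

namespace NIF

section

variable {k L : Type} [Field k] [Field L] [Algebra k L] {H : Submodule k L}

theorem alg_of_dg {n : ℕ} {x : Fin n → L} {u : L} (h : Dg k x 0 u) : IsAlgebraic k u := by
  obtain ⟨G, h0, h1, h2⟩ := h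
  have h3 : (G.map MvPolynomial.constantCoeff).map MvPolynomial.C = G := by
    ext j m
    rw [Polynomial.coeff_map, Polynomial.coeff_map, MvPolynomial.coeff_C]
    split_ifs with hm
    · rw [← hm]; rfl
    · exact (MvPolynomial.notMem_support_iff.1 fun h => hm (Finsupp.ext fun i =>
        (Nat.le_zero.1 (MvPolynomial.degreeOf_le_iff.1 (h2 i j) m h)).symm)).symm
  refine ⟨G.map MvPolynomial.constantCoeff, fun h => h0 (by rw [← h3, h, Polynomial.map_zero]), ?_⟩
  rw [← h3, Polynomial.eval₂_map] at h1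
  rw [Polynomial.aeval_def, ← h1]
  congr 1
  ext c
  simp

variable (H) in
/-- Elements with a height. -/
def htS : Subalgebra k L where
  carrier := {u | ∃ e, Ht H e u}
  mul_mem' := by
    rintro u u' ⟨e, b, h1, h2, h3⟩ ⟨e', b', h1', h2', h3'⟩
    refine ⟨e + e', b * b', ?_, mul_ne_zero h2 h2', ?_⟩
    · rw [pow_add]; exact mul_mem_mul h1 h1'
    · rw [pow_add, mul_mul_mul_comm]; exact mul_mem_mul h3 h3'
  add_mem' := by
    rintro u u' ⟨e, b, h1, h2, h3⟩ ⟨e', b', h1', h2', h3'⟩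
    refine ⟨e + e', b * b', ?_, mul_ne_zero h2 h2', ?_⟩
    · rw [pow_add]; exact mul_mem_mul h1 h1'
    · rw [pow_add, add_mul, ← mul_assoc u, mul_left_comm u']
      exact add_mem (mul_mem_mul h3 h1') (mul_mem_mul h1 h3')
  algebraMap_mem' := fun c => ⟨0, 1, by simp, one_ne_zero, by simp⟩

theorem mem_of_mul {b z : L} (h0 : b ≠ 0) (h1 : b ∈ htS H) (h2 : b * z ∈ htS H) : z ∈ htS H := by
  have h3 : b⁻¹ ∈ htS H := by
    obtain ⟨e, c, h4, h5, h6⟩ := h1
    exact ⟨e, b * c, h6, mul_ne_zero h0 h5, by rwa [inv_mul_cancel_left₀ h0]⟩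
  simpa [h0] using mul_mem h3 h2

end

variable {L : Type} [Field L] [Algebra ℂ L] {n : ℕ}

theorem all_ht (C : Ctx L n) (z : L) : z ∈ htS C.H := by
  have h1 : chart C.y C.i₀ ≤ htS C.H := Algebra.adjoin_le (by
    rintro _ ⟨j, rfl⟩
    refine ⟨1, C.y C.i₀, ?_, C.ne _, ?_⟩
    · rw [pow_one]; exact subset_span ⟨_, rfl⟩
    · rw [pow_one, div_mul_cancel₀ _ (C.ne _)]; exact subset_span ⟨_, rfl⟩)
  obtain ⟨b, h2, h3, h4⟩ := C.frac C.i₀ z
  exact mem_of_mul h3 (h1 h2) (h1 h4)

variable (K : Type) {Ω : Type} [Field K] [Field Ω] [Algebra ℂ K] [Algebra ℂ Ω] [Algebra K Ω]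
  [IsScalarTower ℂ K Ω] (ι : L →ₐ[ℂ] Ω)

/-- Base change of a subspace. -/
def bc (W : Submodule ℂ L) : Submodule K Ω := span K (ι '' W)

variable {K ι}

theorem bc_span (s : Set L) : bc K ι (span ℂ s) = span K (ι '' s) := by
  rw [← span_span_of_tower ℂ K (ι '' s)]
  exact congrArg (fun W : Submodule ℂ Ω => span K (W : Set Ω)) (map_span ι.toLinearMap s)

theorem bc_mul (U W : Submodule ℂ L) : bc K ι (U * W) = bc K ι U * bc K ι W := by
  rw [mul_eq_span_mul_set, bc_span, bc, bc, span_mul_span, Set.image_mul]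

theorem bc_pow (U : Submodule ℂ L) (a : ℕ) : bc K ι (U ^ a) = bc K ι U ^ a := by
  induction a with
  | zero => rw [pow_zero, pow_zero, one_eq_span, one_eq_span, bc_span, image_singleton, map_one]
  | succ a ih => rw [pow_succ, pow_succ, bc_mul, ih]

theorem bc_map {φ : L →ₐ[ℂ] L} {ψ : Ω →ₐ[K] Ω} (h : ∀ a, ψ (ι a) = ι (φ a)) (i : ℕ)
    (U : Submodule ℂ L) :
    bc K ι (U.map (φ ^ i).toLinearMap) = (bc K ι U).map (ψ ^ i).toLinearMap := by
  have h1 : ∀ a, (ψ ^ i) (ι a) = ι ((φ ^ i) a) := by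
    induction i with
    | zero => exact fun _ => rfl
    | succ i ih => exact fun a => by rw [pow_succ, pow_succ, AlgHom.mul_apply, h, ih]; rfl
  rw [bc, bc, map_span, map_coe, image_image, image_image]
  exact congrArg _ (image_congr fun a _ => (h1 a).symm)

theorem bc_rank (h : IsBC K ι) (W : Submodule ℂ L) : finrank K (bc K ι W) = finrank ℂ W := by
  obtain ⟨s, -, h1, h2⟩ := exists_linearIndependent ℂ (W : Set L)
  rw [span_eq] at h1
  rw [← h1, bc_span, finrank, finrank, rank_span_set (h.1 s h2).id_image, rank_span_set h2,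
    Cardinal.mk_image_eq (f := ι) ι.toRingHom.injective]

theorem cohHyp (h : IsBC K ι) {φ : L →ₐ[ℂ] L} {ψ : Ω →ₐ[K] Ω} (h1 : ∀ a, ψ (ι a) = ι (φ a))
    {H : Submodule ℂ L} (h2 : CohHyp ℂ n H φ) : CohHyp K n (bc K ι H) ψ := by
  obtain ⟨l, p, ⟨d, hd, hl⟩, hp⟩ := h2
  refine ⟨l, p, ⟨d, fun i a b ha hb => ?_, hl⟩, hp⟩
  refine (hd i a b ha hb).congr fun t => ?_
  rw [← bc_map h1, ← bc_pow, ← bc_pow, ← bc_mul, bc_rank h]

theorem li (h : IsBC K ι) {σ : Type} {v : σ → L} (hv : LinearIndependent ℂ v) :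
    LinearIndependent K (ι ∘ v) :=
  LinearIndependent.comp (h.1 _ hv.linearIndepOn_id) (rangeFactorization v)
    fun _ _ h => hv.injective (congrArg Subtype.val h)

theorem algInd (h : IsBC K ι) {x : Fin n → L} (hx : AlgebraicIndependent ℂ x) :
    AlgebraicIndependent K (ι ∘ x) := by
  have h1 := li h ((MvPolynomial.basisMonomials (Fin n) ℂ).linearIndependent.map'
    (MvPolynomial.aeval x).toLinearMap (LinearMap.ker_eq_bot.2 hx))
  refine LinearMap.injective_of_linearIndependent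
    (f := (MvPolynomial.aeval (R := K) (ι ∘ x)).toLinearMap)
    (MvPolynomial.basisMonomials (Fin n) K).span_eq ?_
  refine Eq.mp (congrArg (fun v => LinearIndependent K v) (funext fun m => ?_)) h1
  simp [MvPolynomial.aeval_monomial]

variable (K ι) in
/-- The multiplication map. -/
def mu : K ⊗[ℂ] L →ₐ[K] Ω :=
  Algebra.TensorProduct.lift (Algebra.ofId K Ω) ι fun _ _ => Commute.all _ _

theorem mu_tmul (c : K) (a : L) : mu K ι (c ⊗ₜ a) = algebraMap K Ω c * ι a := rfl

theorem mu_inj (h : IsBC K ι) : Function.Injective (mu K ι) := by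
  let b := Basis.ofVectorSpace ℂ L
  refine LinearMap.injective_of_linearIndependent (f := (mu K ι).toLinearMap)
    (b.baseChange K).span_eq ?_
  refine Eq.mp (congrArg (fun v => LinearIndependent K v) (funext fun m => ?_))
    (li h b.linearIndependent)
  simp [mu_tmul]

theorem adj_le : Algebra.adjoin K (range ι) ≤ (mu K ι).range := Algebra.adjoin_le (by
  rintro _ ⟨a, rfl⟩
  exact ⟨1 ⊗ₜ a, by simp [mu_tmul]⟩)

theorem bc_eq (W : Submodule ℂ L) :
    bc K ι W = (span K ((fun a => (1 : K) ⊗ₜ[ℂ] a) '' W)).map (mu K ι).toLinearMap := by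
  rw [bc, map_span, image_image]
  exact congrArg _ (image_congr fun a _ => by simp [mu_tmul])

theorem rT_mem {W : Submodule ℂ L} {α : K ⊗[ℂ] L}
    (h : α ∈ span K ((fun a => (1 : K) ⊗ₜ[ℂ] a) '' W)) (f : K →ₗ[ℂ] K) :
    mu K ι (f.rTensor L α) ∈ bc K ι W := by
  induction h using span_induction generalizing f with
  | mem α h =>
    obtain ⟨a, ha, rfl⟩ := h
    rw [LinearMap.rTensor_tmul, mu_tmul, ← Algebra.smul_def]
    exact smul_mem _ _ (subset_span ⟨a, ha, rfl⟩)
  | zero => simp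
  | add _ _ _ _ ha hb => rw [map_add, map_add]; exact add_mem (ha f) (hb f)
  | smul c α h ha =>
    have : f.rTensor L (c • α) = (f ∘ₗ LinearMap.mulLeft ℂ c).rTensor L α := by
      clear h ha
      induction α using TensorProduct.induction_on with
      | zero => simp
      | tmul a b => simp [smul_tmul']
      | add a b ha hb => rw [smul_add, map_add, map_add, ha, hb]
    exact this ▸ ha _

theorem exists_ret (χ : K →ₐ[ℂ] K) {β : K ⊗[ℂ] L} (h : β ≠ 0) :
    ∃ f : K →ₗ[ℂ] K, f.rTensor L β ≠ 0 ∧ ∀ α γ : K ⊗[ℂ] L,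
      f.rTensor L (Algebra.TensorProduct.map χ (AlgHom.id ℂ L) α * γ) = α * f.rTensor L γ := by
  let b := Basis.ofVectorSpace ℂ L
  obtain ⟨i, hi⟩ : ∃ i, (b.baseChange K).repr β i ≠ 0 := by
    by_contra h1
    exact h ((b.baseChange K).repr.map_eq_zero_iff.1 (Finsupp.ext fun i =>
      by_contra fun h2 => h1 ⟨i, h2⟩))
  obtain ⟨g, hg⟩ := Module.Projective.exists_dual_eq_one χ.fieldRange hi
  let e : K ≃ₐ[ℂ] χ.fieldRange := AlgEquiv.ofInjectiveField χ
  let f : K →ₗ[ℂ] K := e.symm.toLinearMap ∘ₗ g.restrictScalars ℂ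
  have h1 : ∀ c κ, f (χ c * κ) = c * f κ := fun c κ => by
    change e.symm (g (e c • κ)) = c * e.symm (g κ)
    rw [map_smul, smul_eq_mul, map_mul, e.symm_apply_apply]
  have h2 : ∀ γ, (b.baseChange K).repr (f.rTensor L γ) i = f ((b.baseChange K).repr γ i) := by
    intro γ
    induction γ using TensorProduct.induction_on with
    | zero => simp
    | tmul a c => simp only [LinearMap.rTensor_tmul, Basis.baseChange_repr_tmul, map_smul]
    | add a c ha hc => simp only [map_add, Finsupp.add_apply, ha, hc]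
  refine ⟨f, fun h3 => ?_, fun α γ => ?_⟩
  · have h4 := h2 β
    rw [h3, map_zero, Finsupp.zero_apply] at h4
    change 0 = e.symm (g _) at h4
    rw [hg, map_one] at h4
    exact zero_ne_one h4
  · induction α using TensorProduct.induction_on with
    | zero => simp
    | add a c ha hc => simp only [map_add, add_mul, ha, hc]
    | tmul a c =>
      induction γ using TensorProduct.induction_on with
      | zero => simp
      | add a c ha hc => simp only [map_add, mul_add, ha, hc]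
      | tmul a' c' => simp [h1]

theorem descent (h : IsBC K ι) {χ : Ω →+* Ω} (h1 : ∀ a, χ (ι a) = ι a)
    (h2 : ∀ c : K, χ (algebraMap K Ω c) ∈ range (algebraMap K Ω)) {H : Submodule ℂ L} {e : ℕ}
    {w : Ω} (hw : Ht (bc K ι H) e (χ w)) : Ht (bc K ι H) e w := by
  choose χ₀ h3 using h2
  have hK := (algebraMap K Ω).injective
  let χ₁ : K →ₐ[ℂ] K :=
    { toFun := χ₀
      map_one' := hK (by simp [h3])
      map_mul' := fun a b => hK (by simp [h3])
      map_zero' := hK (by simp [h3])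
      map_add' := fun a b => hK (by simp [h3])
      commutes' := fun c => hK (by
        rw [h3, ← IsScalarTower.algebraMap_apply, ← ι.commutes, h1]) }
  have h4 : ∀ α, mu K ι (Algebra.TensorProduct.map χ₁ (AlgHom.id ℂ L) α) = χ (mu K ι α) := by
    intro α
    induction α using TensorProduct.induction_on with
    | zero => simp
    | tmul a c => simp [mu_tmul, h1, ← h3, χ₁]
    | add a c ha hc => simp only [map_add, ha, hc]
  obtain ⟨b, hb, hb0, ha⟩ := hw
  rw [← bc_pow, bc_eq] at hb ha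
  obtain ⟨β, hβ, rfl⟩ := hb
  obtain ⟨α, hα, ha⟩ := ha
  obtain ⟨b', hb', hb0', ha'⟩ := h.2 w
  obtain ⟨β', rfl⟩ := adj_le hb'
  obtain ⟨α', ha'⟩ := adj_le ha'
  change mu K ι α = χ w * mu K ι β at ha
  change mu K ι α' = mu K ι β' * w at ha'
  obtain ⟨f, hf, hf'⟩ := exists_ret χ₁ (β := β) fun h => hb0 (by rw [h, map_zero])
  have h5 : α' * f.rTensor L β = β' * f.rTensor L α := by
    rw [← hf', ← hf']
    refine congrArg _ (mu_inj h ?_)
    rw [map_mul, map_mul, h4, h4, ha, ha', map_mul, mul_assoc]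
  refine ⟨mu K ι (f.rTensor L β), bc_pow (K := K) (ι := ι) H e ▸ rT_mem hβ f,
    (map_ne_zero_iff _ (mu_inj h)).2 hf, ?_⟩
  have h6 := congrArg (mu K ι) h5
  rw [map_mul, map_mul, ha', mul_assoc] at h6
  rw [mul_left_cancel₀ hb0' h6, ← bc_pow]
  exact rT_mem hα f

end NIF

open NIF

theorem blockNIF : St_NIF := by
  intro L _ _ n C φ h
  have : FiniteDimensional ℂ C.H := FiniteDimensional.span_of_finite ℂ (finite_range _)
  have hy : C.y C.i₀ ∈ C.H := subset_span ⟨_, rfl⟩
  refine ⟨fun e u hu => ?_, ?_⟩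
  · obtain ⟨j, hj⟩ := (blockKL ℂ L n C.H _ C.x C.pos (C.ne _) hy C.hx C.tb.1 φ h (e + 1)
      e.succ_pos).exists
    have h1 := hj u e (hu 0) (hu _)
    rw [Nat.div_eq_of_lt e.lt_succ_self] at h1
    exact (isAlgebraic_algHom_iff _ (φ ^ j).toRingHom.injective).1 (alg_of_dg h1)
  intro K Ω _ _ _ _ _ _ ι hι ψ χ h1 h2 h3 h4 p hp w hw
  have : FiniteDimensional K (bc K ι C.H) := by
    rw [Ctx.H, bc_span]
    exact FiniteDimensional.span_of_finite K ((finite_range _).image _)
  have h5 : Algebra.adjoin K (range ι) ≤ htS (bc K ι C.H) := Algebra.adjoin_le (by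
    rintro _ ⟨a, rfl⟩
    obtain ⟨e, b, h6, h7, h8⟩ := all_ht C a
    refine ⟨e, ι b, ?_, by simpa using h7, ?_⟩
    · rw [← bc_pow]; exact subset_span ⟨b, h6, rfl⟩
    · rw [← bc_pow, ← map_mul]; exact subset_span ⟨_, h8, rfl⟩)
  obtain ⟨e, he⟩ : w ∈ htS (bc K ι C.H) := by
    obtain ⟨b, h6, h7, h8⟩ := hι.2 w
    exact mem_of_mul h7 (h5 h6) (h5 h8)
  obtain ⟨j, hj⟩ := ((tendsto_id.const_mul_atTop' hp).eventually
    (blockKL K Ω n (bc K ι C.H) (ι (C.y C.i₀)) (ι ∘ C.x) C.pos (by simpa using C.ne _)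
      (subset_span ⟨_, hy, rfl⟩) (fun i => subset_span ⟨_, C.hx i, map_mul ι _ _⟩)
      (algInd hι C.tb.1) ψ (cohHyp hι h1 h) (e + 1) e.succ_pos)).exists
  have h6 : ∀ (m : ℕ) (z : Ω), Ht (bc K ι C.H) e (χ^[m] z) → Ht (bc K ι C.H) e z := by
    intro m
    induction m with
    | zero => exact fun _ h => h
    | succ m ih => exact fun z h => descent hι h2 h3 (ih _ h)
  have h7 : χ^[2 * (p * j)] ((ψ ^ (2 * (p * j))) w) = w := by
    have h7 : Function.Commute ψ χ := h4
    rw [AlgHom.coe_pow, ← (h7.iterate_iterate _ _).eq, ← Function.comp_apply (f := ψ^[_]),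
      ← h7.comp_iterate, mul_left_comm, Function.iterate_mul]
    exact Function.IsFixedPt.iterate hw _
  have h8 := hj w e he (h6 _ _ (h7.symm ▸ he))
  rw [Nat.div_eq_of_lt e.lt_succ_self] at h8
  exact (isAlgebraic_algHom_iff _ (ψ ^ _).toRingHom.injective).1 (alg_of_dg h8)

end Pool.Agent.Lib.GD
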