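import Pool.Agent.Lib.MP_9a2ae6_ag.KDefs

/-! Smooth projective models, multidegrees, dynamical degrees, cohomological hyperbolicity. -/

open Filter Topology

namespace Pool.Agent.Lib.GD

/-- The coordinate ring of the affine chart `y i ≠ 0`. -/
def chart {L ι : Type} [Field L] [Algebra ℂ L] (y : ι → L) (i : ι) : Subalgebra ℂ L :=
  Algebra.adjoin ℂ (Set.range fun j => y j / y i)

/-- `y` are homogeneous coordinates of a smooth projective variety with function field `L`. -/
def SmoothModel {L ι : Type} [Field L] [Algebra ℂ L] (y : ι → L) : Prop :=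
  ∀ i, y i ≠ 0 ∧ IsFractionRing (chart y i) L ∧ Algebra.Smooth ℂ (chart y i)

variable (k : Type) {L : Type} [Field k] [Field L] [Algebra k L]

/-- `d j` is the intersection number `U ^ (n - j) · V ^ j` of the moving parts of the linear
systems `U` and `V`: the leading form of the bigraded Hilbert polynomial
`(a, b) ↦ dim (U ^ a * V ^ b)` is `∑ d j * a ^ (n - j) * b ^ j / ((n - j)! * j!)`. -/
def MultiDeg (n : ℕ) (U V : Submodule k L) (d : ℕ → ℕ) : Prop :=
  ∀ a b : ℕ, 0 < a → 0 < b →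
    Tendsto (fun t : ℕ => (Module.finrank k ↥(U ^ (t * a) * V ^ (t * b)) : ℝ) / (t : ℝ) ^ n) atTop
      (𝓝 (∑ j ∈ Finset.range (n + 1),
        (d j : ℝ) * (a : ℝ) ^ (n - j) * (b : ℝ) ^ j / ((n - j).factorial * j.factorial)))

/-- `l j` is the `j`-th dynamical degree of the rational self-map with pull-back `φ`: the limit of
the `i`-th roots of the degrees `H ^ (n - j) · ((φ ^ i) H) ^ j`. -/
def DynDeg (n : ℕ) (H : Submodule k L) (φ : L →ₐ[k] L) (l : ℕ → ℝ) : Prop :=
  ∃ d : ℕ → ℕ → ℕ, (∀ i, MultiDeg k n H (H.map (φ ^ i).toLinearMap) (d i)) ∧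
    ∀ j ≤ n, Tendsto (fun i : ℕ => (d i j : ℝ) ^ ((i : ℝ)⁻¹)) atTop (𝓝 (l j))

/-- One dynamical degree is strictly larger than all the others. -/
def CohHyp (n : ℕ) (H : Submodule k L) (φ : L →ₐ[k] L) : Prop :=
  ∃ (l : ℕ → ℝ) (p : ℕ), DynDeg k n H φ l ∧ p ≤ n ∧ ∀ j ≤ n, j ≠ p → l j < l p

end Pool.Agent.Lib.GD
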